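import Mathlib

/-!
# Lefschetz pencils of hyperelliptic curves: definitions

Part 1 (abstract): a connection `∇ = D + G / Δ` on `R ^ ι` over a domain `R` with a derivation `D`,
a constant symplectic form `J` which it preserves, Lagrangian coordinates `fb : γ → ι`, and the
induced connection on `γ`-multilinear forms on `R ^ ι` (given by their coordinates
`(γ → ι) → R`).

Part 2 (explicit): the Gauss–Manin connection of `y² = f(x)` over a ring with a derivation, in the
coordinates `a_j`, the coefficients of `x ^ (2 - m) P / √f` in `u = 1 / x`.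
-/

set_option autoImplicit false

namespace MPadcLP

open Polynomial

/-- Derivations of a commutative ring. (Use `Der R` for concrete rings such as `k[X]` or
`PowerSeries F`, where `Derivation ℤ R R` may elaborate with another `ℤ`-algebra instance.) -/
abbrev Der (R : Type*) [CommRing R] : Type _ := Derivation ℤ R R

section Abstract

variable {γ ι : Type} [Fintype γ] [DecidableEq γ] [Fintype ι] [DecidableEq ι]

/-- The value at `w` of the `γ`-multilinear form on `E ^ ι` with coordinates `c`. -/
def ev {E : Type*} [CommRing E] (c : (γ → ι) → E) (w : γ → ι → E) : E :=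
  ∑ σ : γ → ι, c σ * ∏ j, w j (σ j)

/-- The derivation action of a matrix on multilinear forms:
`(act M c) (w) = ∑ j, c (…, M w_j, …)`. -/
def act {E : Type*} [CommRing E] (M : Matrix ι ι E) (c : (γ → ι) → E) : (γ → ι) → E :=
  fun σ => ∑ j, ∑ i, c (Function.update σ j i) * M i (σ j)

/-- The bilinear form with matrix `J`. -/
def BB {E : Type*} [CommRing E] (J : Matrix ι ι E) (u w : ι → E) : E :=
  u ⬝ᵥ J.mulVec w

/-- The matrix of `x ↦ B(h, x) h`. -/
def AA {E : Type*} [CommRing E] (J : Matrix ι ι E) (h : ι → E) : Matrix ι ι E :=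
  Matrix.vecMulVec h (Matrix.vecMul h J)

/-- The multilinear form `w ↦ det (B(e_{fb i}, w_j))`. -/
def l0 {E : Type*} [CommRing E] (J : Matrix ι ι E) (fb : γ → ι) : (γ → ι) → E :=
  fun σ => (Matrix.of fun i j => J (fb i) (σ j)).det

/-- `Δ ∇` on vectors, where `∇ = D + G / Δ`. -/
def nab {E : Type*} [CommRing E] (D : Derivation ℤ E E) (Δ : E) (G : Matrix ι ι E) (u : ι → E) :
    ι → E :=
  fun i => Δ * D (u i) + G.mulVec u i

/-- `Δ ∇` on multilinear forms. -/
def nabT {E : Type*} [CommRing E] (D : Derivation ℤ E E) (Δ : E) (G : Matrix ι ι E)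
    (c : (γ → ι) → E) : (γ → ι) → E :=
  fun σ => Δ * D (c σ) - act G c σ

/-- The data: a derivation, a denominator, a connection matrix, a symplectic form and Lagrangian
coordinates. -/
structure Dat (R : Type*) [CommRing R] (γ ι : Type) where
  D : Derivation ℤ R R
  Δ : R
  G : Matrix ι ι R
  J : Matrix ι ι R
  fb : γ → ι

variable {R : Type*} [CommRing R]

/-- The conditions on the data. -/
structure Dat.Ok (S : Dat R γ ι) : Prop where
  Δ_ne : S.Δ ≠ 0
  J_transpose : S.J.transpose = -S.J
  J_const : ∀ i j, S.D (S.J i j) = 0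
  J_det : IsUnit S.J.det
  flat : S.G.transpose * S.J + S.J * S.G = 0
  fb_inj : Function.Injective S.fb
  fb_iso : ∀ i j, S.J (S.fb i) (S.fb j) = 0
  card_eq : Fintype.card ι = 2 * Fintype.card γ

/-- The sequence `(Δ ∇)^n l`, where `l` is the multilinear form `det (B(e_{fb i}, w_j))`. -/
def Dat.gs (S : Dat R γ ι) (n : ℕ) : (γ → ι) → R :=
  (nabT S.D S.Δ S.G)^[n] (l0 S.J S.fb)

/-- The vector `h` over `E` is good: the endomorphism `x ↦ B(h, x) h` maps the span of the
`gs n` into itself (expressed by the linear equations of this span). -/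
def Dat.Good (S : Dat R γ ι) {E : Type*} [CommRing E] (φ : R →+* E) (h : ι → E) : Prop :=
  ∀ μ : (γ → ι) → R, (∀ n, μ ⬝ᵥ S.gs n = 0) → ∀ n,
    (fun σ => φ (μ σ)) ⬝ᵥ act (AA (S.J.map φ) h) (fun σ => φ (S.gs n σ)) = 0

end Abstract

section Explicit

/-- The index set of the coordinates: `0 ≤ j ≤ m - 2`, except the middle one for even `m`. -/
abbrev Idx (m : ℕ) : Type := {j : Fin (m - 1) // 2 * (j : ℕ) + 2 ≠ m}

/-- The constant symplectic form: `J j l = 2 / (l - j)` if `j + l = m - 2`, and `0` otherwise. -/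
noncomputable def JJ (K : Type*) [Field K] (m : ℕ) : Matrix (Idx m) (Idx m) K :=
  fun a b => if ((a : Fin (m - 1)) : ℕ) + ((b : Fin (m - 1)) : ℕ) + 2 = m then
    2 / ((((b : Fin (m - 1)) : ℕ) : K) - (((a : Fin (m - 1)) : ℕ) : K)) else 0

/-- The last `(m - 1) / 2` indices. -/
def fbI (m : ℕ) (i : Fin ((m - 1) / 2)) : Idx m :=
  ⟨⟨m - 1 - (m - 1) / 2 + i, by omega⟩, by
    have := i.2
    simp only
    omega⟩

variable {R : Type*} [CommRing R]

/-- The derivation of `R[X]` given by a derivation of the coefficients. -/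
noncomputable def dco (D : Derivation ℤ R R) : Derivation ℤ R[X] R[X] :=
  @Differential.mapCoeffs R _ ⟨D⟩

theorem coeff_dco (D : Derivation ℤ R R) (f : R[X]) (i : ℕ) :
    (dco D f).coeff i = D (f.coeff i) :=
  @Differential.coeff_mapCoeffs R _ ⟨D⟩ f i

/-- The expansion at infinity: for `deg P ≤ n`, this is `u ^ n P(1 / u)`. -/
noncomputable def hat (n : ℕ) (P : R[X]) : PowerSeries R := ((P.reflect n : R[X]) : PowerSeries R)

/-- The series `ψ = f^(- 1 / 2)` at infinity (`f` monic of degree `m`). -/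
structure IsPsi (m : ℕ) (f : R[X]) (ψ : PowerSeries R) : Prop where
  sq : ψ ^ 2 * hat m f = 1
  const : PowerSeries.constantCoeff ψ = 1

/-- The series with the given coordinates. -/
noncomputable def ser {m : ℕ} (a : Idx m → R) : PowerSeries R :=
  ∑ j : Idx m, PowerSeries.monomial ((j : Fin (m - 1)) : ℕ) (a j)

/-- The polynomial `P` of degree `≤ m - 2` with coordinates `a`: `hat (m - 2) P * ψ ≡ ser a`
modulo `u ^ (m - 1)`. -/
noncomputable def pol (m : ℕ) (f : R[X]) (ψ : PowerSeries R) (a : Idx m → R) : R[X] :=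
  ∑ i ∈ Finset.range (m - 1),
    Polynomial.monomial (m - 2 - i) (PowerSeries.coeff i (ser a * (ψ * hat m f)))

/-- `G / c` is the matrix of the Gauss–Manin connection of `y² = f(x)`: for every basis vector
`e_j`, with polynomial `P`, there is a polynomial `B` of degree `< m` with
`c P Df ≡ B f' mod f`, and the `l`-th coordinate of `c ∇ e_j` is
`- ((m - 2 - 2 l) / 2)` times the `l`-th coefficient of `hat (m - 1) B * ψ`. -/
def IsGM (D : Derivation ℤ R R) (c : R) (m : ℕ) (f : R[X]) (ψ : PowerSeries R)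
    (G : Matrix (Idx m) (Idx m) R) : Prop :=
  ∃ B : Idx m → R[X], ∀ j, (B j).natDegree < m ∧
    f ∣ C c * pol m f ψ (Pi.single j 1) * dco D f - B j * derivative f ∧
    ∀ l : Idx m, 2 * G l j =
      -((m : R) - 2 - 2 * (((l : Fin (m - 1)) : ℕ) : R)) *
        PowerSeries.coeff ((l : Fin (m - 1)) : ℕ) (hat (m - 1) (B j) * ψ)

end Explicit

end MPadcLP
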