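import Mathlib
import Pool.Agent.Lib.MP_adc574_ag_LP.Defs

/-! # Multilinear forms: actions and derivations -/

set_option autoImplicit false

namespace MPadcLP

variable {γ ι : Type} [Fintype γ] [DecidableEq γ] [Fintype ι] [DecidableEq ι]
variable {E : Type*} [CommRing E]

/-- the action on one slot -/
private def EvAct_T (j : γ) (M : Matrix ι ι E) (c : (γ → ι) → E) : (γ → ι) → E :=
  fun σ => ∑ i, c (Function.update σ j i) * M i (σ j)

private theorem EvAct_act_eq (M : Matrix ι ι E) (c : (γ → ι) → E) (σ : γ → ι) :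
    act M c σ = ∑ j, EvAct_T j M c σ := rfl

private theorem EvAct_T_comm {j k : γ} (h : j ≠ k) (A B : Matrix ι ι E) (c : (γ → ι) → E)
    (σ : γ → ι) : EvAct_T j A (EvAct_T k B c) σ = EvAct_T k B (EvAct_T j A c) σ := by
  unfold EvAct_T
  simp only [Finset.sum_mul]
  rw [Finset.sum_comm]
  refine Finset.sum_congr rfl fun i _ => Finset.sum_congr rfl fun l _ => ?_
  rw [Function.update_of_ne h.symm, Function.update_of_ne h, Function.update_comm h]
  ring

private theorem EvAct_T_same (j : γ) (A B : Matrix ι ι E) (c : (γ → ι) → E)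
    (σ : γ → ι) : EvAct_T j A (EvAct_T j B c) σ = EvAct_T j (B * A) c σ := by
  unfold EvAct_T
  simp only [Finset.sum_mul, Function.update_self, Function.update_idem]
  rw [Finset.sum_comm]
  refine Finset.sum_congr rfl fun i _ => ?_
  rw [Matrix.mul_apply, Finset.mul_sum]
  refine Finset.sum_congr rfl fun l _ => ?_
  ring

/-- exchange of a coordinate -/
private def EvAct_swap (j : γ) (x : (γ → ι) × ι) : (γ → ι) × ι :=
  (Function.update x.1 j x.2, x.1 j)

private theorem EvAct_swap_bij (j : γ) :
    Function.Bijective (EvAct_swap j : (γ → ι) × ι → (γ → ι) × ι) := by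
  apply Function.Involutive.bijective
  rintro ⟨σ, i⟩
  show (Function.update (Function.update σ j i) j (σ j), Function.update σ j i j) = (σ, i)
  rw [Function.update_idem, Function.update_eq_self, Function.update_self]

private theorem EvAct_leibniz (D : Derivation ℤ E E) (s : Finset γ) (f : γ → E) :
    D (∏ j ∈ s, f j) = ∑ j ∈ s, D (f j) * ∏ k ∈ s.erase j, f k := by
  induction s using Finset.induction_on with
  | empty => rw [Finset.prod_empty, Finset.sum_empty, Derivation.map_one_eq_zero]
  | insert a s ha ih =>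
    rw [Finset.prod_insert ha, Derivation.leibniz, ih, Finset.sum_insert ha,
      Finset.erase_insert ha, smul_eq_mul, smul_eq_mul, Finset.mul_sum, add_comm,
      mul_comm (∏ j ∈ s, f j)]
    congr 1
    refine Finset.sum_congr rfl fun j hj => ?_
    have hja : j ≠ a := fun h => ha (h ▸ hj)
    rw [Finset.erase_insert_of_ne hja.symm, Finset.prod_insert
      (fun h => ha (Finset.mem_of_mem_erase h))]
    ring

private theorem EvAct_prod_update (w : γ → ι → E) (j : γ) (u : ι → E) (σ : γ → ι) :
    ∏ k, Function.update w j u k (σ k) = u (σ j) * ∏ k ∈ Finset.univ.erase j, w k (σ k) := by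
  rw [← Finset.mul_prod_erase Finset.univ _ (Finset.mem_univ j), Function.update_self]
  congr 1
  refine Finset.prod_congr rfl fun k hk => ?_
  rw [Function.update_of_ne (Finset.ne_of_mem_erase hk)]

theorem ev_map {E' : Type*} [CommRing E'] (φ : E →+* E') (c : (γ → ι) → E) (w : γ → ι → E) :
    φ (ev c w) = ev (fun σ => φ (c σ)) (fun j i => φ (w j i)) := by
  unfold ev
  rw [map_sum]
  refine Finset.sum_congr rfl fun σ _ => ?_
  rw [map_mul, map_prod]

theorem act_map {E' : Type*} [CommRing E'] (φ : E →+* E') (M : Matrix ι ι E) (c : (γ → ι) → E) :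
    (fun σ => φ (act M c σ)) = act (M.map φ) (fun σ => φ (c σ)) := by
  funext σ
  unfold act
  rw [map_sum]
  refine Finset.sum_congr rfl fun j _ => ?_
  rw [map_sum]
  refine Finset.sum_congr rfl fun i _ => ?_
  rw [map_mul, Matrix.map_apply]

theorem AA_map {E' : Type*} [CommRing E'] (φ : E →+* E') (J : Matrix ι ι E) (h : ι → E) :
    (AA J h).map φ = AA (J.map φ) (fun i => φ (h i)) := by
  ext i j
  rw [Matrix.map_apply]
  unfold AA
  rw [Matrix.vecMulVec_apply, Matrix.vecMulVec_apply, map_mul]
  congr 1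
  show φ (∑ k, h k * J k j) = ∑ k, φ (h k) * φ (J k j)
  rw [map_sum]
  refine Finset.sum_congr rfl fun k _ => map_mul φ _ _

/-- `AA J h` is `x ↦ B(h, x) h`. -/
theorem AA_mulVec (J : Matrix ι ι E) (h x : ι → E) :
    (AA J h).mulVec x = BB J h x • h := by
  funext i
  show ∑ j, (AA J h) i j * x j = BB J h x * h i
  have h1 : ∀ j, (AA J h) i j * x j = h i * (Matrix.vecMul h J j * x j) := by
    intro j
    unfold AA
    rw [Matrix.vecMulVec_apply, mul_assoc]
  rw [Finset.sum_congr rfl fun j _ => h1 j, ← Finset.mul_sum, mul_comm]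
  congr 1
  unfold BB
  rw [Matrix.dotProduct_mulVec]
  rfl

theorem act_add (M : Matrix ι ι E) (c c' : (γ → ι) → E) : act M (c + c') = act M c + act M c' := by
  funext σ
  show ∑ j, ∑ i, (c + c') (Function.update σ j i) * M i (σ j) =
    (∑ j, ∑ i, c (Function.update σ j i) * M i (σ j)) +
      ∑ j, ∑ i, c' (Function.update σ j i) * M i (σ j)
  simp only [Pi.add_apply, add_mul, Finset.sum_add_distrib]

theorem act_smul (M : Matrix ι ι E) (a : E) (c : (γ → ι) → E) :
    act M (a • c) = a • act M c := by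
  funext σ
  show ∑ j, ∑ i, (a • c) (Function.update σ j i) * M i (σ j) =
    a * ∑ j, ∑ i, c (Function.update σ j i) * M i (σ j)
  simp only [Pi.smul_apply, smul_eq_mul, Finset.mul_sum, mul_assoc]

theorem act_add_left (M M' : Matrix ι ι E) (c : (γ → ι) → E) :
    act (M + M') c = act M c + act M' c := by
  funext σ
  show ∑ j, ∑ i, c (Function.update σ j i) * (M + M') i (σ j) =
    (∑ j, ∑ i, c (Function.update σ j i) * M i (σ j)) +
      ∑ j, ∑ i, c (Function.update σ j i) * M' i (σ j)
  simp only [Matrix.add_apply, mul_add, Finset.sum_add_distrib]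

theorem act_smul_left (a : E) (M : Matrix ι ι E) (c : (γ → ι) → E) :
    act (a • M) c = a • act M c := by
  funext σ
  show ∑ j, ∑ i, c (Function.update σ j i) * (a • M) i (σ j) =
    a * ∑ j, ∑ i, c (Function.update σ j i) * M i (σ j)
  simp only [Matrix.smul_apply, smul_eq_mul, Finset.mul_sum]
  refine Finset.sum_congr rfl fun j _ => Finset.sum_congr rfl fun i _ => ?_
  ring

/-- The commutator of two actions. -/
theorem act_comm (M M' : Matrix ι ι E) (c : (γ → ι) → E) :
    act M (act M' c) - act M' (act M c) = act (M' * M - M * M') c := by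
  funext σ
  show act M (act M' c) σ - act M' (act M c) σ = act (M' * M - M * M') c σ
  have h1 : ∀ (A B : Matrix ι ι E), act A (act B c) σ =
      ∑ j, ∑ k, EvAct_T j A (EvAct_T k B c) σ := by
    intro A B
    rw [EvAct_act_eq]
    refine Finset.sum_congr rfl fun j _ => ?_
    have h2 : act B c = ∑ k, EvAct_T k B c := by
      funext τ
      rw [Finset.sum_apply]
      exact EvAct_act_eq B c τ
    rw [h2]
    show ∑ i, (∑ k, EvAct_T k B c) (Function.update σ j i) * A i (σ j) =
      ∑ k, ∑ i, (EvAct_T k B c) (Function.update σ j i) * A i (σ j)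
    rw [Finset.sum_comm]
    refine Finset.sum_congr rfl fun i _ => ?_
    rw [Finset.sum_apply, Finset.sum_mul]
  rw [h1, h1, Finset.sum_comm (f := fun j k => EvAct_T j M' (EvAct_T k M c) σ),
    ← Finset.sum_sub_distrib, EvAct_act_eq]
  refine Finset.sum_congr rfl fun j _ => ?_
  rw [← Finset.sum_sub_distrib, Finset.sum_eq_single j]
  · rw [EvAct_T_same, EvAct_T_same]
    show EvAct_T j (M' * M) c σ - EvAct_T j (M * M') c σ = _
    unfold EvAct_T
    rw [← Finset.sum_sub_distrib]
    refine Finset.sum_congr rfl fun i _ => ?_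
    rw [Matrix.sub_apply, mul_sub]
  · intro k _ hk
    rw [EvAct_T_comm (Ne.symm hk), sub_self]
  · intro h
    exact absurd (Finset.mem_univ j) h

theorem ev_act (M : Matrix ι ι E) (c : (γ → ι) → E) (w : γ → ι → E) :
    ev (act M c) w = ∑ j, ev c (Function.update w j (M.mulVec (w j))) := by
  unfold ev
  have h0 : ∀ σ : γ → ι, act M c σ * ∏ k, w k (σ k) =
      ∑ j, ∑ i, c (Function.update σ j i) * M i (σ j) * ∏ k, w k (σ k) := by
    intro σ
    unfold act
    rw [Finset.sum_mul]
    exact Finset.sum_congr rfl fun j _ => Finset.sum_mul _ _ _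
  rw [Finset.sum_congr rfl fun σ _ => h0 σ, Finset.sum_comm]
  refine Finset.sum_congr rfl fun j _ => ?_
  have h1 : ∀ σ : γ → ι, c σ * ∏ k, Function.update w j (M.mulVec (w j)) k (σ k) =
      ∑ i, c σ * (M (σ j) i * w j i) * ∏ k ∈ Finset.univ.erase j, w k (σ k) := by
    intro σ
    rw [← Finset.mul_prod_erase Finset.univ _ (Finset.mem_univ j), Function.update_self]
    have h2 : ∏ k ∈ Finset.univ.erase j, Function.update w j (M.mulVec (w j)) k (σ k) =
        ∏ k ∈ Finset.univ.erase j, w k (σ k) := by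
      refine Finset.prod_congr rfl fun k hk => ?_
      rw [Function.update_of_ne (Finset.ne_of_mem_erase hk)]
    rw [h2]
    show c σ * ((∑ i, M (σ j) i * w j i) * _) = _
    rw [← mul_assoc, Finset.mul_sum, Finset.sum_mul]
  rw [Finset.sum_congr rfl fun σ _ => h1 σ, ← Fintype.sum_prod_type', ← Fintype.sum_prod_type']
  refine Fintype.sum_bijective (EvAct_swap j) (EvAct_swap_bij j) _ _ fun x => ?_
  obtain ⟨σ, i⟩ := x
  show c (Function.update σ j i) * M i (σ j) * ∏ k, w k (σ k) =
    c (Function.update σ j i) * (M (Function.update σ j i j) (σ j) * w j (σ j)) *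
      ∏ k ∈ Finset.univ.erase j, w k (Function.update σ j i k)
  rw [Function.update_self, ← Finset.mul_prod_erase Finset.univ (fun k => w k (σ k))
    (Finset.mem_univ j)]
  have h3 : ∏ k ∈ Finset.univ.erase j, w k (Function.update σ j i k) =
      ∏ k ∈ Finset.univ.erase j, w k (σ k) := by
    refine Finset.prod_congr rfl fun k hk => ?_
    rw [Function.update_of_ne (Finset.ne_of_mem_erase hk)]
  rw [h3]
  ring

theorem deriv_ev (D : Derivation ℤ E E) (c : (γ → ι) → E) (w : γ → ι → E) :
    D (ev c w) = ev (fun σ => D (c σ)) w +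
      ∑ j, ev c (Function.update w j (fun i => D (w j i))) := by
  unfold ev
  rw [map_sum]
  have h0 : ∀ σ : γ → ι, D (c σ * ∏ j, w j (σ j)) = D (c σ) * ∏ j, w j (σ j) +
      ∑ j, c σ * ∏ k, Function.update w j (fun i => D (w j i)) k (σ k) := by
    intro σ
    rw [Derivation.leibniz, EvAct_leibniz, smul_eq_mul, smul_eq_mul, add_comm,
      mul_comm (∏ j, w j (σ j)) (D (c σ)), Finset.mul_sum]
    congr 1
    refine Finset.sum_congr rfl fun j _ => ?_
    rw [← Finset.mul_prod_erase Finset.univ (fun k =>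
      Function.update w j (fun i => D (w j i)) k (σ k)) (Finset.mem_univ j),
      Function.update_self]
    congr 2
    refine Finset.prod_congr rfl fun k hk => ?_
    rw [Function.update_of_ne (Finset.ne_of_mem_erase hk)]
  rw [Finset.sum_congr rfl fun σ _ => h0 σ, Finset.sum_add_distrib, Finset.sum_comm]

theorem ev_nabT (D : Derivation ℤ E E) (Δ : E) (G : Matrix ι ι E) (c : (γ → ι) → E)
    (w : γ → ι → E) :
    Δ * D (ev c w) = ev (nabT D Δ G c) w +
      ∑ j, ev c (Function.update w j (nab D Δ G (w j))) := by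
  rw [deriv_ev]
  have h1 : ev (nabT D Δ G c) w = Δ * ev (fun σ => D (c σ)) w - ev (act G c) w := by
    unfold ev nabT
    rw [Finset.mul_sum, ← Finset.sum_sub_distrib]
    refine Finset.sum_congr rfl fun σ _ => ?_
    ring
  have h2 : ∀ j, ev c (Function.update w j (nab D Δ G (w j))) =
      Δ * ev c (Function.update w j (fun i => D (w j i))) +
        ev c (Function.update w j (G.mulVec (w j))) := by
    intro j
    unfold ev
    rw [Finset.mul_sum, ← Finset.sum_add_distrib]
    refine Finset.sum_congr rfl fun σ _ => ?_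
    rw [EvAct_prod_update, EvAct_prod_update, EvAct_prod_update]
    unfold nab
    ring
  rw [h1, ev_act, Finset.sum_congr rfl fun j _ => h2 j, Finset.sum_add_distrib, ← Finset.mul_sum]
  ring

/-- Multilinearity. -/
theorem ev_sum (c : (γ → ι) → E) (A : Matrix γ γ E) (w : γ → ι → E) :
    ev c (fun j => ∑ k, A j k • w k) = ∑ κ : γ → γ, (∏ j, A j (κ j)) * ev c (fun j => w (κ j)) := by
  unfold ev
  have h0 : ∀ σ : γ → ι, c σ * ∏ j, (∑ k, A j k • w k) (σ j) =
      ∑ κ : γ → γ, (∏ j, A j (κ j)) * (c σ * ∏ j, w (κ j) (σ j)) := by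
    intro σ
    have h1 : ∀ j, (∑ k, A j k • w k) (σ j) = ∑ k, A j k * w k (σ j) := by
      intro j
      rw [Finset.sum_apply]
      rfl
    rw [Finset.prod_congr rfl fun j _ => h1 j, Fintype.prod_sum, Finset.mul_sum]
    refine Finset.sum_congr rfl fun κ _ => ?_
    rw [Finset.prod_mul_distrib]
    ring
  rw [Finset.sum_congr rfl fun σ _ => h0 σ, Finset.sum_comm]
  refine Finset.sum_congr rfl fun κ _ => ?_
  rw [Finset.mul_sum]

theorem ev_l0 (J : Matrix ι ι E) (fb : γ → ι) (w : γ → ι → E) :
    ev (l0 J fb) w = (Matrix.of fun i j => (J.mulVec (w j)) (fb i)).det := by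
  unfold ev l0
  rw [Matrix.det_apply' (Matrix.of fun i j => (J.mulVec (w j)) (fb i))]
  have h0 : ∀ p : Equiv.Perm γ, (((Equiv.Perm.sign p : ℤˣ) : ℤ) : E) *
      (∏ j, (Matrix.of fun i j => (J.mulVec (w j)) (fb i)) (p j) j) =
      ∑ σ : γ → ι, (((Equiv.Perm.sign p : ℤˣ) : ℤ) : E) *
        ∏ j, (J (fb (p j)) (σ j) * w j (σ j)) := by
    intro p
    have h1 : ∀ j, (Matrix.of fun i j => (J.mulVec (w j)) (fb i)) (p j) j =
        ∑ k, J (fb (p j)) k * w j k := fun j => rfl
    rw [Finset.prod_congr rfl fun j _ => h1 j, Fintype.prod_sum, Finset.mul_sum]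
  have h2 : ∀ σ : γ → ι, (Matrix.of fun i j => J (fb i) (σ j)).det * ∏ j, w j (σ j) =
      ∑ p : Equiv.Perm γ, (((Equiv.Perm.sign p : ℤˣ) : ℤ) : E) *
        ∏ j, (J (fb (p j)) (σ j) * w j (σ j)) := by
    intro σ
    rw [Matrix.det_apply', Finset.sum_mul]
    refine Finset.sum_congr rfl fun p _ => ?_
    rw [Finset.prod_mul_distrib, mul_assoc]
    rfl
  refine (Finset.sum_congr rfl fun σ _ => h2 σ).trans ?_
  rw [Finset.sum_comm]
  exact (Finset.sum_congr rfl fun p _ => h0 p).symm

end MPadcLP
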