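import Mathlib

/-! # Primes of a finitely generated domain (with helper88's Chevalley lemmas) -/

set_option autoImplicit false

namespace MPadcLP

/-- Primes lift from a dense open set (Chevalley). -/
theorem exists_prime_lift {B A : Type*} [CommRing B] [IsDomain B] [IsNoetherianRing B]
    [CommRing A] [IsDomain A] (θ : B →+* A) (hθ : Function.Injective θ) (hft : θ.FiniteType)
    (c : A) (hc : c ≠ 0) :
    ∃ h : B, h ≠ 0 ∧ ∀ q : Ideal B, q.IsPrime → h ∉ q →
      ∃ Q : Ideal A, Q.IsPrime ∧ c ∉ Q ∧ Q.comap θ = q := by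
  classical
  let Ac := Localization.Away c
  let η : A →+* Ac := algebraMap A Ac
  have hηinj : Function.Injective η :=
    IsLocalization.injective Ac (powers_le_nonZeroDivisors_of_noZeroDivisors hc)
  have hdom : IsDomain Ac :=
    IsLocalization.isDomain_localization (powers_le_nonZeroDivisors_of_noZeroDivisors hc)
  have hη : η.FiniteType := by
    have h1 : Algebra.FinitePresentation A Ac := IsLocalization.Away.finitePresentation c
    exact RingHom.finiteType_algebraMap.2 inferInstance
  have hcomp : (η.comp θ).FiniteType := hη.comp hft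
  have hfp : (η.comp θ).FinitePresentation := RingHom.FinitePresentation.of_finiteType.1 hcomp
  obtain ⟨S, hS⟩ := PrimeSpectrum.exists_constructibleSetData_iff.2
    (PrimeSpectrum.isConstructible_range_comap hfp)
  have hbot : (⊥ : PrimeSpectrum B) ∈ S.toSet := by
    rw [hS]
    refine ⟨⊥, ?_⟩
    ext x
    simp only [PrimeSpectrum.comap_asIdeal, Ideal.mem_comap]
    change (η.comp θ) x ∈ (⊥ : Ideal Ac) ↔ x ∈ (⊥ : Ideal B)
    have h1 : Function.Injective (η.comp θ) := fun x y h => hθ (hηinj h)
    rw [Ideal.mem_bot, Ideal.mem_bot, map_eq_zero_iff _ h1]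
  rw [PrimeSpectrum.ConstructibleSetData.toSet, Set.mem_iUnion₂] at hbot
  obtain ⟨C, hC, hbotC⟩ := hbot
  have hf : C.f ≠ 0 := by
    intro h
    apply hbotC.2
    rw [PrimeSpectrum.mem_zeroLocus, Set.singleton_subset_iff, h]
    exact Ideal.zero_mem _
  have hg : ∀ i, C.g i = 0 := by
    intro i
    have h1 := hbotC.1
    rw [PrimeSpectrum.mem_zeroLocus] at h1
    have h2 := h1 ⟨i, rfl⟩
    exact (Ideal.mem_bot).1 h2
  refine ⟨C.f, hf, ?_⟩
  intro q hq hfq
  have hmem : (⟨q, hq⟩ : PrimeSpectrum B) ∈ S.toSet := by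
    rw [PrimeSpectrum.ConstructibleSetData.toSet, Set.mem_iUnion₂]
    refine ⟨C, hC, ?_, ?_⟩
    · rw [PrimeSpectrum.mem_zeroLocus]
      rintro _ ⟨i, rfl⟩
      rw [hg i]
      exact Ideal.zero_mem _
    · rw [PrimeSpectrum.mem_zeroLocus, Set.singleton_subset_iff]
      exact hfq
  rw [hS] at hmem
  obtain ⟨P, hP⟩ := hmem
  refine ⟨P.asIdeal.comap η, inferInstance, ?_, ?_⟩
  · rw [Ideal.mem_comap]
    intro h
    apply P.isPrime.ne_top
    apply Ideal.eq_top_of_isUnit_mem _ h
    exact IsLocalization.Away.algebraMap_isUnit c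
  · rw [Ideal.comap_comap]
    exact congrArg PrimeSpectrum.asIdeal hP

/-- Reduction modulo large primes of a finitely generated domain of characteristic zero. -/
theorem exists_bound {B : Type*} [CommRing B] [IsDomain B] [CharZero B] [Algebra.FiniteType ℤ B]
    (d : B) (hd : d ≠ 0) : ∃ N : ℕ, ∀ p : ℕ, p.Prime → N < p →
      ∃ P : Ideal B, P.IsPrime ∧ d ∉ P ∧ (p : B) ∈ P := by
  have hinj : Function.Injective (algebraMap ℤ B) := by
    have : FaithfulSMul ℤ B := inferInstance
    exact FaithfulSMul.algebraMap_injective ℤ B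
  obtain ⟨h, hh, hlift⟩ := exists_prime_lift (algebraMap ℤ B) hinj
    (RingHom.finiteType_algebraMap.2 inferInstance) d hd
  refine ⟨h.natAbs, ?_⟩
  intro p hp hN
  obtain ⟨Q, hQ, hdQ, hc⟩ := hlift (Ideal.span {(p : ℤ)})
    ((Ideal.span_singleton_prime (by exact_mod_cast hp.ne_zero)).2 (Nat.prime_iff_prime_int.1 hp))
    (by
      rw [Ideal.mem_span_singleton]
      intro hdvd
      have h1 := Int.natAbs_dvd_natAbs.2 hdvd
      rw [Int.natAbs_natCast] at h1
      have := Nat.le_of_dvd (Int.natAbs_pos.2 hh) h1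
      omega)
  refine ⟨Q, hQ, hdQ, ?_⟩
  have h1 : (p : ℤ) ∈ Q.comap (algebraMap ℤ B) := by
    rw [hc]
    exact Ideal.mem_span_singleton_self _
  rw [Ideal.mem_comap] at h1
  simpa using h1

private theorem Primes_jac : IsJacobsonRing ℤ := by
  rw [isJacobsonRing_iff_prime_eq]
  intro P hP
  by_cases h : P = ⊥
  · subst h
    rw [eq_bot_iff]
    intro x hx
    rw [Ideal.mem_bot]
    by_contra hx0
    obtain ⟨p, hpx, hp⟩ := Nat.exists_infinite_primes (x.natAbs + 1)
    have hmax : (Ideal.span {(p : ℤ)}).IsMaximal := by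
      apply PrincipalIdealRing.isMaximal_of_irreducible
      exact (Nat.prime_iff_prime_int.1 hp).irreducible
    rw [Ideal.jacobson, Ideal.mem_sInf] at hx
    have h1 := hx ⟨bot_le, hmax⟩
    rw [Ideal.mem_span_singleton] at h1
    have h2 := Nat.le_of_dvd (Int.natAbs_pos.2 hx0) (Int.natCast_dvd.1 h1)
    omega
  · have hmax : P.IsMaximal := hP.isMaximal h
    exact Ideal.jacobson_eq_self_of_isMaximal

private theorem Primes_countable (A : Type*) [CommRing A] [Algebra.FiniteType ℤ A] :
    Countable A := by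
  obtain ⟨n, f, hf⟩ := Algebra.FiniteType.iff_quotient_mvPolynomial''.1
    (inferInstance : Algebra.FiniteType ℤ A)
  have h1 : Countable (MvPolynomial (Fin n) ℤ) := by
    rw [← Cardinal.mk_le_aleph0_iff]
    refine MvPolynomial.cardinalMk_le_max.trans ?_
    simp
  exact hf.countable

/-- A family of primes, one over each large prime number, such that every nonzero element lies
in only finitely many of them.

Proof: `A` is countable (finitely generated over `ℤ`). Let `d_0, d_1, …` be an enumeration of the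
nonzero elements, and let `N k` be the bound of `exists_bound` for the product `d_0 ⋯ d_k`; one may
take `N` increasing. For a prime `p > N 0` let `k(p)` be the largest `k ≤ p` with
`N k < p`, and `P p` the prime of `exists_bound` for `d_0 ⋯ d_{k(p)}` and `p`. If `p > N k` and
`p ≥ k` then `k(p) ≥ k`, so `d_k ∉ P p`. -/
theorem exists_primes_family (A : Type*) [CommRing A] [IsDomain A] [CharZero A]
    [Algebra.FiniteType ℤ A] :
    ∃ (N : ℕ) (P : ℕ → Ideal A), (∀ p : ℕ, p.Prime → N < p → (P p).IsPrime ∧ (p : A) ∈ P p) ∧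
      ∀ a : A, a ≠ 0 → {p : ℕ | p.Prime ∧ N < p ∧ a ∈ P p}.Finite := by
  classical
  have hcount : Countable A := Primes_countable A
  obtain ⟨f, hf⟩ := exists_surjective_nat A
  let d : ℕ → A := fun k => if f k = 0 then 1 else f k
  have hd : ∀ k, d k ≠ 0 := by
    intro k
    by_cases h : f k = 0
    · simp only [d, if_pos h]
      exact one_ne_zero
    · simp only [d, if_neg h]
      exact h
  let Dk : ℕ → A := fun k => ∏ i ∈ Finset.range (k + 1), d i
  have hDk : ∀ k, Dk k ≠ 0 := fun k => Finset.prod_ne_zero_iff.2 fun i _ => hd i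
  choose N0 hN0 using fun k => exists_bound (Dk k) (hDk k)
  let M : ℕ → ℕ := fun k => k + ∑ i ∈ Finset.range (k + 1), N0 i
  have hM1 : ∀ k, N0 k ≤ M k := by
    intro k
    have h1 : N0 k ≤ ∑ i ∈ Finset.range (k + 1), N0 i :=
      Finset.single_le_sum (f := N0) (fun _ _ => Nat.zero_le _) (Finset.self_mem_range_succ k)
    exact h1.trans (Nat.le_add_left _ _)
  have hM2 : ∀ k, k ≤ M k := fun k => Nat.le_add_right _ _
  let kp : ℕ → ℕ := fun p => Nat.findGreatest (fun k => M k < p) p
  have hkp : ∀ p, M 0 < p → M (kp p) < p := by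
    intro p hp
    exact Nat.findGreatest_spec (P := fun k => M k < p) (Nat.zero_le p) hp
  have hex : ∀ p : ℕ, ∃ P : Ideal A, p.Prime → M 0 < p →
      (P.IsPrime ∧ Dk (kp p) ∉ P ∧ (p : A) ∈ P) := by
    intro p
    by_cases h : p.Prime ∧ M 0 < p
    · obtain ⟨P, hP⟩ := hN0 (kp p) p h.1 ((hM1 _).trans_lt (hkp p h.2))
      exact ⟨P, fun _ _ => hP⟩
    · exact ⟨⊥, fun h1 h2 => absurd ⟨h1, h2⟩ h⟩
  choose P hP using hex
  refine ⟨M 0, P, fun p hp hN => ⟨(hP p hp hN).1, (hP p hp hN).2.2⟩, fun a ha => ?_⟩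
  obtain ⟨k, hk⟩ := hf a
  have hdk : d k = a := by
    simp only [d, hk, if_neg ha]
  refine (Set.finite_Iic (M k)).subset ?_
  rintro p ⟨hp, hN, haP⟩
  rw [Set.mem_Iic]
  by_contra hlt
  push Not at hlt
  have h1 : k ≤ kp p := Nat.le_findGreatest ((hM2 k).trans hlt.le) hlt
  apply (hP p hp hN).2.1
  have h2 : d k ∣ Dk (kp p) := Finset.dvd_prod_of_mem d (Finset.mem_range.2 (by omega))
  rw [hdk] at h2
  exact Ideal.mem_of_dvd _ h2 haP

/-- Maximal ideals of a finitely generated `ℤ`-algebra contract to maximal ideals.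
Proof: `B / M` is a finite `ℤ`-module (`finite_of_finite_type_of_isJacobsonRing`), so it is integral
over the subring `A / comap M`, which is therefore a field. -/
theorem isMaximal_comap_int {A B : Type*} [CommRing A] [CommRing B] [Algebra.FiniteType ℤ B]
    (φ : A →+* B) (M : Ideal B) [hM : M.IsMaximal] : (M.comap φ).IsMaximal := by
  let _ := Ideal.Quotient.field M
  have h1 : Algebra.FiniteType ℤ (B ⧸ M) :=
    Algebra.FiniteType.of_surjective (Ideal.Quotient.mkₐ ℤ M) (Ideal.Quotient.mkₐ_surjective ℤ M)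
  have hj := Primes_jac
  have h2 : Module.Finite ℤ (B ⧸ M) := finite_of_finite_type_of_isJacobsonRing ℤ (B ⧸ M)
  have h3 : Algebra.IsIntegral ℤ (B ⧸ M) := inferInstance
  let ψ : A ⧸ M.comap φ →+* B ⧸ M := Ideal.quotientMap M φ le_rfl
  have hψ : Function.Injective ψ := Ideal.quotientMap_injective
  let _ := ψ.toAlgebra
  have h4 : Algebra.IsIntegral (A ⧸ M.comap φ) (B ⧸ M) := Algebra.IsIntegral.tower_top ℤ
  have h5 : IsField (A ⧸ M.comap φ) := isField_of_isIntegral_of_isField hψ (Field.toIsField _)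
  exact Ideal.Quotient.maximal_of_isField _ h5

/-- The derivation of the fraction field (quotient rule). -/
theorem exists_derivation_fraction {R K : Type*} [CommRing R] [IsDomain R] [Field K]
    [Algebra R K] [IsFractionRing R K] (D : Derivation ℤ R R) :
    ∃ D' : Derivation ℤ K K, ∀ x, D' (algebraMap R K x) = algebraMap R K (D x) := by
  obtain ⟨f0, g1, g2⟩ : ∃ f0 : R → DualNumber K, (∀ r, (f0 r).fst = algebraMap R K r) ∧
      ∀ r, (f0 r).snd = algebraMap R K (D r) := by
    refine ⟨fun r => TrivSqZeroExt.inl (algebraMap R K r) + TrivSqZeroExt.inr (algebraMap R K (D r)),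
      fun r => ?_, fun r => ?_⟩
    · rw [TrivSqZeroExt.fst_add, TrivSqZeroExt.fst_inl, TrivSqZeroExt.fst_inr, add_zero]
    · rw [TrivSqZeroExt.snd_add, TrivSqZeroExt.snd_inl, TrivSqZeroExt.snd_inr, zero_add]
  let f : R →+* DualNumber K :=
    { toFun := f0
      map_one' := by
        apply TrivSqZeroExt.ext
        · rw [g1, map_one, TrivSqZeroExt.fst_one]
        · rw [g2, D.map_one_eq_zero, map_zero, TrivSqZeroExt.snd_one]
      map_zero' := by
        apply TrivSqZeroExt.ext
        · rw [g1, map_zero, TrivSqZeroExt.fst_zero]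
        · rw [g2, map_zero, map_zero, TrivSqZeroExt.snd_zero]
      map_add' := fun a b => by
        apply TrivSqZeroExt.ext
        · rw [TrivSqZeroExt.fst_add, g1, g1, g1, map_add]
        · rw [TrivSqZeroExt.snd_add, g2, g2, g2, map_add, map_add]
      map_mul' := fun a b => by
        apply TrivSqZeroExt.ext
        · rw [TrivSqZeroExt.fst_mul, g1, g1, g1, map_mul]
        · rw [DualNumber.snd_mul, g1, g1, g2, g2, g2, D.leibniz, map_add, smul_eq_mul, smul_eq_mul,
            map_mul, map_mul, mul_comm (algebraMap R K b)] }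
  have hfst : ∀ r, (f r).fst = algebraMap R K r := g1
  have hsnd : ∀ r, (f r).snd = algebraMap R K (D r) := g2
  have hf : ∀ r : nonZeroDivisors R, IsUnit (f r) := by
    intro r
    rw [TrivSqZeroExt.isUnit_iff_isUnit_fst, hfst]
    exact IsLocalization.map_units K r
  let F : K →+* DualNumber K := IsLocalization.lift (M := nonZeroDivisors R) hf
  have hF : ∀ r, F (algebraMap R K r) = f r := fun r => IsLocalization.lift_eq hf r
  have hid : ∀ x, (F x).fst = x := by
    intro x
    have h1 : ((TrivSqZeroExt.fstHom ℤ K K).toRingHom).comp F = RingHom.id K := by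
      apply IsLocalization.ringHom_ext (nonZeroDivisors R)
      ext r
      show (F (algebraMap R K r)).fst = algebraMap R K r
      rw [hF, hfst]
    exact RingHom.congr_fun h1 x
  let L : K →+ K :=
    { toFun := fun x => (F x).snd
      map_zero' := by rw [map_zero]; rfl
      map_add' := fun x y => by rw [map_add]; rfl }
  refine ⟨Derivation.mk' L.toIntLinearMap ?_, ?_⟩
  · intro x y
    show (F (x * y)).snd = x • (F y).snd + y • (F x).snd
    rw [map_mul, DualNumber.snd_mul, hid, hid, smul_eq_mul, smul_eq_mul, mul_comm (F x).snd]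
  · intro r
    show (F (algebraMap R K r)).snd = _
    rw [hF, hsnd]

end MPadcLP
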