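import Mathlib

/-! # Places of the affine line -/

set_option autoImplicit false

namespace MPadcLP

open Polynomial

variable {k F : Type*} [Field k] [Field F] [Algebra k F]

/-- The completion at the point `t = a`: `k[t] → F⟦s⟧`, `t ↦ a + s`. -/
noncomputable def pl (k : Type*) {F : Type*} [Field k] [Field F] [Algebra k F] (a : F) :
    k[X] →+* PowerSeries F :=
  Polynomial.eval₂RingHom ((PowerSeries.C).comp (algebraMap k F)) (PowerSeries.C a + PowerSeries.X)

private theorem pl_eq (a : F) (q : k[X]) :
    pl k a q = (((q.map (algebraMap k F)).comp (X + C a) : F[X]) : PowerSeries F) := by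
  have h : pl k a = ((Polynomial.coeToPowerSeries.ringHom (R := F)).comp
      (Polynomial.compRingHom (X + C a))).comp (Polynomial.mapRingHom (algebraMap k F)) := by
    apply Polynomial.ringHom_ext
    · intro x
      simp [pl]
    · simp [pl, add_comm]
  rw [h]
  rfl

theorem pl_injective (a : F) : Function.Injective (pl k a) := by
  rw [injective_iff_map_eq_zero]
  intro q hq
  rw [pl_eq] at hq
  have h1 : (q.map (algebraMap k F)).comp (X + C a) = 0 := by
    apply Polynomial.coe_injective F
    rw [hq, Polynomial.coe_zero]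
  have h2 : q.map (algebraMap k F) = 0 := by
    have h3 := congrArg (fun p : F[X] => p.comp (X - C a)) h1
    simpa [Polynomial.comp_assoc] using h3
  exact (Polynomial.map_eq_zero (algebraMap k F)).mp h2

theorem pl_derivative (a : F) (q : k[X]) :
    PowerSeries.derivative F (pl k a q) = pl k a (derivative q) := by
  rw [pl_eq, pl_eq, PowerSeries.derivative_coe, Polynomial.derivative_comp,
    Polynomial.derivative_map]
  simp

theorem constantCoeff_pl (a : F) (q : k[X]) :
    PowerSeries.constantCoeff (pl k a q) = aeval a q := by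
  rw [pl_eq, ← PowerSeries.coeff_zero_eq_constantCoeff_apply, Polynomial.coeff_coe,
    Polynomial.coeff_zero_eq_eval_zero, Polynomial.eval_comp, Polynomial.aeval_def,
    Polynomial.eval_map]
  simp

/-- Divisibility can be checked at all places.
Proof: pass to `F[t]` (`Polynomial.map_dvd_map`), where `Δ = c ∏ (t - a)^(m_a)`; `pl a Δ` is
`s ^ (m_a)` times a unit, so `s ^ (m_a)` divides `pl a q`, hence `(t - a)^(m_a)` divides `q`. -/
theorem dvd_of_forall_pl [IsAlgClosed F] (D q : k[X]) (hD : D ≠ 0)
    (h : ∀ a : F, pl k a D ∣ pl k a q) : D ∣ q := by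
  classical
  rw [← Polynomial.map_dvd_map' (algebraMap k F)]
  have hD' : D.map (algebraMap k F) ≠ 0 := (Polynomial.map_ne_zero_iff (algebraMap k F).injective).mpr hD
  by_cases hq0 : q.map (algebraMap k F) = 0
  · rw [hq0]
    exact dvd_zero _
  rw [IsAlgClosed.dvd_iff_roots_le_roots hD' hq0, Multiset.le_iff_count]
  intro a
  rw [Polynomial.count_roots, Polynomial.count_roots, Polynomial.le_rootMultiplicity_iff hq0]
  set n := rootMultiplicity a (D.map (algebraMap k F)) with hn
  have h1 : (X - C a) ^ n ∣ D.map (algebraMap k F) := Polynomial.pow_rootMultiplicity_dvd _ _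
  have h2 : (X : F[X]) ^ n ∣ (D.map (algebraMap k F)).comp (X + C a) := by
    obtain ⟨r, hr⟩ := h1
    rw [hr]
    refine ⟨r.comp (X + C a), ?_⟩
    simp
  have h3 : (PowerSeries.X : PowerSeries F) ^ n ∣ pl k a q := by
    refine dvd_trans ?_ (h a)
    obtain ⟨r, hr⟩ := h2
    refine ⟨(r : PowerSeries F), ?_⟩
    rw [pl_eq, hr]
    simp
  have h4 : (X : F[X]) ^ n ∣ (q.map (algebraMap k F)).comp (X + C a) := by
    rw [Polynomial.X_pow_dvd_iff]
    intro m hm
    rw [pl_eq, PowerSeries.X_pow_dvd_iff] at h3
    have h5 := h3 m hm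
    rwa [Polynomial.coeff_coe] at h5
  obtain ⟨r, hr⟩ := h4
  refine ⟨r.comp (X - C a), ?_⟩
  have h6 := congrArg (fun p : F[X] => p.comp (X - C a)) hr
  simpa [Polynomial.comp_assoc] using h6

end MPadcLP
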