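import Mathlib

/-! # A polynomial in `Θ' + N` which approximates `N` -/

set_option autoImplicit false

namespace MPadcLP

open Polynomial

private theorem interp_coprime (F : Type*) [Field F] [CharZero F] (M : ℕ) :
    IsCoprime (∏ k ∈ Finset.range M, (X - C (k : F))) (X - C (M : F)) := by
  refine IsCoprime.prod_left fun k hk => ?_
  have hne : k ≠ M := (Finset.mem_range.1 hk).ne
  exact pairwise_coprime_X_sub_C (s := fun k : ℕ => (k : F)) Nat.cast_injective hne

/-- the divisibility form of the interpolation -/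
private theorem interp_crt (F : Type*) [Field F] [CharZero F] (r M : ℕ) :
    ∃ q : F[X], ∀ k < M, (X - C (k : F)) ^ r ∣ q - (X - C (k : F)) := by
  induction M with
  | zero => exact ⟨0, fun k hk => absurd hk (Nat.not_lt_zero k)⟩
  | succ M ih =>
    obtain ⟨q, hq⟩ := ih
    obtain ⟨a, b, hab⟩ := (interp_coprime F M).pow (m := r) (n := r)
    refine ⟨q * (b * (X - C (M : F)) ^ r) +
      (X - C (M : F)) * (a * (∏ k ∈ Finset.range M, (X - C (k : F))) ^ r), fun k hk => ?_⟩
    rcases Nat.lt_succ_iff_lt_or_eq.1 hk with h | h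
    · have h1 : (X - C (k : F)) ^ r ∣ (∏ k ∈ Finset.range M, (X - C (k : F))) ^ r :=
        pow_dvd_pow_of_dvd (Finset.dvd_prod_of_mem _ (Finset.mem_range.2 h)) r
      have h2 : q * (b * (X - C (M : F)) ^ r) +
          (X - C (M : F)) * (a * (∏ k ∈ Finset.range M, (X - C (k : F))) ^ r) -
          (X - C (k : F)) = (q - (X - C (k : F))) +
          ((X - C (M : F)) - q) * a * (∏ k ∈ Finset.range M, (X - C (k : F))) ^ r := by
        linear_combination q * hab
      rw [h2]
      exact dvd_add (hq k h) (dvd_mul_of_dvd_right h1 _)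
    · rw [h]
      have h2 : q * (b * (X - C (M : F)) ^ r) +
          (X - C (M : F)) * (a * (∏ k ∈ Finset.range M, (X - C (k : F))) ^ r) -
          (X - C (M : F)) = (X - C (M : F)) ^ r * (b * (q - (X - C (M : F)))) := by
        linear_combination (X - C (M : F)) * hab
      rw [h2]
      exact dvd_mul_right _ _

/-- Hermite interpolation: there is a polynomial `q` with `q (k + Y) = Y mod Y ^ r` for all
`k < M`. (Chinese remainder theorem for the pairwise coprime `(X - k) ^ r`.) Expressed by the
Hasse derivatives: the `j`-th Hasse derivative of `q` at `k` is `1` if `j = 1` and `0` if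
`j ≠ 1`, `j < r`. -/
theorem exists_hermite {F : Type*} [Field F] [CharZero F] (r M : ℕ) :
    ∃ q : F[X], ∀ k < M, ∀ j < r,
      (hasseDeriv j q).eval (k : F) = if j = 1 then 1 else 0 := by
  obtain ⟨q, hq⟩ := interp_crt F r M
  refine ⟨q, fun k hk j hj => ?_⟩
  obtain ⟨g, hg⟩ := hq k hk
  have h1 : q = (X - C (k : F)) + (X - C (k : F)) ^ r * g := by
    linear_combination hg
  have hX : taylor (k : F) (X - C (k : F)) = X := by
    rw [map_sub, taylor_X, taylor_C]
    ring
  have h2 : taylor (k : F) q = X + X ^ r * taylor (k : F) g := by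
    rw [h1, map_add, taylor_mul, taylor_pow, hX]
  rw [← taylor_coeff, h2, coeff_add, coeff_X_pow_mul', if_neg (not_le.2 hj), add_zero, coeff_X]
  by_cases h : j = 1
  · rw [if_pos h, if_pos h.symm]
  · rw [if_neg h, if_neg (fun h' => h h'.symm)]

/-- `∏ (T - k)` maps everything to `Fil M` -/
private theorem interp_prod {F : Type*} [Field F] {V : Type*} [AddCommGroup V]
    [Module F V] (T : Module.End F V) (Fil : ℕ → Submodule F V) (h0 : Fil 0 = ⊤)
    (hT : ∀ k, ∀ v ∈ Fil k, T v - (k : F) • v ∈ Fil (k + 1)) (M : ℕ) (v : V) :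
    (aeval T (∏ k ∈ Finset.range M, (X - C (k : F)))) v ∈ Fil M := by
  induction M with
  | zero =>
    rw [h0]
    exact Submodule.mem_top
  | succ M ih =>
    have h1 := hT M _ ih
    rw [Finset.prod_range_succ, mul_comm, map_mul, map_sub, aeval_X, aeval_C]
    exact h1

/-- an element in the image of all the `T - k` is in the image of the product -/
private theorem interp_range {F : Type*} [Field F] [CharZero F] {V : Type*} [AddCommGroup V]
    [Module F V] (T : Module.End F V) (M : ℕ) (y : V)
    (hy : ∀ k < M, ∃ b : V, y = (aeval T (X - C (k : F))) b) :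
    ∃ b : V, y = (aeval T (∏ k ∈ Finset.range M, (X - C (k : F)))) b := by
  induction M with
  | zero =>
    refine ⟨y, ?_⟩
    rw [Finset.prod_range_zero, map_one]
    rfl
  | succ M ih =>
    obtain ⟨b, hb⟩ := ih fun k hk => hy k (Nat.lt_succ_of_lt hk)
    obtain ⟨c, hc⟩ := hy M (Nat.lt_succ_self M)
    obtain ⟨u, v, huv⟩ := interp_coprime F M
    obtain ⟨P, hP⟩ : ∃ P : F[X], P = ∏ k ∈ Finset.range M, (X - C (k : F)) := ⟨_, rfl⟩
    obtain ⟨Q, hQ⟩ : ∃ Q : F[X], Q = X - C (M : F) := ⟨_, rfl⟩
    rw [← hP] at hb huv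
    rw [← hQ] at hc huv
    rw [Finset.prod_range_succ, ← hP, ← hQ]
    refine ⟨(aeval T u) c + (aeval T v) b, ?_⟩
    have h1 : y = (aeval T (u * P + v * Q)) y := by
      rw [huv, map_one]
      rfl
    have h2 : (aeval T (u * P)) y = (aeval T (P * Q)) ((aeval T u) c) := by
      rw [hc, ← Module.End.mul_apply, ← Module.End.mul_apply, ← map_mul, ← map_mul]
      congr 2
      ring
    have h3 : (aeval T (v * Q)) y = (aeval T (P * Q)) ((aeval T v) b) := by
      rw [hb, ← Module.End.mul_apply, ← Module.End.mul_apply, ← map_mul, ← map_mul]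
      congr 2
      ring
    rw [map_add, ← h2, ← h3, ← LinearMap.add_apply, ← map_add]
    exact h1

/-- Let `Θ'` and `N` be commuting endomorphisms, `N ^ r = 0`, and let `Fil` be a decreasing
filtration such that `Θ' - k` maps `Fil k` to `Fil (k + 1)`. Then for every `M` some polynomial in
`Θ' + N` agrees with `N` up to `Fil M`.

Proof: take `q` from `exists_hermite` (with `r ≥ 2`, otherwise increase `r`) and
`ω = ∏_{k < M} (X - k)`. By Taylor's formula `q (Θ' + N) = ∑_{j < r} (q^[j]) (Θ') N ^ j`, where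
`q^[j] = hasseDeriv j q`, and `ω ∣ q^[j]` for `j ≠ 1`, `ω ∣ q^[1] - 1`. Finally `ω (Θ')` maps
everything to `Fil M`. -/
theorem exists_aeval_sub_mem {F : Type*} [Field F] [CharZero F] {V : Type*} [AddCommGroup V]
    [Module F V] (T N : Module.End F V) (hcomm : Commute T N) (r : ℕ) (hN : N ^ r = 0)
    (Fil : ℕ → Submodule F V) (h0 : Fil 0 = ⊤)
    (hT : ∀ k, ∀ v ∈ Fil k, T v - (k : F) • v ∈ Fil (k + 1)) (M : ℕ) :
    ∃ q : F[X], ∀ v, (aeval (T + N) q) v - N v ∈ Fil M := by
  obtain ⟨q, hq⟩ := interp_crt F r M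
  refine ⟨q, fun v => ?_⟩
  have hr : ∀ k < M, ∃ b : V, (aeval (T + N) q) v - N v = (aeval T (X - C (k : F))) b := by
    intro k hk
    obtain ⟨g, hg⟩ := hq k hk
    have h1 : q = (X - C (k : F)) + (X - C (k : F)) ^ r * g := by
      linear_combination hg
    obtain ⟨c, hc⟩ : ∃ c : Module.End F V, c = algebraMap F (Module.End F V) (k : F) := ⟨_, rfl⟩
    have hcN : Commute c N := by
      rw [hc]
      exact Algebra.commutes _ _
    have hcom : Commute (T + N - c) N :=
      (hcomm.add_left (Commute.refl N)).sub_left hcN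
    obtain ⟨d, hd⟩ := hcom.sub_dvd_pow_sub_pow r
    rw [hN, sub_zero] at hd
    have h2 : T + N - c - N = T - c := by abel
    rw [h2] at hd
    have h3 : aeval (T + N) q = (T + N - c) + (T - c) * d * aeval (T + N) g := by
      rw [h1, map_add, map_mul, map_pow, map_sub, aeval_X, aeval_C, ← hc, hd]
    have h4 : aeval T (X - C (k : F)) = T - c := by
      rw [map_sub, aeval_X, aeval_C, ← hc]
    refine ⟨v + (d * aeval (T + N) g) v, ?_⟩
    rw [h4, h3, map_add, mul_assoc, LinearMap.add_apply, Module.End.mul_apply]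
    have h5 : (T + N - c) v = (T - c) v + N v := by
      rw [← h2, LinearMap.sub_apply (T + N - c) N v, sub_add_cancel]
    rw [h5]
    abel
  obtain ⟨b, hb⟩ := interp_range T M _ hr
  rw [hb]
  exact interp_prod T Fil h0 hT M b

end MPadcLP
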