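import Mathlib
import Pool.Agent.Lib.MP_adc574_ag_LP.Defs

/-! # The residue at a mild singular point -/

set_option autoImplicit false

namespace MPadcLP

variable {ι : Type} [Fintype ι] [DecidableEq ι]

/-- An infinitesimally symplectic matrix of rank at most one is `x ↦ c B(e, x) e`.

Proof: write `e = d ᵥ* J`, so `J *ᵥ d = - e`. The flatness says `l i * e j = e i * l j`. If
`d = 0` take `c = 0`. Otherwise `e ≠ 0` (`J` is invertible), so `l = c e`. -/
theorem residue_form {F : Type*} [Field F] [CharZero F] (J N : Matrix ι ι F)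
    (hJT : J.transpose = -J) (hJd : J.det ≠ 0) (hflat : N.transpose * J + J * N = 0)
    (d l : ι → F) (hN : N = Matrix.vecMulVec d l) :
    ∃ c : F, N = c • AA J d := by
  have hJd' : J.mulVec d = -(Matrix.vecMul d J) := by
    have h1 : J.mulVec d = (-J.transpose).mulVec d := by rw [hJT, neg_neg]
    rw [h1, Matrix.neg_mulVec, Matrix.mulVec_transpose]
  have hfl : ∀ i j, l i * Matrix.vecMul d J j = Matrix.vecMul d J i * l j := by
    intro i j
    have h1 : (N.transpose * J + J * N) i j = 0 := by rw [hflat]; rfl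
    rw [hN, Matrix.transpose_vecMulVec, Matrix.vecMulVec_mul, Matrix.mul_vecMulVec, hJd',
      Matrix.add_apply, Matrix.vecMulVec_apply, Matrix.vecMulVec_apply, Pi.neg_apply] at h1
    linear_combination h1
  by_cases hd : d = 0
  · refine ⟨0, ?_⟩
    rw [hN, hd, zero_smul]
    ext i j
    simp [Matrix.vecMulVec_apply]
  · have he : Matrix.vecMul d J ≠ 0 := by
      intro h0
      apply hd
      have hu : IsUnit J.det := isUnit_iff_ne_zero.mpr hJd
      have h1 : Matrix.vecMul (Matrix.vecMul d J) J⁻¹ = d := by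
        rw [Matrix.vecMul_vecMul, Matrix.mul_nonsing_inv _ hu, Matrix.vecMul_one]
      rw [← h1, h0, Matrix.zero_vecMul]
    obtain ⟨j, hj⟩ : ∃ j, Matrix.vecMul d J j ≠ 0 := by
      by_contra hcon
      push Not at hcon
      exact he (funext hcon)
    refine ⟨l j / Matrix.vecMul d J j, ?_⟩
    ext i k
    rw [hN, AA, Matrix.smul_apply, Matrix.vecMulVec_apply, Matrix.vecMulVec_apply, smul_eq_mul]
    have h1 := hfl k j
    field_simp
    linear_combination d i * h1

/-- `x ↦ B(h, x) h` has square zero. -/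
theorem AA_mul_AA {E : Type*} [CommRing E] [IsDomain E] [CharZero E] (J : Matrix ι ι E)
    (hJT : J.transpose = -J) (h : ι → E) : AA J h * AA J h = 0 := by
  have h0 : Matrix.vecMul h J ⬝ᵥ h = 0 := by
    have h1 : Matrix.vecMul h J ⬝ᵥ h = h ⬝ᵥ J.mulVec h := (Matrix.dotProduct_mulVec h J h).symm
    have h2 : h ⬝ᵥ J.mulVec h = -(h ⬝ᵥ J.mulVec h) := by
      have h3 : J.mulVec h = -(Matrix.vecMul h J) := by
        have h4 : J.mulVec h = (-J.transpose).mulVec h := by rw [hJT, neg_neg]
        rw [h4, Matrix.neg_mulVec, Matrix.mulVec_transpose]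
      calc h ⬝ᵥ J.mulVec h = h ⬝ᵥ (-(Matrix.vecMul h J)) := by rw [h3]
        _ = -(Matrix.vecMul h J ⬝ᵥ h) := by rw [dotProduct_neg, dotProduct_comm]
        _ = -(h ⬝ᵥ J.mulVec h) := by rw [h1]
    have h5 : (2 : E) * (h ⬝ᵥ J.mulVec h) = 0 := by linear_combination h2
    rcases mul_eq_zero.mp h5 with h6 | h6
    · exact absurd h6 two_ne_zero
    · rw [h1, h6]
  rw [AA, Matrix.vecMulVec_mul_vecMulVec, h0]
  ext i j
  simp

/-- `B(h, h) = 0`. -/
theorem BB_self {E : Type*} [CommRing E] [IsDomain E] [CharZero E] (J : Matrix ι ι E)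
    (hJT : J.transpose = -J) (h : ι → E) : BB J h h = 0 := by
  have h3 : J.mulVec h = -(Matrix.vecMul h J) := by
    have h4 : J.mulVec h = (-J.transpose).mulVec h := by rw [hJT, neg_neg]
    rw [h4, Matrix.neg_mulVec, Matrix.mulVec_transpose]
  have h2 : h ⬝ᵥ J.mulVec h = -(h ⬝ᵥ J.mulVec h) := by
    calc h ⬝ᵥ J.mulVec h = h ⬝ᵥ (-(Matrix.vecMul h J)) := by rw [h3]
      _ = -(Matrix.vecMul h J ⬝ᵥ h) := by rw [dotProduct_neg, dotProduct_comm]
      _ = -(h ⬝ᵥ J.mulVec h) := by rw [Matrix.dotProduct_mulVec]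
  have h5 : (2 : E) * (h ⬝ᵥ J.mulVec h) = 0 := by linear_combination h2
  rcases mul_eq_zero.mp h5 with h6 | h6
  · exact absurd h6 two_ne_zero
  · exact h6

private noncomputable def Residue_c {F : Type*} [Field F] (Γ : ℕ → Matrix ι ι F)
    (N : Matrix ι ι F) (d : ι → F) : ℕ → ι → F
  | 0 => d
  | (k + 1) =>
    -((((k : F) + 1)⁻¹) • (∑ p : Fin (k + 1), (Γ (k + 1 - p)).mulVec (Residue_c Γ N d p.1)) -
      ((((k : F) + 1)⁻¹) ^ 2) •
        N.mulVec (∑ p : Fin (k + 1), (Γ (k + 1 - p)).mulVec (Residue_c Γ N d p.1)))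
  termination_by k => k
  decreasing_by all_goals exact p.2

private theorem Residue_c_eq {F : Type*} [Field F] [CharZero F] (Γ : ℕ → Matrix ι ι F)
    (N : Matrix ι ι F) (hN2 : N * N = 0) (d : ι → F) (k : ℕ) (i : ι) :
    Residue_c Γ N d (k + 1) i * ((k : F) + 1) + N.mulVec (Residue_c Γ N d (k + 1)) i =
      -(∑ b ∈ Finset.range (k + 1), (Γ (k + 1 - b)).mulVec (Residue_c Γ N d b) i) := by
  have hk : ((k : F) + 1) ≠ 0 := by exact_mod_cast Nat.succ_ne_zero k
  have hr : (∑ b ∈ Finset.range (k + 1), (Γ (k + 1 - b)).mulVec (Residue_c Γ N d b) i) =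
      (∑ p : Fin (k + 1), (Γ (k + 1 - p)).mulVec (Residue_c Γ N d p.1)) i := by
    rw [Finset.sum_apply, Finset.sum_range]
  rw [hr]
  rw [Residue_c]
  generalize (∑ p : Fin (k + 1), (Γ (k + 1 - p)).mulVec (Residue_c Γ N d p.1)) = r
  rw [Matrix.mulVec_neg, Matrix.mulVec_sub, Matrix.mulVec_smul, Matrix.mulVec_smul,
    Matrix.mulVec_mulVec, hN2, Matrix.zero_mulVec, smul_zero, sub_zero]
  simp only [Pi.neg_apply, Pi.sub_apply, Pi.smul_apply, smul_eq_mul]
  field_simp
  ring

/-- Existence of a horizontal vector with given value in the kernel of the residue `N`,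
`N ^ 2 = 0`: the coefficients `c_k` of `h` satisfy
`(k + N) c_k = - ∑_{i ≥ 1} Γ_i c_(k - i)`, and `k + N` is invertible for `k ≥ 1`, with inverse
`k⁻¹ - k⁻² N`. -/
theorem exists_horizontal {F : Type*} [Field F] [CharZero F] (Γ : Matrix ι ι (PowerSeries F))
    (N : Matrix ι ι F) (hΓ : ∀ i j, PowerSeries.constantCoeff (Γ i j) = N i j)
    (hN2 : N * N = 0) (d : ι → F) (hd : N.mulVec d = 0) :
    ∃ h : ι → PowerSeries F, (∀ i, PowerSeries.constantCoeff (h i) = d i) ∧
      ∀ i, PowerSeries.X * PowerSeries.derivative F (h i) + Γ.mulVec h i = 0 := by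
  set Γc : ℕ → Matrix ι ι F := fun a => Matrix.of fun i j => PowerSeries.coeff a (Γ i j) with hΓc
  have hΓ0 : ∀ i j, PowerSeries.coeff 0 (Γ i j) = N i j := by
    intro i j
    rw [← hΓ i j, PowerSeries.coeff_zero_eq_constantCoeff_apply]
  refine ⟨fun i => PowerSeries.mk fun k => Residue_c Γc N d k i, ?_, ?_⟩
  · intro i
    rw [← PowerSeries.coeff_zero_eq_constantCoeff_apply, PowerSeries.coeff_mk, Residue_c]
  · intro i
    ext k
    rw [map_add, map_zero]
    have hmul : PowerSeries.coeff k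
        (Γ.mulVec (fun i => PowerSeries.mk fun k => Residue_c Γc N d k i) i)
        = ∑ b ∈ Finset.range (k + 1), (Γc (k - b)).mulVec (Residue_c Γc N d b) i := by
      simp only [Matrix.mulVec, dotProduct]
      rw [map_sum, Finset.sum_comm]
      refine Finset.sum_congr rfl fun j _ => ?_
      rw [mul_comm, PowerSeries.coeff_mul, Finset.Nat.sum_antidiagonal_eq_sum_range_succ_mk]
      refine Finset.sum_congr rfl fun b _ => ?_
      simp only [PowerSeries.coeff_mk, hΓc, Matrix.of_apply]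
      rw [mul_comm]
    rw [hmul, Finset.sum_range_succ, Nat.sub_self]
    have hG0 : Γc 0 = N := by
      ext a b
      simp only [hΓc, Matrix.of_apply]
      exact hΓ0 a b
    rw [hG0]
    cases k with
    | zero =>
      have h0 : Residue_c Γc N d 0 = d := by rw [Residue_c]
      rw [PowerSeries.coeff_zero_X_mul, Finset.sum_range_zero, h0, hd]
      simp
    | succ k =>
      have h1 := Residue_c_eq Γc N hN2 d k i
      rw [PowerSeries.coeff_succ_X_mul, PowerSeries.coeff_derivative, PowerSeries.coeff_mk]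
      linear_combination h1

end MPadcLP
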