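import Mathlib
import Pool.Agent.Lib.MP_adc574_ag_LP.EvAct
import Pool.Agent.Lib.MP_adc574_ag_LP.Residue

/-! # The operators `Θ` and `N` on multilinear forms over power series -/

set_option autoImplicit false

namespace MPadcLP

open PowerSeries

variable {γ ι : Type} [Fintype γ] [DecidableEq γ] [Fintype ι] [DecidableEq ι]
variable {F : Type*} [Field F] [CharZero F]

/-- `Θ c = X dc/dX - act Γ c`, an `F`-linear map on multilinear forms over `F⟦X⟧`. -/
noncomputable def Theta (Γ : Matrix ι ι F⟦X⟧) : Module.End F ((γ → ι) → F⟦X⟧) where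
  toFun c := fun σ => X * derivative F (c σ) - act Γ c σ
  map_add' c c' := by
    funext σ
    simp only [act_add, Pi.add_apply, map_add]
    ring
  map_smul' a c := by
    funext σ
    have h : act Γ (a • c) = a • act Γ c := by
      funext τ
      simp only [act, Pi.smul_apply, Finset.smul_sum, smul_mul_assoc]
    simp only [h, Pi.smul_apply, Derivation.map_smul, RingHom.id_apply, smul_sub, mul_smul_comm]

/-- `N c = - act A c`. -/
noncomputable def NT (A : Matrix ι ι F⟦X⟧) : Module.End F ((γ → ι) → F⟦X⟧) where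
  toFun c := fun σ => - act A c σ
  map_add' c c' := by
    funext σ
    simp only [act_add, Pi.add_apply]
    ring
  map_smul' a c := by
    funext σ
    have h : act A (a • c) = a • act A c := by
      funext τ
      simp only [act, Pi.smul_apply, Finset.smul_sum, smul_mul_assoc]
    simp only [h, Pi.smul_apply, RingHom.id_apply, smul_neg]

/-- `Fil k` is the space of the forms with coordinates divisible by `X ^ k`. -/
noncomputable def Fil (k : ℕ) : Submodule F ((γ → ι) → F⟦X⟧) where
  carrier := {c | ∀ σ, (X : F⟦X⟧) ^ k ∣ c σ}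
  zero_mem' := fun σ => dvd_zero _
  add_mem' := fun ha hb σ => dvd_add (ha σ) (hb σ)
  smul_mem' := fun a c hc σ => by
    obtain ⟨d, hd⟩ := hc σ
    exact ⟨a • d, by simp only [Pi.smul_apply, hd, mul_smul_comm]⟩

private theorem Theta_deriv_act (A : Matrix ι ι F⟦X⟧) (c : (γ → ι) → F⟦X⟧) (σ : γ → ι) :
    X * derivative F (act A c σ) = act A (fun τ => X * derivative F (c τ)) σ +
      act (Matrix.of fun i j => X * derivative F (A i j)) c σ := by
  unfold act
  rw [map_sum, Finset.mul_sum, ← Finset.sum_add_distrib]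
  refine Finset.sum_congr rfl fun j _ => ?_
  rw [map_sum, Finset.mul_sum, ← Finset.sum_add_distrib]
  refine Finset.sum_congr rfl fun i _ => ?_
  rw [Derivation.leibniz, smul_eq_mul, smul_eq_mul, Matrix.of_apply]
  ring

private theorem Theta_deriv_pow (k : ℕ) :
    derivative F ((X : F⟦X⟧) ^ k) = (k : F⟦X⟧) * X ^ (k - 1) := by
  rw [Derivation.leibniz_pow, derivative_X, nsmul_eq_mul, smul_eq_mul, mul_one]

private theorem Theta_X_pow (k : ℕ) :
    (X : F⟦X⟧) * ((k : F⟦X⟧) * X ^ (k - 1)) = (k : F⟦X⟧) * X ^ k := by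
  cases k with
  | zero => simp
  | succ n =>
    rw [Nat.add_sub_cancel, pow_succ]
    ring

/-- the action of `A` on one slot -/
private noncomputable def Theta_a (A : Matrix ι ι F⟦X⟧) (j : γ) :
    Module.End F ((γ → ι) → F⟦X⟧) where
  toFun c := fun σ => ∑ i, c (Function.update σ j i) * A i (σ j)
  map_add' c c' := by
    funext σ
    simp only [Pi.add_apply, add_mul, Finset.sum_add_distrib]
  map_smul' a c := by
    funext σ
    simp only [Pi.smul_apply, Finset.smul_sum, smul_mul_assoc, RingHom.id_apply]

/-- If the derivative of `A` is the commutator with `Γ` (`A` is horizontal: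
`X A' + [Γ, A] = 0`) then `Θ` and `N` commute. -/
theorem commute_Theta_NT (Γ A : Matrix ι ι F⟦X⟧)
    (hA : ∀ i j, X * derivative F (A i j) + (Γ * A - A * Γ) i j = 0) :
    Commute (Theta Γ : Module.End F ((γ → ι) → F⟦X⟧)) (NT A) := by
  apply LinearMap.ext
  intro c
  funext σ
  show X * derivative F (- act A c σ) - act Γ (fun τ => - act A c τ) σ =
    - act A (fun τ => X * derivative F (c τ) - act Γ c τ) σ
  have h1 : act Γ (fun τ => - act A c τ) σ = - act Γ (act A c) σ := by
    unfold act
    rw [← Finset.sum_neg_distrib]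
    refine Finset.sum_congr rfl fun j _ => ?_
    rw [← Finset.sum_neg_distrib]
    exact Finset.sum_congr rfl fun i _ => neg_mul _ _
  have h2 : act A (fun τ => X * derivative F (c τ) - act Γ c τ) σ =
      act A (fun τ => X * derivative F (c τ)) σ - act A (act Γ c) σ := by
    unfold act
    rw [← Finset.sum_sub_distrib]
    refine Finset.sum_congr rfl fun j _ => ?_
    rw [← Finset.sum_sub_distrib]
    exact Finset.sum_congr rfl fun i _ => sub_mul _ _ _
  have h3 := congrFun (act_comm Γ A c) σ
  have h4 : (Matrix.of fun i j => X * derivative F (A i j)) = A * Γ - Γ * A := by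
    ext1 i j
    show X * derivative F (A i j) = (A * Γ - Γ * A) i j
    have h5 := hA i j
    rw [Matrix.sub_apply] at h5 ⊢
    linear_combination h5
  have h6 : act Γ (act A c) σ - act A (act Γ c) σ = act (A * Γ - Γ * A) c σ := h3
  rw [map_neg, h1, h2, mul_neg, Theta_deriv_act, h4]
  linear_combination h6

/-- If `A * A = 0` then `N` is nilpotent: `N = - ∑ j, a_j` with commuting `a_j`, `a_j ^ 2 = 0`,
where `a_j c σ = ∑ i, c (Function.update σ j i) * A i (σ j)`. -/
theorem isNilpotent_NT (A : Matrix ι ι F⟦X⟧) (hA : A * A = 0) :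
    IsNilpotent (NT A : Module.End F ((γ → ι) → F⟦X⟧)) := by
  have h1 : (NT A : Module.End F ((γ → ι) → F⟦X⟧)) = - ∑ j : γ, Theta_a A j := by
    apply LinearMap.ext
    intro c
    funext σ
    rw [LinearMap.neg_apply, LinearMap.sum_apply, Pi.neg_apply, Finset.sum_apply]
    rfl
  rw [h1]
  apply IsNilpotent.neg
  apply Commute.isNilpotent_sum
  · intro j _
    refine ⟨2, ?_⟩
    rw [pow_two]
    apply LinearMap.ext
    intro c
    funext σ
    show ∑ i, (∑ l, c (Function.update (Function.update σ j i) j l) *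
      A l ((Function.update σ j i) j)) * A i (σ j) = 0
    have h2 : ∀ i, (∑ l, c (Function.update (Function.update σ j i) j l) *
        A l ((Function.update σ j i) j)) * A i (σ j) =
        ∑ l, c (Function.update σ j l) * (A l i * A i (σ j)) := by
      intro i
      rw [Finset.sum_mul]
      refine Finset.sum_congr rfl fun l _ => ?_
      rw [Function.update_idem, Function.update_self]
      ring
    rw [Finset.sum_congr rfl fun i _ => h2 i, Finset.sum_comm]
    refine Finset.sum_eq_zero fun l _ => ?_
    rw [← Finset.mul_sum]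
    have h3 : ∑ i, A l i * A i (σ j) = (A * A) l (σ j) := (Matrix.mul_apply).symm
    rw [h3, hA, Matrix.zero_apply, mul_zero]
  · intro j k _ _
    by_cases hjk : j = k
    · rw [hjk]
      exact Commute.refl _
    · apply LinearMap.ext
      intro c
      funext σ
      show ∑ i, (∑ l, c (Function.update (Function.update σ j i) k l) *
          A l ((Function.update σ j i) k)) * A i (σ j) =
        ∑ l, (∑ i, c (Function.update (Function.update σ k l) j i) *
          A i ((Function.update σ k l) j)) * A l (σ k)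
      simp only [Finset.sum_mul]
      rw [Finset.sum_comm]
      refine Finset.sum_congr rfl fun i _ => Finset.sum_congr rfl fun l _ => ?_
      rw [Function.update_of_ne (Ne.symm hjk), Function.update_of_ne hjk,
        Function.update_comm hjk]
      ring

/-- If `Γ - A` vanishes at `X = 0`, then `Θ - N - k` maps `Fil k` to `Fil (k + 1)`. -/
theorem Theta_sub_NT_mem (Γ A : Matrix ι ι F⟦X⟧)
    (hΓA : ∀ i j, constantCoeff (Γ i j) = constantCoeff (A i j)) (k : ℕ)
    (c : (γ → ι) → F⟦X⟧) (hc : c ∈ (Fil k : Submodule F ((γ → ι) → F⟦X⟧))) :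
    (Theta Γ - NT A : Module.End F ((γ → ι) → F⟦X⟧)) c - (k : F) • c ∈
      (Fil (k + 1) : Submodule F ((γ → ι) → F⟦X⟧)) := by
  intro σ
  obtain ⟨e, he⟩ := hc σ
  show (X : F⟦X⟧) ^ (k + 1) ∣ (X * derivative F (c σ) - act Γ c σ - (- act A c σ)) - (k : F) • c σ
  have h1 : (X * derivative F (c σ) - act Γ c σ - (- act A c σ)) - (k : F) • c σ =
      (X * derivative F (c σ) - (k : F) • c σ) - (act Γ c σ - act A c σ) := by ring
  rw [h1]
  apply dvd_sub
  · refine ⟨derivative F e, ?_⟩
    rw [he, Derivation.leibniz, smul_eq_mul, smul_eq_mul, Algebra.smul_def,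
      Theta_deriv_pow, map_natCast]
    have h2 : X * ((X : F⟦X⟧) ^ k * derivative F e + e * ((k : F⟦X⟧) * X ^ (k - 1))) -
        (k : F⟦X⟧) * (X ^ k * e) = X ^ (k + 1) * derivative F e +
          e * (X * ((k : F⟦X⟧) * X ^ (k - 1)) - (k : F⟦X⟧) * X ^ k) := by ring
    rw [h2, Theta_X_pow, sub_self, mul_zero, add_zero]
  · have h3 : act Γ c σ - act A c σ = ∑ j, ∑ i, c (Function.update σ j i) *
        (Γ i (σ j) - A i (σ j)) := by
      unfold act
      rw [← Finset.sum_sub_distrib]
      refine Finset.sum_congr rfl fun j _ => ?_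
      rw [← Finset.sum_sub_distrib]
      exact Finset.sum_congr rfl fun i _ => (mul_sub _ _ _).symm
    rw [h3]
    refine Finset.dvd_sum fun j _ => Finset.dvd_sum fun i _ => ?_
    rw [pow_succ]
    refine mul_dvd_mul (hc _) ?_
    rw [X_dvd_iff, map_sub, hΓA, sub_self]

/-- The endomorphism `x ↦ a B(h, x) h` is horizontal if `h` is horizontal, `J` is constant and
`Γ` preserves `J`. -/
theorem horizontal_AA (Γ J : Matrix ι ι F⟦X⟧) (hJ : ∀ i j, derivative F (J i j) = 0)
    (hflat : Γ.transpose * J + J * Γ = 0) (a : F) (h : ι → F⟦X⟧)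
    (hh : ∀ i, X * derivative F (h i) + Γ.mulVec h i = 0) :
    ∀ i j, X * derivative F ((C a • AA J h) i j) +
      (Γ * (C a • AA J h) - (C a • AA J h) * Γ) i j = 0 := by
  intro i j
  obtain ⟨u, hu⟩ : ∃ u : ι → F⟦X⟧, u = Matrix.vecMul h J := ⟨_, rfl⟩
  have hAA : ∀ i j, (C a • AA J h) i j = C a * (h i * u j) := by
    intro i j
    show C a * (AA J h) i j = _
    unfold AA
    rw [Matrix.vecMulVec_apply, hu]
  have hui : ∀ j, u j = ∑ k, h k * J k j := fun j => by rw [hu]; rfl
  have hhi : ∀ i, X * derivative F (h i) = - ∑ k, Γ i k * h k := by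
    intro i
    have h1 : X * derivative F (h i) + ∑ k, Γ i k * h k = 0 := hh i
    linear_combination h1
  have hfl : ∀ l j, ∑ k, Γ k l * J k j = - ∑ k, J l k * Γ k j := by
    intro l j
    have h1 := congrFun (congrFun hflat l) j
    rw [Matrix.add_apply, Matrix.mul_apply, Matrix.mul_apply, Matrix.zero_apply] at h1
    have h2 : ∑ k, Γ.transpose l k * J k j = ∑ k, Γ k l * J k j := rfl
    rw [h2] at h1
    linear_combination h1
  have hdu : ∀ j, X * derivative F (u j) = ∑ k, u k * Γ k j := by
    intro j
    have h1 : X * derivative F (u j) = ∑ k, (X * derivative F (h k)) * J k j := by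
      rw [hui, map_sum, Finset.mul_sum]
      refine Finset.sum_congr rfl fun k _ => ?_
      rw [Derivation.leibniz, hJ, smul_zero, zero_add, smul_eq_mul]
      ring
    have h2 : ∑ k, (X * derivative F (h k)) * J k j = - ∑ l, h l * ∑ k, Γ k l * J k j := by
      have h3 : ∀ k, (X * derivative F (h k)) * J k j = - ∑ l, h l * (Γ k l * J k j) := by
        intro k
        rw [hhi, neg_mul, Finset.sum_mul]
        congr 1
        refine Finset.sum_congr rfl fun l _ => ?_
        ring
      rw [Finset.sum_congr rfl fun k _ => h3 k, Finset.sum_neg_distrib, Finset.sum_comm]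
      congr 1
      refine Finset.sum_congr rfl fun l _ => ?_
      rw [Finset.mul_sum]
    have h4 : ∑ k, u k * Γ k j = ∑ l, h l * ∑ k, J l k * Γ k j := by
      have h5 : ∀ k, u k * Γ k j = ∑ l, h l * (J l k * Γ k j) := by
        intro k
        rw [hui, Finset.sum_mul]
        refine Finset.sum_congr rfl fun l _ => ?_
        ring
      rw [Finset.sum_congr rfl fun k _ => h5 k, Finset.sum_comm]
      refine Finset.sum_congr rfl fun l _ => ?_
      rw [Finset.mul_sum]
    rw [h1, h2, h4, ← Finset.sum_neg_distrib]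
    refine Finset.sum_congr rfl fun l _ => ?_
    rw [hfl, mul_neg, neg_neg]
  have hd : X * derivative F (C a * (h i * u j)) =
      C a * (h i * (X * derivative F (u j)) + u j * (X * derivative F (h i))) := by
    rw [Derivation.leibniz, derivative_C, smul_zero, add_zero, Derivation.leibniz, smul_eq_mul,
      smul_eq_mul, smul_eq_mul]
    ring
  have hm1 : (Γ * (C a • AA J h)) i j = C a * ((∑ k, Γ i k * h k) * u j) := by
    rw [Matrix.mul_apply, Finset.sum_mul, Finset.mul_sum]
    refine Finset.sum_congr rfl fun k _ => ?_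
    rw [hAA]
    ring
  have hm2 : ((C a • AA J h) * Γ) i j = C a * (h i * ∑ k, u k * Γ k j) := by
    rw [Matrix.mul_apply, Finset.mul_sum, Finset.mul_sum]
    refine Finset.sum_congr rfl fun k _ => ?_
    rw [hAA]
    ring
  rw [hAA, hd, hdu, hhi, Matrix.sub_apply, hm1, hm2]
  ring

end MPadcLP
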