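import Mathlib
import Pool.Agent.Lib.MP_adc574_ag_LP.Theta
import Pool.Agent.Lib.MP_adc574_ag_LP.Interp

/-! # The local theorem: the vanishing cycle is good -/

set_option autoImplicit false

namespace MPadcLP

open PowerSeries

variable {γ ι : Type} [Fintype γ] [DecidableEq γ] [Fintype ι] [DecidableEq ι]

private theorem LocalGood.dot_act {E : Type*} [CommRing E] (M : Matrix ι ι E) (μ c : (γ → ι) → E) :
    μ ⬝ᵥ act M c = ∑ τ, c τ * (μ ⬝ᵥ act M (fun j => if τ = j then 1 else 0)) := by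
  let f : ((γ → ι) → E) →ₗ[E] E :=
    { toFun := fun c => μ ⬝ᵥ act M c
      map_add' := fun c c' => by rw [act_add, dotProduct_add]
      map_smul' := fun a c => by rw [act_smul, dotProduct_smul, RingHom.id_apply] }
  have h := LinearMap.pi_apply_eq_sum_univ f c
  have h2 : f c = μ ⬝ᵥ act M c := rfl
  rw [← h2, h]
  rfl

private theorem LocalGood.map_dot {R E : Type*} [CommRing R] [CommRing E] (φ : R →+* E)
    (μ c : (γ → ι) → R) :
    φ (μ ⬝ᵥ c) = (fun σ => φ (μ σ)) ⬝ᵥ (fun σ => φ (c σ)) := by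
  simp only [dotProduct, map_sum, map_mul]

private theorem LocalGood.BB_comm {E : Type*} [CommRing E] (J : Matrix ι ι E)
    (hJT : J.transpose = -J) (u w : ι → E) : BB J w u = - BB J u w := by
  unfold BB
  rw [Matrix.dotProduct_mulVec, ← Matrix.mulVec_transpose, hJT, Matrix.neg_mulVec,
    neg_dotProduct, dotProduct_comm]

/-- The forms over `F⟦X⟧` which satisfy all linear equations of the `gs n` are stable under
`Θ = X d/dX - act Γ`, where `Γ = X G / Δ`. Proof in the comment of `local_good`. -/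
theorem Theta_stable {R : Type*} [CommRing R] [IsDomain R] (S : Dat R γ ι) (hS : S.Ok)
    {F : Type*} [Field F] [CharZero F] (φ : R →+* F⟦X⟧) (hφ : Function.Injective φ)
    (hD : ∀ x, derivative F (φ x) = φ (S.D x)) (Γ : Matrix ι ι F⟦X⟧)
    (hΓ : ∀ i j, φ S.Δ * Γ i j = X * φ (S.G i j)) (c : (γ → ι) → F⟦X⟧)
    (hc : ∀ μ : (γ → ι) → R, (∀ n, μ ⬝ᵥ S.gs n = 0) → (fun σ => φ (μ σ)) ⬝ᵥ c = 0)
    (μ : (γ → ι) → R) (hμ : ∀ n, μ ⬝ᵥ S.gs n = 0) :
    (fun σ => φ (μ σ)) ⬝ᵥ (Theta Γ c) = 0 := by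
  -- the transformed equation
  set μ' : (γ → ι) → R := fun τ => S.Δ * S.D (μ τ) +
    μ ⬝ᵥ act S.G (fun j => if τ = j then 1 else 0) with hμ'
  have hdot : ∀ g : (γ → ι) → R, μ' ⬝ᵥ g = S.Δ * S.D (μ ⬝ᵥ g) - μ ⬝ᵥ nabT S.D S.Δ S.G g := by
    intro g
    have h1 : μ' ⬝ᵥ g = S.Δ * ∑ τ, g τ * S.D (μ τ) + μ ⬝ᵥ act S.G g := by
      rw [LocalGood.dot_act, Finset.mul_sum, ← Finset.sum_add_distrib]
      unfold dotProduct
      refine Finset.sum_congr rfl fun τ _ => ?_
      rw [hμ']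
      simp only [dotProduct]
      ring
    have h2 : S.D (μ ⬝ᵥ g) = ∑ τ, g τ * S.D (μ τ) + ∑ τ, μ τ * S.D (g τ) := by
      unfold dotProduct
      rw [map_sum, ← Finset.sum_add_distrib]
      refine Finset.sum_congr rfl fun τ _ => ?_
      rw [Derivation.leibniz, smul_eq_mul, smul_eq_mul]
      ring
    have h3 : μ ⬝ᵥ nabT S.D S.Δ S.G g = S.Δ * ∑ τ, μ τ * S.D (g τ) - μ ⬝ᵥ act S.G g := by
      unfold dotProduct nabT
      rw [Finset.mul_sum, ← Finset.sum_sub_distrib]
      refine Finset.sum_congr rfl fun τ _ => ?_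
      ring
    rw [h1, h2, h3]
    ring
  have hμ'n : ∀ n, μ' ⬝ᵥ S.gs n = 0 := by
    intro n
    rw [hdot, hμ n]
    have h1 : nabT S.D S.Δ S.G (S.gs n) = S.gs (n + 1) := by
      unfold Dat.gs
      rw [Function.iterate_succ_apply']
    rw [h1, hμ (n + 1), map_zero, mul_zero, sub_zero]
  have hc0 := hc μ hμ
  have hc1 := hc μ' hμ'n
  have hφΔ : φ S.Δ ≠ 0 := by
    rw [Ne, map_eq_zero_iff φ hφ]
    exact hS.Δ_ne
  -- expansion of the transformed equation
  have e1 : (fun σ => φ (μ' σ)) ⬝ᵥ c = φ S.Δ * ∑ τ, c τ * derivative F (φ (μ τ)) +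
      (fun σ => φ (μ σ)) ⬝ᵥ act (S.G.map φ) c := by
    rw [LocalGood.dot_act, Finset.mul_sum, ← Finset.sum_add_distrib]
    change ∑ τ, φ (μ' τ) * c τ = _
    refine Finset.sum_congr rfl fun τ _ => ?_
    have h1 : φ (μ ⬝ᵥ act S.G (fun j => if τ = j then 1 else 0)) =
        (fun σ => φ (μ σ)) ⬝ᵥ act (S.G.map φ) (fun j => if τ = j then 1 else 0) := by
      rw [LocalGood.map_dot, act_map]
      congr 2
      funext j
      split_ifs
      · exact map_one φ
      · exact map_zero φ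
    rw [hμ']
    simp only
    rw [map_add, map_mul, h1, hD]
    ring
  have e2 : derivative F ((fun σ => φ (μ σ)) ⬝ᵥ c) = ∑ τ, c τ * derivative F (φ (μ τ)) +
      ∑ τ, φ (μ τ) * derivative F (c τ) := by
    unfold dotProduct
    rw [map_sum, ← Finset.sum_add_distrib]
    refine Finset.sum_congr rfl fun τ _ => ?_
    rw [Derivation.leibniz, smul_eq_mul, smul_eq_mul]
    ring
  have e3 : φ S.Δ • Γ = (X : F⟦X⟧) • S.G.map φ := by
    ext1 i j
    simp only [Matrix.smul_apply, Matrix.map_apply, smul_eq_mul]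
    exact hΓ i j
  have e4 : φ S.Δ * ((fun σ => φ (μ σ)) ⬝ᵥ (Theta Γ c)) =
      X * (φ S.Δ * ∑ τ, φ (μ τ) * derivative F (c τ)) -
      X * ((fun σ => φ (μ σ)) ⬝ᵥ act (S.G.map φ) c) := by
    have h1 : (fun σ => φ (μ σ)) ⬝ᵥ (Theta Γ c) = X * ∑ τ, φ (μ τ) * derivative F (c τ) -
        (fun σ => φ (μ σ)) ⬝ᵥ act Γ c := by
      change ∑ τ, φ (μ τ) * (X * derivative F (c τ) - act Γ c τ) = _
      unfold dotProduct
      rw [Finset.mul_sum, ← Finset.sum_sub_distrib]
      refine Finset.sum_congr rfl fun τ _ => ?_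
      ring
    have h2 : φ S.Δ * ((fun σ => φ (μ σ)) ⬝ᵥ act Γ c) =
        X * ((fun σ => φ (μ σ)) ⬝ᵥ act (S.G.map φ) c) := by
      rw [← smul_eq_mul, ← smul_eq_mul, ← dotProduct_smul, ← dotProduct_smul, ← act_smul_left,
        ← act_smul_left, e3]
    rw [h1, mul_sub, h2]
    ring
  have e5 : φ S.Δ * ((fun σ => φ (μ σ)) ⬝ᵥ (Theta Γ c)) = 0 := by
    rw [hc0, map_zero] at e2
    rw [hc1] at e1
    rw [e4]
    linear_combination X * φ S.Δ * (-e2) + X * e1
  exact (mul_eq_zero.mp e5).resolve_left hφΔ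

/-- The local theorem. Suppose that `Γ = X G / Δ` is regular at `X = 0`, with residue of rank at
most one. Then there is a horizontal vector `h` over `F⟦X⟧` (the vanishing cycle), which is good,
such that a vector orthogonal to `h` is killed by the residue at `X = 0`.

Proof. From `S.Ok`: `Γ^T J + J Γ = 0` (multiply by `φ Δ`), so the residue `N` satisfies
`N^T J + J N = 0` and by `residue_form` `N = c AA J d`. If `c = 0` take `h = 0` (`N = 0`, and
`AA J 0 = 0`). Otherwise let `h` be the horizontal vector with value `d`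
(`exists_horizontal`; `N * N = 0` and `N d = c B(d, d) d = 0`). If `B(u, h) = 0` then at `X = 0`
`B(u(0), d) = 0`, so `N u(0) = c B(d, u(0)) d = 0`.

Good: let `Θ = Theta Γ`, `A = C c • AA J h`, `N' = NT A`. By `commute_Theta_NT` (with
`horizontal_AA`), `isNilpotent_NT` and `Theta_sub_NT_mem`, `exists_aeval_sub_mem` (with
`T = Θ - N'`, `N = N'`) gives for every `M` a polynomial `q` with
`q(Θ) v - N' v ∈ Fil M` for all `v`. Let `Q` be the space of the `v` which satisfy all equations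
`φ(μ) ⬝ᵥ v = 0`, `μ` with `μ ⬝ᵥ gs n = 0` for all `n`. It is stable under `Θ` by
`Theta_stable`:
  for such `μ`, `μ' = Δ • D μ + (transpose of act G) μ`
  (`(act G)^T μ τ = ∑ over (j, σ) with …`, or define it by `μ' ⬝ᵥ c = …`) satisfies
  `μ' ⬝ᵥ gs n = Δ D(μ ⬝ᵥ gs n) - μ ⬝ᵥ gs (n + 1) = 0`, and for `v ∈ Q`
  `φ Δ * (φ μ ⬝ᵥ Θ v) = X (φ Δ D(φ μ ⬝ᵥ v) - φ μ' ⬝ᵥ v) = 0`.
So for `v = φ (gs n) ∈ Q`: `φ μ ⬝ᵥ N' v = - φ μ ⬝ᵥ (q(Θ) v - N' v)` is divisible by `X ^ M` for
all `M`, hence it is zero, that is `c • φ μ ⬝ᵥ act (AA J h) v = 0`. -/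
theorem local_good {R : Type*} [CommRing R] [IsDomain R] (S : Dat R γ ι) (hS : S.Ok)
    {F : Type*} [Field F] [CharZero F] (φ : R →+* F⟦X⟧) (hφ : Function.Injective φ)
    (hD : ∀ x, derivative F (φ x) = φ (S.D x)) (Γ : Matrix ι ι F⟦X⟧)
    (hΓ : ∀ i j, φ S.Δ * Γ i j = X * φ (S.G i j)) (d l : ι → F)
    (hN : ∀ i j, constantCoeff (Γ i j) = d i * l j) :
    ∃ h : ι → F⟦X⟧, S.Good φ h ∧ (∀ i, X * derivative F (h i) + Γ.mulVec h i = 0) ∧
      ∀ u : ι → F⟦X⟧, BB (S.J.map φ) u h = 0 →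
        ∀ i, ∑ j, constantCoeff (Γ i j) * constantCoeff (u j) = 0 := by
  set J' : Matrix ι ι F⟦X⟧ := S.J.map φ with hJ'
  have hJT' : J'.transpose = -J' := by
    rw [hJ', ← Matrix.transpose_map, hS.J_transpose]
    ext1 i j
    simp [Matrix.map_apply]
  have hJc : ∀ i j, derivative F (J' i j) = 0 := by
    intro i j
    rw [hJ', Matrix.map_apply, hD, hS.J_const, map_zero]
  have hφΔ : φ S.Δ ≠ 0 := by
    rw [Ne, map_eq_zero_iff φ hφ]
    exact hS.Δ_ne
  have e3 : φ S.Δ • Γ = (X : F⟦X⟧) • S.G.map φ := by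
    ext1 i j
    simp only [Matrix.smul_apply, Matrix.map_apply, smul_eq_mul]
    exact hΓ i j
  have hflat : Γ.transpose * J' + J' * Γ = 0 := by
    have h1 : φ S.Δ • (Γ.transpose * J' + J' * Γ) = 0 := by
      rw [smul_add, ← Matrix.smul_mul, ← Matrix.mul_smul, ← Matrix.transpose_smul, e3,
        Matrix.transpose_smul, Matrix.smul_mul, Matrix.mul_smul, ← smul_add, hJ',
        ← Matrix.transpose_map, ← Matrix.map_mul, ← Matrix.map_mul]
      have h2 : (S.G.transpose * S.J + S.J * S.G).map φ = (0 : Matrix ι ι R).map φ :=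
        congrArg (fun A : Matrix ι ι R => A.map φ) hS.flat
      rw [Matrix.map_add φ (map_add φ), Matrix.map_zero φ (map_zero φ)] at h2
      rw [h2, smul_zero]
    ext1 i j
    have h3 := congrFun (congrFun h1 i) j
    rw [Matrix.smul_apply, Matrix.zero_apply, smul_eq_mul] at h3
    rw [Matrix.zero_apply]
    exact (mul_eq_zero.mp h3).resolve_left hφΔ
  set cc : F⟦X⟧ →+* F := constantCoeff with hcc
  set J0 : Matrix ι ι F := J'.map cc with hJ0
  have hJT0 : J0.transpose = -J0 := by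
    rw [hJ0, ← Matrix.transpose_map, hJT']
    ext1 i j
    simp [Matrix.map_apply]
  have hJd0 : J0.det ≠ 0 := by
    have h1 : J0.det = cc (φ S.J.det) := by
      rw [RingHom.map_det, RingHom.map_det]
      rfl
    rw [h1]
    exact ((hS.J_det.map φ).map cc).ne_zero
  set N0 : Matrix ι ι F := Matrix.vecMulVec d l with hN0
  have hΓN : Γ.map cc = N0 := by
    ext1 i j
    rw [Matrix.map_apply, hN0, Matrix.vecMulVec_apply]
    exact hN i j
  have hflat0 : N0.transpose * J0 + J0 * N0 = 0 := by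
    have h2 : (Γ.transpose * J' + J' * Γ).map cc = (0 : Matrix ι ι F⟦X⟧).map cc :=
      congrArg (fun A : Matrix ι ι F⟦X⟧ => A.map cc) hflat
    rw [Matrix.map_add cc (map_add cc), Matrix.map_zero cc (map_zero cc), Matrix.map_mul,
      Matrix.map_mul, Matrix.transpose_map, hΓN] at h2
    exact h2
  obtain ⟨c, hc⟩ := residue_form J0 N0 hJT0 hJd0 hflat0 d l hN0
  by_cases hc0 : c = 0
  · refine ⟨0, ?_, ?_, ?_⟩
    · intro μ _ n
      have h1 : AA (S.J.map φ) (0 : ι → F⟦X⟧) = 0 := by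
        ext1 i j
        simp [AA, Matrix.vecMulVec_apply]
      rw [h1]
      have h2 : act (0 : Matrix ι ι F⟦X⟧) (fun σ => φ (S.gs n σ)) = 0 := by
        funext σ
        simp [act]
      rw [h2, dotProduct_zero]
    · intro i
      simp
    · intro u _ i
      refine Finset.sum_eq_zero fun j _ => ?_
      have h1 : cc (Γ i j) = 0 := by
        have h2 := congrFun (congrFun hΓN i) j
        rw [Matrix.map_apply, hc, hc0, zero_smul, Matrix.zero_apply] at h2
        exact h2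
      rw [h1, zero_mul]
  have hN2 : N0 * N0 = 0 := by
    rw [hc, Matrix.smul_mul, Matrix.mul_smul, AA_mul_AA J0 hJT0, smul_zero, smul_zero]
  have hNd : N0.mulVec d = 0 := by
    rw [hc, Matrix.smul_mulVec, AA_mulVec, BB_self J0 hJT0, zero_smul, smul_zero]
  obtain ⟨h, hh0, hhor⟩ := exists_horizontal Γ N0 (fun i j => by
    rw [hN i j, hN0, Matrix.vecMulVec_apply]) hN2 d hNd
  refine ⟨h, ?_, hhor, ?_⟩
  · -- `h` is good
    set A : Matrix ι ι F⟦X⟧ := C c • AA J' h with hA
    have hAhor := horizontal_AA Γ J' hJc hflat c h hhor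
    have hcomm := commute_Theta_NT (γ := γ) Γ A hAhor
    have : CharZero F⟦X⟧ := charZero_of_injective_ringHom (f := (C : F →+* F⟦X⟧)) C_injective
    have hA2 : A * A = 0 := by
      rw [hA, Matrix.smul_mul, Matrix.mul_smul, AA_mul_AA J' hJT', smul_zero, smul_zero]
    obtain ⟨r, hr⟩ := isNilpotent_NT (γ := γ) A hA2
    have hΓA : ∀ i j, constantCoeff (Γ i j) = constantCoeff (A i j) := by
      intro i j
      have h1 : A.map cc = c • AA J0 d := by
        have h2 : (AA J' h).map cc = AA J0 d := by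
          rw [AA_map]
          congr 1
          funext i
          exact hh0 i
        ext1 i j
        have h3 := congrFun (congrFun h2 i) j
        rw [Matrix.map_apply] at h3
        rw [Matrix.map_apply, hA, Matrix.smul_apply, Matrix.smul_apply, smul_eq_mul, smul_eq_mul,
          map_mul, h3, hcc, constantCoeff_C]
      have h4 : Γ.map cc = A.map cc := by rw [h1, hΓN, hc]
      have h5 := congrFun (congrFun h4 i) j
      rw [Matrix.map_apply, Matrix.map_apply] at h5
      exact h5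
    intro μ hμ n
    set v : (γ → ι) → F⟦X⟧ := fun σ => φ (S.gs n σ) with hv
    let Q : Submodule F ((γ → ι) → F⟦X⟧) :=
      { carrier := {c | ∀ μ : (γ → ι) → R, (∀ n, μ ⬝ᵥ S.gs n = 0) →
          (fun σ => φ (μ σ)) ⬝ᵥ c = 0}
        zero_mem' := fun μ _ => dotProduct_zero _
        add_mem' := fun {a b} ha hb μ hμ => by
          rw [dotProduct_add, ha μ hμ, hb μ hμ, add_zero]
        smul_mem' := fun a c hc μ hμ => by
          rw [dotProduct_smul, hc μ hμ, smul_zero] }
    have hQ : ∀ c, c ∈ Q ↔ ∀ μ : (γ → ι) → R, (∀ n, μ ⬝ᵥ S.gs n = 0) →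
        (fun σ => φ (μ σ)) ⬝ᵥ c = 0 := fun c => Iff.rfl
    have hQΘ : ∀ c ∈ Q, Theta Γ c ∈ Q := by
      intro c hc
      rw [hQ] at hc ⊢
      intro μ hμ
      exact Theta_stable S hS φ hφ hD Γ hΓ c hc μ hμ
    have hQpow : ∀ (m : ℕ), ∀ c ∈ Q, ((Theta Γ : Module.End F ((γ → ι) → F⟦X⟧)) ^ m) c ∈ Q := by
      intro m
      induction m with
      | zero => intro c hc; exact hc
      | succ m ih =>
        intro c hc
        rw [pow_succ, Module.End.mul_apply]
        exact ih _ (hQΘ c hc)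
    have hQpol : ∀ (q : Polynomial F), ∀ c ∈ Q,
        (Polynomial.aeval (Theta Γ : Module.End F ((γ → ι) → F⟦X⟧)) q) c ∈ Q := by
      intro q c hc
      rw [Polynomial.aeval_eq_sum_range, LinearMap.sum_apply]
      refine Submodule.sum_mem _ fun m _ => ?_
      rw [LinearMap.smul_apply]
      exact Q.smul_mem _ (hQpow m c hc)
    have hvQ : v ∈ Q := by
      rw [hQ]
      intro μ hμ
      rw [hv, ← LocalGood.map_dot, hμ n, map_zero]
    have hdiv : ∀ M : ℕ, (X : F⟦X⟧) ^ M ∣ (fun σ => φ (μ σ)) ⬝ᵥ (NT A v) := by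
      intro M
      obtain ⟨q, hq⟩ := exists_aeval_sub_mem
        (Theta Γ - NT A : Module.End F ((γ → ι) → F⟦X⟧)) (NT A)
        (hcomm.sub_left (Commute.refl _)) r hr Fil (by
          rw [eq_top_iff]
          intro c _ σ
          rw [pow_zero]
          exact one_dvd _) (fun k c hc => Theta_sub_NT_mem Γ A hΓA k c hc) M
      have h1 := hq v
      rw [sub_add_cancel] at h1
      have h2 : (fun σ => φ (μ σ)) ⬝ᵥ
          ((Polynomial.aeval (Theta Γ : Module.End F ((γ → ι) → F⟦X⟧)) q) v) = 0 :=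
        (hQ _).mp (hQpol q v hvQ) μ hμ
      have h3 : (fun σ => φ (μ σ)) ⬝ᵥ (NT A v) = -((fun σ => φ (μ σ)) ⬝ᵥ
          ((Polynomial.aeval (Theta Γ : Module.End F ((γ → ι) → F⟦X⟧)) q) v - NT A v)) := by
        rw [dotProduct_sub, h2]
        ring
      rw [h3, dvd_neg]
      unfold dotProduct
      exact Finset.dvd_sum fun σ _ => (h1 σ).mul_left _
    have hzero : (fun σ => φ (μ σ)) ⬝ᵥ (NT A v) = 0 := by
      ext m
      rw [map_zero]
      exact (X_pow_dvd_iff.mp (hdiv (m + 1))) m (Nat.lt_succ_self m)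
    have h4 : (NT A : Module.End F ((γ → ι) → F⟦X⟧)) v = -(C c • act (AA J' h) v) := by
      rw [← act_smul_left]
      rfl
    rw [h4, dotProduct_neg, neg_eq_zero, dotProduct_smul, smul_eq_mul] at hzero
    refine (mul_eq_zero.mp hzero).resolve_left ?_
    intro h5
    apply hc0
    have h6 := congrArg cc h5
    rw [hcc, constantCoeff_C, map_zero] at h6
    exact h6
  · intro u hu i
    have h1 : BB J0 (fun i => cc (u i)) d = 0 := by
      have h2 := congrArg cc hu
      rw [map_zero] at h2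
      rw [← h2]
      simp only [BB, dotProduct, Matrix.mulVec, map_sum, map_mul]
      refine Finset.sum_congr rfl fun i _ => ?_
      have h9 : ∀ j, J0 i j * d j = cc (J' i j) * cc (h j) := by
        intro j
        rw [hJ0, Matrix.map_apply]
        have h8 : cc (h j) = d j := hh0 j
        rw [h8]
      rw [Finset.sum_congr rfl fun j _ => h9 j]
    have h3 : BB J0 d (fun i => cc (u i)) = 0 := by
      rw [LocalGood.BB_comm J0 hJT0, h1, neg_zero]
    have h4 : N0.mulVec (fun i => cc (u i)) = 0 := by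
      rw [hc, Matrix.smul_mulVec, AA_mulVec, h3, zero_smul, smul_zero]
    have h5 := congrFun h4 i
    rw [Pi.zero_apply] at h5
    rw [← h5]
    unfold Matrix.mulVec dotProduct
    refine Finset.sum_congr rfl fun j _ => ?_
    congr 1
    have h6 := congrFun (congrFun hΓN i) j
    rw [Matrix.map_apply] at h6
    exact h6

end MPadcLP
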