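import Mathlib
import Pool.Agent.Lib.MP_adc574_ag_LP.Defs

/-! # Expansions at infinity -/

set_option autoImplicit false

namespace MPadcLP

open Polynomial

variable {R : Type*} [CommRing R]

theorem coeff_hat {n : ℕ} (P : R[X]) {i : ℕ} (hi : i ≤ n) :
    PowerSeries.coeff i (hat n P) = P.coeff (n - i) := by
  rw [hat, Polynomial.coeff_coe, Polynomial.coeff_reflect, Polynomial.revAt_le hi]

theorem coeff_hat_of_lt {n : ℕ} (P : R[X]) (hP : P.natDegree ≤ n) {i : ℕ} (hi : n < i) :
    PowerSeries.coeff i (hat n P) = 0 := by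
  rw [hat, Polynomial.coeff_coe, Polynomial.coeff_reflect, Polynomial.revAt_eq_self_of_lt hi]
  exact Polynomial.coeff_eq_zero_of_natDegree_lt (lt_of_le_of_lt hP hi)

theorem hat_add (n : ℕ) (P Q : R[X]) : hat n (P + Q) = hat n P + hat n Q := by
  rw [hat, hat, hat, Polynomial.reflect_add, Polynomial.coe_add]

theorem hat_sub (n : ℕ) (P Q : R[X]) : hat n (P - Q) = hat n P - hat n Q := by
  rw [eq_sub_iff_add_eq, ← hat_add, sub_add_cancel]

theorem hat_zero (n : ℕ) : hat n (0 : R[X]) = 0 := by
  rw [hat, Polynomial.reflect_zero, Polynomial.coe_zero]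

theorem hat_sum (n : ℕ) {κ : Type*} (s : Finset κ) (P : κ → R[X]) :
    hat n (∑ i ∈ s, P i) = ∑ i ∈ s, hat n (P i) := by
  classical
  induction s using Finset.induction_on with
  | empty => rw [Finset.sum_empty, Finset.sum_empty, hat_zero]
  | insert i s his ih => rw [Finset.sum_insert his, Finset.sum_insert his, hat_add, ih]

theorem hat_C_mul (n : ℕ) (a : R) (P : R[X]) : hat n (C a * P) = PowerSeries.C a * hat n P := by
  rw [hat, hat, Polynomial.reflect_C_mul, Polynomial.coe_mul, Polynomial.coe_C]

theorem hat_injective {n : ℕ} {P Q : R[X]} (hP : P.natDegree ≤ n) (hQ : Q.natDegree ≤ n)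
    (h : ∀ i ≤ n, PowerSeries.coeff i (hat n P) = PowerSeries.coeff i (hat n Q)) : P = Q := by
  ext i
  by_cases hi : i ≤ n
  · have h1 := h (n - i) (Nat.sub_le n i)
    rw [coeff_hat P (Nat.sub_le n i), coeff_hat Q (Nat.sub_le n i), Nat.sub_sub_self hi] at h1
    exact h1
  · rw [Polynomial.coeff_eq_zero_of_natDegree_lt (by omega),
      Polynomial.coeff_eq_zero_of_natDegree_lt (by omega)]

/-- `Polynomial.reflect_mul`. -/
theorem hat_mul {a b : ℕ} {P Q : R[X]} (hP : P.natDegree ≤ a) (hQ : Q.natDegree ≤ b) :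
    hat (a + b) (P * Q) = hat a P * hat b Q := by
  rw [hat, hat, hat, Polynomial.reflect_mul P Q hP hQ, Polynomial.coe_mul]

theorem hat_map {S : Type*} [CommRing S] (φ : R →+* S) (n : ℕ) (P : R[X]) :
    hat n (P.map φ) = (hat n P).map φ := by
  ext i
  rw [PowerSeries.coeff_map, hat, hat, Polynomial.coeff_coe, Polynomial.coeff_coe,
    Polynomial.coeff_reflect, Polynomial.coeff_reflect, Polynomial.coeff_map]

theorem constantCoeff_hat {m : ℕ} {f : R[X]} (hf : f.Monic) (hfm : f.natDegree = m) :
    PowerSeries.constantCoeff (hat m f) = 1 := by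
  rw [← PowerSeries.coeff_zero_eq_constantCoeff_apply, coeff_hat f (Nat.zero_le m), Nat.sub_zero,
    ← hfm]
  exact hf

/-- The derivative at infinity. -/
theorem hat_derivative {n : ℕ} (f : R[X]) (hf : f.natDegree ≤ n + 1) :
    hat n (derivative f) =
      ((n + 1 : ℕ) : PowerSeries R) * hat (n + 1) f -
        PowerSeries.X * PowerSeries.derivative R (hat (n + 1) f) := by
  have hX : ∀ (g : PowerSeries R) (i : ℕ),
      PowerSeries.coeff i (PowerSeries.X * PowerSeries.derivative R g) =
        (i : R) * PowerSeries.coeff i g := by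
    intro g i
    cases i with
    | zero => simp
    | succ i =>
      rw [PowerSeries.coeff_succ_X_mul, PowerSeries.coeff_derivative]
      push_cast
      ring
  have hN : ∀ (g : PowerSeries R) (i : ℕ),
      PowerSeries.coeff i (((n + 1 : ℕ) : PowerSeries R) * g) =
        ((n + 1 : ℕ) : R) * PowerSeries.coeff i g := by
    intro g i
    rw [← nsmul_eq_mul, map_nsmul, nsmul_eq_mul]
  have hd : (derivative f).natDegree ≤ n := by
    refine (Polynomial.natDegree_derivative_le f).trans ?_
    omega
  ext i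
  rw [map_sub, hN, hX]
  by_cases hi : i ≤ n
  · rw [coeff_hat _ hi, coeff_hat _ (by omega : i ≤ n + 1), Polynomial.coeff_derivative]
    have e : n + 1 - i = n - i + 1 := by omega
    rw [e]
    have e2 : ((n + 1 : ℕ) : R) = ((n - i : ℕ) : R) + 1 + (i : R) := by
      have e3 : n + 1 = (n - i) + 1 + i := by omega
      have e4 := congrArg (fun k : ℕ => (k : R)) e3
      simpa only [Nat.cast_add, Nat.cast_one] using e4
    rw [e2]
    ring
  · rw [coeff_hat_of_lt _ hd (by omega)]
    by_cases hi2 : i = n + 1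
    · rw [hi2]
      ring
    · rw [coeff_hat_of_lt f hf (by omega), mul_zero, mul_zero, sub_zero]

/-- The derivation of the power series ring given by a derivation of the coefficients. -/
noncomputable def dps (D : Derivation ℤ R R) (g : PowerSeries R) : PowerSeries R :=
  PowerSeries.mk fun i => D (PowerSeries.coeff i g)

theorem coeff_dps (D : Derivation ℤ R R) (g : PowerSeries R) (i : ℕ) :
    PowerSeries.coeff i (dps D g) = D (PowerSeries.coeff i g) := by
  rw [dps, PowerSeries.coeff_mk]

theorem dps_add (D : Derivation ℤ R R) (g h : PowerSeries R) :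
    dps D (g + h) = dps D g + dps D h := by
  ext i
  rw [coeff_dps, map_add, map_add, map_add, coeff_dps, coeff_dps]

theorem dps_mul (D : Derivation ℤ R R) (g h : PowerSeries R) :
    dps D (g * h) = dps D g * h + g * dps D h := by
  ext i
  rw [coeff_dps, map_add, PowerSeries.coeff_mul, PowerSeries.coeff_mul, PowerSeries.coeff_mul,
    map_sum, ← Finset.sum_add_distrib]
  refine Finset.sum_congr rfl fun a _ => ?_
  rw [Derivation.leibniz, coeff_dps, coeff_dps, smul_eq_mul, smul_eq_mul]
  ring

theorem hat_dco (D : Derivation ℤ R R) (n : ℕ) (P : R[X]) : hat n (dco D P) = dps D (hat n P) := by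
  ext i
  rw [coeff_dps, hat, hat, Polynomial.coeff_coe, Polynomial.coeff_coe, Polynomial.coeff_reflect,
    Polynomial.coeff_reflect, coeff_dco]

theorem dco_map {S : Type*} [CommRing S] (φ : R →+* S) (D : Derivation ℤ R R)
    (D' : Derivation ℤ S S) (h : ∀ x, D' (φ x) = φ (D x)) (P : R[X]) :
    dco D' (P.map φ) = (dco D P).map φ := by
  ext i
  rw [coeff_dco, Polynomial.coeff_map, Polynomial.coeff_map, coeff_dco, h]

theorem dco_derivative (D : Derivation ℤ R R) (P : R[X]) :
    dco D (derivative P) = derivative (dco D P) := by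
  ext i
  have h1 : D ((i : R) + 1) = 0 := by
    rw [map_add, Derivation.map_natCast, Derivation.map_one_eq_zero, add_zero]
  rw [coeff_dco, Polynomial.coeff_derivative, Polynomial.coeff_derivative, coeff_dco,
    Derivation.leibniz, h1, smul_zero, zero_add, smul_eq_mul, mul_comm]

theorem natDegree_dco_lt (D : Derivation ℤ R R) {m : ℕ} (hm : 0 < m) {f : R[X]} (hf : f.Monic)
    (hfm : f.natDegree = m) : (dco D f).natDegree < m := by
  have h1 : (dco D f).natDegree ≤ m - 1 := by
    rw [Polynomial.natDegree_le_iff_coeff_eq_zero]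
    intro N hN
    rw [coeff_dco]
    by_cases hNm : N = m
    · have h2 : f.coeff N = 1 := by
        rw [hNm, ← hfm]
        exact hf
      rw [h2, Derivation.map_one_eq_zero]
    · rw [Polynomial.coeff_eq_zero_of_natDegree_lt (by omega), map_zero]
  omega

/-- The coefficients of the square root of a power series `g` with constant coefficient `1`, where `x = 1 / 2`. -/
noncomputable def hatSq (g : PowerSeries R) (x : R) : ℕ → R
  | 0 => 1
  | (n + 1) => x * (PowerSeries.coeff (n + 1) g -
      ∑ i : Fin n, hatSq g x ((i : ℕ) + 1) * hatSq g x (n - (i : ℕ)))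
termination_by n => n
decreasing_by
  all_goals omega

theorem hatSq_sq (g : PowerSeries R) (hg : PowerSeries.constantCoeff g = 1) (x : R)
    (hx : 2 * x = 1) : (PowerSeries.mk (hatSq g x)) ^ 2 = g := by
  ext n
  rw [pow_two, PowerSeries.coeff_mul]
  simp only [PowerSeries.coeff_mk]
  rw [Finset.Nat.sum_antidiagonal_eq_sum_range_succ (fun i j => hatSq g x i * hatSq g x j) n]
  have h0 : hatSq g x 0 = 1 := by rw [hatSq]
  cases n with
  | zero =>
    rw [Finset.sum_range_one, Nat.sub_zero, h0, PowerSeries.coeff_zero_eq_constantCoeff_apply, hg,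
      one_mul]
  | succ n =>
    rw [Nat.succ_eq_add_one, Finset.sum_range_succ, Finset.sum_range_succ', Nat.sub_self,
      Nat.sub_zero, h0]
    have h1 : ∑ k ∈ Finset.range n, hatSq g x (k + 1) * hatSq g x (n + 1 - (k + 1)) =
        ∑ i : Fin n, hatSq g x ((i : ℕ) + 1) * hatSq g x (n - (i : ℕ)) := by
      rw [Finset.sum_range]
      refine Finset.sum_congr rfl fun i _ => ?_
      rw [Nat.add_sub_add_right]
    rw [h1]
    have h2 : hatSq g x (n + 1) = x * (PowerSeries.coeff (n + 1) g -
      ∑ i : Fin n, hatSq g x ((i : ℕ) + 1) * hatSq g x (n - (i : ℕ))) := by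
      rw [hatSq]
    rw [h2]
    linear_combination (PowerSeries.coeff (n + 1) g -
      ∑ i : Fin n, hatSq g x ((i : ℕ) + 1) * hatSq g x (n - (i : ℕ))) * hx

/-- Existence of `ψ = f^(-1/2)` when `2` is invertible: the coefficients are determined
recursively (`ψ^2 * f^ = 1`), or: a power series `g` with constant coefficient `1` has a square
root with constant coefficient `1`. -/
theorem exists_isPsi (h2 : ∃ x : R, 2 * x = 1) {m : ℕ} {f : R[X]} (hf : f.Monic)
    (hfm : f.natDegree = m) : ∃ ψ, IsPsi m f ψ := by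
  obtain ⟨x, hx⟩ := h2
  have hc := constantCoeff_hat hf hfm
  have hinv : hat m f * PowerSeries.invOfUnit (hat m f) 1 = 1 :=
    PowerSeries.mul_invOfUnit (hat m f) 1 (by rw [hc, Units.val_one])
  have hg : PowerSeries.constantCoeff (PowerSeries.invOfUnit (hat m f) 1) = 1 := by
    have h := congrArg PowerSeries.constantCoeff hinv
    rw [map_mul, hc, one_mul, map_one] at h
    exact h
  refine ⟨PowerSeries.mk (hatSq (PowerSeries.invOfUnit (hat m f) 1) x), ?_, ?_⟩
  · rw [hatSq_sq _ hg x hx, mul_comm]
    exact hinv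
  · rw [← PowerSeries.coeff_zero_eq_constantCoeff_apply, PowerSeries.coeff_mk, hatSq]

theorem IsPsi.unique [IsDomain R] (h2 : (2 : R) ≠ 0) {m : ℕ} {f : R[X]} {ψ ψ' : PowerSeries R}
    (h : IsPsi m f ψ) (h' : IsPsi m f ψ') : ψ = ψ' := by
  have h1 : (ψ - ψ') * (ψ + ψ') = 0 := by
    linear_combination (ψ' ^ 2) * h.sq - ψ ^ 2 * h'.sq
  rcases mul_eq_zero.mp h1 with h3 | h3
  · exact sub_eq_zero.mp h3
  · exfalso
    apply h2
    have h4 := congrArg PowerSeries.constantCoeff h3
    rw [map_add, h.const, h'.const, map_zero] at h4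
    rw [← one_add_one_eq_two]
    exact h4

theorem IsPsi.map {S : Type*} [CommRing S] (φ : R →+* S) {m : ℕ} {f : R[X]}
    {ψ : PowerSeries R} (h : IsPsi m f ψ) : IsPsi m (f.map φ) (ψ.map φ) := by
  refine ⟨?_, ?_⟩
  · rw [hat_map, ← map_pow, ← map_mul, h.sq, map_one]
  · rw [← PowerSeries.coeff_zero_eq_constantCoeff_apply, PowerSeries.coeff_map,
      PowerSeries.coeff_zero_eq_constantCoeff_apply, h.const, map_one]

end MPadcLP
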