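import Mathlib
import Pool.Agent.Lib.MP_adc574_ag_LP.Hat

/-! # The coordinates at infinity -/

set_option autoImplicit false

namespace MPadcLP

open Polynomial

variable {R : Type*} [CommRing R]

theorem coeff_ser {m : ℕ} (a : Idx m → R) (j : Idx m) :
    PowerSeries.coeff ((j : Fin (m - 1)) : ℕ) (ser a) = a j := by
  unfold ser
  rw [map_sum, Finset.sum_eq_single j]
  · rw [PowerSeries.coeff_monomial, if_pos rfl]
  · intro b _ hb
    rw [PowerSeries.coeff_monomial, if_neg]
    intro h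
    exact hb (Subtype.ext (Fin.ext h.symm))
  · intro h
    exact absurd (Finset.mem_univ j) h

theorem coeff_ser_mid {m : ℕ} (a : Idx m → R) {j : ℕ} (hj : 2 * j + 2 = m) :
    PowerSeries.coeff j (ser a) = 0 := by
  unfold ser
  rw [map_sum]
  refine Finset.sum_eq_zero fun b _ => ?_
  rw [PowerSeries.coeff_monomial, if_neg]
  intro h
  exact b.2 (by rw [← h]; exact hj)

private theorem Coord_ser_add {m : ℕ} (a b : Idx m → R) : ser (a + b) = ser a + ser b := by
  unfold ser
  rw [← Finset.sum_add_distrib]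
  refine Finset.sum_congr rfl fun j _ => ?_
  rw [Pi.add_apply, map_add]

private theorem Coord_ser_smul {m : ℕ} (c : R) (a : Idx m → R) :
    ser (c • a) = PowerSeries.C c * ser a := by
  unfold ser
  rw [Finset.mul_sum]
  refine Finset.sum_congr rfl fun j _ => ?_
  ext n
  rw [PowerSeries.coeff_C_mul, PowerSeries.coeff_monomial, PowerSeries.coeff_monomial,
    Pi.smul_apply, smul_eq_mul]
  split_ifs
  · rfl
  · rw [mul_zero]

theorem natDegree_pol_le (m : ℕ) (f : R[X]) (ψ : PowerSeries R) (a : Idx m → R) :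
    (pol m f ψ a).natDegree ≤ m - 2 := by
  unfold pol
  refine Polynomial.natDegree_sum_le_of_forall_le _ _ fun i _ => ?_
  exact (Polynomial.natDegree_monomial_le _).trans (Nat.sub_le _ _)

theorem pol_add (m : ℕ) (f : R[X]) (ψ : PowerSeries R) (a b : Idx m → R) :
    pol m f ψ (a + b) = pol m f ψ a + pol m f ψ b := by
  unfold pol
  rw [← Finset.sum_add_distrib]
  refine Finset.sum_congr rfl fun i _ => ?_
  rw [Coord_ser_add, add_mul, map_add, map_add]

theorem pol_smul (m : ℕ) (f : R[X]) (ψ : PowerSeries R) (c : R) (a : Idx m → R) :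
    pol m f ψ (c • a) = C c * pol m f ψ a := by
  unfold pol
  rw [Finset.mul_sum]
  refine Finset.sum_congr rfl fun i _ => ?_
  rw [Coord_ser_smul, mul_assoc, PowerSeries.coeff_C_mul, Polynomial.C_mul_monomial]

theorem pol_eq_sum (m : ℕ) (f : R[X]) (ψ : PowerSeries R) (a : Idx m → R) :
    pol m f ψ a = ∑ j, C (a j) * pol m f ψ (Pi.single j 1) := by
  have h0 : pol m f ψ a = AddMonoidHom.mk' (pol m f ψ) (pol_add m f ψ) a := rfl
  have h1 : ∀ b : Idx m → R, AddMonoidHom.mk' (pol m f ψ) (pol_add m f ψ) b = pol m f ψ b :=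
    fun b => rfl
  rw [h0]
  conv_lhs => rw [← Finset.univ_sum_single a]
  rw [map_sum]
  refine Finset.sum_congr rfl fun j _ => ?_
  rw [h1, ← pol_smul]
  congr 1
  funext l
  rw [Pi.smul_apply, smul_eq_mul]
  by_cases h : l = j
  · subst h
    rw [Pi.single_eq_same, Pi.single_eq_same, mul_one]
  · rw [Pi.single_eq_of_ne h, Pi.single_eq_of_ne h, mul_zero]

private theorem Coord_coeff_pol {m : ℕ} (hm : 3 ≤ m) (f : R[X]) (ψ : PowerSeries R)
    (a : Idx m → R) {i : ℕ} (hi : i < m - 1) :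
    PowerSeries.coeff i (hat (m - 2) (pol m f ψ a)) =
      PowerSeries.coeff i (ser a * (ψ * hat m f)) := by
  rw [coeff_hat _ (by omega : i ≤ m - 2)]
  unfold pol
  rw [Polynomial.finsetSum_coeff, Finset.sum_eq_single i]
  · rw [Polynomial.coeff_monomial, if_pos rfl]
  · intro b hb hbi
    rw [Polynomial.coeff_monomial, if_neg]
    have := Finset.mem_range.1 hb
    omega
  · intro h
    exact absurd (Finset.mem_range.2 hi) h

private theorem Coord_coeff_mul {A B g : PowerSeries R} {n : ℕ}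
    (h : ∀ i, i < n → PowerSeries.coeff i A = PowerSeries.coeff i B) {i : ℕ} (hi : i < n) :
    PowerSeries.coeff i (A * g) = PowerSeries.coeff i (B * g) := by
  rw [PowerSeries.coeff_mul, PowerSeries.coeff_mul]
  refine Finset.sum_congr rfl fun p hp => ?_
  have := Finset.HasAntidiagonal.mem_antidiagonal.1 hp
  rw [h p.1 (by omega)]

/-- `hat (m - 2) (pol a) ≡ ser a * ψ * f^` modulo `u ^ (m - 1)`, and `ψ ^ 2 * f^ = 1`. -/
theorem coeff_hat_pol {m : ℕ} (hm : 3 ≤ m) {f : R[X]} {ψ : PowerSeries R} (hψ : IsPsi m f ψ)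
    (a : Idx m → R) {i : ℕ} (hi : i < m - 1) :
    PowerSeries.coeff i (hat (m - 2) (pol m f ψ a) * ψ) = PowerSeries.coeff i (ser a) := by
  rw [Coord_coeff_mul (fun i hi => Coord_coeff_pol hm f ψ a hi) hi]
  congr 1
  have h := hψ.sq
  calc ser a * (ψ * hat m f) * ψ = ser a * (ψ ^ 2 * hat m f) := by ring
    _ = ser a := by rw [h, mul_one]

/-- A polynomial of degree at most `m - 2` whose middle coordinate vanishes. -/
theorem eq_pol {m : ℕ} (hm : 3 ≤ m) {f : R[X]} {ψ : PowerSeries R} (hψ : IsPsi m f ψ)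
    (P : R[X]) (hP : P.natDegree ≤ m - 2)
    (hmid : ∀ i, 2 * i + 2 = m → PowerSeries.coeff i (hat (m - 2) P * ψ) = 0) :
    P = pol m f ψ (fun j => PowerSeries.coeff ((j : Fin (m - 1)) : ℕ) (hat (m - 2) P * ψ)) := by
  refine hat_injective hP (natDegree_pol_le m f ψ _) ?_
  intro i hi
  have key : ∀ i, i < m - 1 → PowerSeries.coeff i (hat (m - 2) P * ψ) =
      PowerSeries.coeff i (hat (m - 2) (pol m f ψ
        (fun j => PowerSeries.coeff ((j : Fin (m - 1)) : ℕ) (hat (m - 2) P * ψ))) * ψ) := by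
    intro i hi
    rw [coeff_hat_pol hm hψ _ hi]
    by_cases hmi : 2 * i + 2 = m
    · rw [hmid i hmi, coeff_ser_mid _ hmi]
    · exact (coeff_ser (fun j : Idx m => PowerSeries.coeff ((j : Fin (m - 1)) : ℕ)
        (hat (m - 2) P * ψ)) ⟨⟨i, hi⟩, hmi⟩).symm
  have e : ∀ A : PowerSeries R, A = A * ψ * (ψ * hat m f) := by
    intro A
    have h := hψ.sq
    calc A = A * (ψ ^ 2 * hat m f) := by rw [h, mul_one]
      _ = A * ψ * (ψ * hat m f) := by ring
  generalize hQ : hat (m - 2) (pol m f ψ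
    (fun j => PowerSeries.coeff ((j : Fin (m - 1)) : ℕ) (hat (m - 2) P * ψ))) = Q at key ⊢
  rw [e (hat (m - 2) P), e Q]
  exact Coord_coeff_mul key (by omega)

theorem pol_injective {m : ℕ} (hm : 3 ≤ m) {f : R[X]} {ψ : PowerSeries R} (hψ : IsPsi m f ψ)
    {a b : Idx m → R} (h : pol m f ψ a = pol m f ψ b) : a = b := by
  funext j
  rw [← coeff_ser a j, ← coeff_ser b j, ← coeff_hat_pol hm hψ a (j : Fin (m - 1)).2,
    ← coeff_hat_pol hm hψ b (j : Fin (m - 1)).2, h]

theorem pol_map {S : Type*} [CommRing S] (φ : R →+* S) (m : ℕ) (f : R[X])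
    (ψ : PowerSeries R) (a : Idx m → R) :
    (pol m f ψ a).map φ = pol m (f.map φ) (ψ.map φ) (fun j => φ (a j)) := by
  have h1 : ser (fun j => φ (a j)) = (ser a).map φ := by
    unfold ser
    rw [map_sum]
    refine Finset.sum_congr rfl fun j _ => ?_
    ext n
    rw [PowerSeries.coeff_map, PowerSeries.coeff_monomial, PowerSeries.coeff_monomial]
    split_ifs
    · rfl
    · rw [map_zero]
  unfold pol
  rw [Polynomial.map_sum]
  refine Finset.sum_congr rfl fun i _ => ?_
  rw [Polynomial.map_monomial, h1, hat_map, ← map_mul, ← map_mul, PowerSeries.coeff_map]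

end MPadcLP
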