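import Mathlib
import Pool.Agent.Lib.MP_adc574_ag_LP.Coord

/-! # Existence, uniqueness and functoriality of the Gauss–Manin matrix -/

set_option autoImplicit false

namespace MPadcLP

open Polynomial

variable {R : Type*} [CommRing R]

/-- Existence, with denominator `2 c`, `c` in the ideal `(f, f')`: take
`B° j = (P_j * dco D f * v) %ₘ f` (`P_j = pol m f ψ (Pi.single j 1)`), `B j = 2 * B° j`, and
`G l j = - (m - 2 - 2 l) * coeff l (hat (m - 1) (B° j) * ψ)`. -/
theorem exists_isGM (D : Derivation ℤ R R) {m : ℕ} (hm : 3 ≤ m) {f : R[X]} (hf : f.Monic)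
    (hfm : f.natDegree = m) (ψ : PowerSeries R) (c : R) (u v : R[X])
    (h : u * f + v * derivative f = C c) : ∃ G, IsGM D (2 * c) m f ψ G := by
  have hf1 : f ≠ 1 := by
    intro h1
    rw [h1, natDegree_one] at hfm
    omega
  refine ⟨Matrix.of fun l j => -((m : R) - 2 - 2 * (((l : Fin (m - 1)) : ℕ) : R)) *
      PowerSeries.coeff ((l : Fin (m - 1)) : ℕ)
        (hat (m - 1) ((pol m f ψ (Pi.single j 1) * dco D f * v) %ₘ f) * ψ),
    fun j => C 2 * ((pol m f ψ (Pi.single j 1) * dco D f * v) %ₘ f), ?_⟩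
  intro j
  refine ⟨?_, ?_, ?_⟩
  · refine lt_of_le_of_lt (natDegree_C_mul_le _ _) ?_
    exact lt_of_lt_of_eq (natDegree_modByMonic_lt _ hf hf1) hfm
  · have h1 := modByMonic_add_div (pol m f ψ (Pi.single j 1) * dco D f * v) f
    refine ⟨C 2 * (pol m f ψ (Pi.single j 1) * dco D f * u +
      ((pol m f ψ (Pi.single j 1) * dco D f * v) /ₘ f) * derivative f), ?_⟩
    rw [C_mul]
    linear_combination (-C 2 * pol m f ψ (Pi.single j 1) * dco D f) * h - (C 2 * derivative f) * h1
  · intro l
    rw [Matrix.of_apply, hat_C_mul, mul_assoc (PowerSeries.C (2 : R)), PowerSeries.coeff_C_mul]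
    ring

theorem IsGM.map {S : Type*} [CommRing S] (φ : R →+* S) {D : Derivation ℤ R R}
    {D' : Derivation ℤ S S} (hD : ∀ x, D' (φ x) = φ (D x)) {c : R} {m : ℕ} {f : R[X]}
    {ψ : PowerSeries R} {G : Matrix (Idx m) (Idx m) R} (hm : 0 < m) (h : IsGM D c m f ψ G) :
    IsGM D' (φ c) m (f.map φ) (ψ.map φ) (G.map φ) := by
  obtain ⟨B, hB⟩ := h
  refine ⟨fun j => (B j).map φ, fun j => ?_⟩
  obtain ⟨h1, h2, h3⟩ := hB j
  have hs : (fun i => φ ((Pi.single j 1 : Idx m → R) i)) = (Pi.single j 1 : Idx m → S) := by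
    funext i
    by_cases hij : i = j
    · rw [hij, Pi.single_eq_same, Pi.single_eq_same, map_one]
    · rw [Pi.single_eq_of_ne hij, Pi.single_eq_of_ne hij, map_zero]
  have hp : (pol m f ψ (Pi.single j 1)).map φ = pol m (f.map φ) (ψ.map φ) (Pi.single j 1) := by
    rw [pol_map, hs]
  refine ⟨lt_of_le_of_lt natDegree_map_le h1, ?_, ?_⟩
  · obtain ⟨q, hq⟩ := h2
    refine ⟨q.map φ, ?_⟩
    have h5 := congrArg (Polynomial.map φ) hq
    rw [Polynomial.map_sub, Polynomial.map_mul, Polynomial.map_mul, Polynomial.map_mul,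
      Polynomial.map_mul, Polynomial.map_C] at h5
    rw [← hp, dco_map φ D D' hD f, derivative_map]
    exact h5
  · intro l
    have h4 := congrArg φ (h3 l)
    rw [map_mul, map_mul, map_neg, map_sub, map_sub, map_mul, map_natCast, map_natCast, map_ofNat] at h4
    rw [hat_map, ← map_mul, PowerSeries.coeff_map, Matrix.map_apply]
    exact h4

theorem IsGM.smul {D : Derivation ℤ R R} {c : R} {m : ℕ} {f : R[X]} {ψ : PowerSeries R}
    {G : Matrix (Idx m) (Idx m) R} (hm : 0 < m) (h : IsGM D c m f ψ G) (a : R) :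
    IsGM D (a * c) m f ψ (a • G) := by
  obtain ⟨B, hB⟩ := h
  refine ⟨fun j => C a * B j, fun j => ?_⟩
  obtain ⟨h1, h2, h3⟩ := hB j
  refine ⟨lt_of_le_of_lt (natDegree_C_mul_le _ _) h1, ?_, ?_⟩
  · obtain ⟨q, hq⟩ := h2
    refine ⟨C a * q, ?_⟩
    rw [C_mul]
    linear_combination C a * hq
  · intro l
    have h4 := h3 l
    rw [hat_C_mul, mul_assoc (PowerSeries.C a), PowerSeries.coeff_C_mul, Matrix.smul_apply, smul_eq_mul]
    linear_combination a * h4

/-- Uniqueness: `c' (B - B') = (B - B') (u f + v f')` is divisible by `f`, so it vanishes by its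
degree. -/
theorem IsGM.unique [IsDomain R] (h2 : (2 : R) ≠ 0) {D : Derivation ℤ R R} {c : R} {m : ℕ}
    {f : R[X]} (hf : f.Monic) (hfm : f.natDegree = m) {ψ : PowerSeries R}
    {G G' : Matrix (Idx m) (Idx m) R} (h : IsGM D c m f ψ G) (h' : IsGM D c m f ψ G')
    (c' : R) (hc' : c' ≠ 0) (u v : R[X]) (huv : u * f + v * derivative f = C c') : G = G' := by
  obtain ⟨B, hB⟩ := h
  obtain ⟨B', hB'⟩ := h'
  have hBB : ∀ j, B j = B' j := by
    intro j
    obtain ⟨h1, ⟨q, hq⟩, -⟩ := hB j
    obtain ⟨h1', ⟨q', hq'⟩, -⟩ := hB' j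
    by_contra hne
    have h5 : C c' * (B j - B' j) ≠ 0 :=
      mul_ne_zero (C_ne_zero.2 hc') (sub_ne_zero.2 hne)
    refine hf.not_dvd_of_natDegree_lt h5 ?_ ⟨(B j - B' j) * u + v * (q' - q), ?_⟩
    · rw [hfm]
      refine lt_of_le_of_lt (natDegree_C_mul_le _ _) ?_
      exact lt_of_le_of_lt (natDegree_sub_le _ _) (max_lt h1 h1')
    · linear_combination (-(B j - B' j)) * huv + v * hq' - v * hq
  ext l j
  have h3 := (hB j).2.2 l
  have h3' := (hB' j).2.2 l
  rw [hBB j, ← h3'] at h3
  exact mul_left_cancel₀ h2 h3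

/-- The Gauss–Manin connection in terms of polynomials: `c ∇ P = c D P - A / 2 - B'`, where
`c P Df = A f + B f'`.

Proof: let `B_j` be the polynomials of `IsGM`, `B = ∑ j, C (a j) * B_j`, `P = pol a`, so
`C c * P * Df = A f + B f'` for some `A`; degrees: `deg A ≤ m - 2`. Write `^` for `hat` with
`m - 2` (for `P`, `A`, `B'`), `m - 1` (for `B`), `m` (for `f`). From `ψ^2 f^ = 1` (`ψ` is a unit):
`2 (Dψ) f^ = - ψ D(f^)` and `2 ψ_u f^ = - ψ (f^)_u`. With `hat_mul`, `hat_derivative`
(`(f')^ = m f^ - u (f^)_u`, `(B')^ = (m - 1) B^ - u (B^)_u`) and `hat_dco`: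
`c P^ D(f^) = A^ f^ + B^ (m f^ - u (f^)_u)`, hence, multiplying by `ψ^3` and using `ψ^2 f^ = 1`,
`2 c D(P^ ψ) = 2 c D(P^) ψ - (A^ + m B^) ψ - 2 u B^ ψ_u`, and so
`2 c D(P^ ψ) - (2 c D(P)^ - A^ - 2 (B')^) ψ = (m - 2) B^ ψ - 2 u (B^ ψ)_u`.
The `l`-th coefficient of the right hand side is `(m - 2 - 2 l) coeff l (B^ ψ)`, which is
`- 2 (G a)_l` for `l ∈ Idx m`, and `0` for the middle `l`. By `coeff_hat_pol`,
`coeff l (P^ ψ) = a_l`. So the polynomials `2 pol (nab a)` and `2 c D P - A - 2 B'`, of degree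
`≤ m - 2`, have the same coefficients of `( )^ ψ` up to `m - 2`, and they are equal
(`ψ` is a unit, `hat_injective`). -/
theorem pol_nab {D : Derivation ℤ R R} {c : R} {m : ℕ}
    (hm : 3 ≤ m) {f : R[X]} (hf : f.Monic) (hfm : f.natDegree = m) {ψ : PowerSeries R}
    (hψ : IsPsi m f ψ) {G : Matrix (Idx m) (Idx m) R} (h : IsGM D c m f ψ G)
    (a : Idx m → R) :
    ∃ A B : R[X], A.natDegree ≤ m - 2 ∧ B.natDegree < m ∧
      C c * pol m f ψ a * dco D f = A * f + B * derivative f ∧
      2 * pol m f ψ (nab D c G a) =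
        2 * (C c * dco D (pol m f ψ a)) - A - 2 * derivative B := by
  obtain ⟨B, hB⟩ := h
  set BB : R[X] := ∑ j, C (a j) * B j with hBBdef
  have hBBdeg : BB.natDegree < m := by
    have : BB.natDegree ≤ m - 1 := by
      rw [hBBdef]
      refine natDegree_sum_le_of_forall_le _ _ fun j _ => ?_
      exact (natDegree_C_mul_le _ _).trans (Nat.le_sub_one_of_lt (hB j).1)
    omega
  choose q hq using fun j => (hB j).2.1
  set P : R[X] := pol m f ψ a with hP
  have hPdeg : P.natDegree ≤ m - 2 := natDegree_pol_le m f ψ a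
  set A : R[X] := ∑ j, C (a j) * q j with hA
  have hAB : C c * P * dco D f = A * f + BB * derivative f := by
    rw [hP, pol_eq_sum, hA, hBBdef, Finset.mul_sum, Finset.sum_mul, Finset.sum_mul, Finset.sum_mul,
      ← Finset.sum_add_distrib]
    refine Finset.sum_congr rfl fun j _ => ?_
    linear_combination (C (a j)) * hq j
  have hDf : (dco D f).natDegree < m := natDegree_dco_lt D (by omega) hf hfm
  have hf' : (derivative f).natDegree ≤ m - 1 := by
    rw [← hfm]
    exact natDegree_derivative_le f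
  have hAdeg : A.natDegree ≤ m - 2 := by
    by_contra hcon
    have hA0 : A ≠ 0 := by
      intro h0
      rw [h0, natDegree_zero] at hcon
      omega
    have h1 : (A * f).natDegree = A.natDegree + m := by
      rw [mul_comm, hf.natDegree_mul' hA0, hfm, add_comm]
    have h2 : A * f = C c * P * dco D f - BB * derivative f := by
      rw [hAB]
      ring
    have h3 : (A * f).natDegree ≤ 2 * m - 2 := by
      rw [h2]
      refine (natDegree_sub_le _ _).trans (max_le ?_ ?_)
      · refine natDegree_mul_le.trans ?_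
        have := natDegree_C_mul_le c P
        omega
      · refine natDegree_mul_le.trans ?_
        omega
    omega
  refine ⟨A, BB, hAdeg, hBBdeg, hAB, ?_⟩
  -- the power series
  have hψ' : IsPsi m f ψ := hψ
  have hψ1 := hψ.sq
  set F := hat m f with hF
  set p := hat (m - 2) P with hp
  set b := hat (m - 1) BB with hb
  set α := hat (m - 2) A with hα
  have E1 : PowerSeries.C c * (p * dps D F) =
      α * F + b * ((m : PowerSeries R) * F - PowerSeries.X * PowerSeries.derivative R F) := by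
    have h1 := congrArg (hat (m - 2 + m)) hAB
    rw [mul_assoc, hat_C_mul, hat_mul hPdeg hDf.le, hat_dco, hat_add, hat_mul hAdeg hfm.le] at h1
    have h2 : m - 2 + m = (m - 1) + (m - 1) := by omega
    rw [h2, hat_mul (Nat.le_sub_one_of_lt hBBdeg) hf'] at h1
    have h3 := hat_derivative (n := m - 1) f (by omega)
    have h4 : m - 1 + 1 = m := by omega
    rw [h4] at h3
    rw [h3] at h1
    exact h1
  have hder : hat (m - 2) (derivative BB) = ((m - 1 : ℕ) : PowerSeries R) * b -
      PowerSeries.X * PowerSeries.derivative R b := by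
    have h3 := hat_derivative (n := m - 2) BB (by omega)
    have h4 : m - 2 + 1 = m - 1 := by omega
    rw [h4] at h3
    exact h3
  have hone : dps D (1 : PowerSeries R) = 0 := by
    have h1 := dps_mul D (1 : PowerSeries R) 1
    rw [mul_one, one_mul] at h1
    simpa using h1
  have E3 : 2 * ψ * dps D ψ * F + ψ ^ 2 * dps D F = 0 := by
    have h1 := congrArg (dps D) hψ1
    rw [dps_mul, sq, dps_mul, hone] at h1
    rw [sq]
    linear_combination h1
  have E4 : 2 * ψ * PowerSeries.derivative R ψ * F + ψ ^ 2 * PowerSeries.derivative R F = 0 := by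
    have h1 := congrArg (PowerSeries.derivative R) hψ1
    rw [sq, Derivation.leibniz, Derivation.leibniz, Derivation.map_one_eq_zero] at h1
    simp only [smul_eq_mul] at h1
    rw [sq]
    linear_combination h1
  -- main identity
  set W : R[X] := 2 * (C c * dco D P) - A - 2 * derivative BB with hW
  have hWhat : hat (m - 2) W = 2 * (PowerSeries.C c * dps D p) - α -
      2 * (((m - 1 : ℕ) : PowerSeries R) * b - PowerSeries.X * PowerSeries.derivative R b) := by
    have h2 : (2 : R[X]) = C 2 := rfl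
    have h2' : (2 : PowerSeries R) = PowerSeries.C 2 := (map_ofNat PowerSeries.C 2).symm
    rw [hW, h2, hat_sub, hat_sub, hat_C_mul, hat_C_mul, hat_C_mul, hat_dco, hder, h2']
  have E6 : 2 * PowerSeries.C c * dps D (p * ψ) - hat (m - 2) W * ψ =
      ((m : PowerSeries R) - 2) * (b * ψ) -
        2 * (PowerSeries.X * PowerSeries.derivative R (b * ψ)) := by
    have hm1 : ((m - 1 : ℕ) : PowerSeries R) = (m : PowerSeries R) - 1 := by
      rw [Nat.cast_sub (by omega), Nat.cast_one]
    rw [hWhat, dps_mul, Derivation.leibniz, hm1]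
    simp only [smul_eq_mul]
    -- - 2 c p Dψ = α ψ + m b ψ + 2 X b ψ_u
    have E5 : -(2 * PowerSeries.C c * p * dps D ψ) =
        α * ψ + (m : PowerSeries R) * b * ψ +
          2 * PowerSeries.X * b * PowerSeries.derivative R ψ := by
      linear_combination (ψ ^ 3) * E1 - (PowerSeries.C c * p * ψ) * E3 +
        (2 * PowerSeries.C c * p * dps D ψ) * hψ1 + (α * ψ + (m : PowerSeries R) * b * ψ) * hψ1 -
        (PowerSeries.X * b * ψ) * E4 + (2 * PowerSeries.X * b * PowerSeries.derivative R ψ) * hψ1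
    linear_combination (-1 : PowerSeries R) * E5
  have hXd : ∀ (g : PowerSeries R) (l : ℕ),
      PowerSeries.coeff l (PowerSeries.X * PowerSeries.derivative R g) =
        (l : R) * PowerSeries.coeff l g := by
    intro g l
    rcases l with _ | l
    · simp
    · rw [PowerSeries.coeff_succ_X_mul, PowerSeries.coeff_derivative]
      push_cast
      ring
  have hcoef : ∀ l, PowerSeries.coeff l (hat (m - 2) W * ψ) =
      2 * (c * D (PowerSeries.coeff l (p * ψ))) -
        ((m : R) - 2 - 2 * (l : R)) * PowerSeries.coeff l (b * ψ) := by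
    intro l
    have h1 := congrArg (PowerSeries.coeff l) E6
    have h2 : (2 : PowerSeries R) = PowerSeries.C 2 := (map_ofNat PowerSeries.C 2).symm
    have h3 : ((m : PowerSeries R) - 2) = PowerSeries.C ((m : R) - 2) := by
      rw [map_sub, map_natCast, map_ofNat]
    rw [map_sub, map_sub, h3, h2, ← map_mul, PowerSeries.coeff_C_mul, PowerSeries.coeff_C_mul,
      PowerSeries.coeff_C_mul, hXd, coeff_dps] at h1
    linear_combination -h1
  have hbl : ∀ l : Idx m, ((m : R) - 2 - 2 * (((l : Fin (m - 1)) : ℕ) : R)) *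
      PowerSeries.coeff ((l : Fin (m - 1)) : ℕ) (b * ψ) = -(2 * G.mulVec a l) := by
    intro l
    have h1 : b * ψ = ∑ j, PowerSeries.C (a j) * (hat (m - 1) (B j) * ψ) := by
      rw [hb, hBBdef, hat_sum, Finset.sum_mul]
      refine Finset.sum_congr rfl fun j _ => ?_
      rw [hat_C_mul, mul_assoc]
    rw [h1, map_sum, Finset.mul_sum, Matrix.mulVec, dotProduct, Finset.mul_sum, ← Finset.sum_neg_distrib]
    refine Finset.sum_congr rfl fun j _ => ?_
    rw [PowerSeries.coeff_C_mul]
    have h2 := (hB j).2.2 l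
    linear_combination (a j) * h2
  have hWdeg : W.natDegree ≤ m - 2 := by
    have h1 : (dco D P).natDegree ≤ m - 2 := by
      rw [natDegree_le_iff_coeff_eq_zero]
      intro N hN
      rw [coeff_dco, coeff_eq_zero_of_natDegree_lt (lt_of_le_of_lt hPdeg hN), map_zero]
    have h2 : (2 : R[X]) = C 2 := rfl
    rw [hW, h2]
    refine (natDegree_sub_le _ _).trans (max_le ((natDegree_sub_le _ _).trans (max_le ?_ hAdeg)) ?_)
    · exact (natDegree_C_mul_le _ _).trans ((natDegree_C_mul_le _ _).trans h1)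
    · refine (natDegree_C_mul_le _ _).trans ((natDegree_derivative_le _).trans ?_)
      omega
  have hmid : ∀ i, 2 * i + 2 = m → PowerSeries.coeff i (hat (m - 2) W * ψ) = 0 := by
    intro i hi
    rw [hcoef, hp, hP, coeff_hat_pol hm hψ' a (by omega), coeff_ser_mid a hi, map_zero, mul_zero,
      mul_zero, zero_sub]
    have h1 : (m : R) - 2 - 2 * (i : R) = 0 := by
      rw [← hi]
      push_cast
      ring
    rw [h1, zero_mul, neg_zero]
  have h7 := eq_pol hm hψ' W hWdeg hmid
  have h8 : (fun j : Idx m => PowerSeries.coeff ((j : Fin (m - 1)) : ℕ) (hat (m - 2) W * ψ)) =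
      (2 : R) • nab D c G a := by
    funext j
    rw [hcoef, hp, hP, coeff_hat_pol hm hψ' a j.1.2, coeff_ser, hbl, Pi.smul_apply, smul_eq_mul, nab]
    ring
  rw [h8, pol_smul] at h7
  have h9 : (C (2 : R) : R[X]) = 2 := rfl
  rw [h9] at h7
  exact h7.symm

end MPadcLP
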