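import Mathlib
import Pool.Agent.Lib.MP_adc574_ag_LP.GMBasic

/-! # The Gauss–Manin connection preserves the constant symplectic form -/

set_option autoImplicit false

namespace MPadcLP

open Polynomial

theorem card_Idx {m : ℕ} (hm : 3 ≤ m) :
    Fintype.card (Idx m) = 2 * Fintype.card (Fin ((m - 1) / 2)) := by
  have h0 : Fintype.card (Idx m) = Fintype.card (Fin (m - 1)) -
      Fintype.card {j : Fin (m - 1) // 2 * (j : ℕ) + 2 = m} :=
    Fintype.card_subtype_compl (fun j : Fin (m - 1) => 2 * (j : ℕ) + 2 = m)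
  rw [h0, Fintype.card_fin, Fintype.card_fin]
  rcases Nat.even_or_odd m with he | ho
  · have h1 : Fintype.card {j : Fin (m - 1) // 2 * (j : ℕ) + 2 = m} = 1 := by
      rw [Fintype.card_eq_one_iff]
      obtain ⟨r, hr⟩ := he
      refine ⟨⟨⟨r - 1, by omega⟩, by simp only; omega⟩, ?_⟩
      rintro ⟨j, hj⟩
      apply Subtype.ext
      apply Fin.ext
      show (j : ℕ) = r - 1
      omega
    rw [h1]
    obtain ⟨r, hr⟩ := he
    omega
  · have h1 : Fintype.card {j : Fin (m - 1) // 2 * (j : ℕ) + 2 = m} = 0 := by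
      rw [Fintype.card_eq_zero_iff]
      refine ⟨?_⟩
      rintro ⟨j, hj⟩
      obtain ⟨r, hr⟩ := ho
      omega
    rw [h1]
    obtain ⟨r, hr⟩ := ho
    omega

theorem fbI_injective (m : ℕ) : Function.Injective (fbI m) := by
  intro i j h
  have h1 : (((fbI m i : Idx m) : Fin (m - 1)) : ℕ) = (((fbI m j : Idx m) : Fin (m - 1)) : ℕ) := by
    rw [h]
  apply Fin.ext
  unfold fbI at h1
  simp only at h1
  omega

theorem JJ_fbI (K : Type*) [Field K] (m : ℕ) (i j : Fin ((m - 1) / 2)) :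
    JJ K m (fbI m i) (fbI m j) = 0 := by
  unfold JJ fbI
  simp only
  rw [if_neg]
  omega

theorem JJ_transpose (K : Type*) [Field K] (m : ℕ) : (JJ K m).transpose = - JJ K m := by
  ext a b
  rw [Matrix.transpose_apply, Matrix.neg_apply]
  unfold JJ
  by_cases h : ((a : Fin (m - 1)) : ℕ) + ((b : Fin (m - 1)) : ℕ) + 2 = m
  · rw [if_pos (by omega), if_pos h, ← div_neg, neg_sub]
  · rw [if_neg (by omega), if_neg h, neg_zero]

theorem JJ_map {K L : Type*} [Field K] [Field L] (φ : K →+* L) (m : ℕ) :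
    (JJ K m).map φ = JJ L m := by
  ext a b
  rw [Matrix.map_apply]
  unfold JJ
  by_cases h : ((a : Fin (m - 1)) : ℕ) + ((b : Fin (m - 1)) : ℕ) + 2 = m
  · rw [if_pos h, if_pos h, map_div₀, map_sub, map_natCast, map_natCast, map_ofNat]
  · rw [if_neg h, if_neg h, map_zero]

private def FlatTau {m : ℕ} (a : Idx m) : Idx m :=
  ⟨⟨m - 2 - ((a : Fin (m - 1)) : ℕ), by
    have := a.1.2
    omega⟩, by
    have h1 := a.1.2
    have h2 := a.2
    show 2 * (m - 2 - ((a : Fin (m - 1)) : ℕ)) + 2 ≠ m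
    omega⟩

private theorem FlatTau_val {m : ℕ} (a : Idx m) :
    (((FlatTau a : Idx m) : Fin (m - 1)) : ℕ) = m - 2 - ((a : Fin (m - 1)) : ℕ) := rfl

private theorem FlatTau_add {m : ℕ} (a : Idx m) :
    ((a : Fin (m - 1)) : ℕ) + (((FlatTau a : Idx m) : Fin (m - 1)) : ℕ) + 2 = m := by
  have h1 := a.1.2
  rw [FlatTau_val]
  omega

private theorem FlatTau_eq {m : ℕ} {a b : Idx m}
    (h : ((a : Fin (m - 1)) : ℕ) + ((b : Fin (m - 1)) : ℕ) + 2 = m) : b = FlatTau a := by
  apply Subtype.ext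
  apply Fin.ext
  rw [FlatTau_val]
  omega

private theorem FlatTau_FlatTau {m : ℕ} (a : Idx m) : FlatTau (FlatTau a) = a := by
  symm
  apply FlatTau_eq
  have := FlatTau_add a
  omega

private theorem Flat_JJ_zero {K : Type*} [Field K] {m : ℕ} {a b : Idx m} (h : b ≠ FlatTau a) :
    JJ K m a b = 0 := by
  unfold JJ
  rw [if_neg]
  intro h1
  exact h (FlatTau_eq h1)

private theorem Flat_JJ_tau {K : Type*} [Field K] {m : ℕ} (a : Idx m) :
    JJ K m a (FlatTau a) = 2 / (((((FlatTau a : Idx m) : Fin (m - 1)) : ℕ) : K) -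
      (((a : Fin (m - 1)) : ℕ) : K)) := by
  unfold JJ
  rw [if_pos (FlatTau_add a)]

/-- `JJ` is a monomial matrix: in each row exactly one entry is nonzero (the involution
`j ↦ m - 2 - j` of `Idx m`). The hypothesis says that the integers `1, …, m` are invertible. -/
theorem JJ_det {K : Type*} [Field K] {m : ℕ} (hK : ∀ n : ℕ, 0 < n → n ≤ m → (n : K) ≠ 0) :
    (JJ K m).det ≠ 0 := by
  have hsub : ∀ a : Idx m, ((((FlatTau a : Idx m) : Fin (m - 1)) : ℕ) : K) -
      (((a : Fin (m - 1)) : ℕ) : K) ≠ 0 := by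
    intro a h0
    have h1 := FlatTau_add a
    have h2 := a.2
    set x := ((a : Fin (m - 1)) : ℕ)
    set y := (((FlatTau a : Idx m) : Fin (m - 1)) : ℕ)
    rcases lt_or_gt_of_ne (show x ≠ y by omega) with h | h
    · apply hK (y - x) (by omega) (by omega)
      rw [Nat.cast_sub h.le]
      exact h0
    · apply hK (x - y) (by omega) (by omega)
      rw [Nat.cast_sub h.le]
      linear_combination -h0
  have hmul : JJ K m * JJ K m = Matrix.diagonal (fun a => JJ K m a (FlatTau a) * JJ K m (FlatTau a) a) := by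
    ext a b
    rw [Matrix.mul_apply, Finset.sum_eq_single (FlatTau a)]
    · by_cases h : a = b
      · subst h
        rw [Matrix.diagonal_apply_eq]
      · rw [Matrix.diagonal_apply_ne _ h, Flat_JJ_zero (a := FlatTau a) (b := b), mul_zero]
        rw [FlatTau_FlatTau]
        exact fun h' => h h'.symm
    · intro c _ hc
      rw [Flat_JJ_zero hc, zero_mul]
    · intro h
      exact absurd (Finset.mem_univ _) h
  intro h0
  have h1 : (JJ K m * JJ K m).det = 0 := by rw [Matrix.det_mul, h0, zero_mul]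
  rw [hmul, Matrix.det_diagonal, Finset.prod_eq_zero_iff] at h1
  obtain ⟨a, -, ha⟩ := h1
  have ha2 : (2 : K) ≠ 0 := by
    have h3 := hK 2 (by norm_num) (by
      have := a.1.2
      have := a.2
      omega)
    exact_mod_cast h3
  rcases mul_eq_zero.1 ha with h | h
  · rw [Flat_JJ_tau] at h
    exact div_ne_zero ha2 (hsub a) h
  · have h4 := Flat_JJ_tau (K := K) (FlatTau a)
    rw [FlatTau_FlatTau] at h4
    rw [h4] at h
    refine div_ne_zero ha2 ?_ h
    have h5 := hsub a
    intro h6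
    apply h5
    linear_combination -h6

private theorem Flat_coeff {R : Type*} [CommRing R] (b q : PowerSeries R) (N j : ℕ) (hj : j ≤ N)
    (hq : ∀ l ≤ N, PowerSeries.coeff l q = if l = j then 1 else 0) :
    PowerSeries.coeff N (b * q) = PowerSeries.coeff (N - j) b := by
  rw [PowerSeries.coeff_mul, Finset.sum_eq_single (N - j, j)]
  · rw [hq j hj, if_pos rfl, mul_one]
  · rintro ⟨r, t⟩ hrt hne
    have hrt' : r + t = N := Finset.HasAntidiagonal.mem_antidiagonal.1 hrt
    show PowerSeries.coeff r b * PowerSeries.coeff t q = 0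
    rw [hq t (by omega), if_neg, mul_zero]
    rintro rfl
    apply hne
    rw [Prod.mk.injEq]
    exact ⟨by omega, rfl⟩
  · intro h
    exact absurd (Finset.HasAntidiagonal.mem_antidiagonal.2 (show N - j + j = N by omega)) h

private theorem Flat_basis {R : Type*} [CommRing R] {m : ℕ} (hm : 3 ≤ m) {f : R[X]}
    {ψ : PowerSeries R} (hψ : IsPsi m f ψ) (i : Idx m) (l : ℕ) (hl : l ≤ m - 2) :
    PowerSeries.coeff l (hat (m - 2) (pol m f ψ (Pi.single i 1)) * ψ) =
      if l = ((i : Fin (m - 1)) : ℕ) then 1 else 0 := by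
  rw [coeff_hat_pol hm hψ _ (show l < m - 1 by omega)]
  by_cases h : 2 * l + 2 = m
  · rw [coeff_ser_mid _ h, if_neg]
    intro h1
    apply i.2
    rw [← h1]
    exact h
  · have h1 := coeff_ser (R := R) (Pi.single i 1) (⟨⟨l, by omega⟩, h⟩ : Idx m)
    rw [h1, Pi.single_apply]
    by_cases h2 : l = ((i : Fin (m - 1)) : ℕ)
    · rw [if_pos h2, if_pos]
      apply Subtype.ext
      apply Fin.ext
      exact h2
    · rw [if_neg h2, if_neg]
      intro h3
      apply h2
      rw [← h3]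

private theorem Flat_symm {R : Type*} [CommRing R] [IsDomain R] {D : Derivation ℤ R R} {c : R}
    {m : ℕ} (hm : 3 ≤ m) {f : R[X]} (hf : f.Monic) (hfm : f.natDegree = m) {ψ : PowerSeries R}
    (hψ : IsPsi m f ψ) (c' : R) (hc' : c' ≠ 0) (u v : R[X]) (huv : u * f + v * derivative f = C c')
    (i j : Idx m) (Bi Bj : R[X]) (hBi : Bi.natDegree < m) (hBj : Bj.natDegree < m)
    (hi : f ∣ C c * pol m f ψ (Pi.single i 1) * dco D f - Bi * derivative f)
    (hj : f ∣ C c * pol m f ψ (Pi.single j 1) * dco D f - Bj * derivative f) :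
    PowerSeries.coeff (m - 2 - ((j : Fin (m - 1)) : ℕ)) (hat (m - 1) Bi * ψ) =
      PowerSeries.coeff (m - 2 - ((i : Fin (m - 1)) : ℕ)) (hat (m - 1) Bj * ψ) := by
  set P := pol m f ψ (Pi.single i 1) with hP
  set Q := pol m f ψ (Pi.single j 1) with hQ
  have hPd : P.natDegree ≤ m - 2 := natDegree_pol_le m f ψ _
  have hQd : Q.natDegree ≤ m - 2 := natDegree_pol_le m f ψ _
  have hdvd : f ∣ C c' * (Bi * Q - Bj * P) := by
    obtain ⟨x, hx⟩ := hi
    obtain ⟨y, hy⟩ := hj
    refine ⟨u * (Bi * Q - Bj * P) + v * (y * P - x * Q), ?_⟩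
    rw [← huv]
    linear_combination v * Q * (-hx) + v * P * hy
  obtain ⟨E, hE⟩ := hdvd
  have hEd : E.natDegree ≤ m - 3 := by
    by_cases hE0 : E = 0
    · rw [hE0, natDegree_zero]
      exact Nat.zero_le _
    · have h1 : (f * E).natDegree = m + E.natDegree := by
        rw [hf.natDegree_mul' hE0, hfm]
      have h2 : (C c' * (Bi * Q - Bj * P)).natDegree ≤ (m - 1) + (m - 2) := by
        refine (natDegree_C_mul_le _ _).trans ((natDegree_sub_le _ _).trans (max_le ?_ ?_))
        · exact natDegree_mul_le.trans (add_le_add (by omega) hQd)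
        · exact natDegree_mul_le.trans (add_le_add (by omega) hPd)
      rw [hE, h1] at h2
      omega
  have hhat := congrArg (hat ((m - 1) + (m - 2))) hE
  rw [hat_C_mul, hat_sub, hat_mul (by omega : Bi.natDegree ≤ m - 1) hQd,
    hat_mul (by omega : Bj.natDegree ≤ m - 1) hPd] at hhat
  have hmm : (m - 1) + (m - 2) = m + (m - 3) := by omega
  rw [hmm, hat_mul hfm.le hEd] at hhat
  have hmul : PowerSeries.C c' * ((hat (m - 1) Bi * ψ) * (hat (m - 2) Q * ψ) -
      (hat (m - 1) Bj * ψ) * (hat (m - 2) P * ψ)) = hat (m - 3) E := by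
    linear_combination ψ ^ 2 * hhat + hat (m - 3) E * hψ.sq
  have hco := congrArg (PowerSeries.coeff (m - 2)) hmul
  rw [coeff_hat_of_lt E hEd (by omega), PowerSeries.coeff_C_mul, map_sub] at hco
  have h1 := (mul_eq_zero.1 hco).resolve_left hc'
  rw [Flat_coeff _ _ (m - 2) ((j : Fin (m - 1)) : ℕ) (by have := j.1.2; omega)
      (fun l hl => Flat_basis hm hψ j l hl),
    Flat_coeff _ _ (m - 2) ((i : Fin (m - 1)) : ℕ) (by have := i.1.2; omega)
      (fun l hl => Flat_basis hm hψ i l hl)] at h1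
  exact sub_eq_zero.1 h1

/-- Flatness of the cup product.

Proof. Let `R` be a domain containing `k`, `J = JJ` over `R`. For basis vectors `e_i`, `e_j` with
polynomials `P`, `Q` (degree `≤ m - 2`) and `B_P`, `B_Q` (degree `≤ m - 1`) from `IsGM`:
`f ∣ (Q B_P - P B_Q) f'`, and since `c'` is in `(f, f')`, `f ∣ c' (Q B_P - P B_Q)`. So
`c' (Q B_P - P B_Q) = f E` with `deg E ≤ m - 3` (`E = 0` if the left side is zero); taking `hat`
(degree `(m - 1) + (m - 2) = m + (m - 3)`) and multiplying by `ψ^2`: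
`c' (B_P^ ψ Q^ ψ - P^ ψ B_Q^ ψ) = hat (m - 3) E`, whose coefficient at `u^(m - 2)` is `0`
(`coeff_hat_of_lt`). `R` is a domain, so with `b = B_P^ ψ`, `b' = B_Q^ ψ` and
`a = P^ ψ`, `a' = Q^ ψ` (`a_l = δ_{il}`, `a'_l = δ_{jl}` for `l ≤ m - 2`, by `coeff_hat_pol`)
`∑_{r + s = m - 2} (b_r a'_s - a_r b'_s) = 0`; the middle term (`2 r = m - 2`) vanishes. On the
other hand, by the definition of `G` and `J` (`2 / (s - r)` times `- (m - 2 - 2 r) / 2` is `- 1`
for `r + s = m - 2`),
`(G^T J)_{ij} = ∑_{r + s = m - 2} G_{ri} J_{rs} a'_s = - ∑ b_r a'_s` and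
`(J G)_{ij} = ∑ a_r J_{rs} G_{sj} = ∑ a_r b'_s`. -/
theorem flat {k : Type*} [Field k] [CharZero k] {R : Type*} [CommRing R] [IsDomain R]
    [Algebra k R] {D : Derivation ℤ R R} {c : R} {m : ℕ} (hm : 3 ≤ m) {f : R[X]} (hf : f.Monic)
    (hfm : f.natDegree = m) {ψ : PowerSeries R} (hψ : IsPsi m f ψ)
    {G : Matrix (Idx m) (Idx m) R} (h : IsGM D c m f ψ G)
    (c' : R) (hc' : c' ≠ 0) (u v : R[X]) (huv : u * f + v * derivative f = C c') :
    G.transpose * (JJ k m).map (algebraMap k R) + (JJ k m).map (algebraMap k R) * G = 0 := by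
  have hinj : Function.Injective (algebraMap k R) := FaithfulSMul.algebraMap_injective k R
  have h2 : (2 : R) ≠ 0 := by
    have h3 : algebraMap k R 2 ≠ 0 := by
      rw [Ne, map_eq_zero_iff _ hinj]
      exact two_ne_zero
    rwa [map_ofNat] at h3
  obtain ⟨B, hB⟩ := h
  have key : ∀ a b : Idx m, 2 * (G (FlatTau a) b * algebraMap k R (JJ k m a (FlatTau a))) =
      2 * PowerSeries.coeff (m - 2 - ((a : Fin (m - 1)) : ℕ)) (hat (m - 1) (B b) * ψ) := by
    intro a b
    have h4 := (hB b).2.2 (FlatTau a)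
    have hne : ((((FlatTau a : Idx m) : Fin (m - 1)) : ℕ) : k) - (((a : Fin (m - 1)) : ℕ) : k) ≠ 0 := by
      intro h0
      have h5 := sub_eq_zero.1 h0
      have h6 : (((FlatTau a : Idx m) : Fin (m - 1)) : ℕ) = ((a : Fin (m - 1)) : ℕ) := by
        exact_mod_cast h5
      have h7 := FlatTau_add a
      apply a.2
      omega
    have hx : algebraMap k R (JJ k m a (FlatTau a)) *
        (((((FlatTau a : Idx m) : Fin (m - 1)) : ℕ) : R) - (((a : Fin (m - 1)) : ℕ) : R)) = 2 := by
      rw [Flat_JJ_tau]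
      have h5 : ((((FlatTau a : Idx m) : Fin (m - 1)) : ℕ) : R) - (((a : Fin (m - 1)) : ℕ) : R) =
          algebraMap k R (((((FlatTau a : Idx m) : Fin (m - 1)) : ℕ) : k) - (((a : Fin (m - 1)) : ℕ) : k)) := by
        rw [map_sub, map_natCast, map_natCast]
      rw [h5, ← map_mul, div_mul_cancel₀ _ hne, map_ofNat]
    have hm' : (m : R) = (((a : Fin (m - 1)) : ℕ) : R) + ((((FlatTau a : Idx m) : Fin (m - 1)) : ℕ) : R) + 2 := by
      have h5 := congrArg (fun n : ℕ => (n : R)) (FlatTau_add a)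
      simp only [Nat.cast_add, Nat.cast_ofNat] at h5
      exact h5.symm
    have h8 : PowerSeries.coeff (((FlatTau a : Idx m) : Fin (m - 1)) : ℕ) (hat (m - 1) (B b) * ψ) =
      PowerSeries.coeff (m - 2 - ((a : Fin (m - 1)) : ℕ)) (hat (m - 1) (B b) * ψ) := rfl
    rw [h8, hm'] at h4
    linear_combination algebraMap k R (JJ k m a (FlatTau a)) * h4 +
      PowerSeries.coeff (m - 2 - ((a : Fin (m - 1)) : ℕ)) (hat (m - 1) (B b) * ψ) * hx
  have key' : ∀ a b : Idx m, G (FlatTau a) b * algebraMap k R (JJ k m a (FlatTau a)) =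
      PowerSeries.coeff (m - 2 - ((a : Fin (m - 1)) : ℕ)) (hat (m - 1) (B b) * ψ) :=
    fun a b => mul_left_cancel₀ h2 (key a b)
  ext i j
  rw [Matrix.add_apply, Matrix.zero_apply, Matrix.mul_apply, Matrix.mul_apply,
    Finset.sum_eq_single (FlatTau j), Finset.sum_eq_single (FlatTau i)]
  · rw [Matrix.transpose_apply, Matrix.map_apply, Matrix.map_apply]
    have h5 : JJ k m (FlatTau j) j = - JJ k m j (FlatTau j) := by
      have h6 := congrFun (congrFun (JJ_transpose k m) j) (FlatTau j)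
      rw [Matrix.transpose_apply, Matrix.neg_apply] at h6
      exact h6
    have h7 := key' j i
    have h8 := key' i j
    have h9 := Flat_symm hm hf hfm hψ c' hc' u v huv i j (B i) (B j) (hB i).1 (hB j).1 (hB i).2.1
      (hB j).2.1
    rw [h5, map_neg]
    linear_combination -h7 + h8 - h9
  · intro r _ hr
    rw [Matrix.map_apply, Flat_JJ_zero hr, map_zero, zero_mul]
  · intro h
    exact absurd (Finset.mem_univ _) h
  · intro r _ hr
    rw [Matrix.map_apply, Flat_JJ_zero, map_zero, mul_zero]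
    rintro rfl
    exact hr (FlatTau_FlatTau r).symm
  · intro h
    exact absurd (Finset.mem_univ _) h

end MPadcLP
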