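import Mathlib
import Pool.Agent.Lib.MP_adc574_ag_LP.Flat
import Pool.Agent.Lib.MP_adc574_ag.Cartier

/-! # Characteristic `p`: the kernel of the Cartier operator is a horizontal Lagrangian -/

set_option autoImplicit false

namespace MPadcLP

open Polynomial MPadc574

variable {p : ℕ} [Fact p.Prime] {K : Type*} [Field K] [CharP K p]

theorem CharP.two_mul_half (hp2 : p ≠ 2) : 2 * ((p - 1) / 2) + 1 = p := by
  have hprime : p.Prime := Fact.out
  obtain ⟨k, hk⟩ := hprime.odd_of_ne_two hp2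
  omega

theorem CharP.half_pos (hp2 : p ≠ 2) : 0 < (p - 1) / 2 := by
  have h1 := CharP.two_mul_half hp2
  have h2 : 2 ≤ p := (Fact.out : p.Prime).two_le
  omega

theorem CharP.two_mul_half_cast (hp2 : p ≠ 2) {R : Type*} [CommRing R] [CharP R p] :
    2 * (((p - 1) / 2 : ℕ) : R) = -1 := by
  have h1 := CharP.two_mul_half hp2
  have h2 : ((2 * ((p - 1) / 2) + 1 : ℕ) : R) = 0 := by rw [h1, CharP.cast_eq_zero]
  push_cast at h2
  linear_combination h2

theorem CharP.two_ne_zero' (hp2 : p ≠ 2) : (2 : K) ≠ 0 := by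
  intro h
  have h1 := CharP.two_mul_half_cast (p := p) hp2 (R := K)
  rw [h, zero_mul] at h1
  exact one_ne_zero (neg_eq_zero.1 h1.symm)

/-- The kernel of `P ↦ cop (P f ^ ((p - 1) / 2))` is stable under the Gauss–Manin connection.

Proof: let `e = (p - 1) / 2` and `P f ^ e = V'` (`exists_derivative_of_cop_eq_zero`), and `A`, `B`
from `pol_nab`. As `2 e = - 1` in `K`,
`2 pol (nab a) f ^ e = (2 c DP - A - 2 B') f ^ e = (2 c DV - 2 B f ^ e)'`
(`(2 c DV)' = 2 c D(P f ^ e) = 2 c (DP) f ^ e - c P (Df) f ^ (e - 1)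
  = 2 c (DP) f ^ e - A f ^ e - B f' f ^ (e - 1)` and
`(2 B f ^ e)' = 2 B' f ^ e - B f' f ^ (e - 1)`), so `cop` of it is zero (`cop_derivative`); `2 ≠ 0`
(`cop_C_mul`). -/
theorem cop_stable (hp2 : p ≠ 2) (D : Derivation ℤ K K) {c : K} {m : ℕ} (hm : 3 ≤ m) {f : K[X]}
    (hf : f.Monic) (hfm : f.natDegree = m) {ψ : PowerSeries K} (hψ : IsPsi m f ψ)
    {G : Matrix (Idx m) (Idx m) K} (h : IsGM D c m f ψ G) (a : Idx m → K)
    (ha : cop p (pol m f ψ a * f ^ ((p - 1) / 2)) = 0) :
    cop p (pol m f ψ (nab D c G a) * f ^ ((p - 1) / 2)) = 0 := by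
  have hp : 0 < p := (Fact.out : p.Prime).pos
  obtain ⟨V, hV⟩ := exists_derivative_of_cop_eq_zero ha
  obtain ⟨A, B, -, -, hAB, hnab⟩ := pol_nab hm hf hfm hψ h a
  obtain ⟨e, he⟩ : ∃ e, (p - 1) / 2 = e + 1 := ⟨(p - 1) / 2 - 1, by
    have := CharP.half_pos (p := p) hp2
    omega⟩
  have he2 : 2 * ((e + 1 : ℕ) : K[X]) = -1 := by
    rw [← he]
    exact CharP.two_mul_half_cast hp2
  have h2 : (2 : K) ≠ 0 := CharP.two_ne_zero' hp2
  set P := pol m f ψ a with hP
  have hD : dco D (derivative V) = dco D P * f ^ (e + 1) +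
      P * (((e + 1 : ℕ) : K[X]) * f ^ e * dco D f) := by
    rw [← hV, he, Derivation.leibniz, Derivation.leibniz_pow]
    simp only [smul_eq_mul, nsmul_eq_mul, Nat.add_sub_cancel]
    ring
  have hB : derivative (B * f ^ (e + 1)) = derivative B * f ^ (e + 1) +
      B * (((e + 1 : ℕ) : K[X]) * f ^ e * derivative f) := by
    rw [derivative_mul, derivative_pow, Nat.add_sub_cancel, map_natCast]
  have key : C 2 * (pol m f ψ (nab D c G a) * f ^ ((p - 1) / 2)) =
      derivative (C (2 * c) * dco D V - C 2 * (B * f ^ (e + 1))) := by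
    rw [derivative_sub, derivative_C_mul, derivative_C_mul, ← dco_derivative, hD, hB, he]
    have hC2 : (C (2 : K) : K[X]) = 2 := map_ofNat C 2
    rw [C_mul, hC2]
    linear_combination f ^ (e + 1) * hnab + f ^ e * hAB +
      (-(C c * P * f ^ e * dco D f) + B * f ^ e * derivative f) * he2
  have h3 : C (2 : K) * cop p (pol m f ψ (nab D c G a) * f ^ ((p - 1) / 2)) = 0 := by
    rw [← cop_C_mul hp, key, cop_derivative]
  rcases mul_eq_zero.1 h3 with h4 | h4
  · exact absurd (C_eq_zero.1 h4) h2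
  · exact h4

omit [Fact p.Prime] in
/-- In characteristic `p`, if `(X - r) ^ e` divides `W'`, `W(r) = 0` and `e < p` then
`(X - r) ^ (e + 1)` divides `W`. -/
theorem CharP.pow_dvd_of_dvd_derivative {W : K[X]} {r : K} {e : ℕ} (he : e < p)
    (h0 : W.eval r = 0) (h : (X - C r) ^ e ∣ derivative W) : (X - C r) ^ (e + 1) ∣ W := by
  by_cases hW : W = 0
  · rw [hW]
    exact dvd_zero _
  by_contra hnot
  have hk : W.rootMultiplicity r < e + 1 := by
    by_contra h1
    push Not at h1
    exact hnot ((le_rootMultiplicity_iff hW).1 h1)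
  obtain ⟨U, hU, hUr⟩ := exists_eq_pow_rootMultiplicity_mul_and_not_dvd W hW r
  have hkpos : 0 < W.rootMultiplicity r := (rootMultiplicity_pos hW).2 h0
  generalize W.rootMultiplicity r = k at hk hU hkpos
  obtain ⟨k, rfl⟩ := Nat.exists_eq_succ_of_ne_zero hkpos.ne'
  rw [Nat.succ_eq_add_one] at *
  have hd : derivative W = (X - C r) ^ k * (((k + 1 : ℕ) : K[X]) * U +
      (X - C r) * derivative U) := by
    rw [hU, derivative_mul, derivative_pow]
    simp only [Nat.add_sub_cancel, map_natCast, derivative_sub, derivative_X, derivative_C,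
      sub_zero, mul_one]
    ring
  have h1 : (X - C r) ∣ ((k + 1 : ℕ) : K[X]) * U + (X - C r) * derivative U := by
    have h2 : (X - C r) ^ (k + 1) ∣ derivative W := (pow_dvd_pow _ (by omega)).trans h
    rw [hd, pow_succ] at h2
    exact (mul_dvd_mul_iff_left (pow_ne_zero _ (X_sub_C_ne_zero r))).1 h2
  have h3 : (X - C r) ∣ ((k + 1 : ℕ) : K[X]) * U :=
    (dvd_add_left (dvd_mul_right _ _)).1 h1
  rcases (prime_X_sub_C r).dvd_or_dvd h3 with h4 | h4
  · rw [dvd_iff_isRoot, IsRoot.def, eval_natCast] at h4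
    rw [CharP.cast_eq_zero_iff K p] at h4
    have := Nat.le_of_dvd (by omega) h4
    omega
  · exact hUr h4

/-- If `f` is separable and the derivative of `V` is divisible by `f ^ ((p - 1) / 2)`, then
`V = c(x ^ p) + f ^ ((p + 1) / 2) Q` over an algebraically closed field.

Proof: the roots `r` of `f` are distinct, and so are the `r ^ p`; let `c` be the Lagrange
interpolation polynomial with `c(r ^ p) = V(r)`. Then `W = V - c(x ^ p)` vanishes at every root
`r` and `W' = V'` vanishes there to order at least `(p - 1) / 2`; in characteristic `p` a zero of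
order `k < p`, `k ≥ 1` of `W` is a zero of order exactly `k - 1` of `W'`, so `W` vanishes at `r` to
order at least `(p + 1) / 2`. -/
theorem exists_expand_add [IsAlgClosed K] (hp2 : p ≠ 2) {f V : K[X]} (hf : f.Separable)
    (hV : f ^ ((p - 1) / 2) ∣ derivative V) :
    ∃ c Q : K[X], V = expand K p c + f ^ ((p + 1) / 2) * Q := by
  classical
  have hp : 0 < p := (Fact.out : p.Prime).pos
  have hpodd := CharP.two_mul_half (p := p) hp2
  set e := (p - 1) / 2 with he
  have he1 : (p + 1) / 2 = e + 1 := by omega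
  rw [he1]
  have hinj : Set.InjOn (fun r : K => r ^ p) (f.roots.toFinset : Set K) := by
    intro a _ b _ hab
    exact frobenius_inj K p hab
  set c := Lagrange.interpolate f.roots.toFinset (fun r : K => r ^ p) (fun r => V.eval r) with hc
  have hceval : ∀ r ∈ f.roots.toFinset, c.eval (r ^ p) = V.eval r := by
    intro r hr
    exact Lagrange.eval_interpolate_at_node (v := fun r : K => r ^ p) _ hinj hr
  have hdvd : ∏ r ∈ f.roots.toFinset, (X - C r) ^ (e + 1) ∣ V - expand K p c := by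
    apply Finset.prod_dvd_of_coprime
    · intro a _ b _ hab
      exact (isCoprime_X_sub_C_of_isUnit_sub (sub_ne_zero.2 hab).isUnit).pow
    · intro r hr
      apply CharP.pow_dvd_of_dvd_derivative (p := p) (by omega)
      · rw [eval_sub, expand_eval, hceval r hr, sub_self]
      · rw [derivative_sub, derivative_expand, CharP.cast_eq_zero, zero_mul, mul_zero, sub_zero]
        refine (pow_dvd_pow_of_dvd ?_ e).trans hV
        rw [dvd_iff_isRoot]
        rw [Multiset.mem_toFinset] at hr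
        exact isRoot_of_mem_roots hr
  have hf0 : f ≠ 0 := hf.ne_zero
  have hfprod : f ^ (e + 1) = C (f.leadingCoeff ^ (e + 1)) *
      ∏ r ∈ f.roots.toFinset, (X - C r) ^ (e + 1) := by
    rw [Finset.prod_pow, C_pow, ← mul_pow]
    congr 1
    conv_lhs => rw [(IsAlgClosed.splits f).eq_prod_roots]
    congr 1
    rw [Finset.prod, Multiset.toFinset_val, Multiset.dedup_eq_self.2 (nodup_roots hf)]
  have hdvd2 : f ^ (e + 1) ∣ V - expand K p c := by
    rw [hfprod]
    refine (IsUnit.mul_left_dvd ?_).2 hdvd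
    rw [isUnit_C]
    exact (pow_ne_zero _ (leadingCoeff_ne_zero.2 hf0)).isUnit
  obtain ⟨Q, hQ⟩ := hdvd2
  exact ⟨c, Q, by rw [← hQ]; ring⟩

theorem CharP.cop_mul_derivative_aux [IsAlgClosed K] (hp2 : p ≠ 2) {m : ℕ} (hm : 3 ≤ m)
    (hpm : m < p) {f : K[X]}
    (hf : f.Monic) (hfm : f.natDegree = m) (hfs : f.Separable) {T₁ T₂ V₁ V₂ : K[X]}
    (h1 : T₁ * f ^ ((p - 1) / 2) = derivative V₁) (h2 : T₂ * f ^ ((p - 1) / 2) = derivative V₂)
    (hd2 : T₂.natDegree ≤ m - 2)
    (hV : V₁.natDegree ≤ m * ((p - 1) / 2) + m - 1) :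
    cop p (V₁ * derivative V₂) = 0 := by
  have hp : 0 < p := (Fact.out : p.Prime).pos
  obtain ⟨c, Q, hcQ⟩ := exists_expand_add hp2 hfs (V := V₁) (Dvd.intro_left _ h1)
  have hpodd := CharP.two_mul_half (p := p) hp2
  set e := (p - 1) / 2 with he
  have he1 : (p + 1) / 2 = e + 1 := by omega
  rw [he1] at hcQ
  have hfp : f ^ (e + 1) * f ^ e = f ^ p := by
    rw [← pow_add]
    congr 1
    omega
  have h3 : V₁ * derivative V₂ = expand K p c * derivative V₂ + f ^ p * (Q * T₂) := by
    rw [hcQ, ← hfp, ← h2]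
    ring
  have h4 : cop p (V₁ * derivative V₂) = f.map (frobenius K p) * cop p (Q * T₂) := by
    rw [h3, cop_add hp, cop_expand_mul hp, cop_derivative, mul_zero, zero_add, cop_pow_mul]
  by_contra hne
  have hmon : (f.map (frobenius K p)).Monic := hf.map _
  have hmd : (f.map (frobenius K p)).natDegree = m := by rw [hf.natDegree_map, hfm]
  have hQT : cop p (Q * T₂) ≠ 0 := by
    intro h0
    rw [h4, h0, mul_zero] at hne
    exact hne rfl
  have hdeg : m ≤ (cop p (V₁ * derivative V₂)).natDegree := by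
    rw [h4, natDegree_mul hmon.ne_zero hQT, hmd]
    exact Nat.le_add_right _ _
  have hdeg2 : (V₁ * derivative V₂).natDegree ≤ (m * e + m - 1) + ((m - 2) + m * e) := by
    refine natDegree_mul_le.trans (Nat.add_le_add hV ?_)
    rw [← h2]
    refine natDegree_mul_le.trans (Nat.add_le_add hd2 ?_)
    refine natDegree_pow_le.trans ?_
    rw [hfm, mul_comm]
  have hlead : (cop p (V₁ * derivative V₂)).coeff (cop p (V₁ * derivative V₂)).natDegree ≠ 0 := by
    rw [coeff_natDegree]
    exact leadingCoeff_ne_zero.2 hne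
  apply hlead
  rw [coeff_cop hp]
  apply coeff_eq_zero_of_natDegree_lt
  refine lt_of_le_of_lt hdeg2 ?_
  have h5 : p * (m + 1) ≤ p * ((cop p (V₁ * derivative V₂)).natDegree + 1) :=
    Nat.mul_le_mul_left _ (by omega)
  have h6 : p * (m + 1) = (2 * e + 1) * (m + 1) := by rw [hpodd]
  have h7 : (2 * e + 1) * (m + 1) = 2 * (m * e) + 2 * e + m + 1 := by ring
  omega

/-- If `T₁ f ^ e = V₁'`, `T₂ f ^ e = V₂'`, `e = (p - 1) / 2`, `deg T_i ≤ m - 2` and
`deg V₁ ≤ m e + m - 1` then `cop (V₁ V₂') = 0`.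

Proof: pass to the algebraic closure (`cop_map`). `V₁ = c(x ^ p) + f ^ ((p + 1) / 2) Q`, so
`cop (V₁ V₂') = c cop (V₂') + cop (f ^ p Q T₂) = f^(p) cop (Q T₂)` (`cop_expand_mul`,
`cop_derivative`, `cop_pow_mul`), where `f^(p) = f.map frobenius` has degree `m`. The degree of
`V₁ V₂'` is at most `(m e + m - 1) + (m - 2 + m e) = m p + m - 3`, so `cop` of it has degree
at most `m - 1` (`p > m`), and therefore `cop (Q T₂) = 0`. -/
theorem cop_mul_derivative (hp2 : p ≠ 2) {m : ℕ} (hm : 3 ≤ m) (hpm : m < p) {f : K[X]}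
    (hf : f.Monic) (hfm : f.natDegree = m) (hfs : f.Separable) {T₁ T₂ V₁ V₂ : K[X]}
    (h1 : T₁ * f ^ ((p - 1) / 2) = derivative V₁) (h2 : T₂ * f ^ ((p - 1) / 2) = derivative V₂)
    (hd1 : T₁.natDegree ≤ m - 2) (hd2 : T₂.natDegree ≤ m - 2)
    (hV : V₁.natDegree ≤ m * ((p - 1) / 2) + m - 1) :
    cop p (V₁ * derivative V₂) = 0 := by
  have hp : 0 < p := (Fact.out : p.Prime).pos
  have : CharP (AlgebraicClosure K) p := charP_of_injective_algebraMap
    (algebraMap K (AlgebraicClosure K)).injective p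
  have key := CharP.cop_mul_derivative_aux (p := p) (K := AlgebraicClosure K) hp2 hm hpm
    (hf.map (algebraMap K (AlgebraicClosure K))) (by rw [hf.natDegree_map, hfm]) hfs.map
    (T₁ := T₁.map (algebraMap K (AlgebraicClosure K)))
    (T₂ := T₂.map (algebraMap K (AlgebraicClosure K)))
    (V₁ := V₁.map (algebraMap K (AlgebraicClosure K)))
    (V₂ := V₂.map (algebraMap K (AlgebraicClosure K)))
    (by rw [derivative_map, ← h1, Polynomial.map_mul, Polynomial.map_pow])
    (by rw [derivative_map, ← h2, Polynomial.map_mul, Polynomial.map_pow])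
    (natDegree_map_le.trans hd2) (natDegree_map_le.trans hV)
  rw [derivative_map, ← Polynomial.map_mul, cop_map hp] at key
  exact (Polynomial.map_eq_zero_iff (algebraMap K (AlgebraicClosure K)).injective).1 key

theorem CharP.hat_pow {R : Type*} [CommRing R] {m : ℕ} {f : R[X]} (hfm : f.natDegree ≤ m)
    (k : ℕ) : hat (m * k) (f ^ k) = hat m f ^ k := by
  induction k with
  | zero =>
    rw [Nat.mul_zero, pow_zero, pow_zero]
    unfold hat
    rw [← C_1, reflect_C]
    simp
  | succ k ih =>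
    rw [pow_succ, pow_succ, Nat.mul_succ, hat_mul _ hfm, ih]
    refine natDegree_pow_le.trans ?_
    rw [mul_comm]
    exact Nat.mul_le_mul_right _ hfm

/-- The leading coefficients of `f ^ ((p - 1) / 2)` are those of `ψ`:
`f^ ^ ((p - 1) / 2) ≡ ψ` modulo `u ^ p`, as `(f^ ^ ((p - 1) / 2) / ψ) ^ 2 = f^ ^ p ≡ 1`
modulo `u ^ p` and both have constant coefficient `1` (`f^ ^ p` is a `p`-th power; `p ≠ 2`).
So for `P` of degree `≤ n` the coefficient of `x ^ (n + m (p - 1) / 2 - i)`, `i < p`, of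
`P f ^ ((p - 1) / 2)` is the coefficient of `u ^ i` of `hat n P * ψ`. -/
theorem coeff_mul_pow (hp2 : p ≠ 2) {m : ℕ} {f : K[X]} (hf : f.Monic) (hfm : f.natDegree = m)
    {ψ : PowerSeries K} (hψ : IsPsi m f ψ) {n : ℕ} {P : K[X]} (hP : P.natDegree ≤ n) {i : ℕ}
    (hi : i < p) (hi' : i ≤ n + m * ((p - 1) / 2)) :
    (P * f ^ ((p - 1) / 2)).coeff (n + m * ((p - 1) / 2) - i) =
      PowerSeries.coeff i (hat n P * ψ) := by
  have hp : 0 < p := (Fact.out : p.Prime).pos
  have hpodd := CharP.two_mul_half (p := p) hp2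
  have h2 : (2 : K) ≠ 0 := CharP.two_ne_zero' hp2
  have hfc := constantCoeff_hat hf hfm
  set e := (p - 1) / 2 with he
  have hfe : (f ^ e).natDegree ≤ m * e := by
    refine natDegree_pow_le.trans ?_
    rw [hfm, mul_comm]
  rw [← coeff_hat _ hi', hat_mul hP hfe, CharP.hat_pow hfm.le]
  set F := hat m f with hF
  have hcp : CharP (PowerSeries K) p := charP_of_injective_algebraMap
    (algebraMap K (PowerSeries K)).injective p
  have h3 : (F ^ e - ψ) * (F ^ e + ψ) = (F - 1) ^ p * ψ ^ 2 := by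
    rw [sub_pow_char, one_pow]
    have h4 : F ^ p = F ^ (2 * e) * F := by
      rw [← pow_succ, hpodd]
    rw [h4]
    linear_combination (-F ^ (2 * e)) * hψ.sq
  have h5 : (PowerSeries.X : PowerSeries K) ∣ F - 1 := by
    rw [PowerSeries.X_dvd_iff, map_sub, hfc, map_one, sub_self]
  have h6 : (PowerSeries.X : PowerSeries K) ^ p ∣ (F ^ e - ψ) * (F ^ e + ψ) := by
    rw [h3]
    exact (pow_dvd_pow_of_dvd h5 p).mul_right _
  have h7 : IsUnit (F ^ e + ψ) := by
    rw [PowerSeries.isUnit_iff_constantCoeff, map_add, map_pow, hfc, hψ.const, one_pow,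
      one_add_one_eq_two]
    exact h2.isUnit
  have h8 : (PowerSeries.X : PowerSeries K) ^ p ∣ F ^ e - ψ := (h7.dvd_mul_right).1 h6
  have h9 : (PowerSeries.X : PowerSeries K) ^ p ∣ hat n P * F ^ e - hat n P * ψ := by
    rw [← mul_sub]
    exact h8.mul_left _
  have h10 := (PowerSeries.X_pow_dvd_iff.1 h9) i hi
  rw [map_sub, sub_eq_zero] at h10
  exact h10

end MPadcLP
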