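import Mathlib
import Pool.Agent.Lib.MP_adc574_ag_LP.CharP

/-! # Characteristic `p`: the horizontal Lagrangian -/

set_option autoImplicit false

namespace MPadcLP

open Polynomial MPadc574

variable {p : ℕ} [Fact p.Prime] {K : Type*} [Field K] [CharP K p]

/-- A primitive of `v`, when `cop v = 0`, with control of the coefficients. -/
theorem CharP2.exists_prim {v : K[X]} (h : cop p v = 0) {n : ℕ} (hn : v.natDegree ≤ n) :
    ∃ w : K[X], v = derivative w ∧ w.natDegree ≤ n + 1 ∧
      ∀ i, w.coeff (i + 1) = v.coeff i / ((i : K) + 1) := by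
  have hp : 0 < p := (Fact.out : p.Prime).pos
  rw [cop_eq_zero_iff hp] at h
  set w : K[X] := ∑ m ∈ Finset.range (n + 1), C (v.coeff m / ((m : K) + 1)) * X ^ (m + 1) with hw
  have hc : ∀ i, w.coeff (i + 1) = v.coeff i / ((i : K) + 1) := by
    intro i
    rw [hw, finsetSum_coeff]
    simp only [coeff_C_mul, coeff_X_pow, mul_ite, mul_one, mul_zero, add_left_inj]
    rw [Finset.sum_ite_eq]
    split_ifs with h1
    · rfl
    · rw [Finset.mem_range, not_lt] at h1
      rw [coeff_eq_zero_of_natDegree_lt (by omega), zero_div]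
  refine ⟨w, ?_, ?_, hc⟩
  · ext i
    rw [coeff_derivative, hc]
    by_cases h0 : ((i : K) + 1) = 0
    · have h1 : ((i + 1 : ℕ) : K) = 0 := by push_cast; exact h0
      rw [CharP.cast_eq_zero_iff K p] at h1
      obtain ⟨k, hk⟩ := h1
      have hk0 : k ≠ 0 := by
        rintro rfl
        simp at hk
      obtain ⟨j, rfl⟩ := Nat.exists_eq_succ_of_ne_zero hk0
      have h2 : v.coeff i = 0 := by
        have := h j
        rw [Nat.succ_eq_add_one] at hk
        rw [← hk, Nat.add_sub_cancel] at this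
        exact this
      rw [h2, h0, mul_zero]
    · rw [div_mul_cancel₀ _ h0]
  · rw [hw]
    apply natDegree_sum_le_of_forall_le
    intro j hj
    refine (natDegree_C_mul_X_pow_le _ _).trans ?_
    have := Finset.mem_range.1 hj
    omega

/-- The conjugate index. -/
def CharP2.cj {m : ℕ} (j : Idx m) : Idx m :=
  ⟨⟨m - 2 - ((j : Fin (m - 1)) : ℕ), by
    have := (j : Fin (m - 1)).2
    omega⟩, by
    have h1 := (j : Fin (m - 1)).2
    have h2 := j.2
    simp only
    omega⟩

theorem CharP2.cj_val {m : ℕ} (j : Idx m) :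
    (((CharP2.cj j : Idx m) : Fin (m - 1)) : ℕ) = m - 2 - ((j : Fin (m - 1)) : ℕ) := rfl

theorem CharP2.BB_eq {L : Type*} [Field L] {m : ℕ} (hm : 3 ≤ m) (a b : Idx m → L) :
    BB (JJ L m) a b = ∑ j : Idx m, a j * (2 / (((m - 2 - ((j : Fin (m - 1)) : ℕ) : ℕ) : L) -
      (((j : Fin (m - 1)) : ℕ) : L)) * b (CharP2.cj j)) := by
  unfold BB
  rw [dotProduct]
  apply Finset.sum_congr rfl
  intro j _
  congr 1
  rw [Matrix.mulVec, dotProduct, Finset.sum_eq_single (CharP2.cj j)]
  · unfold JJ
    rw [if_pos]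
    · rw [CharP2.cj_val]
    · rw [CharP2.cj_val]
      have := (j : Fin (m - 1)).2
      omega
  · intro l _ hl
    unfold JJ
    rw [if_neg, zero_mul]
    intro h
    apply hl
    apply Subtype.ext
    apply Fin.ext
    rw [CharP2.cj_val]
    omega
  · intro h
    exact absurd (Finset.mem_univ _) h

theorem CharP2.natDegree_le {m : ℕ} {f : K[X]} (hfm : f.natDegree = m) (ψ : PowerSeries K)
    (a : Idx m → K) (e : ℕ) : (pol m f ψ a * f ^ e).natDegree ≤ m - 2 + m * e := by
  refine natDegree_mul_le.trans (Nat.add_le_add (natDegree_pol_le m f ψ a) ?_)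
  refine natDegree_pow_le.trans ?_
  rw [hfm, mul_comm]

/-- The kernel of the Cartier operator is isotropic.

Proof. Let `e = (p - 1) / 2`, `P = pol a`, `Q = pol b`, `P f ^ e = V₁'`, `Q f ^ e = V₂'`, where
`V₁` is chosen without monomials `x ^ (p k)`, so of degree `≤ m e + m - 1`. By
`cop_mul_derivative` the coefficient of `x ^ (m p - 1)` of `V₁ V₂'` is zero. By `coeff_mul_pow`
(`n = m - 2`) and `coeff_hat_pol` the coefficient of `x ^ (m - 2 + m e - i)` in `P f ^ e` is
`(ser a)_i`, so the coefficient of `x ^ (m - 1 + m e - i)` in `V₁` is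
`(ser a)_i / (m - 1 + m e - i) = 2 (ser a)_i / (m - 2 - 2 i)` for `i ≤ m - 2`, `2 i + 2 ≠ m`
(`2 e = - 1` in `K`), and it is `0` for `2 i + 2 = m`. As `(m - 1 + m e) + (m - 2 + m e) - (m p - 1)
= m - 2`, the coefficient of `x ^ (m p - 1)` of `V₁ V₂'` is
`∑_{i + l = m - 2} (2 / (l - i)) a_i b_l = B(a, b)`. -/
theorem cop_isotropic (hp2 : p ≠ 2) {m : ℕ} (hm : 3 ≤ m) (hpm : m < p) {f : K[X]}
    (hf : f.Monic) (hfm : f.natDegree = m) (hfs : f.Separable) {ψ : PowerSeries K}
    (hψ : IsPsi m f ψ) (a b : Idx m → K)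
    (ha : cop p (pol m f ψ a * f ^ ((p - 1) / 2)) = 0)
    (hb : cop p (pol m f ψ b * f ^ ((p - 1) / 2)) = 0) : BB (JJ K m) a b = 0 := by
  have hp : 0 < p := (Fact.out : p.Prime).pos
  have hpodd := CharP.two_mul_half (p := p) hp2
  have hcoef := fun (c : Idx m → K) (i : ℕ) (hi : i < p) (hi' : i ≤ (m - 2) + m * ((p - 1) / 2)) =>
    coeff_mul_pow hp2 hf hfm hψ (natDegree_pol_le m f ψ c) hi hi'
  have he2 := CharP.two_mul_half_cast (p := p) hp2 (R := K)
  have h2 : (2 : K) ≠ 0 := CharP.two_ne_zero' hp2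
  set e := (p - 1) / 2 with he
  obtain ⟨V₁, hV₁, hd₁, hc₁⟩ := CharP2.exists_prim ha (CharP2.natDegree_le hfm ψ a e)
  obtain ⟨V₂, hV₂, -, -⟩ := CharP2.exists_prim hb (CharP2.natDegree_le hfm ψ b e)
  have hd2 : (derivative V₂).natDegree ≤ m - 2 + m * e := by
    rw [← hV₂]
    exact CharP2.natDegree_le hfm ψ b e
  have key := cop_mul_derivative hp2 hm hpm hf hfm hfs hV₁ hV₂ (natDegree_pol_le m f ψ a)
    (natDegree_pol_le m f ψ b) (by rw [← he]; omega)
  rw [cop_eq_zero_iff hp] at key
  have key2 := key (m - 1)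
  have h3 : PowerSeries.coeff (m - 2)
      (hat (m - 2 + m * e + 1) V₁ * hat (m - 2 + m * e) (derivative V₂)) = 0 := by
    rw [← hat_mul hd₁ hd2, coeff_hat _ (by omega)]
    rw [← key2]
    congr 1
    have h4 : p * (m - 1 + 1) = m * e + m * e + m := by
      have : m - 1 + 1 = m := by omega
      rw [this]
      nth_rewrite 1 [← hpodd]
      ring
    omega
  rw [PowerSeries.coeff_mul, Finset.Nat.sum_antidiagonal_eq_sum_range_succ_mk] at h3
  rw [CharP2.BB_eq hm]
  have h5 : ∀ i, i < m - 1 → (2 * i + 2 ≠ m) →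
      PowerSeries.coeff i (hat (m - 2 + m * e + 1) V₁) =
        PowerSeries.coeff i (ser a) * (2 / (((m - 2 - i : ℕ) : K) - (i : K))) := by
    intro i hi hi2
    rw [coeff_hat _ (by omega)]
    have h6 : m - 2 + m * e + 1 - i = (m - 2 + m * e - i) + 1 := by omega
    rw [h6, hc₁, hcoef a i (by omega) (by omega), coeff_hat_pol hm hψ a hi]
    rw [div_eq_mul_inv, div_eq_mul_inv]
    congr 1
    have h7 : (2 : K) * (((m - 2 + m * e - i : ℕ) : K) + 1) = ((m - 2 - i : ℕ) : K) - (i : K) := by
      have h8 : ((m - 2 + m * e - i : ℕ) : K) = ((m - 2 - i : ℕ) : K) + (m : K) * (e : K) := by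
        have : m - 2 + m * e - i = (m - 2 - i) + m * e := by omega
        rw [this]
        push_cast
        ring
      have h9 : (m : K) = ((m - 2 - i : ℕ) : K) + (i : K) + 2 := by
        have : m = (m - 2 - i) + i + 2 := by omega
        conv_lhs => rw [this]
        push_cast
        ring
      rw [h8]
      linear_combination (m : K) * he2 + (-1 : K) * h9
    rw [← h7, mul_inv, ← mul_assoc, mul_inv_cancel₀ h2, one_mul]
  have h10 : ∀ l, l < m - 1 →
      PowerSeries.coeff l (hat (m - 2 + m * e) (derivative V₂)) =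
        PowerSeries.coeff l (ser b) := by
    intro l hl
    rw [coeff_hat _ (by omega), ← hV₂, hcoef b l (by omega) (by omega), coeff_hat_pol hm hψ b hl]
  have h11 : (m - 2).succ = m - 1 := by omega
  rw [h11, Finset.sum_range, ← Fintype.sum_subtype_add_sum_subtype
    (fun j : Fin (m - 1) => 2 * (j : ℕ) + 2 ≠ m)] at h3
  rw [← h3]
  symm
  rw [add_eq_left.2]
  · apply Finset.sum_congr rfl
    intro j _
    rw [h5 _ (j : Fin (m - 1)).2 j.2, h10 _ (by
      have := (j : Fin (m - 1)).2
      omega), coeff_ser, mul_assoc]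
    congr 2
    exact coeff_ser b (CharP2.cj j)
  · apply Finset.sum_eq_zero
    intro j _
    have hj := not_not.1 j.2
    rw [h10 _ (by
      have := (j : Fin (m - 1)).2
      omega), coeff_ser_mid b (by omega), mul_zero]

/-- The kernel of the Cartier operator on `K ^ (Idx m)` has dimension at least `(m - 1) / 2`: it is
the kernel of the `(m - 1) / 2` functionals `a ↦ coeff (p (k + 1) - 1) (pol a * f ^ e)`,
`k < (m - 1) / 2`. The other coefficients at `p (k + 1) - 1` vanish: the degree of
`pol a * f ^ e` is at most `m - 2 + m (p - 1) / 2`, so only `2 (k + 1) ≤ m` can occur, and for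
`2 (k + 1) = m` the coefficient is `(ser a)_i` with `2 i + 2 = m`
(`coeff_mul_pow`, `coeff_hat_pol`, `coeff_ser_mid`). -/
theorem le_finrank_ker (hp2 : p ≠ 2) {m : ℕ} (hm : 3 ≤ m) (hpm : m < p) {f : K[X]}
    (hf : f.Monic) (hfm : f.natDegree = m) {ψ : PowerSeries K} (hψ : IsPsi m f ψ)
    (W : Submodule K (Idx m → K))
    (hW : ∀ a, a ∈ W ↔ cop p (pol m f ψ a * f ^ ((p - 1) / 2)) = 0) :
    (m - 1) / 2 ≤ Module.finrank K W := by
  have hp : 0 < p := (Fact.out : p.Prime).pos
  have hpodd := CharP.two_mul_half (p := p) hp2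
  have hcoef := fun (c : Idx m → K) (i : ℕ) (hi : i < p) (hi' : i ≤ (m - 2) + m * ((p - 1) / 2)) =>
    coeff_mul_pow hp2 hf hfm hψ (natDegree_pol_le m f ψ c) hi hi'
  set e := (p - 1) / 2 with he
  set Φ : (Idx m → K) →ₗ[K] (Fin ((m - 1) / 2) → K) :=
    { toFun := fun a k => (pol m f ψ a * f ^ e).coeff (p * ((k : ℕ) + 1) - 1)
      map_add' := by
        intro a b
        funext k
        rw [pol_add, add_mul, coeff_add, Pi.add_apply]
      map_smul' := by
        intro c a
        funext k
        rw [pol_smul, mul_assoc, coeff_C_mul, RingHom.id_apply, Pi.smul_apply, smul_eq_mul] }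
    with hΦ
  have hker : LinearMap.ker Φ ≤ W := by
    intro a ha
    rw [LinearMap.mem_ker] at ha
    rw [hW, cop_eq_zero_iff hp]
    intro i
    by_cases hi : i < (m - 1) / 2
    · exact congrFun ha ⟨i, hi⟩
    · by_cases hi2 : 2 * i + 2 = m
      · have h1 : p * (i + 1) = m * e + (i + 1) := by
          nth_rewrite 1 [← hpodd]
          rw [← hi2]
          ring
        have h2 : p * (i + 1) - 1 = m - 2 + m * e - i := by omega
        rw [h2, hcoef a i (by omega) (by omega), coeff_hat_pol hm hψ a (by omega),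
          coeff_ser_mid a hi2]
      · apply coeff_eq_zero_of_natDegree_lt
        refine lt_of_le_of_lt (CharP2.natDegree_le hfm ψ a e) ?_
        have h1 : m + 1 ≤ 2 * (i + 1) := by omega
        have h2 : p * (i + 1) = e * (2 * (i + 1)) + (i + 1) := by
          nth_rewrite 1 [← hpodd]
          ring
        have h3 : e * (m + 1) ≤ e * (2 * (i + 1)) := Nat.mul_le_mul_left _ h1
        have h4 : e * (m + 1) = m * e + e := by ring
        omega
  have h1 := LinearMap.finrank_range_add_finrank_ker Φ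
  have h2 : Module.finrank K (LinearMap.range Φ) ≤ (m - 1) / 2 := by
    refine (Submodule.finrank_le _).trans ?_
    rw [Module.finrank_fintype_fun_eq_card, Fintype.card_fin]
  have h3 : Module.finrank K (Idx m → K) = 2 * ((m - 1) / 2) := by
    rw [Module.finrank_fintype_fun_eq_card, card_Idx hm, Fintype.card_fin]
  have h4 : Module.finrank K (LinearMap.ker Φ) ≤ Module.finrank K W := Submodule.finrank_mono hker
  omega

/-- If the Cartier–Manin determinant vanishes, there is a nonzero vector of the kernel in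
`span (e_{fb i})`: `exists_cop_of_det_eq_zero` gives `q ≠ 0` of degree `< (m - 1) / 2` with
`cop (f ^ e q) = 0`; by `eq_pol` `q = pol a` with `a_j = 0` for `j < m - 1 - (m - 1) / 2`
(`hat (m - 2) q` is divisible by `u ^ (m - 1 - (m - 1) / 2)`). -/
theorem exists_mem_of_det (hp2 : p ≠ 2) {m : ℕ} (hm : 3 ≤ m) (hpm : m < p) {f : K[X]}
    (hf : f.Monic) (hfm : f.natDegree = m) {ψ : PowerSeries K} (hψ : IsPsi m f ψ)
    (hdet : (cmMatrix p ((m - 1) / 2) f).det = 0) :
    ∃ a : Idx m → K, a ≠ 0 ∧ cop p (pol m f ψ a * f ^ ((p - 1) / 2)) = 0 ∧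
      ∀ j, (∀ i, fbI m i ≠ j) → a j = 0 := by
  have hp : 0 < p := (Fact.out : p.Prime).pos
  have hpodd := CharP.two_mul_half (p := p) hp2
  obtain ⟨q, hq0, hqd, hq⟩ := exists_cop_of_det_eq_zero (n := m)
    ((Fact.out : p.Prime).odd_of_ne_two hp2) (by omega) f hfm.le (by omega) hdet
  have h1 : (PowerSeries.X : PowerSeries K) ^ (m - 1 - (m - 1) / 2) ∣ hat (m - 2) q * ψ := by
    apply Dvd.dvd.mul_right
    rw [PowerSeries.X_pow_dvd_iff]
    intro i hi
    rw [coeff_hat _ (by omega)]
    apply coeff_eq_zero_of_natDegree_lt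
    omega
  rw [PowerSeries.X_pow_dvd_iff] at h1
  have h2 := eq_pol hm hψ q (by omega) (fun i hi => h1 i (by omega))
  refine ⟨fun j => PowerSeries.coeff ((j : Fin (m - 1)) : ℕ) (hat (m - 2) q * ψ), ?_, ?_, ?_⟩
  · intro h0
    apply hq0
    rw [h2, h0]
    have h3 := pol_smul m f ψ 0 (0 : Idx m → K)
    rw [zero_smul, C_0, zero_mul] at h3
    exact h3
  · rw [← h2, mul_comm]
    exact hq
  · intro j hj
    apply h1
    by_contra h3
    push Not at h3
    have h4 := (j : Fin (m - 1)).2
    apply hj ⟨((j : Fin (m - 1)) : ℕ) - (m - 1 - (m - 1) / 2), by omega⟩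
    apply Subtype.ext
    apply Fin.ext
    change m - 1 - (m - 1) / 2 + (((j : Fin (m - 1)) : ℕ) - (m - 1 - (m - 1) / 2)) = _
    omega

/-- An isotropic subspace for a nondegenerate alternating form has at most half the dimension. -/
theorem CharP2.finrank_le_of_isotropic {L ι : Type*} [Field L] [Fintype ι] [DecidableEq ι]
    (J : Matrix ι ι L) (hJt : J.transpose = -J) (hJd : J.det ≠ 0) (W : Submodule L (ι → L))
    (hW : ∀ a ∈ W, ∀ b ∈ W, a ⬝ᵥ J.mulVec b = 0) :
    2 * Module.finrank L W ≤ Fintype.card ι := by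
  set B := Matrix.toBilin' J with hB
  have hBa : ∀ a b, B a b = a ⬝ᵥ J.mulVec b := fun a b => Matrix.toBilin'_apply' J a b
  have hskew : ∀ a b, B b a = - B a b := by
    intro a b
    rw [hBa, hBa, Matrix.dotProduct_mulVec, ← Matrix.mulVec_transpose, hJt, Matrix.neg_mulVec,
      neg_dotProduct, dotProduct_comm]
  have hnd : B.Nondegenerate := LinearMap.BilinForm.nondegenerate_toBilin'_of_det_ne_zero' J hJd
  have h1 := LinearMap.BilinForm.finrank_orthogonal hnd W
  have h2 : W ≤ B.orthogonal W := by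
    intro b hb
    rw [LinearMap.BilinForm.mem_orthogonal_iff]
    intro a ha
    change B a b = 0
    rw [hBa]
    exact hW a ha b hb
  have h3 := Submodule.finrank_mono h2
  rw [h1, Module.finrank_fintype_fun_eq_card] at h3
  have h4 := Submodule.finrank_le W
  rw [Module.finrank_fintype_fun_eq_card] at h4
  omega

/-- The horizontal Lagrangian in characteristic `p`, when the curve is not ordinary.

Proof: `W = {a | cop (pol a * f ^ e) = 0}` is a subspace, isotropic, of dimension
`≥ (m - 1) / 2`; as `JJ` is nondegenerate and `card (Idx m) = 2 ((m - 1) / 2)` the dimension is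
exactly `(m - 1) / 2`. Let `w` be a basis, `V` a left inverse (the `w j` are linearly
independent), `M` the matrix of `nab` on `W` (`cop_stable`). The nonzero vector
`a ∈ W ∩ span (e_{fb i})` is orthogonal to all `e_{fb i}` (`JJ_fbI`), which gives a linear
relation between the columns of the matrix `B(e_{fb i}, w_j)`. -/
theorem exists_lagrangian (hp2 : p ≠ 2) (D : Derivation ℤ K K) {c : K} {m : ℕ} (hm : 3 ≤ m)
    (hpm : m < p) {f : K[X]} (hf : f.Monic) (hfm : f.natDegree = m) (hfs : f.Separable)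
    {ψ : PowerSeries K} (hψ : IsPsi m f ψ) {G : Matrix (Idx m) (Idx m) K}
    (h : IsGM D c m f ψ G) (hdet : (cmMatrix p ((m - 1) / 2) f).det = 0) :
    ∃ (w V : Fin ((m - 1) / 2) → Idx m → K)
      (M : Matrix (Fin ((m - 1) / 2)) (Fin ((m - 1) / 2)) K),
      (∀ i j, V i ⬝ᵥ w j = if i = j then 1 else 0) ∧
      (∀ i j, BB (JJ K m) (w i) (w j) = 0) ∧
      (∀ j, nab D c G (w j) = ∑ i, M i j • w i) ∧
      (Matrix.of fun i j => ((JJ K m).mulVec (w j)) (fbI m i)).det = 0 := by
  have hp : 0 < p := (Fact.out : p.Prime).pos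
  let W : Submodule K (Idx m → K) :=
    { carrier := {a | cop p (pol m f ψ a * f ^ ((p - 1) / 2)) = 0}
      add_mem' := by
        intro a b ha hb
        change cop p _ = 0 at ha
        change cop p _ = 0 at hb
        change cop p _ = 0
        rw [pol_add, add_mul, cop_add hp, ha, hb, add_zero]
      zero_mem' := by
        change cop p _ = 0
        have h3 := pol_smul m f ψ 0 (0 : Idx m → K)
        rw [zero_smul, C_0, zero_mul] at h3
        rw [h3, zero_mul, cop_eq_zero_iff hp]
        intro i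
        rw [coeff_zero]
      smul_mem' := by
        intro x a ha
        change cop p _ = 0 at ha
        change cop p _ = 0
        rw [pol_smul, mul_assoc, cop_C_mul hp, ha, mul_zero] }
  have hW : ∀ a, a ∈ W ↔ cop p (pol m f ψ a * f ^ ((p - 1) / 2)) = 0 := fun a => Iff.rfl
  have hiso : ∀ a ∈ W, ∀ b ∈ W, BB (JJ K m) a b = 0 := fun a ha b hb =>
    cop_isotropic hp2 hm hpm hf hfm hfs hψ a b ha hb
  have hJd : (JJ K m).det ≠ 0 := by
    apply JJ_det
    intro n hn hnm h0
    rw [CharP.cast_eq_zero_iff K p] at h0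
    have := Nat.le_of_dvd hn h0
    omega
  have h1 := le_finrank_ker hp2 hm hpm hf hfm hψ W hW
  have h2 := CharP2.finrank_le_of_isotropic (JJ K m) (JJ_transpose K m) hJd W hiso
  rw [card_Idx hm, Fintype.card_fin] at h2
  have h3 : Module.finrank K W = (m - 1) / 2 := by omega
  let bs := Module.finBasisOfFinrankEq K W h3
  have hli : LinearIndependent K fun j => ((bs j : W) : Idx m → K) :=
    bs.linearIndependent.map' W.subtype W.ker_subtype
  -- the left inverse
  obtain ⟨V, hV⟩ := LinearMap.exists_leftInverse_of_injective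
    (Fintype.linearCombination K (fun j => ((bs j : W) : Idx m → K)))
    (LinearMap.ker_eq_bot.2 (linearIndependent_iff_injective_fintypeLinearCombination.1 hli))
  refine ⟨fun j => ((bs j : W) : Idx m → K), fun i l => V (Pi.single l 1) i,
    Matrix.of fun i j => bs.repr ⟨nab D c G (bs j : W), ?_⟩ i, ?_, ?_, ?_, ?_⟩
  · rw [hW]
    exact cop_stable hp2 D hm hf hfm hψ h _ ((hW _).1 (bs j).2)
  · intro i j
    have h4 : V ((bs j : W) : Idx m → K) = Pi.single j 1 := by
      have := LinearMap.congr_fun hV (Pi.single j (1 : K))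
      rw [LinearMap.comp_apply, LinearMap.id_apply] at this
      rw [← this]
      congr 1
      rw [Fintype.linearCombination_apply_single, one_smul]
    have h5 : ((bs j : W) : Idx m → K) =
        ∑ l, ((bs j : W) : Idx m → K) l • (Pi.single l (1 : K) : Idx m → K) := by
      rw [← pi_eq_sum_univ']
    rw [h5, map_sum] at h4
    have h6 := congrFun h4 i
    rw [Finset.sum_apply] at h6
    rw [dotProduct]
    have h7 : (∑ l, V (Pi.single l 1) i * ((bs j : W) : Idx m → K) l) =
        ∑ l, V (((bs j : W) : Idx m → K) l • (Pi.single l (1 : K) : Idx m → K)) i := by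
      apply Finset.sum_congr rfl
      intro l _
      rw [map_smul, Pi.smul_apply, smul_eq_mul, mul_comm]
    rw [h7, h6, Pi.single_apply]
  · intro i j
    exact hiso _ (bs i).2 _ (bs j).2
  · intro j
    have h4 := bs.sum_repr ⟨nab D c G (bs j : W), by
      rw [hW]
      exact cop_stable hp2 D hm hf hfm hψ h _ ((hW _).1 (bs j).2)⟩
    have h5 := congrArg (Subtype.val) h4
    rw [AddSubmonoidClass.coe_finsetSum] at h5
    exact h5.symm
  · obtain ⟨a, ha0, haW, hasup⟩ := exists_mem_of_det hp2 hm hpm hf hfm hψ hdet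
    have haW' : a ∈ W := haW
    rw [← Matrix.exists_mulVec_eq_zero_iff]
    refine ⟨fun j => bs.repr ⟨a, haW'⟩ j, ?_, ?_⟩
    · intro h0
      have h4 : bs.repr ⟨a, haW'⟩ = 0 := by
        ext j
        exact congrFun h0 j
      have h5 : (⟨a, haW'⟩ : W) = 0 := by
        rwa [LinearEquiv.map_eq_zero_iff] at h4
      exact ha0 (congrArg Subtype.val h5)
    · have h4 : a = ∑ j, bs.repr ⟨a, haW'⟩ j • ((bs j : W) : Idx m → K) := by
        have h5 := congrArg (Subtype.val) (bs.sum_repr ⟨a, haW'⟩)
        rw [AddSubmonoidClass.coe_finsetSum] at h5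
        exact h5.symm
      funext i
      rw [Matrix.mulVec, dotProduct, Pi.zero_apply]
      have h6 : ((JJ K m).mulVec a) (fbI m i) = 0 := by
        rw [Matrix.mulVec, dotProduct]
        apply Finset.sum_eq_zero
        intro l _
        by_cases hl : ∃ i', fbI m i' = l
        · obtain ⟨i', rfl⟩ := hl
          rw [JJ_fbI, zero_mul]
        · push Not at hl
          rw [hasup l hl, mul_zero]
      rw [← h6]
      conv_rhs => rw [h4, Matrix.mulVec_sum, Finset.sum_apply]
      apply Finset.sum_congr rfl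
      intro j _
      rw [Matrix.mulVec_smul, Pi.smul_apply, smul_eq_mul, Matrix.of_apply, mul_comm]

end MPadcLP
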