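import Mathlib
import Pool.Agent.Lib.MP_adc574_ag_LP.EvAct

/-! # The transvection lemma -/

set_option autoImplicit false

namespace MPadcLP

variable {γ ι : Type} [Fintype γ] [DecidableEq γ] [Fintype ι] [DecidableEq ι]

private theorem Descent_add_left {E : Type*} [CommRing E] (J : Matrix ι ι E) (u v w : ι → E) :
    BB J (u + v) w = BB J u w + BB J v w := by
  unfold BB
  rw [add_dotProduct]

private theorem Descent_smul_left {E : Type*} [CommRing E] (J : Matrix ι ι E) (a : E)
    (u w : ι → E) : BB J (a • u) w = a * BB J u w := by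
  unfold BB
  rw [smul_dotProduct, smul_eq_mul]

private theorem Descent_add_right {E : Type*} [CommRing E] (J : Matrix ι ι E) (u v w : ι → E) :
    BB J u (v + w) = BB J u v + BB J u w := by
  unfold BB
  rw [Matrix.mulVec_add, dotProduct_add]

private theorem Descent_smul_right {E : Type*} [CommRing E] (J : Matrix ι ι E) (a : E)
    (u w : ι → E) : BB J u (a • w) = a * BB J u w := by
  unfold BB
  rw [Matrix.mulVec_smul, dotProduct_smul, smul_eq_mul]

private theorem Descent_symm {E : Type*} [CommRing E] (J : Matrix ι ι E)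
    (hJT : J.transpose = -J) (u w : ι → E) : BB J u w = - BB J w u := by
  unfold BB
  rw [Matrix.dotProduct_mulVec, ← Matrix.mulVec_transpose, hJT, Matrix.neg_mulVec,
    neg_dotProduct, dotProduct_comm]

private theorem Descent_self {Ω : Type*} [Field Ω] [CharZero Ω] (J : Matrix ι ι Ω)
    (hJT : J.transpose = -J) (u : ι → Ω) : BB J u u = 0 := by
  have h := Descent_symm J hJT u u
  have h2 : (2 : Ω) * BB J u u = 0 := by linear_combination h
  exact (mul_eq_zero.mp h2).resolve_left two_ne_zero

/-- the orthogonal of the coordinate space -/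
private def Descent_F {Ω : Type*} [Field Ω] (J : Matrix ι ι Ω) (fb : γ → ι) :
    Submodule Ω (ι → Ω) :=
  LinearMap.ker (LinearMap.pi fun i => (LinearMap.proj (fb i)).comp J.mulVecLin :
    (ι → Ω) →ₗ[Ω] (γ → Ω))

private theorem Descent_mem {Ω : Type*} [Field Ω] (J : Matrix ι ι Ω) (fb : γ → ι) (x : ι → Ω) :
    x ∈ Descent_F J fb ↔ ∀ i, J.mulVec x (fb i) = 0 := by
  unfold Descent_F
  rw [LinearMap.mem_ker]
  constructor
  · intro h i
    exact congrFun h i
  · intro h
    funext i
    exact h i

private theorem Descent_F_eq {Ω : Type*} [Field Ω] [CharZero Ω] (J : Matrix ι ι Ω)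
    (hJd : J.det ≠ 0) (fb : γ → ι) (hfb : Function.Injective fb)
    (hiso : ∀ i j, J (fb i) (fb j) = 0) (hcard : Fintype.card ι = 2 * Fintype.card γ) :
    Descent_F J fb = Submodule.span Ω (Set.range fun i : γ => (Pi.single (fb i) 1 : ι → Ω)) := by
  symm
  apply Submodule.eq_of_le_of_finrank_eq
  · rw [Submodule.span_le]
    rintro _ ⟨j, rfl⟩
    change _ ∈ Descent_F J fb
    rw [Descent_mem]
    intro i
    rw [Matrix.mulVec_single_one]
    exact hiso i j
  · have h1 : Module.finrank Ω (Submodule.span Ω
        (Set.range fun i : γ => (Pi.single (fb i) 1 : ι → Ω))) = Fintype.card γ := by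
      apply finrank_span_eq_card
      have h2 := (Pi.basisFun Ω ι).linearIndependent.comp fb hfb
      have h3 : (⇑(Pi.basisFun Ω ι) ∘ fb) = fun i : γ => (Pi.single (fb i) 1 : ι → Ω) := by
        funext i
        simp
      rw [h3] at h2
      exact h2
    have hsurj : Function.Surjective
        (LinearMap.pi fun i => (LinearMap.proj (fb i)).comp J.mulVecLin :
          (ι → Ω) →ₗ[Ω] (γ → Ω)) := by
      intro y
      have hu : IsUnit J.det := isUnit_iff_ne_zero.mpr hJd
      obtain ⟨z, hz⟩ : ∃ z : ι → Ω, ∀ i, z (fb i) = y i :=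
        ⟨Function.extend fb y 0, fun i => hfb.extend_apply y 0 i⟩
      refine ⟨J⁻¹.mulVec z, ?_⟩
      funext i
      change J.mulVec (J⁻¹.mulVec z) (fb i) = y i
      rw [Matrix.mulVec_mulVec, Matrix.mul_nonsing_inv J hu, Matrix.one_mulVec, hz]
    have h4 := LinearMap.finrank_range_add_finrank_ker
      (LinearMap.pi fun i => (LinearMap.proj (fb i)).comp J.mulVecLin :
          (ι → Ω) →ₗ[Ω] (γ → Ω))
    rw [LinearMap.range_eq_top.mpr hsurj, finrank_top, Module.finrank_fintype_fun_eq_card,
      Module.finrank_fintype_fun_eq_card, hcard] at h4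
    rw [h1]
    unfold Descent_F
    omega

private theorem Descent_F_iso {Ω : Type*} [Field Ω] [CharZero Ω] (J : Matrix ι ι Ω)
    (hJd : J.det ≠ 0) (fb : γ → ι) (hfb : Function.Injective fb)
    (hiso : ∀ i j, J (fb i) (fb j) = 0) (hcard : Fintype.card ι = 2 * Fintype.card γ)
    {x y : ι → Ω} (hx : x ∈ Descent_F J fb) (hy : y ∈ Descent_F J fb) : BB J x y = 0 := by
  rw [Descent_F_eq J hJd fb hfb hiso hcard] at hx
  rw [Descent_mem] at hy
  induction hx using Submodule.span_induction with
  | mem x h =>
    obtain ⟨i, rfl⟩ := h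
    change (Pi.single (fb i) 1 : ι → Ω) ⬝ᵥ J.mulVec y = 0
    rw [single_one_dotProduct]
    exact hy i
  | zero =>
    unfold BB
    rw [zero_dotProduct]
  | add u v _ _ hu hv => rw [Descent_add_left, hu, hv, add_zero]
  | smul a u _ hu => rw [Descent_smul_left, hu, mul_zero]

/-- the transvection -/
private def Descent_T {Ω : Type*} [Field Ω] (J : Matrix ι ι Ω) (h : ι → Ω) :
    (ι → Ω) →ₗ[Ω] (ι → Ω) := LinearMap.id + (AA J h).mulVecLin

private theorem Descent_T_apply {Ω : Type*} [Field Ω] (J : Matrix ι ι Ω) (h x : ι → Ω) :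
    Descent_T J h x = x + BB J h x • h := by
  change x + (AA J h).mulVec x = _
  rw [AA_mulVec]

private theorem Descent_exists {Ω : Type*} [Field Ω] [CharZero Ω] (J : Matrix ι ι Ω)
    (fb : γ → ι) (P : Submodule Ω ((γ → ι) → Ω)) (hl0 : l0 J fb ∈ P)
    (W : Submodule Ω (ι → Ω)) (hdim : Module.finrank Ω W = Fintype.card γ)
    (hvan : ∀ c ∈ P, ∀ w : γ → ι → Ω, (∀ j, w j ∈ W) → ev c w = 0) :
    ∃ x ∈ W ⊓ Descent_F J fb, x ≠ 0 := by
  have b : Module.Basis γ Ω W :=
    (Module.finBasisOfFinrankEq Ω W hdim).reindex (Fintype.equivFin γ).symm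
  have h1 := hvan _ hl0 (fun j => (b j : ι → Ω)) (fun j => (b j).2)
  rw [ev_l0] at h1
  obtain ⟨v, hv, hv2⟩ := Matrix.exists_mulVec_eq_zero_iff.mpr h1
  refine ⟨((∑ j, v j • b j : W) : ι → Ω), ⟨Subtype.property _, ?_⟩, ?_⟩
  · change _ ∈ Descent_F J fb
    rw [Descent_mem]
    intro i
    have h2 := congrFun hv2 i
    have h3 : J.mulVec ((∑ j, v j • b j : W) : ι → Ω) =
        ∑ j, v j • J.mulVec (b j : ι → Ω) := by
      have h4 := map_sum J.mulVecLin (fun j => ((v j • b j : W) : ι → Ω)) Finset.univ
      simp only [Matrix.mulVecLin_apply, Submodule.coe_smul, Matrix.mulVec_smul] at h4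
      rw [← h4]
      congr 1
      rw [Submodule.coe_sum]
      rfl
    rw [h3, Finset.sum_apply]
    have h5 : (Matrix.of fun i j => (J.mulVec (b j : ι → Ω)) (fb i)).mulVec v i =
        ∑ j, (v j • J.mulVec (b j : ι → Ω)) (fb i) := by
      change ∑ j, (J.mulVec (b j : ι → Ω)) (fb i) * v j = _
      refine Finset.sum_congr rfl fun j _ => ?_
      rw [Pi.smul_apply, smul_eq_mul, mul_comm]
    rw [← h5, h2]
    rfl
  · intro h0
    have h2 : (∑ j, v j • b j : W) = 0 := Subtype.ext h0
    have h3 := Fintype.linearIndependent_iff.mp b.linearIndependent v h2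
    exact hv (funext h3)

/-- Transvection lemma. Let `X` be a spanning set of vectors and `P` a space of multilinear forms
which contains `l = det (B(e_{fb i}, w_j))` and is stable under the transvections
`T_h x = x + B(h, x) h`, `h ∈ X`. Then no Lagrangian subspace `W` is killed by all forms of `P`.

Proof: let `F = span (e_{fb i})`; it is isotropic of dimension `card γ`, so it is its own
orthogonal (`card ι = 2 card γ`, `J` invertible). Among the Lagrangian subspaces killed by `P`
choose `W` with `dim (W ∩ F)` minimal.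
* `W ∩ F ≠ 0`: `l` vanishes on a basis of `W`, so by `ev_l0` the matrix `B(e_{fb i}, w_j)` is
  singular, and a nonzero combination `x` of the `w_j` is orthogonal to all `e_{fb i}`, so `x ∈ F`.
* Let `0 ≠ x ∈ W ∩ F` and `h ∈ X` with `B(h, x) ≠ 0` (`X` spans and `J` is invertible). Let
  `W' = T_h W` (`T_h` is an injective symplectic map since `B(h, h) = 0`: `2 B(h,h) = 0` by
  `J^T = - J`), a Lagrangian killed by `P`.
* `W' ∩ F = {l ∈ W ∩ F | B(h, l) = 0}`: if `l + B(h, l) h ∈ F` with `l ∈ W` and `B(h, l) ≠ 0`,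
  scale `l` so that `B(h, l) = B(h, x)`; then `(l - x) + B(h, x) h ∈ F`, and its product with
  `x ∈ F` is `B(x, l - x) + B(h, x) B(x, h) = - B(h, x) ^ 2 ≠ 0`, a contradiction.
* So `dim (W' ∩ F) < dim (W ∩ F)` (it does not contain `x`), contradiction. -/
theorem lagrangian_descent {Ω : Type*} [Field Ω] [CharZero Ω] (J : Matrix ι ι Ω)
    (hJT : J.transpose = -J) (hJd : J.det ≠ 0) (fb : γ → ι) (hfb : Function.Injective fb)
    (hiso : ∀ i j, J (fb i) (fb j) = 0) (hcard : Fintype.card ι = 2 * Fintype.card γ)
    (X : Set (ι → Ω)) (hX : Submodule.span Ω X = ⊤) (P : Submodule Ω ((γ → ι) → Ω))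
    (hl0 : l0 J fb ∈ P)
    (hT : ∀ h ∈ X, ∀ c ∈ P, ∃ c' ∈ P, ∀ w : γ → ι → Ω,
      ev c (fun j => w j + (AA J h).mulVec (w j)) = ev c' w)
    (W : Submodule Ω (ι → Ω)) (hW : ∀ x ∈ W, ∀ y ∈ W, BB J x y = 0)
    (hdim : Module.finrank Ω W = Fintype.card γ)
    (hvan : ∀ c ∈ P, ∀ w : γ → ι → Ω, (∀ j, w j ∈ W) → ev c w = 0) : False := by
  set F := Descent_F J fb with hF
  have hFiso : ∀ x ∈ F, ∀ y ∈ F, BB J x y = 0 := fun x hx y hy =>
    Descent_F_iso J hJd fb hfb hiso hcard hx hy
  have key : ∀ n : ℕ, ∀ W : Submodule Ω (ι → Ω), (∀ x ∈ W, ∀ y ∈ W, BB J x y = 0) →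
      Module.finrank Ω W = Fintype.card γ →
      (∀ c ∈ P, ∀ w : γ → ι → Ω, (∀ j, w j ∈ W) → ev c w = 0) →
      Module.finrank Ω (W ⊓ F : Submodule Ω (ι → Ω)) = n → False := by
    intro n
    induction n using Nat.strong_induction_on with
    | _ n ih =>
      intro W hW hdim hvan hn
      obtain ⟨x, hx, hx0⟩ := Descent_exists J fb P hl0 W hdim hvan
      have hxW : x ∈ W := hx.1
      have hxF : x ∈ F := hx.2
      obtain ⟨h, hhX, hh⟩ : ∃ h ∈ X, BB J h x ≠ 0 := by
        by_contra hcon
        push Not at hcon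
        have h1 : ∀ u : ι → Ω, BB J u x = 0 := by
          intro u
          have hu : u ∈ Submodule.span Ω X := by rw [hX]; exact Submodule.mem_top
          induction hu using Submodule.span_induction with
          | mem u h => exact hcon u h
          | zero =>
            unfold BB
            rw [zero_dotProduct]
          | add u v _ _ hu hv => rw [Descent_add_left, hu, hv, add_zero]
          | smul a u _ hu => rw [Descent_smul_left, hu, mul_zero]
        have h2 : J.mulVec x = 0 := by
          funext i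
          have h3 := h1 (Pi.single i 1)
          unfold BB at h3
          rw [single_one_dotProduct] at h3
          exact h3
        exact hx0 (Matrix.eq_zero_of_mulVec_eq_zero hJd h2)
      have hself := Descent_self J hJT h
      have hTi : Function.Injective (Descent_T J h) := by
        rw [← LinearMap.ker_eq_bot, LinearMap.ker_eq_bot']
        intro u hu
        rw [Descent_T_apply] at hu
        have h1 : BB J h (u + BB J h u • h) = 0 := by
          rw [hu]
          unfold BB
          rw [Matrix.mulVec_zero, dotProduct_zero]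
        rw [Descent_add_right, Descent_smul_right, hself, mul_zero, add_zero] at h1
        rw [h1, zero_smul, add_zero] at hu
        exact hu
      have hTB : ∀ u v, BB J (Descent_T J h u) (Descent_T J h v) = BB J u v := by
        intro u v
        rw [Descent_T_apply, Descent_T_apply, Descent_add_left, Descent_add_right,
          Descent_add_right, Descent_smul_left, Descent_smul_left, Descent_smul_right,
          Descent_smul_right, hself, Descent_symm J hJT u h]
        ring
      have hW' : ∀ u ∈ W.map (Descent_T J h), ∀ v ∈ W.map (Descent_T J h), BB J u v = 0 := by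
        rintro _ ⟨u, hu, rfl⟩ _ ⟨v, hv, rfl⟩
        rw [hTB]
        exact hW u hu v hv
      have hdim' : Module.finrank Ω (W.map (Descent_T J h)) = Fintype.card γ := by
        rw [← hdim]
        exact (LinearEquiv.finrank_eq (Submodule.equivMapOfInjective _ hTi W)).symm
      have hvan' : ∀ c ∈ P, ∀ w : γ → ι → Ω, (∀ j, w j ∈ W.map (Descent_T J h)) →
          ev c w = 0 := by
        intro c hc w hw
        choose w' hw' hw'2 using fun j => Submodule.mem_map.mp (hw j)
        obtain ⟨c', hc', hcc⟩ := hT h hhX c hc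
        have h1 := hcc w'
        have h2 : (fun j => w' j + (AA J h).mulVec (w' j)) = w := by
          funext j
          rw [← hw'2 j]
          rfl
        rw [h2] at h1
        rw [h1]
        exact hvan c' hc' w' hw'
      have hsub : ∀ z ∈ W.map (Descent_T J h), z ∈ F → z ∈ W ∧ BB J h z = 0 := by
        rintro _ ⟨l, hl, rfl⟩ hz
        rw [Descent_T_apply] at hz ⊢
        have h1 : BB J h l = 0 := by
          by_contra hne
          have h2 := hFiso x hxF _ hz
          rw [Descent_add_right, Descent_smul_right, hW x hxW l hl, zero_add,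
            Descent_symm J hJT x h] at h2
          rcases mul_eq_zero.mp h2 with h3 | h3
          · exact hne h3
          · exact hh (neg_eq_zero.mp h3)
        rw [h1, zero_smul, add_zero]
        exact ⟨hl, h1⟩
      have hlt : (W.map (Descent_T J h) ⊓ F : Submodule Ω (ι → Ω)) < W ⊓ F := by
        refine lt_of_le_of_ne ?_ ?_
        · intro z hz
          exact ⟨(hsub z hz.1 hz.2).1, hz.2⟩
        · intro heq
          have h1 : x ∈ (W.map (Descent_T J h) ⊓ F : Submodule Ω (ι → Ω)) := by
            rw [heq]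
            exact hx
          exact hh (hsub x h1.1 h1.2).2
      exact ih _ (by rw [← hn]; exact Submodule.finrank_lt_finrank_of_lt hlt) _ hW' hdim' hvan' rfl
  exact key _ W hW hdim hvan rfl

end MPadcLP
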