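import Mathlib
import Pool.Agent.Lib.MP_adc574_ag_LP.EvAct

/-! # From the infinitesimal action to the action of a transvection -/

set_option autoImplicit false

namespace MPadcLP

variable {γ ι : Type} [Fintype γ] [DecidableEq γ] [Fintype ι] [DecidableEq ι]

open Polynomial in
/-- the matrix `1 + X A` over the polynomial ring -/
private noncomputable def GroupLike.N {Ω : Type*} [Field Ω] (A : Matrix ι ι Ω) :
    Matrix ι ι (Polynomial Ω) := 1 + (X : Polynomial Ω) • A.map C

open Polynomial in
private theorem GroupLike.N_mul {Ω : Type*} [Field Ω] {A : Matrix ι ι Ω} (hA : A * A = 0) :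
    GroupLike.N A * A.map C = A.map C := by
  have h1 : A.map (C : Ω →+* Polynomial Ω) * A.map C = 0 := by
    rw [← Matrix.map_mul, hA]
    ext i j
    simp
  unfold GroupLike.N
  rw [add_mul, one_mul, Matrix.smul_mul, h1, smul_zero, add_zero]

open Polynomial in
/-- the form `w ↦ c ((1 + X A) w_j)` over the polynomial ring -/
private noncomputable def GroupLike.F {Ω : Type*} [Field Ω] (A : Matrix ι ι Ω)
    (c : (γ → ι) → Ω) (σ : γ → ι) : Polynomial Ω :=
  ∑ τ : γ → ι, C (c τ) * ∏ j, GroupLike.N A (τ j) (σ j)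

open Polynomial in
private theorem GroupLike.dN {Ω : Type*} [Field Ω] (A : Matrix ι ι Ω) (i k : ι) :
    derivative (GroupLike.N A i k) = C (A i k) := by
  unfold GroupLike.N
  rw [Matrix.add_apply, Matrix.smul_apply, Matrix.map_apply, smul_eq_mul, derivative_add,
    derivative_mul, derivative_X, derivative_C, mul_zero, add_zero, one_mul, Matrix.one_apply]
  split_ifs
  · rw [derivative_one, zero_add]
  · rw [derivative_zero, zero_add]

open Polynomial in
private theorem GroupLike.dF {Ω : Type*} [Field Ω] {A : Matrix ι ι Ω} (hA : A * A = 0)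
    (c : (γ → ι) → Ω) (σ : γ → ι) :
    derivative (GroupLike.F A c σ) =
      ∑ j, ∑ i, GroupLike.F A c (Function.update σ j i) * C (A i (σ j)) := by
  have h1 : ∀ (τ : γ → ι) (j : γ) (i : ι),
      ∏ l, GroupLike.N A (τ l) (Function.update σ j i l) =
        GroupLike.N A (τ j) i * ∏ l ∈ Finset.univ.erase j, GroupLike.N A (τ l) (σ l) := by
    intro τ j i
    rw [← Finset.mul_prod_erase Finset.univ _ (Finset.mem_univ j), Function.update_self]
    congr 1
    refine Finset.prod_congr rfl fun l hl => ?_
    rw [Function.update_of_ne (Finset.ne_of_mem_erase hl)]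
  have h2 : ∀ (τ : γ → ι) (j : γ),
      ∑ i, GroupLike.N A (τ j) i * C (A i (σ j)) = C (A (τ j) (σ j)) := by
    intro τ j
    have h3 := congrFun (congrFun (GroupLike.N_mul hA) (τ j)) (σ j)
    rw [Matrix.mul_apply] at h3
    exact h3
  unfold GroupLike.F
  rw [derivative_sum]
  simp only [derivative_C_mul, derivative_prod_finset, GroupLike.dN]
  simp only [h1, Finset.sum_mul, Finset.mul_sum]
  rw [Finset.sum_comm]
  refine Finset.sum_congr rfl fun j _ => ?_
  rw [Finset.sum_comm]
  refine Finset.sum_congr rfl fun τ _ => ?_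
  rw [← h2 τ j, Finset.mul_sum, Finset.mul_sum]
  refine Finset.sum_congr rfl fun i _ => ?_
  ring

open Polynomial in
private theorem GroupLike.coeff_mem {Ω : Type*} [Field Ω] [CharZero Ω] {A : Matrix ι ι Ω}
    (hA : A * A = 0) (P : Submodule Ω ((γ → ι) → Ω)) (hP : ∀ c ∈ P, act A c ∈ P)
    (c : (γ → ι) → Ω) (hc : c ∈ P) (k : ℕ) :
    (fun σ => (GroupLike.F A c σ).coeff k) ∈ P := by
  induction k with
  | zero =>
    have h1 : (fun σ => (GroupLike.F A c σ).coeff 0) = c := by
      funext σ
      rw [coeff_zero_eq_eval_zero]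
      unfold GroupLike.F
      rw [eval_finsetSum, Finset.sum_eq_single σ]
      · rw [eval_mul, eval_C, eval_prod, Finset.prod_eq_one, mul_one]
        intro j _
        unfold GroupLike.N
        rw [Matrix.add_apply, Matrix.smul_apply, smul_eq_mul, eval_add, eval_mul, eval_X, zero_mul,
          add_zero, Matrix.one_apply_eq, eval_one]
      · intro τ _ hτ
        obtain ⟨j, hj⟩ := Function.ne_iff.1 hτ
        rw [eval_mul, eval_prod, Finset.prod_eq_zero (Finset.mem_univ j), mul_zero]
        unfold GroupLike.N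
        rw [Matrix.add_apply, Matrix.smul_apply, smul_eq_mul, eval_add, eval_mul, eval_X, zero_mul,
          add_zero, Matrix.one_apply_ne hj, eval_zero]
      · intro h
        exact absurd (Finset.mem_univ σ) h
    rw [h1]
    exact hc
  | succ k ih =>
    have h1 : (fun σ => (GroupLike.F A c σ).coeff (k + 1)) =
        ((k : Ω) + 1)⁻¹ • act A (fun σ => (GroupLike.F A c σ).coeff k) := by
      funext σ
      have h2 := congrArg (fun p => p.coeff k) (GroupLike.dF hA c σ)
      simp only [coeff_derivative, finsetSum_coeff, coeff_mul_C] at h2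
      have h3 : ((k : Ω) + 1) ≠ 0 := by
        exact_mod_cast Nat.succ_ne_zero k
      show _ = ((k : Ω) + 1)⁻¹ * act A (fun σ => (GroupLike.F A c σ).coeff k) σ
      unfold act
      rw [← h2, mul_comm, mul_assoc, mul_inv_cancel₀ h3, mul_one]
    rw [h1]
    exact P.smul_mem _ (hP _ ih)

/-- Let `A * A = 0` and let `P` be a space of multilinear forms stable under the derivation
action of `A`. Then for `c` in `P` the form `w ↦ c ((1 + A) w_j)` is again in `P`.

Proof: let `a_j` be the operator `c ↦ c(…, A w_j, …)` on the space of forms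
(`a_j c σ = ∑ i, c (Function.update σ j i) * A i (σ j)`). The `a_j` commute, `a_j ^ 2 = 0`, and
`∑ j, a_j = act A`. The form `w ↦ c ((1 + A) w_j)` is `(∏ j, (1 + a_j)) c`, and
`∏ j, (1 + a_j) = exp (∑ j, a_j)` (for instance `IsNilpotent.exp`, with `exp a_j = 1 + a_j`), a
polynomial with rational coefficients in `act A`, so it maps `P` to itself.
(Alternative: `∏_j (1 + a_j) = ∑_k e_k`, `e_k` the sum of the products of `k` different `a_j`, and
`(k + 1) e_{k+1} = (act A) e_k` because `a_j ^ 2 = 0`; so each `e_k c` is in `P` by induction.) -/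
theorem exists_groupLike {Ω : Type*} [Field Ω] [CharZero Ω] (A : Matrix ι ι Ω) (hA : A * A = 0)
    (P : Submodule Ω ((γ → ι) → Ω)) (hP : ∀ c ∈ P, act A c ∈ P) (c : (γ → ι) → Ω) (hc : c ∈ P) :
    ∃ c' ∈ P, ∀ w : γ → ι → Ω, ev c (fun j => w j + A.mulVec (w j)) = ev c' w := by
  classical
  obtain ⟨n, hn⟩ : ∃ n : ℕ, ∀ σ, (GroupLike.F A c σ).natDegree < n := by
    refine ⟨(Finset.univ.sup fun σ => (GroupLike.F A c σ).natDegree) + 1, fun σ => ?_⟩
    exact Nat.lt_succ_of_le (Finset.le_sup (f := fun σ => (GroupLike.F A c σ).natDegree)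
      (Finset.mem_univ σ))
  refine ⟨∑ k ∈ Finset.range n, fun σ => (GroupLike.F A c σ).coeff k,
    P.sum_mem fun k _ => GroupLike.coeff_mem hA P hP c hc k, fun w => ?_⟩
  have h1 : (∑ k ∈ Finset.range n, fun σ => (GroupLike.F A c σ).coeff k) =
      fun σ => ∑ τ : γ → ι, c τ * ∏ j, (1 + A) (τ j) (σ j) := by
    funext σ
    rw [Finset.sum_apply]
    have h2 := Polynomial.eval_eq_sum_range' (hn σ) 1
    simp only [one_pow, mul_one] at h2
    rw [← h2]
    unfold GroupLike.F
    rw [Polynomial.eval_finsetSum]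
    refine Finset.sum_congr rfl fun τ _ => ?_
    rw [Polynomial.eval_mul, Polynomial.eval_C, Polynomial.eval_prod]
    congr 1
    refine Finset.prod_congr rfl fun j _ => ?_
    unfold GroupLike.N
    rw [Matrix.add_apply, Matrix.add_apply, Matrix.smul_apply, Matrix.map_apply, smul_eq_mul,
      Polynomial.eval_add, Polynomial.eval_mul, Polynomial.eval_X, Polynomial.eval_C, one_mul,
      Matrix.one_apply, Matrix.one_apply]
    split_ifs
    · rw [Polynomial.eval_one]
    · rw [Polynomial.eval_zero]
  rw [h1]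
  unfold ev
  have h3 : ∀ (τ : γ → ι), ∏ j, (w j + A.mulVec (w j)) (τ j) =
      ∑ σ : γ → ι, (∏ j, (1 + A) (τ j) (σ j)) * ∏ j, w j (σ j) := by
    intro τ
    have h4 : ∀ j, (w j + A.mulVec (w j)) (τ j) = ∑ i, (1 + A) (τ j) i * w j i := by
      intro j
      have h5 : w j + A.mulVec (w j) = (1 + A).mulVec (w j) := by
        rw [Matrix.add_mulVec, Matrix.one_mulVec]
      rw [h5]
      rfl
    simp only [h4]
    rw [Fintype.prod_sum]
    refine Finset.sum_congr rfl fun σ _ => ?_
    rw [Finset.prod_mul_distrib]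
  simp only [h3, Finset.mul_sum, Finset.sum_mul]
  rw [Finset.sum_comm]
  refine Finset.sum_congr rfl fun σ _ => Finset.sum_congr rfl fun τ _ => ?_
  ring

end MPadcLP
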