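import Mathlib

/-! # A linear form in the radical -/

set_option autoImplicit false

namespace MPadcLP

/-- If the zero locus of an ideal over the algebraic closure of a field of characteristic zero
does not span the affine space, then some nonzero linear form over the ground field is in the
radical of the ideal.

Proof: there is `m ≠ 0` in `(ι → K̄)` with `∑ m_i x_i = 0` for all `x` in the zero locus `Z`. The
coordinates `m_i` are in a finite Galois extension `K'` of `K` inside `K̄`
(`exists finite-dimensional normal` closure). For every `α ∈ K'` the vector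
`λ_i = Tr_{K'/K} (α m_i)` satisfies `∑ λ_i x_i = 0` on `Z`: every automorphism `s` of `K' / K`
extends to `K̄`, it preserves `Z` (the ideal is defined over `K`), and `∑ s(α m_i) s(x_i) = 0`.
The trace form is nondegenerate (characteristic zero), so `λ ≠ 0` for some `α`. The polynomial
`∑ λ_i X_i` vanishes on `Z`, so it is in the radical by
`MvPolynomial.vanishingIdeal_zeroLocus_eq_radical`. -/
theorem exists_linear_of_not_span {K : Type*} [Field K] [CharZero K] {ι : Type} [Fintype ι]
    (I : Ideal (MvPolynomial ι K))
    (h : Submodule.span (AlgebraicClosure K)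
      (MvPolynomial.zeroLocus (AlgebraicClosure K) I) ≠ ⊤) :
    ∃ l : ι → K, l ≠ 0 ∧ (∑ i, MvPolynomial.C (l i) * MvPolynomial.X i) ∈ I.radical := by
  classical
  obtain ⟨f, hf0, hf⟩ := Submodule.exists_le_ker_of_lt_top _ (lt_top_iff_ne_top.2 h)
  obtain ⟨m, hm⟩ : ∃ m : ι → AlgebraicClosure K, m = fun i => f (Pi.single i 1) := ⟨_, rfl⟩
  have hfx : ∀ x : ι → AlgebraicClosure K, f x = ∑ i, m i * x i := by
    intro x
    have h1 : x = ∑ i, x i • (Pi.single i 1 : ι → AlgebraicClosure K) := by
      funext j
      rw [Finset.sum_apply, Finset.sum_eq_single j]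
      · rw [Pi.smul_apply, Pi.single_eq_same, smul_eq_mul, mul_one]
      · intro i _ hi
        rw [Pi.smul_apply, Pi.single_eq_of_ne (Ne.symm hi), smul_zero]
      · intro h2
        exact absurd (Finset.mem_univ j) h2
    conv_lhs => rw [h1]
    rw [map_sum]
    refine Finset.sum_congr rfl fun i _ => ?_
    rw [map_smul, smul_eq_mul, hm, mul_comm]
  have hm0 : ∃ i0, m i0 ≠ 0 := by
    by_contra hcon
    push Not at hcon
    apply hf0
    apply LinearMap.ext
    intro x
    rw [hfx, LinearMap.zero_apply]
    exact Finset.sum_eq_zero fun i _ => by rw [hcon i, zero_mul]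
  obtain ⟨i0, hi0⟩ := hm0
  have hZ : ∀ x ∈ MvPolynomial.zeroLocus (AlgebraicClosure K) I, ∑ i, m i * x i = 0 := by
    intro x hx
    rw [← hfx]
    exact hf (Submodule.subset_span hx)
  -- the field generated by the coefficients
  have hfd : FiniteDimensional K (IntermediateField.adjoin K (Set.range m)) :=
    IntermediateField.finiteDimensional_adjoin fun x _ => Algebra.IsIntegral.isIntegral x
  obtain ⟨μ, hμ⟩ : ∃ μ : ι → IntermediateField.adjoin K (Set.range m),
      ∀ i, ((μ i : IntermediateField.adjoin K (Set.range m)) : AlgebraicClosure K) = m i :=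
    ⟨fun i => ⟨m i, IntermediateField.subset_adjoin K _ ⟨i, rfl⟩⟩, fun i => rfl⟩
  have hμ0 : μ i0 ≠ 0 := by
    intro h0
    apply hi0
    rw [← hμ, h0, ZeroMemClass.coe_zero]
  refine ⟨fun i => Algebra.trace K (IntermediateField.adjoin K (Set.range m))
    ((μ i0)⁻¹ * μ i), ?_, ?_⟩
  · intro h0
    have h1 := congrFun h0 i0
    have h2 : Algebra.trace K (IntermediateField.adjoin K (Set.range m)) ((μ i0)⁻¹ * μ i0) = 0 := h1
    rw [inv_mul_cancel₀ hμ0] at h2
    have h3 := Algebra.trace_algebraMap (S := IntermediateField.adjoin K (Set.range m)) (1 : K)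
    rw [map_one, h2, nsmul_eq_mul, mul_one] at h3
    have h4 : 0 < Module.finrank K (IntermediateField.adjoin K (Set.range m)) :=
      Module.finrank_pos
    have h5 : Module.finrank K (IntermediateField.adjoin K (Set.range m)) = 0 := by
      exact_mod_cast h3.symm
    omega
  · rw [← MvPolynomial.vanishingIdeal_zeroLocus_eq_radical (K := AlgebraicClosure K),
      MvPolynomial.mem_vanishingIdeal_iff]
    intro x hx
    rw [map_sum]
    have h1 : ∀ i, MvPolynomial.aeval x (MvPolynomial.C (Algebra.trace K
        (IntermediateField.adjoin K (Set.range m)) ((μ i0)⁻¹ * μ i)) * MvPolynomial.X i) =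
        ∑ s : (IntermediateField.adjoin K (Set.range m)) →ₐ[K] AlgebraicClosure K,
          s ((μ i0)⁻¹) * (s (μ i) * x i) := by
      intro i
      rw [map_mul, MvPolynomial.aeval_X, MvPolynomial.aeval_C,
        trace_eq_sum_embeddings (AlgebraicClosure K), Finset.sum_mul]
      refine Finset.sum_congr rfl fun s _ => ?_
      rw [map_mul, mul_assoc]
    rw [Finset.sum_congr rfl fun i _ => h1 i, Finset.sum_comm]
    refine Finset.sum_eq_zero fun s _ => ?_
    rw [← Finset.mul_sum]
    obtain ⟨τ, hτ⟩ : ∃ τ : AlgebraicClosure K →ₐ[K] AlgebraicClosure K,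
        ∀ z : IntermediateField.adjoin K (Set.range m), τ (z : AlgebraicClosure K) = s z :=
      ⟨s.liftNormal (AlgebraicClosure K), fun z => s.liftNormal_commutes (AlgebraicClosure K) z⟩
    have hbij : Function.Bijective τ := Algebra.IsAlgebraic.algHom_bijective τ
    choose y hy using fun i => hbij.2 (x i)
    have hyZ : y ∈ MvPolynomial.zeroLocus (AlgebraicClosure K) I := by
      intro q hq
      apply hbij.1
      rw [map_zero]
      have h2 : τ (MvPolynomial.aeval y q) = MvPolynomial.aeval (fun i => τ (y i)) q := by
        have h3 : (τ.comp (MvPolynomial.aeval y) : MvPolynomial ι K →ₐ[K] AlgebraicClosure K) =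
            MvPolynomial.aeval (fun i => τ (y i)) := by
          apply MvPolynomial.algHom_ext
          intro i
          rw [AlgHom.comp_apply, MvPolynomial.aeval_X, MvPolynomial.aeval_X]
        exact AlgHom.congr_fun h3 q
      rw [h2]
      have h4 : (fun i => τ (y i)) = x := funext hy
      rw [h4]
      exact hx q hq
    have h5 := congrArg τ (hZ y hyZ)
    rw [map_zero, map_sum] at h5
    have h6 : ∑ i, s (μ i) * x i = 0 := by
      rw [← h5]
      refine Finset.sum_congr rfl fun i _ => ?_
      rw [map_mul, hy, ← hμ, hτ]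
    rw [h6, mul_zero]

end MPadcLP
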