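import Mathlib
import Pool.Agent.Lib.MP_adc574_ag_LP.Defs

/-! # Linear equations of a span, after a field extension -/

set_option autoImplicit false

namespace MPadcLP

/-- The image of the span over the fraction field. -/
private theorem SpanAnn_map {κ : Type} [Fintype κ] {R : Type*} [CommRing R]
    [IsDomain R] {Ω : Type*} [Field Ω] (φ : R →+* Ω) (φ' : FractionRing R →+* Ω)
    (hφ' : ∀ r, φ' (algebraMap R (FractionRing R) r) = φ r)
    (g : ℕ → κ → R) (v : κ → FractionRing R)
    (hv : v ∈ Submodule.span (FractionRing R)
      (Set.range fun n => (fun k => algebraMap R (FractionRing R) (g n k)))) :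
    (fun k => φ' (v k)) ∈ Submodule.span Ω (Set.range fun n => (fun k => φ (g n k))) := by
  induction hv using Submodule.span_induction with
  | mem y hy =>
    obtain ⟨n, rfl⟩ := hy
    have h1 : (fun k => φ' (algebraMap R (FractionRing R) (g n k))) = fun k => φ (g n k) :=
      funext fun k => hφ' _
    show (fun k => φ' (algebraMap R (FractionRing R) (g n k))) ∈ _
    rw [h1]
    exact Submodule.subset_span ⟨n, rfl⟩
  | zero =>
    have h1 : (fun k : κ => φ' ((0 : κ → FractionRing R) k)) = 0 := by
      funext k
      simp
    rw [h1]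
    exact Submodule.zero_mem _
  | add y z _ _ hy hz =>
    have h1 : (fun k : κ => φ' ((y + z) k)) = (fun k => φ' (y k)) + fun k => φ' (z k) := by
      funext k
      simp
    rw [h1]
    exact Submodule.add_mem _ hy hz
  | smul a y _ hy =>
    have h1 : (fun k : κ => φ' ((a • y) k)) = φ' a • fun k => φ' (y k) := by
      funext k
      simp
    rw [h1]
    exact Submodule.smul_mem _ _ hy

/-- Let `g n` be vectors over a domain `R` and `φ : R → Ω` an injective homomorphism to a field.
A vector over `Ω` which satisfies all linear equations over `R` of the family `g` is in the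
`Ω`-span of the family.

Proof: Let `K = FractionRing R` and `φ' : K → Ω` the extension of `φ`. Let `P` be the `K`-span of
the `g n` in `κ → K`. Choose a basis of `κ → K` which extends a basis of `P` (or a linear
projection `π : (κ → K) → (κ → K)` with kernel `P`): every row of the matrix of `π`, multiplied by
a common denominator, is a vector `μ` over `R` with `μ ⬝ᵥ g n = 0` for all `n`. So `x` is in the
kernel of the matrix `π` mapped to `Ω`. On the other hand `1 - π` maps each `e_i` to `P`, hence
`x = (1 - π) x = ∑ x_i (1 - π) e_i` is in the `Ω`-span of the `g n`. -/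
theorem mem_span_of_ann {κ : Type} [Fintype κ] [DecidableEq κ] {R : Type*} [CommRing R]
    [IsDomain R] {Ω : Type*} [Field Ω] (φ : R →+* Ω) (hφ : Function.Injective φ)
    (g : ℕ → κ → R) (x : κ → Ω)
    (h : ∀ μ : κ → R, (∀ n, μ ⬝ᵥ g n = 0) → (fun k => φ (μ k)) ⬝ᵥ x = 0) :
    x ∈ Submodule.span Ω (Set.range fun n => (fun k => φ (g n k))) := by
  let φ' : FractionRing R →+* Ω := IsFractionRing.lift hφ
  have hφ' : ∀ r, φ' (algebraMap R (FractionRing R) r) = φ r := fun r =>
    IsFractionRing.lift_algebraMap hφ r
  set P := Submodule.span (FractionRing R)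
    (Set.range fun n => (fun k => algebraMap R (FractionRing R) (g n k))) with hP
  obtain ⟨s, hs⟩ := P.mkQ.exists_rightInverse_of_surjective (LinearMap.range_eq_top.2 P.mkQ_surjective)
  have hs' : ∀ z, P.mkQ (s z) = z := fun z => LinearMap.congr_fun hs z
  set π : (κ → FractionRing R) →ₗ[FractionRing R] (κ → FractionRing R) := s ∘ₗ P.mkQ with hπ
  have h1 : ∀ v ∈ P, π v = 0 := by
    intro v hv
    have h2 : P.mkQ v = 0 := (Submodule.Quotient.mk_eq_zero P).2 hv
    show s (P.mkQ v) = 0
    rw [h2, map_zero]
  have h2 : ∀ v, v - π v ∈ P := by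
    intro v
    have h3 : P.mkQ (v - π v) = 0 := by
      rw [map_sub]
      show P.mkQ v - P.mkQ (s (P.mkQ v)) = 0
      rw [hs', sub_self]
    exact (Submodule.Quotient.mk_eq_zero P).1 h3
  -- the rows of the matrix of `π`
  have h3 : ∀ i : κ, ∑ k, φ' (π (Pi.single k 1) i) * x k = 0 := by
    intro i
    obtain ⟨b, hb⟩ := IsLocalization.exist_integer_multiples_of_finite (nonZeroDivisors R)
      (fun k : κ => π (Pi.single k 1) i)
    choose μ hμ using hb
    have hb0 : φ (b : R) ≠ 0 := by
      intro h0
      have : (b : R) = 0 := hφ (by rw [h0, map_zero])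
      exact nonZeroDivisors.coe_ne_zero b this
    have hμ' : ∀ k, algebraMap R (FractionRing R) (μ k) =
        algebraMap R (FractionRing R) (b : R) * π (Pi.single k 1) i := by
      intro k
      rw [hμ k, Algebra.smul_def]
    have h4 : ∀ n, μ ⬝ᵥ g n = 0 := by
      intro n
      apply IsFractionRing.injective R (FractionRing R)
      have h5 := h1 _ (Submodule.subset_span ⟨n, rfl⟩ :
        (fun k => algebraMap R (FractionRing R) (g n k)) ∈ P)
      have h6 : (fun k => algebraMap R (FractionRing R) (g n k)) =
          ∑ k, algebraMap R (FractionRing R) (g n k) • (Pi.single k 1 : κ → FractionRing R) := by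
        funext j
        rw [Finset.sum_apply, Finset.sum_eq_single j]
        · simp
        · intro k _ hk
          simp [Ne.symm hk]
        · intro hj
          exact absurd (Finset.mem_univ j) hj
      rw [h6, map_sum] at h5
      have h7 := congrFun h5 i
      rw [Finset.sum_apply] at h7
      rw [map_zero]
      unfold dotProduct
      rw [map_sum]
      have h8 : ∑ k, algebraMap R (FractionRing R) (μ k * g n k) =
          algebraMap R (FractionRing R) (b : R) * ∑ k, (π (algebraMap R (FractionRing R) (g n k) •
            (Pi.single k 1 : κ → FractionRing R))) i := by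
        rw [Finset.mul_sum]
        refine Finset.sum_congr rfl fun k _ => ?_
        rw [map_mul, hμ', map_smul, Pi.smul_apply, smul_eq_mul]
        ring
      rw [h8, h7, Pi.zero_apply, mul_zero]
    have h5 := h μ h4
    unfold dotProduct at h5
    have h6 : ∑ k, φ (μ k) * x k = φ (b : R) * ∑ k, φ' (π (Pi.single k 1) i) * x k := by
      rw [Finset.mul_sum]
      refine Finset.sum_congr rfl fun k _ => ?_
      rw [← hφ' (μ k), hμ', map_mul, hφ']
      ring
    rw [h6] at h5
    exact (mul_eq_zero.1 h5).resolve_left hb0
  have h4 : x = ∑ k, x k • (fun i => φ' ((Pi.single k 1 - π (Pi.single k 1) :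
      κ → FractionRing R) i)) := by
    funext i
    rw [Finset.sum_apply]
    have h5 : ∑ k, (x k • (fun i => φ' ((Pi.single k 1 - π (Pi.single k 1) :
      κ → FractionRing R) i))) i = ∑ k, x k * φ' ((Pi.single k 1 : κ → FractionRing R) i) -
        ∑ k, φ' (π (Pi.single k 1) i) * x k := by
      rw [← Finset.sum_sub_distrib]
      refine Finset.sum_congr rfl fun k _ => ?_
      rw [Pi.smul_apply, smul_eq_mul, Pi.sub_apply, map_sub]
      ring
    rw [h5, h3 i, sub_zero, Finset.sum_eq_single i]
    · simp
    · intro k _ hk
      simp [Ne.symm hk]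
    · intro hj
      exact absurd (Finset.mem_univ i) hj
  rw [h4]
  exact Submodule.sum_mem _ fun k _ => Submodule.smul_mem _ _
    (SpanAnn_map φ φ' hφ' g _ (h2 (Pi.single k 1)))

end MPadcLP
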