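import Mathlib
import Pool.Agent.Lib.MP_adc574_ag_LP.EvAct

/-! # The forms `gs n` vanish on a stable subspace -/

set_option autoImplicit false

namespace MPadcLP

variable {γ ι : Type} [Fintype γ] [DecidableEq γ] [Fintype ι] [DecidableEq ι]
variable {R : Type*} [CommRing R]

/-- If `W` is stable under the connection and `l` vanishes on `W`, then all the forms
`(Δ ∇)^n l` vanish on `W`. Proof: induction on `n`, for all families `w` in `W` at the same time,
by `ev_nabT` (in the right hand sum every term is zero by the induction hypothesis). -/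
theorem van (S : Dat R γ ι) {L : Type*} [Field L] (ψ : R →+* L) (DL : Derivation ℤ L L)
    (hD : ∀ x, DL (ψ x) = ψ (S.D x)) (W : Submodule L (ι → L))
    (hst : ∀ w ∈ W, nab DL (ψ S.Δ) (S.G.map ψ) w ∈ W)
    (h0 : ∀ w : γ → ι → L, (∀ j, w j ∈ W) → ev (fun σ => ψ (l0 S.J S.fb σ)) w = 0)
    (n : ℕ) : ∀ w : γ → ι → L, (∀ j, w j ∈ W) → ev (fun σ => ψ (S.gs n σ)) w = 0 := by
  induction n with
  | zero =>
    intro w hw
    exact h0 w hw
  | succ n ih =>
    intro w hw
    have e : (fun σ => ψ (S.gs (n + 1) σ)) =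
        nabT DL (ψ S.Δ) (S.G.map ψ) (fun σ => ψ (S.gs n σ)) := by
      funext σ
      have e1 : S.gs (n + 1) = nabT S.D S.Δ S.G (S.gs n) := by
        unfold Dat.gs
        rw [Function.iterate_succ_apply']
      rw [e1]
      change ψ (S.Δ * S.D (S.gs n σ) - act S.G (S.gs n) σ) =
        ψ S.Δ * DL (ψ (S.gs n σ)) - act (S.G.map ψ) (fun σ => ψ (S.gs n σ)) σ
      rw [map_sub, map_mul, hD, ← act_map]
    rw [e]
    have h1 := ev_nabT DL (ψ S.Δ) (S.G.map ψ) (fun σ => ψ (S.gs n σ)) w
    rw [ih w hw, map_zero, mul_zero] at h1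
    have h2 : ∑ j, ev (fun σ => ψ (S.gs n σ))
        (Function.update w j (nab DL (ψ S.Δ) (S.G.map ψ) (w j))) = 0 := by
      refine Finset.sum_eq_zero fun j _ => ih _ fun i => ?_
      by_cases hij : i = j
      · subst hij
        rw [Function.update_self]
        exact hst _ (hw i)
      · rw [Function.update_of_ne hij]
        exact hw i
    rw [h2, add_zero] at h1
    exact h1.symm

/-- The span of finitely many vectors is stable when the vectors are mapped into it. -/
theorem nab_mem_span {L : Type*} [Field L] (DL : Derivation ℤ L L) (Δ : L) (G : Matrix ι ι L)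
    (w : γ → ι → L) (h : ∀ j, nab DL Δ G (w j) ∈ Submodule.span L (Set.range w)) :
    ∀ x ∈ Submodule.span L (Set.range w), nab DL Δ G x ∈ Submodule.span L (Set.range w) := by
  intro x hx
  refine Submodule.span_induction
    (p := fun x _ => nab DL Δ G x ∈ Submodule.span L (Set.range w)) ?_ ?_ ?_ ?_ hx
  · rintro _ ⟨j, rfl⟩
    exact h j
  · have e : nab DL Δ G (0 : ι → L) = 0 := by
      funext i
      change Δ * DL 0 + G.mulVec 0 i = 0
      rw [map_zero, mul_zero, Matrix.mulVec_zero, Pi.zero_apply, add_zero]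
    rw [e]
    exact Submodule.zero_mem _
  · intro x y _ _ hx hy
    have e : nab DL Δ G (x + y) = nab DL Δ G x + nab DL Δ G y := by
      funext i
      change Δ * DL (x i + y i) + G.mulVec (x + y) i =
        (Δ * DL (x i) + G.mulVec x i) + (Δ * DL (y i) + G.mulVec y i)
      rw [map_add, Matrix.mulVec_add, Pi.add_apply]
      ring
    rw [e]
    exact Submodule.add_mem _ hx hy
  · intro a x hx hx'
    have e : nab DL Δ G (a • x) = a • nab DL Δ G x + (Δ * DL a) • x := by
      funext i
      change Δ * DL (a * x i) + G.mulVec (a • x) i =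
        a * (Δ * DL (x i) + G.mulVec x i) + (Δ * DL a) * x i
      rw [Derivation.leibniz, Matrix.mulVec_smul, Pi.smul_apply]
      simp only [smul_eq_mul]
      ring
    rw [e]
    exact Submodule.add_mem _ (Submodule.smul_mem _ _ hx') (Submodule.smul_mem _ _ hx)

/-- If `det (B(e_{fb i}, w_j)) = 0` then the form `l` vanishes on the span of the `w_j`. -/
theorem ev_l0_eq_zero_of_mem_span {L : Type*} [Field L] (J : Matrix ι ι L) (fb : γ → ι)
    (w : γ → ι → L) (h : (Matrix.of fun i j => (J.mulVec (w j)) (fb i)).det = 0)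
    (w' : γ → ι → L) (hw' : ∀ j, w' j ∈ Submodule.span L (Set.range w)) :
    ev (l0 J fb) w' = 0 := by
  have hA : ∀ j, ∃ c : γ → L, ∑ k, c k • w k = w' j := fun j =>
    (Submodule.mem_span_range_iff_exists_fun L).1 (hw' j)
  choose A hA using hA
  rw [ev_l0]
  have e : (Matrix.of fun i j => (J.mulVec (w' j)) (fb i)) =
      (Matrix.of fun i j => (J.mulVec (w j)) (fb i)) * (Matrix.of A).transpose := by
    ext i j
    rw [Matrix.mul_apply, Matrix.of_apply, ← hA j, Matrix.mulVec_sum, Finset.sum_apply]
    refine Finset.sum_congr rfl fun k _ => ?_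
    rw [Matrix.mulVec_smul, Pi.smul_apply, Matrix.transpose_apply, Matrix.of_apply,
      Matrix.of_apply, smul_eq_mul, mul_comm]
  rw [e, Matrix.det_mul, h, zero_mul]

end MPadcLP
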