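import Mathlib
import Pool.Agent.Lib.MP_adc574_ag_LP.Van
import Pool.Agent.Lib.MP_adc574_ag_LP.SpanAnn
import Pool.Agent.Lib.MP_adc574_ag_LP.GroupLike
import Pool.Agent.Lib.MP_adc574_ag_LP.Descent
import Pool.Agent.Lib.MP_adc574_ag_LP.Nullst
import Pool.Agent.Lib.MP_adc574_ag_LP.Residue

/-! # The abstract theorem: no horizontal Lagrangian meets the Lagrangian `F` -/

set_option autoImplicit false

namespace MPadcLP

universe u v w

variable {γ ι : Type} [Fintype γ] [DecidableEq γ] [Fintype ι] [DecidableEq ι]

omit [Fintype γ] [DecidableEq γ] [DecidableEq ι] in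
private theorem AbsMain_BB_map {E E' : Type*} [CommRing E] [CommRing E'] (φ : E →+* E')
    (J : Matrix ι ι E) (u w : ι → E) :
    BB (J.map φ) (fun i => φ (u i)) (fun i => φ (w i)) = φ (BB J u w) := by
  simp only [BB, Matrix.mulVec, dotProduct, map_sum, map_mul, Matrix.map_apply]

omit [Fintype ι] [DecidableEq ι] in
private theorem AbsMain_l0_map {E E' : Type*} [CommRing E] [CommRing E'] (φ : E →+* E')
    (J : Matrix ι ι E) (fb : γ → ι) : l0 (J.map φ) fb = fun σ => φ (l0 J fb σ) := by
  funext σ
  simp only [l0]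
  rw [RingHom.map_det]
  rfl

private theorem AbsMain_ev_add {E : Type*} [CommRing E] (c c' : (γ → ι) → E) (w : γ → ι → E) :
    ev (c + c') w = ev c w + ev c' w := by
  simp only [ev, Pi.add_apply, add_mul, Finset.sum_add_distrib]

private theorem AbsMain_ev_smul {E : Type*} [CommRing E] (a : E) (c : (γ → ι) → E)
    (w : γ → ι → E) : ev (a • c) w = a * ev c w := by
  simp only [ev, Pi.smul_apply, smul_eq_mul, Finset.mul_sum, mul_assoc]

private theorem AbsMain_ev_zero {E : Type*} [CommRing E] (w : γ → ι → E) :
    ev (0 : (γ → ι) → E) w = 0 := by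
  simp only [ev, Pi.zero_apply, zero_mul, Finset.sum_const_zero]

private theorem AbsMain_act_zero {E : Type*} [CommRing E] (M : Matrix ι ι E) :
    act M (0 : (γ → ι) → E) = 0 := by
  funext σ
  simp [act]

/-- the quadric `μ ⬝ᵥ act (AA J h) g` under a ring homomorphism -/
private theorem AbsMain_transfer {R A E : Type*} [CommRing R] [CommRing A] [CommRing E]
    (φ : R →+* A) (θ : A →+* E) (J : Matrix ι ι R) (μ g : (γ → ι) → R) (h : ι → A) :
    θ ((fun σ => φ (μ σ)) ⬝ᵥ act (AA (J.map φ) h) (fun σ => φ (g σ))) =
      (fun σ => θ (φ (μ σ))) ⬝ᵥ act (AA (J.map (θ.comp φ)) (fun i => θ (h i)))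
        (fun σ => θ (φ (g σ))) := by
  have h1 : θ ((fun σ => φ (μ σ)) ⬝ᵥ act (AA (J.map φ) h) (fun σ => φ (g σ))) =
      (fun σ => θ (φ (μ σ))) ⬝ᵥ (fun σ => θ (act (AA (J.map φ) h) (fun σ => φ (g σ)) σ)) := by
    simp only [dotProduct, map_sum, map_mul]
  rw [h1, act_map, AA_map]
  rfl

private theorem AbsMain_span {R : Type u} [CommRing R] [IsDomain R] [CharZero R] (S : Dat R γ ι)
    (hS : S.Ok)
    (hU : ∀ x : ι → R, x ≠ 0 → ∃ (E : Type v) (_ : Field E) (φ : R →+* E) (h : ι → E),
      Function.Injective φ ∧ S.Good φ h ∧ BB (S.J.map φ) (fun i => φ (x i)) h ≠ 0)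
    (I : Ideal (MvPolynomial ι (FractionRing R)))
    (hI : I = Ideal.span {p | ∃ (μ : (γ → ι) → R) (n : ℕ), (∀ k, μ ⬝ᵥ S.gs k = 0) ∧
      p = (fun σ => (MvPolynomial.C.comp (algebraMap R (FractionRing R))) (μ σ)) ⬝ᵥ
        act (AA (S.J.map (MvPolynomial.C.comp (algebraMap R (FractionRing R)))) MvPolynomial.X)
          (fun σ => (MvPolynomial.C.comp (algebraMap R (FractionRing R))) (S.gs n σ))}) :
    Submodule.span (AlgebraicClosure (FractionRing R))
      (MvPolynomial.zeroLocus (AlgebraicClosure (FractionRing R)) I) = ⊤ := by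
  by_contra hcon
  haveI : CharZero (FractionRing R) :=
    charZero_of_injective_algebraMap (IsFractionRing.injective R (FractionRing R))
  obtain ⟨l, hl0, hl⟩ := exists_linear_of_not_span I hcon
  obtain ⟨b, hb⟩ := IsLocalization.exist_integer_multiples_of_finite (nonZeroDivisors R) l
  have hb0 : (b : R) ≠ 0 := nonZeroDivisors.coe_ne_zero b
  choose l' hl' using hb
  have hl'0 : l' ≠ 0 := by
    intro h0
    apply hl0
    funext i
    have h1 := hl' i
    rw [h0, Pi.zero_apply, map_zero, Algebra.smul_def] at h1
    rcases mul_eq_zero.mp h1.symm with h2 | h2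
    · exact absurd ((map_eq_zero_iff _ (IsFractionRing.injective R (FractionRing R))).mp h2) hb0
    · exact h2
  have hJu : IsUnit S.J.det := hS.J_det
  set x : ι → R := Matrix.vecMul l' S.J⁻¹ with hx
  have hxJ : Matrix.vecMul x S.J = l' := by
    rw [hx, Matrix.vecMul_vecMul, Matrix.nonsing_inv_mul _ hJu, Matrix.vecMul_one]
  have hx0 : x ≠ 0 := by
    intro h0
    rw [h0, Matrix.zero_vecMul] at hxJ
    exact hl'0 hxJ.symm
  obtain ⟨E, hE, φ, h, hφ, hgood, hne⟩ := hU x hx0
  apply hne
  set φ' : FractionRing R →+* E := IsFractionRing.lift hφ with hφ'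
  have hφa : ∀ r : R, φ' (algebraMap R (FractionRing R) r) = φ r := fun r =>
    IsFractionRing.lift_algebraMap hφ r
  set θ : MvPolynomial ι (FractionRing R) →+* E := MvPolynomial.eval₂Hom φ' h with hθ
  have hθC : ∀ a, θ (MvPolynomial.C a) = φ' a := fun a => MvPolynomial.eval₂Hom_C _ _ _
  have hθX : ∀ i, θ (MvPolynomial.X i) = h i := fun i => MvPolynomial.eval₂Hom_X' _ _ _
  have hIk : I ≤ RingHom.ker θ := by
    rw [hI, Ideal.span_le]
    rintro p ⟨μ, n, hμ, rfl⟩
    have h1 := hgood μ hμ n
    rw [SetLike.mem_coe, RingHom.mem_ker, AbsMain_transfer]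
    have e1 : θ.comp (MvPolynomial.C.comp (algebraMap R (FractionRing R))) = φ := by
      ext r
      exact (hθC _).trans (hφa r)
    have e2 : ∀ r : R, θ ((MvPolynomial.C.comp (algebraMap R (FractionRing R))) r) = φ r :=
      fun r => (hθC _).trans (hφa r)
    rw [e1]
    simp only [e2, hθX]
    exact h1
  obtain ⟨k, hk⟩ := hl
  have h1 : θ (∑ i, MvPolynomial.C (l i) * MvPolynomial.X i) = 0 := by
    have h2 := hIk hk
    rw [RingHom.mem_ker, map_pow] at h2
    by_contra hne'
    exact pow_ne_zero k hne' h2
  rw [map_sum] at h1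
  simp only [map_mul, hθC, hθX] at h1
  have h2 : BB (S.J.map φ) (fun i => φ (x i)) h = ∑ i, φ (l' i) * h i := by
    rw [BB, Matrix.dotProduct_mulVec]
    have h3 : Matrix.vecMul (fun i => φ (x i)) (S.J.map φ) = fun i => φ (l' i) := by
      funext i
      rw [← hxJ]
      simp only [Matrix.vecMul, dotProduct, map_sum, map_mul, Matrix.map_apply]
    rw [h3]
    rfl
  rw [h2]
  have h4 : ∑ i, φ (l' i) * h i = φ b * ∑ i, φ' (l i) * h i := by
    rw [Finset.mul_sum]
    refine Finset.sum_congr rfl fun i _ => ?_
    rw [← hφa (l' i), hl' i, Algebra.smul_def, map_mul, hφa, mul_assoc]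
  rw [h4, h1, mul_zero]

/-- Suppose that every nonzero vector `x` over `R` is not orthogonal to some good vector over some
field extension. Then over every differential field `L ⊇ R` a horizontal Lagrangian subspace
meets `F = span (e_{fb i})` trivially.

Proof. Let `K = FractionRing R` and let `I` be the ideal of `MvPolynomial ι K` generated by the
quadrics `q_{μ, n} = (C ∘ μ) ⬝ᵥ act (AA J X) (C ∘ gs n)`, for all `n` and all `μ` over `R` with
`μ ⬝ᵥ gs n = 0` for all `n`. By `act_map`, `AA_map` a point `x` over a field `E ⊇ K` is a zero of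
`I` iff `S.Good (R → E) x`.
(a) The zero locus of `I` over `AlgebraicClosure K` spans: otherwise `exists_linear_of_not_span`
gives `l ≠ 0` with `∑ l_i X_i` in the radical; after multiplication by a denominator `l` is over
`R`, and `x = J^(-T) l` (`J.det` is a unit) is nonzero with `B(x, h) = l ⬝ᵥ h`. Take `E`, `φ`, `h`
from `hU` for this `x`; `(∑ l_i X_i) ^ m ∈ I` evaluated at `h` (extend `φ` to `K → E`) gives
`(l ⬝ᵥ h) ^ m = 0`, contradiction.
(b) Let `Ω = AlgebraicClosure L`, with `AlgebraicClosure K → Ω` over `R`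
(`IsAlgClosed.lift`). The images of the points of the zero locus are good vectors over `Ω` which
span `Ω ^ ι`. Let `P` be the `Ω`-span of the `gs n`. By `mem_span_of_ann` it is stable under
`act (AA J h)` for these `h`, so `exists_groupLike` (with `AA_mul_AA`) gives the hypothesis `hT` of
`lagrangian_descent`. Let `W` be the `Ω`-span of the `w j`: dimension `card γ` by `hV`, isotropic by
`hiso`. The forms `gs n` vanish on all families in the `L`-span of the `w j` (`van`,
`nab_mem_span`, `ev_l0_eq_zero_of_mem_span`), so by `ev_sum` on all families in `W`. Then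
`lagrangian_descent` gives the contradiction. -/
theorem abstract_main {R : Type u} [CommRing R] [IsDomain R] [CharZero R] (S : Dat R γ ι)
    (hS : S.Ok)
    (hU : ∀ x : ι → R, x ≠ 0 → ∃ (E : Type v) (_ : Field E) (φ : R →+* E) (h : ι → E),
      Function.Injective φ ∧ S.Good φ h ∧ BB (S.J.map φ) (fun i => φ (x i)) h ≠ 0)
    {L : Type w} [Field L] (ψ : R →+* L) (hψ : Function.Injective ψ) (DL : Derivation ℤ L L)
    (hD : ∀ x, DL (ψ x) = ψ (S.D x)) (w V : γ → ι → L)
    (hV : ∀ i j, V i ⬝ᵥ w j = if i = j then 1 else 0)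
    (hiso : ∀ i j, BB (S.J.map ψ) (w i) (w j) = 0) (M : Matrix γ γ L)
    (hst : ∀ j, nab DL (ψ S.Δ) (S.G.map ψ) (w j) = ∑ i, M i j • w i)
    (hdet : (Matrix.of fun i j => ((S.J.map ψ).mulVec (w j)) (S.fb i)).det = 0) : False := by
  classical
  haveI : CharZero L := charZero_of_injective_ringHom hψ
  set Kf := FractionRing R with hKf
  set I : Ideal (MvPolynomial ι (FractionRing R)) :=
    Ideal.span {p | ∃ (μ : (γ → ι) → R) (n : ℕ), (∀ k, μ ⬝ᵥ S.gs k = 0) ∧
      p = (fun σ => (MvPolynomial.C.comp (algebraMap R (FractionRing R))) (μ σ)) ⬝ᵥ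
        act (AA (S.J.map (MvPolynomial.C.comp (algebraMap R (FractionRing R)))) MvPolynomial.X)
          (fun σ => (MvPolynomial.C.comp (algebraMap R (FractionRing R))) (S.gs n σ))} with hI
  have hspan := AbsMain_span S hS hU I hI
  haveI : CharZero (AlgebraicClosure L) :=
    charZero_of_injective_algebraMap (algebraMap L (AlgebraicClosure L)).injective
  set χ : R →+* AlgebraicClosure L := (algebraMap L (AlgebraicClosure L)).comp ψ with hχ
  have hχi : Function.Injective χ := (algebraMap L (AlgebraicClosure L)).injective.comp hψ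
  letI : Algebra (FractionRing R) (AlgebraicClosure L) :=
    (IsFractionRing.lift hχi : FractionRing R →+* AlgebraicClosure L).toAlgebra
  have hKa : ∀ r : R, algebraMap (FractionRing R) (AlgebraicClosure L)
      (algebraMap R (FractionRing R) r) = χ r := fun r => IsFractionRing.lift_algebraMap hχi r
  obtain ⟨j⟩ : Nonempty (AlgebraicClosure (FractionRing R) →ₐ[FractionRing R]
      AlgebraicClosure L) := ⟨IsAlgClosed.lift⟩
  have hgoodj : ∀ x ∈ MvPolynomial.zeroLocus (AlgebraicClosure (FractionRing R)) I,
      S.Good χ (fun i => j (x i)) := by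
    intro x hx μ hμ n
    have hq := hx _ (Ideal.subset_span (α := MvPolynomial ι (FractionRing R)) ⟨μ, n, hμ, rfl⟩)
    have h1 := congrArg j hq
    rw [map_zero] at h1
    set θ : MvPolynomial ι (FractionRing R) →+* AlgebraicClosure L :=
      (j : AlgebraicClosure (FractionRing R) →+* AlgebraicClosure L).comp
        (MvPolynomial.aeval x : MvPolynomial ι (FractionRing R) →ₐ[FractionRing R]
          AlgebraicClosure (FractionRing R)).toRingHom with hθ
    have e2 : ∀ r : R, θ ((MvPolynomial.C.comp (algebraMap R (FractionRing R))) r) = χ r := by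
      intro r
      have e3 : θ ((MvPolynomial.C.comp (algebraMap R (FractionRing R))) r) =
          j (MvPolynomial.aeval x (MvPolynomial.C (algebraMap R (FractionRing R) r))) := rfl
      rw [e3, MvPolynomial.aeval_C, AlgHom.commutes, hKa]
    have e1 : θ.comp (MvPolynomial.C.comp (algebraMap R (FractionRing R))) = χ := by
      ext r
      exact e2 r
    have e4 : ∀ i, θ (MvPolynomial.X i) = j (x i) := by
      intro i
      have e5 : θ (MvPolynomial.X i) = j (MvPolynomial.aeval x (MvPolynomial.X i)) := rfl
      rw [e5, MvPolynomial.aeval_X]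
    have h2 : θ ((fun σ => (MvPolynomial.C.comp (algebraMap R (FractionRing R))) (μ σ)) ⬝ᵥ
        act (AA (S.J.map (MvPolynomial.C.comp (algebraMap R (FractionRing R)))) MvPolynomial.X)
          (fun σ => (MvPolynomial.C.comp (algebraMap R (FractionRing R))) (S.gs n σ))) = 0 := h1
    rw [AbsMain_transfer, e1] at h2
    simp only [e2, e4] at h2
    exact h2
  set X : Set (ι → AlgebraicClosure L) := {h | S.Good χ h} with hX
  have hXspan : Submodule.span (AlgebraicClosure L) X = ⊤ := by
    have h1 : ∀ y ∈ Submodule.span (AlgebraicClosure (FractionRing R))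
        (MvPolynomial.zeroLocus (AlgebraicClosure (FractionRing R)) I),
        (fun i => j (y i)) ∈ Submodule.span (AlgebraicClosure L) X := by
      intro y hy
      induction hy using Submodule.span_induction with
      | mem x hx => exact Submodule.subset_span (hgoodj x hx)
      | zero =>
        have e : (fun i => j ((0 : ι → AlgebraicClosure (FractionRing R)) i)) = 0 := by
          funext i
          simp
        rw [e]
        exact Submodule.zero_mem _
      | add x y _ _ hx hy =>
        have e : (fun i => j ((x + y) i)) = (fun i => j (x i)) + (fun i => j (y i)) := by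
          funext i
          simp
        rw [e]
        exact Submodule.add_mem _ hx hy
      | smul a x _ hx =>
        have e : (fun i => j ((a • x) i)) = j a • (fun i => j (x i)) := by
          funext i
          simp
        rw [e]
        exact Submodule.smul_mem _ _ hx
    rw [eq_top_iff]
    intro v _
    have h2 : v = ∑ i, v i • (Pi.single i 1 : ι → AlgebraicClosure L) := by
      funext k
      simp [Finset.sum_apply, Pi.single_apply]
    rw [h2]
    refine Submodule.sum_mem _ fun i _ => Submodule.smul_mem _ _ ?_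
    have h3 := h1 (Pi.single i 1) (by rw [hspan]; exact Submodule.mem_top)
    have h4 : (fun k => j ((Pi.single i 1 : ι → AlgebraicClosure (FractionRing R)) k)) =
        (Pi.single i 1 : ι → AlgebraicClosure L) := by
      funext k
      by_cases hk : k = i
      · subst hk
        simp
      · simp [Pi.single_apply, hk]
    rw [h4] at h3
    exact h3
  set P : Submodule (AlgebraicClosure L) ((γ → ι) → AlgebraicClosure L) :=
    Submodule.span (AlgebraicClosure L) (Set.range fun n => (fun σ => χ (S.gs n σ))) with hP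
  have hJT : (S.J.map χ).transpose = -(S.J.map χ) := by
    rw [← Matrix.transpose_map, hS.J_transpose]
    ext a b
    simp
  have hJd : (S.J.map χ).det ≠ 0 := by
    have h1 : (S.J.map χ).det = χ S.J.det := (RingHom.map_det χ S.J).symm
    rw [h1]
    exact (hS.J_det.map χ).ne_zero
  have hstab : ∀ h ∈ X, ∀ c ∈ P, act (AA (S.J.map χ) h) c ∈ P := by
    intro h hh c hc
    induction hc using Submodule.span_induction with
    | mem x hx =>
      obtain ⟨n, rfl⟩ := hx
      exact mem_span_of_ann χ hχi S.gs _ (fun μ hμ => hh μ hμ n)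
    | zero =>
      rw [AbsMain_act_zero]
      exact Submodule.zero_mem _
    | add x y _ _ hx hy =>
      rw [act_add]
      exact Submodule.add_mem _ hx hy
    | smul a x _ hx =>
      rw [act_smul]
      exact Submodule.smul_mem _ _ hx
  set wΩ : γ → ι → AlgebraicClosure L := fun k i => algebraMap L (AlgebraicClosure L) (w k i)
    with hwΩ
  have hJJ : (S.J.map ψ).map (algebraMap L (AlgebraicClosure L)) = S.J.map χ := rfl
  have hisoΩ : ∀ a b, BB (S.J.map χ) (wΩ a) (wΩ b) = 0 := by
    intro a b
    have h1 := AbsMain_BB_map (algebraMap L (AlgebraicClosure L)) (S.J.map ψ) (w a) (w b)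
    rw [hiso a b, map_zero, hJJ] at h1
    exact h1
  have hlin : LinearIndependent (AlgebraicClosure L) wΩ := by
    rw [Fintype.linearIndependent_iff]
    intro g hg a
    have h1 := congrArg (fun u => (fun i => algebraMap L (AlgebraicClosure L) (V a i)) ⬝ᵥ u) hg
    simp only [dotProduct_zero] at h1
    rw [dotProduct_sum] at h1
    have h2 : ∀ b, (fun i => algebraMap L (AlgebraicClosure L) (V a i)) ⬝ᵥ (g b • wΩ b) =
        if a = b then g b else 0 := by
      intro b
      rw [dotProduct_smul]
      have h3 : (fun i => algebraMap L (AlgebraicClosure L) (V a i)) ⬝ᵥ wΩ b =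
          algebraMap L (AlgebraicClosure L) (V a ⬝ᵥ w b) := by
        simp only [dotProduct, map_sum, map_mul, hwΩ]
      rw [h3, hV a b]
      split_ifs <;> simp
    rw [Finset.sum_congr rfl fun b _ => h2 b] at h1
    simpa using h1
  refine lagrangian_descent (S.J.map χ) hJT hJd S.fb hS.fb_inj ?_ hS.card_eq X hXspan P ?_ ?_
    (Submodule.span (AlgebraicClosure L) (Set.range wΩ)) ?_ ?_ ?_
  · intro a b
    rw [Matrix.map_apply, hS.fb_iso, map_zero]
  · rw [AbsMain_l0_map]
    exact Submodule.subset_span ⟨0, rfl⟩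
  · intro h hh c hc
    exact exists_groupLike (AA (S.J.map χ) h) (AA_mul_AA (S.J.map χ) hJT h) P (hstab h hh) c hc
  · have h1 : ∀ a, ∀ y ∈ Submodule.span (AlgebraicClosure L) (Set.range wΩ),
        BB (S.J.map χ) (wΩ a) y = 0 := by
      intro a y hy
      induction hy using Submodule.span_induction with
      | mem x hx =>
        obtain ⟨b, rfl⟩ := hx
        exact hisoΩ a b
      | zero => simp [BB]
      | add x y _ _ hx hy =>
        simp only [BB] at hx hy ⊢
        rw [Matrix.mulVec_add, dotProduct_add, hx, hy, add_zero]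
      | smul b x _ hx =>
        simp only [BB] at hx ⊢
        rw [Matrix.mulVec_smul, dotProduct_smul, hx, smul_zero]
    intro x hx y hy
    induction hx using Submodule.span_induction with
    | mem x hx =>
      obtain ⟨a, rfl⟩ := hx
      exact h1 a y hy
    | zero => simp [BB]
    | add u v _ _ hu hv =>
      simp only [BB] at hu hv ⊢
      rw [add_dotProduct, hu, hv, add_zero]
    | smul b u _ hu =>
      simp only [BB] at hu ⊢
      rw [smul_dotProduct, hu, smul_zero]
  · exact finrank_span_eq_card hlin
  · intro c hc w' hw'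
    have hvanL : ∀ n : ℕ, ∀ u : γ → ι → L, (∀ k, u k ∈ Submodule.span L (Set.range w)) →
        ev (fun σ => ψ (S.gs n σ)) u = 0 := by
      intro n
      refine van S ψ DL hD (Submodule.span L (Set.range w)) ?_ ?_ n
      · refine nab_mem_span DL (ψ S.Δ) (S.G.map ψ) w ?_
        intro k
        rw [hst k]
        exact Submodule.sum_mem _ fun i _ =>
          Submodule.smul_mem _ _ (Submodule.subset_span ⟨i, rfl⟩)
      · intro u hu
        have h1 := ev_l0_eq_zero_of_mem_span (S.J.map ψ) S.fb w hdet u hu
        rw [AbsMain_l0_map] at h1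
        exact h1
    induction hc using Submodule.span_induction with
    | mem x hx =>
      obtain ⟨n, rfl⟩ := hx
      have h1 : ∀ k, ∃ A : γ → AlgebraicClosure L, ∑ i, A i • wΩ i = w' k := fun k =>
        Submodule.mem_span_range_iff_exists_fun _ |>.mp (hw' k)
      choose A hA using h1
      have h2 : w' = fun k => ∑ i, (Matrix.of A) k i • wΩ i := by
        funext k
        rw [← hA k]
        rfl
      rw [h2]
      change ev (fun σ => χ (S.gs n σ)) (fun k => ∑ i, (Matrix.of A) k i • wΩ i) = 0
      rw [ev_sum]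
      refine Finset.sum_eq_zero fun κ _ => ?_
      have h3 := ev_map (algebraMap L (AlgebraicClosure L)) (fun σ => ψ (S.gs n σ))
        (fun k => w (κ k))
      rw [hvanL n (fun k => w (κ k)) (fun k => Submodule.subset_span ⟨κ k, rfl⟩), map_zero] at h3
      have h4 : ev (fun σ => χ (S.gs n σ)) (fun k => wΩ (κ k)) = 0 := h3.symm
      rw [h4, mul_zero]
    | zero => exact AbsMain_ev_zero w'
    | add x y _ _ hx hy => rw [AbsMain_ev_add, hx, hy, add_zero]
    | smul a x _ hx => rw [AbsMain_ev_smul, hx, mul_zero]

end MPadcLP
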