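import Mathlib
import Pool.Agent.Lib.MP_adc574_ag_LP.AbsMain
import Pool.Agent.Lib.MP_adc574_ag_LP.LocalGood
import Pool.Agent.Lib.MP_adc574_ag_LP.Place

/-! # The abstract theorem over the affine line -/

set_option autoImplicit false

namespace MPadcLP

open Polynomial

universe u v w

variable {γ ι : Type} [Fintype γ] [DecidableEq γ] [Fintype ι] [DecidableEq ι]

theorem Global_BB_add {E : Type*} [CommRing E] (J : Matrix ι ι E) (u v w : ι → E) :
    BB J (fun i => u i + v i) w = BB J u w + BB J v w := by
  unfold BB
  simp only [dotProduct, add_mul, Finset.sum_add_distrib]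

theorem Global_BB_smul {E : Type*} [CommRing E] (J : Matrix ι ι E) (c : E) (u w : ι → E) :
    BB J (fun i => c * u i) w = c * BB J u w := by
  unfold BB
  simp only [dotProduct, Finset.mul_sum, mul_assoc]

theorem Global_BB_map {E E' : Type*} [CommRing E] [CommRing E'] (φ : E →+* E')
    (J : Matrix ι ι E) (u w : ι → E) :
    φ (BB J u w) = BB (J.map φ) (fun i => φ (u i)) (fun i => φ (w i)) := by
  unfold BB
  simp only [dotProduct, Matrix.mulVec, Matrix.map_apply, map_sum, map_mul]

theorem Global_BB_deriv {A E : Type*} [CommRing A] [CommRing E] [Algebra A E] (d : Derivation A E E)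
    (J : Matrix ι ι E) (hJ : ∀ i j, d (J i j) = 0) (u w : ι → E) :
    d (BB J u w) = BB J (fun i => d (u i)) w + BB J u (fun i => d (w i)) := by
  unfold BB
  simp only [dotProduct, Matrix.mulVec, map_sum, Derivation.leibniz, smul_eq_mul, hJ, mul_zero,
    add_zero]
  rw [← Finset.sum_add_distrib]
  refine Finset.sum_congr rfl fun i _ => ?_
  rw [add_comm]
  ring

theorem Global_BB_skew {E : Type*} [CommRing E] (J Γ : Matrix ι ι E)
    (h : Γ.transpose * J + J * Γ = 0) (u w : ι → E) :
    BB J (Γ.mulVec u) w + BB J u (Γ.mulVec w) = 0 := by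
  have h1 : BB J (Γ.mulVec u) w = u ⬝ᵥ (Γ.transpose * J).mulVec w := by
    unfold BB
    rw [← Matrix.mulVec_mulVec, Matrix.dotProduct_mulVec u, Matrix.vecMul_transpose]
  have h2 : BB J u (Γ.mulVec w) = u ⬝ᵥ (J * Γ).mulVec w := by
    unfold BB
    rw [Matrix.mulVec_mulVec]
  rw [h1, h2, ← dotProduct_add, ← Matrix.add_mulVec, h, Matrix.zero_mulVec, dotProduct_zero]

/-- Connections over the affine line `Spec k[t]`, with residue of rank at most one at all points
(over an algebraically closed field `F ⊇ k`) and such that no nonzero space of vectors over `k[t]`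
is stable under the connection. Then over every differential field `L ⊇ k[t]` a horizontal
Lagrangian subspace meets `span (e_{fb i})` trivially.

Proof: `abstract_main`. To verify `hU` let `U` be the `k`-space of all `x : ι → k[t]` with
`B(pl a x, h_a) = 0` for all `a : F`, `h_a` the vector of `local_good` at `a` (for
`φ = pl k a`); if `x ∉ U` for every nonzero `x` then `hU` holds with
`E = FractionRing F⟦s⟧` (Good passes to `E`: apply the injective map `F⟦s⟧ → E` to the
equation, with `act_map`, `AA_map`). So it is enough that `U` is stable, in the sense of `hinf`.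
Let `x ∈ U`. At every place `a`, `Γ (pl a x)` is divisible by `s`
(last conclusion of `local_good`), so `pl a Δ ∣ pl a (G x)_i` from
`pl a Δ * (Γ pl a x)_i = s * pl a (G x)_i`. By `dvd_of_forall_pl` `Δ ∣ (G x)_i`, and there is `v`
with `Δ v = Δ D x + G x = nab x`. And `v ∈ U`:
`s * pl a Δ * B(pl a v, h_a) = s * B(pl a (nab x), h_a)
  = pl a Δ * B(s D(pl a x) + Γ (pl a x), h_a)
  = pl a Δ * (s D (B(pl a x, h_a)) - B(pl a x, s D h_a + Γ h_a)) = 0`
(`J` is constant and preserved by `Γ`). -/
theorem global_main {k : Type u} {F : Type v} [Field k] [CharZero k] [Field F] [IsAlgClosed F]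
    [Algebra k F] (S : Dat k[X] γ ι) (hS : S.Ok) (hSD : ∀ q : k[X], S.D q = derivative q)
    (hloc : ∀ a : F, ∃ (Γ : Matrix ι ι (PowerSeries F)) (d l : ι → F),
      (∀ i j, pl k a S.Δ * Γ i j = PowerSeries.X * pl k a (S.G i j)) ∧
      ∀ i j, PowerSeries.constantCoeff (Γ i j) = d i * l j)
    (hinf : ∀ U : Submodule k (ι → k[X]),
      (∀ x ∈ U, ∃ y ∈ U, ∀ i, S.Δ * y i = nab S.D S.Δ S.G x i) → U = ⊥)
    {L : Type w} [Field L] (ψ : k[X] →+* L) (hψ : Function.Injective ψ) (DL : Derivation ℤ L L)
    (hD : ∀ x, DL (ψ x) = ψ (derivative x)) (w V : γ → ι → L)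
    (hV : ∀ i j, V i ⬝ᵥ w j = if i = j then 1 else 0)
    (hiso : ∀ i j, BB (S.J.map ψ) (w i) (w j) = 0) (M : Matrix γ γ L)
    (hst : ∀ j, nab DL (ψ S.Δ) (S.G.map ψ) (w j) = ∑ i, M i j • w i)
    (hdet : (Matrix.of fun i j => ((S.J.map ψ).mulVec (w j)) (S.fb i)).det = 0) : False := by
  have : CharZero F := charZero_of_injective_algebraMap (algebraMap k F).injective
  have hDa : ∀ (a : F) (x : k[X]), PowerSeries.derivative F (pl k a x) = pl k a (S.D x) := by
    intro a x
    rw [hSD, pl_derivative]
  choose Γ d l hΓ hN using hloc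
  have hlg := fun a : F => local_good S hS (pl k a) (pl_injective a) (hDa a) (Γ a) (hΓ a) (d a)
    (l a) (hN a)
  choose h hgood hhor hkill using hlg
  let U : Submodule k (ι → k[X]) :=
    { carrier := {x | ∀ a : F, BB (S.J.map (pl k a)) (fun i => pl k a (x i)) (h a) = 0}
      add_mem' := by
        intro x y hx hy a
        have h1 : (fun i => pl k a ((x + y) i)) = fun i => pl k a (x i) + pl k a (y i) := by
          funext i
          rw [Pi.add_apply, map_add]
        rw [h1, Global_BB_add, hx a, hy a, add_zero]
      zero_mem' := by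
        intro a
        have h1 : (fun i => pl k a ((0 : ι → k[X]) i)) = fun _ => 0 := by
          funext i
          rw [Pi.zero_apply, map_zero]
        rw [h1]
        unfold BB
        simp [dotProduct]
      smul_mem' := by
        intro c x hx a
        have h1 : (fun i => pl k a ((c • x) i)) = fun i => pl k a (C c) * pl k a (x i) := by
          funext i
          rw [Pi.smul_apply, Polynomial.smul_eq_C_mul, map_mul]
        rw [h1, Global_BB_smul, hx a, mul_zero] }
  have hUmem : ∀ x : ι → k[X], x ∈ U ↔
      ∀ a : F, BB (S.J.map (pl k a)) (fun i => pl k a (x i)) (h a) = 0 := fun x => Iff.rfl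
  have hUbot : U = ⊥ := by
    refine hinf U fun x hx => ?_
    have hΔ0 : ∀ a : F, pl k a S.Δ ≠ 0 := fun a => by
      rw [Ne, map_eq_zero_iff _ (pl_injective a)]
      exact hS.Δ_ne
    -- `Γ` on `pl x`
    have hΓx : ∀ (a : F) (i : ι), pl k a S.Δ * (Γ a).mulVec (fun i => pl k a (x i)) i =
        PowerSeries.X * pl k a (S.G.mulVec x i) := by
      intro a i
      simp only [Matrix.mulVec, dotProduct, map_sum, map_mul, Finset.mul_sum]
      refine Finset.sum_congr rfl fun j _ => ?_
      rw [← mul_assoc, hΓ a i j, mul_assoc]
    have hdvd : ∀ i, S.Δ ∣ S.G.mulVec x i := by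
      intro i
      refine dvd_of_forall_pl (F := F) _ _ hS.Δ_ne fun a => ?_
      have h1 := hkill a (fun i => pl k a (x i)) ((hUmem x).1 hx a) i
      have h2 : (PowerSeries.X : PowerSeries F) ∣ (Γ a).mulVec (fun i => pl k a (x i)) i := by
        rw [PowerSeries.X_dvd_iff]
        simp only [Matrix.mulVec, dotProduct, map_sum, map_mul]
        exact h1
      obtain ⟨r, hr⟩ := h2
      refine ⟨r, ?_⟩
      have h3 := hΓx a i
      rw [hr] at h3
      have h4 : (PowerSeries.X : PowerSeries F) * (pl k a (S.G.mulVec x i)) =
          PowerSeries.X * (pl k a S.Δ * r) := by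
        rw [← h3]
        ring
      exact mul_left_cancel₀ PowerSeries.X_ne_zero h4
    choose r hr using hdvd
    refine ⟨fun i => S.D (x i) + r i, ?_, fun i => ?_⟩
    · rw [hUmem]
      intro a
      have hflat : (Γ a).transpose * S.J.map (pl k a) + S.J.map (pl k a) * Γ a = 0 := by
        have h1 : pl k a S.Δ • ((Γ a).transpose * S.J.map (pl k a) + S.J.map (pl k a) * Γ a) =
            (PowerSeries.X : PowerSeries F) •
              ((S.G.transpose * S.J + S.J * S.G).map (pl k a)) := by
          have hG : pl k a S.Δ • Γ a = (PowerSeries.X : PowerSeries F) • S.G.map (pl k a) := by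
            ext1 i j
            exact hΓ a i j
          rw [smul_add, ← Matrix.smul_mul, ← Matrix.mul_smul, ← Matrix.transpose_smul, hG,
            Matrix.transpose_smul, Matrix.smul_mul, Matrix.mul_smul, ← smul_add,
            Matrix.map_add _ (map_add (pl k a)), Matrix.map_mul, Matrix.map_mul,
            Matrix.transpose_map]
        rw [hS.flat, Matrix.map_zero _ (map_zero (pl k a)), smul_zero] at h1
        ext1 i j
        have h2 := congrFun (congrFun h1 i) j
        rw [Matrix.smul_apply, smul_eq_mul, Matrix.zero_apply] at h2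
        exact (mul_eq_zero.1 h2).resolve_left (hΔ0 a)
      have hJc : ∀ i j, PowerSeries.derivative F (S.J.map (pl k a) i j) = 0 := by
        intro i j
        rw [Matrix.map_apply, hDa, hS.J_const, map_zero]
      have hxa := (hUmem x).1 hx a
      have hder := Global_BB_deriv (PowerSeries.derivative F) (S.J.map (pl k a)) hJc
        (fun i => pl k a (x i)) (h a)
      rw [hxa, map_zero] at hder
      have hsk := Global_BB_skew (S.J.map (pl k a)) (Γ a) hflat (fun i => pl k a (x i)) (h a)
      -- `B(u, X h' + Γ h) = 0`
      have hz : BB (S.J.map (pl k a)) (fun i => pl k a (x i))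
          (fun i => PowerSeries.derivative F (h a i)) * PowerSeries.X +
          BB (S.J.map (pl k a)) (fun i => pl k a (x i)) ((Γ a).mulVec (h a)) = 0 := by
        unfold BB
        simp only [dotProduct, Finset.sum_mul, Matrix.mulVec]
        rw [← Finset.sum_add_distrib]
        refine Finset.sum_eq_zero fun i _ => ?_
        have : ∀ j, S.J.map (pl k a) i j * (PowerSeries.X * PowerSeries.derivative F (h a j) +
            ∑ l, Γ a j l * h a l) = 0 := by
          intro j
          have := hhor a j
          simp only [Matrix.mulVec, dotProduct] at this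
          rw [this, mul_zero]
        have h5 := Finset.sum_eq_zero (s := Finset.univ) fun j _ => this j
        have h6 : ∑ j, S.J.map (pl k a) i j * (PowerSeries.X * PowerSeries.derivative F (h a j) +
            ∑ l, Γ a j l * h a l) =
            (∑ j, S.J.map (pl k a) i j * PowerSeries.derivative F (h a j)) * PowerSeries.X +
            ∑ j, S.J.map (pl k a) i j * ∑ l, Γ a j l * h a l := by
          rw [Finset.sum_mul, ← Finset.sum_add_distrib]
          exact Finset.sum_congr rfl fun j _ => by ring
        rw [h6] at h5
        rw [mul_assoc, ← mul_add, h5, mul_zero]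
      -- the main computation
      have hmain : PowerSeries.X * pl k a S.Δ * BB (S.J.map (pl k a))
          (fun i => pl k a (S.D (x i) + r i)) (h a) = 0 := by
        rw [← Global_BB_smul]
        have h7 : (fun i => PowerSeries.X * pl k a S.Δ * pl k a (S.D (x i) + r i)) =
            fun i => pl k a S.Δ * (PowerSeries.X * PowerSeries.derivative F (pl k a (x i)) +
              (Γ a).mulVec (fun i => pl k a (x i)) i) := by
          funext i
          rw [mul_add (pl k a S.Δ), hΓx a i, hr i, hDa, map_add, map_mul]
          ring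
        rw [h7, Global_BB_smul, Global_BB_add, Global_BB_smul]
        have h8 : PowerSeries.X * BB (S.J.map (pl k a))
            (fun i => PowerSeries.derivative F (pl k a (x i))) (h a) =
            - (PowerSeries.X * BB (S.J.map (pl k a)) (fun i => pl k a (x i))
              (fun i => PowerSeries.derivative F (h a i))) := by
          have := congrArg (fun z => PowerSeries.X * z) hder
          simp only [mul_zero, mul_add] at this
          exact eq_neg_of_add_eq_zero_left this.symm
        have h9 : BB (S.J.map (pl k a)) (fun i => (Γ a).mulVec (fun i => pl k a (x i)) i) (h a) =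
            - BB (S.J.map (pl k a)) (fun i => pl k a (x i)) ((Γ a).mulVec (h a)) :=
          eq_neg_of_add_eq_zero_left hsk
        rw [h8, h9]
        have h10 := congrArg (fun z => - (pl k a S.Δ * z)) hz
        simp only [mul_zero, neg_zero] at h10
        rw [← h10]
        ring
      exact (mul_eq_zero.1 hmain).resolve_left (mul_ne_zero PowerSeries.X_ne_zero (hΔ0 a))
    · unfold nab
      rw [hr i]
      ring
  refine abstract_main S hS ?_ ψ hψ DL (fun x => by rw [hD, hSD]) w V hV hiso M hst hdet
  intro x hx
  have hxU : x ∉ U := by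
    rw [hUbot, Submodule.mem_bot]
    exact hx
  rw [hUmem] at hxU
  push Not at hxU
  obtain ⟨a, ha⟩ := hxU
  refine ⟨FractionRing (PowerSeries F), inferInstance,
    (algebraMap (PowerSeries F) (FractionRing (PowerSeries F))).comp (pl k a),
    fun i => algebraMap (PowerSeries F) (FractionRing (PowerSeries F)) (h a i), ?_, ?_, ?_⟩
  · exact (IsFractionRing.injective (PowerSeries F) _).comp (pl_injective a)
  · intro μ hμ n
    have h1 := congrArg (algebraMap (PowerSeries F) (FractionRing (PowerSeries F)))
      (hgood a μ hμ n)
    rw [map_zero] at h1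
    rw [← h1]
    simp only [dotProduct, map_sum, map_mul]
    refine Finset.sum_congr rfl fun σ _ => ?_
    rw [RingHom.comp_apply]
    congr 1
    have h2 := congrFun (act_map (algebraMap (PowerSeries F) (FractionRing (PowerSeries F)))
      (AA (S.J.map (pl k a)) (h a)) (fun σ => pl k a (S.gs n σ))) σ
    rw [AA_map] at h2
    rw [h2]
    rfl
  · have h1 := Global_BB_map (algebraMap (PowerSeries F) (FractionRing (PowerSeries F)))
      (S.J.map (pl k a)) (fun i => pl k a (x i)) (h a)
    intro h2
    apply ha
    apply IsFractionRing.injective (PowerSeries F) (FractionRing (PowerSeries F))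
    rw [map_zero, h1]
    exact h2

end MPadcLP
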