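import Mathlib
import Pool.Agent.Lib.MP_adc574_ag_LP.GMBasic

/-! # No stable lattice: the argument at infinity -/

set_option autoImplicit false

namespace MPadcLP

open Polynomial

/-- The coefficient of `t ^ d` of a polynomial in `k[t][x]`, as a polynomial in `x`. -/
noncomputable def tcoeff {k : Type*} [CommRing k] (d : ℕ) (f : k[X][X]) : k[X] :=
  ∑ i ∈ Finset.range (f.natDegree + 1), Polynomial.monomial i ((f.coeff i).coeff d)

theorem coeff_tcoeff {k : Type*} [CommRing k] (d : ℕ) (f : k[X][X]) (i : ℕ) :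
    (tcoeff d f).coeff i = (f.coeff i).coeff d := by
  unfold tcoeff
  rw [finsetSum_coeff]
  simp only [coeff_monomial]
  rw [Finset.sum_ite_eq' (Finset.range (f.natDegree + 1)) i (fun j => (f.coeff j).coeff d)]
  split_ifs with h
  · rfl
  · rw [Finset.mem_range, not_lt] at h
    have h1 : f.coeff i = 0 := coeff_eq_zero_of_natDegree_lt (by omega)
    rw [h1, coeff_zero]

theorem derivative_tcoeff {k : Type*} [CommRing k] (d : ℕ) (f : k[X][X]) :
    derivative (tcoeff d f) = tcoeff d (derivative f) := by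
  ext i
  rw [coeff_derivative, coeff_tcoeff, coeff_tcoeff, coeff_derivative]
  have h1 : ((i : k[X]) + 1) = C ((i : k) + 1) := by
    rw [C_add, C_1, C_eq_natCast]
  rw [h1, coeff_mul_C]

/-- Coefficient of `t ^ n` of a product, as a sum over the antidiagonal. -/
theorem tcoeff_mul {k : Type*} [CommRing k] (n : ℕ) (f g : k[X][X]) :
    tcoeff n (f * g) = ∑ z ∈ Finset.HasAntidiagonal.antidiagonal n, tcoeff z.1 f * tcoeff z.2 g := by
  ext i
  rw [coeff_tcoeff, coeff_mul, finsetSum_coeff, finsetSum_coeff]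
  have h1 : ∀ z ∈ Finset.HasAntidiagonal.antidiagonal n, (tcoeff z.1 f * tcoeff z.2 g).coeff i =
      ∑ x ∈ Finset.HasAntidiagonal.antidiagonal i,
        (f.coeff x.1).coeff z.1 * (g.coeff x.2).coeff z.2 := by
    intro z _
    rw [coeff_mul]
    refine Finset.sum_congr rfl fun x _ => ?_
    rw [coeff_tcoeff, coeff_tcoeff]
  rw [Finset.sum_congr rfl h1, Finset.sum_comm]
  refine Finset.sum_congr rfl fun x _ => ?_
  rw [coeff_mul]

theorem Infinity_tcoeff_add {k : Type*} [CommRing k] (d : ℕ) (f g : k[X][X]) :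
    tcoeff d (f + g) = tcoeff d f + tcoeff d g := by
  ext i
  rw [coeff_tcoeff, coeff_add, coeff_add, coeff_add, coeff_tcoeff, coeff_tcoeff]

theorem Infinity_tcoeff_sub {k : Type*} [CommRing k] (d : ℕ) (f g : k[X][X]) :
    tcoeff d (f - g) = tcoeff d f - tcoeff d g := by
  ext i
  rw [coeff_tcoeff, coeff_sub, coeff_sub, coeff_sub, coeff_tcoeff, coeff_tcoeff]

theorem Infinity_tcoeff_zero {k : Type*} [CommRing k] (d : ℕ) :
    tcoeff d (0 : k[X][X]) = 0 := by
  ext i
  rw [coeff_tcoeff, coeff_zero, coeff_zero, coeff_zero]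

theorem Infinity_tcoeff_C {k : Type*} [CommRing k] (d : ℕ) (c : k[X]) :
    tcoeff d (C c : k[X][X]) = C (c.coeff d) := by
  ext i
  rw [coeff_tcoeff, coeff_C, coeff_C]
  split_ifs
  · rfl
  · rw [coeff_zero]

theorem Infinity_tcoeff_two {k : Type*} [CommRing k] (d : ℕ) (f : k[X][X]) :
    tcoeff d (2 * f) = 2 * tcoeff d f := by
  rw [two_mul, two_mul, Infinity_tcoeff_add]

theorem Infinity_eq_zero {k : Type*} [CommRing k] {f : k[X][X]} (h : ∀ j, tcoeff j f = 0) :
    f = 0 := by
  ext i j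
  rw [← coeff_tcoeff, h j, coeff_zero, coeff_zero, coeff_zero]

theorem Infinity_bound {k : Type*} [CommRing k] (f : k[X][X]) :
    ∃ n, ∀ j, n ≤ j → tcoeff j f = 0 := by
  refine ⟨(Finset.range (f.natDegree + 1)).sup (fun i => (f.coeff i).natDegree) + 1,
    fun j hj => ?_⟩
  ext i
  rw [coeff_tcoeff, coeff_zero]
  by_cases hi : i ≤ f.natDegree
  · have h1 : (f.coeff i).natDegree ≤
        (Finset.range (f.natDegree + 1)).sup (fun i => (f.coeff i).natDegree) :=
      Finset.le_sup (f := fun i => (f.coeff i).natDegree) (Finset.mem_range.2 (by omega))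
    exact coeff_eq_zero_of_natDegree_lt (by omega)
  · rw [coeff_eq_zero_of_natDegree_lt (by omega : f.natDegree < i), coeff_zero]

theorem Infinity_low {k : Type*} [CommRing k] {a b : ℕ} {f g : k[X][X]}
    (hf : ∀ j, a < j → tcoeff j f = 0) (hg : ∀ j, b ≤ j → tcoeff j g = 0) :
    ∀ j, a + b ≤ j → tcoeff j (f * g) = 0 := by
  intro j hj
  rw [tcoeff_mul]
  refine Finset.sum_eq_zero fun z hz => ?_
  rw [Finset.HasAntidiagonal.mem_antidiagonal] at hz
  by_cases h1 : a < z.1
  · rw [hf _ h1, zero_mul]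
  · rw [hg _ (by omega), mul_zero]

theorem Infinity_top {k : Type*} [CommRing k] {a b : ℕ} {f g : k[X][X]}
    (hf : ∀ j, a < j → tcoeff j f = 0) (hg : ∀ j, b < j → tcoeff j g = 0) :
    tcoeff (a + b) (f * g) = tcoeff a f * tcoeff b g := by
  rw [tcoeff_mul, Finset.sum_eq_single (a, b)]
  · intro z hz hne
    rw [Finset.HasAntidiagonal.mem_antidiagonal] at hz
    by_cases h1 : a < z.1
    · rw [hf _ h1, zero_mul]
    · by_cases h2 : b < z.2
      · rw [hg _ h2, mul_zero]
      · exact absurd (Prod.ext (by simp only; omega) (by simp only; omega)) hne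
  · intro h
    exact absurd ((Finset.HasAntidiagonal.mem_antidiagonal (n := a + b) (a := (a, b))).2 rfl) h

theorem Infinity_divides {k : Type*} [Field k] {F A B : k[X]} (hF : F.Separable)
    (hF0 : F ≠ 0) (hB : B.natDegree ≤ F.natDegree) {E : k[X]}
    (h : E * F = A * F + B * derivative F) :
    ∃ b : k, B = C b * F ∧ A = E - C b * derivative F := by
  have h1 : F ∣ B * derivative F := ⟨E - A, by linear_combination -h⟩
  have h2 : F ∣ B := IsCoprime.dvd_of_dvd_mul_right hF h1
  obtain ⟨q, hq⟩ := h2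
  have h3 : ∃ b : k, q = C b := by
    by_cases hq0 : q = 0
    · exact ⟨0, by rw [hq0, C_0]⟩
    · have h4 : B.natDegree = F.natDegree + q.natDegree := by
        rw [hq, natDegree_mul hF0 hq0]
      exact ⟨q.coeff 0, eq_C_of_natDegree_eq_zero (by omega)⟩
  obtain ⟨b, hb⟩ := h3
  have h5 : B = C b * F := by
    rw [hq, hb]
    ring
  refine ⟨b, h5, ?_⟩
  have h6 : (A - (E - C b * derivative F)) * F = 0 := by
    rw [h5] at h
    linear_combination -h
  have h7 := (mul_eq_zero.1 h6).resolve_right hF0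
  linear_combination h7

/-- Degree lowering. Let `f ∈ k[t][x]` be monic of degree `m` in `x`, of odd degree `d` in `t`,
with `t ^ d`-coefficient `f_d(x)` of degree `m - 1` and separable. Then no nonzero space of
vectors over `k[t]` is stable under the Gauss–Manin connection of `y² = f`.

Proof. Suppose `U ≠ ⊥`. For `x ∈ U` let `P = pol m f ψ x ∈ k[t][x]`, and choose `0 ≠ a ∈ U` such
that the degree `κ` of `P = pol a` in `t` (the least `κ` such that `tcoeff j P = 0` for all
`j > κ`) is minimal. `P ≠ 0` by `pol_injective`, so `P_κ = tcoeff κ P ≠ 0`. Let `y ∈ U` with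
`c y = nab a`, so `pol (nab a) = c * pol y` (`pol_smul`), and let `A`, `B` be from `pol_nab`:
  (1) `c P f_t = A f + B f_x` (`f_t = dco D f` is the derivative in `t`),
  (2) `2 c pol y = 2 c P_t - A - 2 B_x`, `deg_x A ≤ m - 2`, `deg_x B ≤ m - 1`.
Let `δ = deg c`, `γ ≠ 0` its leading coefficient, `M = κ + δ`. Write `A_j = tcoeff j A`, etc.
(3) Comparing the coefficients of `x ^ (2 m - 2)` in (1) (the left side has degree
  `≤ (m - 2) + (m - 1)` in `x`): `coeff (m - 2) A + m coeff (m - 1) B = 0` in `k[t]`.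
(4) `A_j = B_j = 0` for `j ≥ M`: otherwise let `N ≥ M` be the largest index with
  `(A_N, B_N) ≠ 0`. The left side of (1) has `t`-degree `≤ κ + δ + d - 1 < N + d`, so
  `A_N f_d + B_N f_d' = 0`. As `f_d` is separable, `f_d ∣ B_N`, and `deg B_N ≤ m - 1`, so
  `B_N = b f_d`, `A_N = - b f_d'` with `b ∈ k`. By (3) `- b (m - 1) lc + m b lc = 0`
  (`lc ≠ 0` the coefficient of `x ^ (m - 1)` in `f_d`), so `b = 0`, contradiction.
(5) The coefficient of `t ^ (M + d - 1)` in (1): `γ d P_κ f_d = A_(M-1) f_d + B_(M-1) f_d'`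
  (if `M = 0` the right side is zero, contradiction as the left side is not). So
  `B_(M-1) = b f_d` with `b ∈ k` and `A_(M-1) = γ d P_κ - b f_d'`. With
  `π = coeff (m - 2) P_κ`, (3) gives `γ d π - b (m - 1) lc + m b lc = 0`, `b lc = - γ d π`.
(6) By (2) `2 c pol y` has `t`-degree `≤ M - 1`, so `pol y` has `t`-degree `< κ`, and by
  minimality `y = 0`. The coefficient of `t ^ (M - 1)` in (2):
  `0 = 2 γ κ P_κ - A_(M-1) - 2 (B_(M-1))' = γ (2 κ - d) P_κ - b f_d'`. The coefficient of
  `x ^ (m - 2)`: `γ (2 κ - d) π - b (m - 1) lc = γ (2 κ - d + d (m - 1)) π = 0`, so `π = 0`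
  (`2 κ + d (m - 2) > 0`), so `b = 0` and `(2 κ - d) P_κ = 0`, which is impossible because `d` is
  odd. -/
theorem no_stable {k : Type*} [Field k] [CharZero k] (D : Der k[X])
    (hD : ∀ q, D q = derivative q) {m d : ℕ} (hm : 3 ≤ m) (hd : Odd d)
    {f : k[X][X]} (hf : f.Monic) (hfm : f.natDegree = m)
    (hdeg : ∀ i, (f.coeff i).natDegree ≤ d) (htop : (tcoeff d f).natDegree = m - 1)
    (hsep : (tcoeff d f).Separable) {ψ : PowerSeries k[X]} (hψ : IsPsi m f ψ) {c : k[X]}
    (hc : c ≠ 0) {G : Matrix (Idx m) (Idx m) k[X]} (hG : IsGM D c m f ψ G)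
    (U : Submodule k (Idx m → k[X]))
    (hU : ∀ x ∈ U, ∃ y ∈ U, ∀ i, c * y i = nab D c G x i) : U = ⊥ := by
  classical
  by_contra hne
  -- basic facts about the t-coefficients of `f`
  have hf0 : ∀ j, d < j → tcoeff j f = 0 := by
    intro j hj
    ext i
    rw [coeff_tcoeff, coeff_zero]
    exact coeff_eq_zero_of_natDegree_lt (lt_of_le_of_lt (hdeg i) hj)
  have hd1 : 1 ≤ d := hd.pos
  set F := tcoeff d f with hF
  have hF0 : F ≠ 0 := by
    intro h0
    rw [h0, natDegree_zero] at htop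
    omega
  set lc := F.coeff (m - 1) with hlc
  have hlc0 : lc ≠ 0 := by
    rw [hlc, ← htop]
    exact leadingCoeff_ne_zero.2 hF0
  have htd : ∀ (Q : k[X][X]) (j : ℕ), tcoeff j (dco D Q) = C ((j : k) + 1) * tcoeff (j + 1) Q := by
    intro Q j
    ext i
    rw [coeff_tcoeff, coeff_dco, hD, coeff_derivative, coeff_C_mul, coeff_tcoeff, mul_comm]
  have hf' : ∀ j, d < j → tcoeff j (derivative f) = 0 := by
    intro j hj
    rw [← derivative_tcoeff, hf0 j hj, derivative_zero]
  have hft : ∀ j, d ≤ j → tcoeff j (dco D f) = 0 := by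
    intro j hj
    rw [htd, hf0 (j + 1) (by omega), mul_zero]
  have hcC : ∀ j, c.natDegree < j → tcoeff j (C c : k[X][X]) = 0 := by
    intro j hj
    rw [Infinity_tcoeff_C, coeff_eq_zero_of_natDegree_lt hj, C_0]
  have hctop : tcoeff c.natDegree (C c : k[X][X]) = C c.leadingCoeff := by
    rw [Infinity_tcoeff_C]
    rfl
  have hγ : c.leadingCoeff ≠ 0 := leadingCoeff_ne_zero.2 hc
  set γ := c.leadingCoeff with hγdef
  set δ := c.natDegree with hδ
  have hpol0 : pol m f ψ (0 : Idx m → k[X]) = 0 := by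
    have h1 := pol_smul m f ψ (0 : k[X]) (0 : Idx m → k[X])
    rw [zero_smul, C_0, zero_mul] at h1
    exact h1
  have hpolne : ∀ x : Idx m → k[X], x ≠ 0 → pol m f ψ x ≠ 0 := by
    intro x hx h0
    exact hx (pol_injective hm hψ (h0.trans hpol0.symm))
  -- the minimal t-degree
  have hex : ∃ κ : ℕ, ∃ x ∈ U, x ≠ 0 ∧ ∀ j, κ < j → tcoeff j (pol m f ψ x) = 0 := by
    obtain ⟨x, hx, hx0⟩ := (Submodule.ne_bot_iff U).1 hne
    obtain ⟨n, hn⟩ := Infinity_bound (pol m f ψ x)
    exact ⟨n, x, hx, hx0, fun j hj => hn j hj.le⟩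
  set κ := Nat.find hex with hκ
  obtain ⟨a, haU, ha0, haκ⟩ := Nat.find_spec hex
  rw [← hκ] at haκ
  have hmin : ∀ κ' < κ, ∀ x ∈ U, (∀ j, κ' < j → tcoeff j (pol m f ψ x) = 0) → x = 0 := by
    intro κ' hκ' x hx h1
    by_contra hx0
    exact Nat.find_min hex hκ' ⟨x, hx, hx0, h1⟩
  set P := pol m f ψ a with hP
  have hPκ : tcoeff κ P ≠ 0 := by
    intro h0
    rcases Nat.eq_zero_or_pos κ with h1 | h1
    · refine hpolne a ha0 (Infinity_eq_zero fun j => ?_)
      rcases Nat.eq_zero_or_pos j with h2 | h2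
      · rw [h2, ← h1]
        exact h0
      · exact haκ j (by omega)
    · refine ha0 (hmin (κ - 1) (by omega) a haU fun j hj => ?_)
      rcases Nat.lt_or_ge κ j with h2 | h2
      · exact haκ j h2
      · have h3 : j = κ := by omega
        rw [h3]
        exact h0
  have hPt : ∀ j, κ ≤ j → tcoeff j (dco D P) = 0 := by
    intro j hj
    rw [htd, haκ (j + 1) (by omega), mul_zero]
  have hPdeg : P.natDegree ≤ m - 2 := natDegree_pol_le m f ψ a
  obtain ⟨y, hyU, hy⟩ := hU a haU
  obtain ⟨A, B, hA, hB, h1, h2⟩ := pol_nab hm hf hfm hψ hG a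
  rw [← hP] at h1 h2
  have hnab : pol m f ψ (nab D c G a) = C c * pol m f ψ y := by
    rw [← pol_smul]
    congr 1
    funext i
    rw [Pi.smul_apply, smul_eq_mul, hy i]
  rw [hnab] at h2
  -- (3)
  have h3 : A.coeff (m - 2) + B.coeff (m - 1) * (m : k[X]) = 0 := by
    have e1 := congrArg (fun Q : k[X][X] => Q.coeff (m - 2 + m)) h1
    simp only [coeff_add] at e1
    have e2 : (C c * P * dco D f).coeff (m - 2 + m) = 0 := by
      apply coeff_eq_zero_of_natDegree_lt
      have e3 := natDegree_dco_lt D (by omega) hf hfm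
      have e4 := natDegree_C_mul_le c P
      have e5 := natDegree_mul_le (p := C c * P) (q := dco D f)
      omega
    have e3 : (A * f).coeff (m - 2 + m) = A.coeff (m - 2) * f.coeff m :=
      coeff_mul_add_eq_of_natDegree_le hA hfm.le
    have e4 : (B * derivative f).coeff (m - 2 + m) = B.coeff (m - 1) * (derivative f).coeff (m - 1) := by
      have e5 : m - 2 + m = (m - 1) + (m - 1) := by omega
      rw [e5]
      refine coeff_mul_add_eq_of_natDegree_le (Nat.le_sub_one_of_lt hB) ?_
      rw [← hfm]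
      exact natDegree_derivative_le f
    have e6 : f.coeff m = 1 := by
      rw [← hfm]
      exact hf
    have e7 : (derivative f).coeff (m - 1) = (m : k[X]) := by
      rw [coeff_derivative]
      have e8 : m - 1 + 1 = m := by omega
      have e9 : ((m - 1 : ℕ) : k[X]) + 1 = (m : k[X]) := by
        exact_mod_cast congrArg (Nat.cast : ℕ → k[X]) e8
      rw [e8, e6, one_mul, e9]
    rw [e2, e3, e4, e6, e7, mul_one] at e1
    exact e1.symm
  have h3' : ∀ j, (tcoeff j A).coeff (m - 2) + (m : k) * (tcoeff j B).coeff (m - 1) = 0 := by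
    intro j
    have e1 := congrArg (fun q : k[X] => q.coeff j) h3
    simp only [coeff_add, coeff_zero] at e1
    have e2 : (m : k[X]) = C (m : k) := (C_eq_natCast m).symm
    rw [e2, coeff_mul_C] at e1
    rw [coeff_tcoeff, coeff_tcoeff, mul_comm]
    exact e1
  have hBt : ∀ j, (tcoeff j B).natDegree ≤ F.natDegree := by
    intro j
    rw [htop, natDegree_le_iff_coeff_eq_zero]
    intro N hN
    have e1 : B.coeff N = 0 := coeff_eq_zero_of_natDegree_lt (by omega)
    rw [coeff_tcoeff, e1, coeff_zero]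
  have hF'c : (derivative F).coeff (m - 2) = ((m : k) - 1) * lc := by
    rw [coeff_derivative]
    have e8 : m - 2 + 1 = m - 1 := by omega
    have e9 : ((m - 2 : ℕ) : k) + 1 = (m : k) - 1 := by
      rw [Nat.cast_sub (by omega)]
      push_cast
      ring
    rw [e8, e9, mul_comm]
  have hderF : tcoeff d (derivative f) = derivative F := (derivative_tcoeff d f).symm
  have hLlow : ∀ j, δ + κ + d ≤ j → tcoeff j (C c * P * dco D f) = 0 := by
    have e1 : ∀ j, δ + κ < j → tcoeff j (C c * P) = 0 := by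
      intro j hj
      exact Infinity_low hcC (b := κ + 1) (fun j hj => haκ j hj) j (by omega)
    exact Infinity_low e1 hft
  -- (4)
  have h4 : ∀ j, δ + κ ≤ j → tcoeff j A = 0 ∧ tcoeff j B = 0 := by
    by_contra hcon
    have hex2 : ∃ n, ∀ j, n ≤ j → tcoeff j A = 0 ∧ tcoeff j B = 0 := by
      obtain ⟨n1, hn1⟩ := Infinity_bound A
      obtain ⟨n2, hn2⟩ := Infinity_bound B
      exact ⟨max n1 n2, fun j hj => ⟨hn1 j (le_trans (le_max_left _ _) hj),
        hn2 j (le_trans (le_max_right _ _) hj)⟩⟩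
    set N1 := Nat.find hex2 with hN1
    have hN1s := Nat.find_spec hex2
    rw [← hN1] at hN1s
    have hlt : δ + κ < N1 := by
      by_contra hle
      exact hcon fun j hj => hN1s j (by omega)
    obtain ⟨N, hN⟩ : ∃ N, N1 = N + 1 := ⟨N1 - 1, by omega⟩
    have hA0 : ∀ j, N < j → tcoeff j A = 0 := fun j hj => (hN1s j (by omega)).1
    have hB0 : ∀ j, N < j → tcoeff j B = 0 := fun j hj => (hN1s j (by omega)).2
    have e1 := congrArg (tcoeff (N + d)) h1
    rw [hLlow (N + d) (by omega), Infinity_tcoeff_add, Infinity_top hA0 hf0, Infinity_top hB0 hf',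
      ← hF, hderF] at e1
    obtain ⟨b, hb1, hb2⟩ := Infinity_divides (A := tcoeff N A) (E := 0) hsep hF0 (hBt N)
      (by rw [zero_mul]; exact e1)
    have e2 := h3' N
    rw [hb1, hb2, zero_sub, coeff_neg, coeff_C_mul, coeff_C_mul, hF'c, ← hlc] at e2
    have e3 : b * lc = 0 := by linear_combination e2
    have e4 : b = 0 := (mul_eq_zero.1 e3).resolve_right hlc0
    rw [e4, C_0, zero_mul] at hb1
    rw [e4, C_0, zero_mul, sub_zero] at hb2
    refine Nat.find_min hex2 (m := N) (by omega) fun j hj => ?_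
    rcases Nat.eq_or_lt_of_le hj with h5 | h5
    · rw [← h5]
      exact ⟨hb2, hb1⟩
    · exact ⟨hA0 j h5, hB0 j h5⟩
  -- the top coefficient of the left hand side
  have hLtop : tcoeff (δ + κ + (d - 1)) (C c * P * dco D f) =
      C γ * tcoeff κ P * (C (d : k) * F) := by
    have e1 : ∀ j, δ + κ < j → tcoeff j (C c * P) = 0 := by
      intro j hj
      exact Infinity_low hcC (b := κ + 1) (fun j hj => haκ j hj) j (by omega)
    have e2 : ∀ j, d - 1 < j → tcoeff j (dco D f) = 0 := fun j hj => hft j (by omega)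
    rw [Infinity_top e1 e2, Infinity_top hcC haκ, hctop, htd]
    have e3 : d - 1 + 1 = d := by omega
    have e4 : ((d - 1 : ℕ) : k) + 1 = (d : k) := by
      exact_mod_cast congrArg (Nat.cast : ℕ → k) e3
    rw [e3, e4]
  have hd0 : (d : k) ≠ 0 := Nat.cast_ne_zero.2 (by omega)
  -- `M ≥ 1`
  have hM : 1 ≤ δ + κ := by
    by_contra hM0
    have e1 : A = 0 := Infinity_eq_zero fun j => (h4 j (by omega)).1
    have e2 : B = 0 := Infinity_eq_zero fun j => (h4 j (by omega)).2
    rw [h1, e1, e2, zero_mul, zero_mul, add_zero, Infinity_tcoeff_zero] at hLtop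
    exact mul_ne_zero (mul_ne_zero (C_ne_zero.2 hγ) hPκ) (mul_ne_zero (C_ne_zero.2 hd0) hF0)
      hLtop.symm
  obtain ⟨M, hMd⟩ : ∃ M, δ + κ = M + 1 := ⟨δ + κ - 1, by omega⟩
  have hA1 : ∀ j, M < j → tcoeff j A = 0 := fun j hj => (h4 j (by omega)).1
  have hB1 : ∀ j, M < j → tcoeff j B = 0 := fun j hj => (h4 j (by omega)).2
  -- (5)
  have h5 : C γ * tcoeff κ P * C (d : k) * F = tcoeff M A * F + tcoeff M B * derivative F := by
    have e1 : δ + κ + (d - 1) = M + d := by omega
    rw [e1, h1, Infinity_tcoeff_add, Infinity_top hA1 hf0, Infinity_top hB1 hf', ← hF, hderF] at hLtop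
    rw [hLtop]
    ring
  obtain ⟨b, hb1, hb2⟩ := Infinity_divides hsep hF0 (hBt M) h5
  set π := (tcoeff κ P).coeff (m - 2) with hπ
  have h6 : γ * d * π + b * lc = 0 := by
    have e2 := h3' M
    have e3 : (C γ * tcoeff κ P * C (d : k)).coeff (m - 2) = γ * d * π := by
      rw [coeff_mul_C, coeff_C_mul]
      ring
    rw [hb1, hb2, coeff_sub, e3, coeff_C_mul, coeff_C_mul, hF'c, ← hlc] at e2
    linear_combination e2
  -- (6)
  have h7 : ∀ j, δ + κ ≤ j → tcoeff j (C c * pol m f ψ y) = 0 := by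
    intro j hj
    have e1 := congrArg (tcoeff j) h2
    rw [Infinity_tcoeff_sub, Infinity_tcoeff_sub, Infinity_tcoeff_two, Infinity_tcoeff_two,
      Infinity_tcoeff_two, ← derivative_tcoeff, (h4 j hj).1, (h4 j hj).2, derivative_zero,
      Infinity_low hcC hPt j hj] at e1
    have e2 : (2 : k[X]) ≠ 0 := two_ne_zero
    have e3 : (2 : k[X]) * tcoeff j (C c * pol m f ψ y) = 0 := by
      rw [e1]
      ring
    exact (mul_eq_zero.1 e3).resolve_left e2
  have hy0 : y = 0 := by
    by_contra hyne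
    have hex3 : ∃ n, ∀ j, n ≤ j → tcoeff j (pol m f ψ y) = 0 := Infinity_bound _
    set n := Nat.find hex3 with hn
    have hns := Nat.find_spec hex3
    rw [← hn] at hns
    have hn0 : n ≠ 0 := by
      intro h0
      exact hpolne y hyne (Infinity_eq_zero fun j => hns j (by omega))
    obtain ⟨n', hn'⟩ : ∃ n', n = n' + 1 := ⟨n - 1, by omega⟩
    have e1 : tcoeff n' (pol m f ψ y) ≠ 0 := by
      intro h0
      refine Nat.find_min hex3 (m := n') (by omega) fun j hj => ?_
      rcases Nat.eq_or_lt_of_le hj with h8 | h8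
      · rw [← h8]
        exact h0
      · exact hns j (by omega)
    have e2 : ∀ j, n' < j → tcoeff j (pol m f ψ y) = 0 := fun j hj => hns j (by omega)
    have e3 := Infinity_top hcC e2
    rw [hctop] at e3
    have e4 : tcoeff (δ + n') (C c * pol m f ψ y) ≠ 0 := by
      rw [e3]
      exact mul_ne_zero (C_ne_zero.2 hγ) e1
    have e5 : n' < κ := by
      by_contra hle
      exact e4 (h7 _ (by omega))
    exact hyne (hmin n' e5 y hyU e2)
  rw [hy0, hpol0, mul_zero, mul_zero] at h2
  have hPtop : tcoeff M (C c * dco D P) = C γ * (C (κ : k) * tcoeff κ P) := by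
    rcases Nat.eq_zero_or_pos κ with h8 | h8
    · have e1 : dco D P = 0 := Infinity_eq_zero fun j => hPt j (by omega)
      rw [e1, mul_zero, Infinity_tcoeff_zero, h8, Nat.cast_zero, C_0, zero_mul, mul_zero]
    · have e1 : M = δ + (κ - 1) := by omega
      have e2 : ∀ j, κ - 1 < j → tcoeff j (dco D P) = 0 := fun j hj => hPt j (by omega)
      have e3 : κ - 1 + 1 = κ := by omega
      have e4 : ((κ - 1 : ℕ) : k) + 1 = (κ : k) := by
        exact_mod_cast congrArg (Nat.cast : ℕ → k) e3
      rw [e1, Infinity_top hcC e2, hctop, htd, e3, e4]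
  have h8 : C (γ * (2 * κ - d)) * tcoeff κ P = C b * derivative F := by
    have e1 := congrArg (tcoeff M) h2
    rw [Infinity_tcoeff_sub, Infinity_tcoeff_sub, Infinity_tcoeff_two, Infinity_tcoeff_two,
      ← derivative_tcoeff, hPtop, hb1, hb2, Infinity_tcoeff_zero, derivative_C_mul] at e1
    have e2 : (C (γ * (2 * κ - d)) : k[X]) = C γ * (2 * C (κ : k) - C (d : k)) := by
      rw [C_mul, C_sub, C_mul]
      rfl
    rw [e2]
    linear_combination -e1
  have h9 : γ * (2 * κ - d) * π = b * (((m : k) - 1) * lc) := by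
    have e1 := congrArg (fun q : k[X] => q.coeff (m - 2)) h8
    simp only [coeff_C_mul] at e1
    rw [hF'c, ← hπ] at e1
    exact e1
  have h10 : γ * ((2 * κ + d * (m - 2) : ℕ) : k) * π = 0 := by
    have e1 : ((2 * κ + d * (m - 2) : ℕ) : k) = 2 * κ + d * ((m : k) - 2) := by
      rw [Nat.cast_add, Nat.cast_mul, Nat.cast_mul, Nat.cast_sub (by omega)]
      push_cast
      ring
    rw [e1]
    linear_combination h9 + ((m : k) - 1) * h6
  have hpos : ((2 * κ + d * (m - 2) : ℕ) : k) ≠ 0 := by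
    refine Nat.cast_ne_zero.2 ?_
    have e1 : 0 < d * (m - 2) := Nat.mul_pos (by omega) (by omega)
    omega
  have hπ0 : π = 0 := (mul_eq_zero.1 h10).resolve_left (mul_ne_zero hγ hpos)
  rw [hπ0, mul_zero, zero_add] at h6
  have hb0 : b = 0 := (mul_eq_zero.1 h6).resolve_right hlc0
  rw [hb0, C_0, zero_mul] at h8
  have h11 : (γ * (2 * κ - d) : k) = 0 := by
    have e1 := (mul_eq_zero.1 h8).resolve_right hPκ
    exact C_eq_zero.1 e1
  have h12 : (2 * (κ : k) - d) = 0 := (mul_eq_zero.1 h11).resolve_left hγ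
  have h13 : ((2 * κ : ℕ) : k) = ((d : ℕ) : k) := by
    push_cast
    linear_combination h12
  have h14 : 2 * κ = d := Nat.cast_injective h13
  obtain ⟨r, hr⟩ := hd
  omega

end MPadcLP
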