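import Mathlib
import Pool.Agent.Lib.MP_adc574_ag_LP.GMBasic

/-! # The residue of the Gauss–Manin connection at a mild singular fibre -/

set_option autoImplicit false

namespace MPadcLP

open Polynomial

variable {F : Type*} [Field F]

/-- A monic polynomial of degree `m` with at least `m - 1` distinct roots over an algebraically
closed field of characteristic zero: some `X - α` is in the ideal `(f, f')` (the greatest common
divisor has degree at most one). -/
theorem exists_bezout_of_card_roots [CharZero F] [IsAlgClosed F] [DecidableEq F] {m : ℕ}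
    {f : F[X]} (hf : f.Monic) (hfm : f.natDegree = m) (h : m ≤ f.roots.toFinset.card + 1) :
    ∃ (α : F) (u v : F[X]), u * f + v * derivative f = X - C α := by
  classical
  by_cases hd : derivative f = 0
  · have h1 : f = 1 := by
      have h2 := eq_C_of_derivative_eq_zero hd
      have h3 : f.natDegree = 0 := by rw [h2, natDegree_C]
      exact hf.natDegree_eq_zero.1 h3
    refine ⟨0, X - C 0, 0, ?_⟩
    rw [h1]
    ring
  set g := EuclideanDomain.gcd f (derivative f) with hg
  have hg0 : g ≠ 0 := by
    intro h0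
    exact hf.ne_zero ((EuclideanDomain.gcd_eq_zero_iff.1 h0).1)
  have hgf : g ∣ f := EuclideanDomain.gcd_dvd_left _ _
  have hgf' : g ∣ derivative f := EuclideanDomain.gcd_dvd_right _ _
  have hbez : f * EuclideanDomain.gcdA f (derivative f) + derivative f * EuclideanDomain.gcdB f (derivative f) = g :=
    (EuclideanDomain.gcd_eq_gcd_ab _ _).symm
  have hcount : ∀ a ∈ f.roots.toFinset, g.roots.count a + 1 ≤ f.roots.count a := by
    intro a ha
    rw [Multiset.mem_toFinset] at ha
    have hroot : f.IsRoot a := (mem_roots hf.ne_zero).1 ha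
    rw [count_roots, count_roots]
    have h1 : rootMultiplicity a g ≤ rootMultiplicity a (derivative f) := by
      obtain ⟨q, hq⟩ := hgf'
      have hq0 : g * q ≠ 0 := by rw [← hq]; exact hd
      rw [hq, rootMultiplicity_mul hq0]
      omega
    rw [derivative_rootMultiplicity_of_root hroot] at h1
    have h2 : 0 < rootMultiplicity a f := (rootMultiplicity_pos hf.ne_zero).2 hroot
    omega
  have hsub : g.roots.toFinset ⊆ f.roots.toFinset := by
    intro a ha
    rw [Multiset.mem_toFinset] at ha ⊢
    exact (mem_roots hf.ne_zero).2 (((mem_roots hg0).1 ha).dvd hgf)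
  have hgc : g.natDegree = ∑ a ∈ f.roots.toFinset, g.roots.count a := by
    rw [← IsAlgClosed.card_roots_eq_natDegree, ← Multiset.toFinset_sum_count_eq]
    refine Finset.sum_subset hsub fun a _ ha => ?_
    rw [Multiset.mem_toFinset] at ha
    exact Multiset.count_eq_zero_of_notMem ha
  have hfc : m = ∑ a ∈ f.roots.toFinset, f.roots.count a := by
    rw [← hfm, ← IsAlgClosed.card_roots_eq_natDegree, ← Multiset.toFinset_sum_count_eq]
  have hle : g.natDegree + f.roots.toFinset.card ≤ m := by
    rw [hgc, hfc, Finset.card_eq_sum_ones, ← Finset.sum_add_distrib]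
    exact Finset.sum_le_sum hcount
  have hg1 : g.natDegree ≤ 1 := by omega
  have hlc : g.leadingCoeff ≠ 0 := leadingCoeff_ne_zero.2 hg0
  rcases Nat.lt_or_ge g.natDegree 1 with hlt | hge
  · have h0 : g.natDegree = 0 := by omega
    have hgC : g = C (g.coeff 0) := eq_C_of_natDegree_eq_zero h0
    have hc : g.coeff 0 ≠ 0 := by
      intro h1
      rw [h1, C_0] at hgC
      exact hg0 hgC
    refine ⟨0, (X - C 0) * C (g.coeff 0)⁻¹ * EuclideanDomain.gcdA f (derivative f),
      (X - C 0) * C (g.coeff 0)⁻¹ * EuclideanDomain.gcdB f (derivative f), ?_⟩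
    calc (X - C 0) * C (g.coeff 0)⁻¹ * EuclideanDomain.gcdA f (derivative f) * f +
          (X - C 0) * C (g.coeff 0)⁻¹ * EuclideanDomain.gcdB f (derivative f) * derivative f
        = (X - C 0) * C (g.coeff 0)⁻¹ * (f * EuclideanDomain.gcdA f (derivative f) +
            derivative f * EuclideanDomain.gcdB f (derivative f)) := by ring
      _ = (X - C 0) * (C (g.coeff 0)⁻¹ * C (g.coeff 0)) := by rw [hbez, ← hgC]; ring
      _ = X - C 0 := by rw [← C_mul, inv_mul_cancel₀ hc, C_1, mul_one]
  · have h1 : g.natDegree = 1 := by omega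
    have hgX : g = C (g.coeff 1) * X + C (g.coeff 0) := eq_X_add_C_of_natDegree_le_one hg1
    have hc : g.coeff 1 ≠ 0 := by
      rw [← h1]
      exact hlc
    refine ⟨-((g.coeff 1)⁻¹ * g.coeff 0), C (g.coeff 1)⁻¹ * EuclideanDomain.gcdA f (derivative f),
      C (g.coeff 1)⁻¹ * EuclideanDomain.gcdB f (derivative f), ?_⟩
    calc C (g.coeff 1)⁻¹ * EuclideanDomain.gcdA f (derivative f) * f +
          C (g.coeff 1)⁻¹ * EuclideanDomain.gcdB f (derivative f) * derivative f
        = C (g.coeff 1)⁻¹ * (f * EuclideanDomain.gcdA f (derivative f) +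
            derivative f * EuclideanDomain.gcdB f (derivative f)) := by ring
      _ = C (g.coeff 1)⁻¹ * (C (g.coeff 1) * X + C (g.coeff 0)) := by rw [hbez, ← hgX]
      _ = (C (g.coeff 1)⁻¹ * C (g.coeff 1)) * X + C (g.coeff 1)⁻¹ * C (g.coeff 0) := by ring
      _ = X - C (-((g.coeff 1)⁻¹ * g.coeff 0)) := by
          rw [← C_mul, inv_mul_cancel₀ hc, C_1, one_mul, ← C_mul, C_neg, sub_neg_eq_add]

/-- For a power series `δ`, `δ ∣ X * δ'`. -/
theorem dvd_X_mul_derivative (δ : PowerSeries F) :
    δ ∣ PowerSeries.X * PowerSeries.derivative F δ := by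
  by_cases h0 : δ = 0
  · rw [h0, map_zero, mul_zero]
  obtain ⟨n, u, hu⟩ := IsDiscreteValuationRing.associated_pow_irreducible h0
    (PowerSeries.X_irreducible (R := F))
  -- δ * u = X ^ n
  have h1 : PowerSeries.derivative F (PowerSeries.X ^ n : PowerSeries F) * PowerSeries.X =
      (n : PowerSeries F) * PowerSeries.X ^ n := by
    rw [Derivation.leibniz_pow, PowerSeries.derivative_X]
    rcases Nat.eq_zero_or_pos n with hn | hn
    · rw [hn]
      simp
    · obtain ⟨k, rfl⟩ := Nat.exists_eq_succ_of_ne_zero hn.ne'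
      rw [Nat.succ_sub_one, smul_eq_mul, nsmul_eq_mul, mul_one, pow_succ]
      ring
  have h2 : PowerSeries.derivative F (δ * (u : PowerSeries F)) =
      δ * PowerSeries.derivative F (u : PowerSeries F) + (u : PowerSeries F) * PowerSeries.derivative F δ := by
    rw [Derivation.leibniz, smul_eq_mul, smul_eq_mul]
  have h3 : (u : PowerSeries F) * (PowerSeries.X * PowerSeries.derivative F δ) =
      δ * ((n : PowerSeries F) * (u : PowerSeries F) - PowerSeries.X * PowerSeries.derivative F (u : PowerSeries F)) := by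
    have h4 : (u : PowerSeries F) * (PowerSeries.X * PowerSeries.derivative F δ) =
        PowerSeries.derivative F (δ * (u : PowerSeries F)) * PowerSeries.X -
          PowerSeries.X * (δ * PowerSeries.derivative F (u : PowerSeries F)) := by
      rw [h2]
      ring
    rw [h4, hu, h1, ← hu]
    ring
  have h5 : δ ∣ (u : PowerSeries F) * (PowerSeries.X * PowerSeries.derivative F δ) := by
    rw [h3]
    exact dvd_mul_right _ _
  exact (Units.dvd_mul_left).1 h5

private theorem LocalRank_leib {R : Type*} [CommRing R] (D : Der R) (x y : R) :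
    D (x * y) = x * D y + y * D x := by
  rw [Derivation.leibniz, smul_eq_mul, smul_eq_mul]

private theorem LocalRank_eval_dco {R : Type*} [CommRing R] (D : Der R) (a : R) (p : R[X]) :
    D (eval a p) = eval a (dco D p) + eval a (derivative p) * D a := by
  induction p using Polynomial.induction_on' with
  | add p q hp hq =>
    rw [eval_add, map_add, hp, hq, map_add, derivative_add, eval_add, eval_add]
    ring
  | monomial n c =>
    have h1 : dco D (monomial n c) = monomial n (D c) := by
      ext i
      rw [coeff_dco, coeff_monomial, coeff_monomial]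
      split_ifs
      · rfl
      · exact map_zero D
    rw [h1, eval_monomial, eval_monomial, derivative_monomial, eval_monomial, Derivation.leibniz,
      Derivation.leibniz_pow, smul_eq_mul, smul_eq_mul, smul_eq_mul, nsmul_eq_mul]
    ring

/-- Nakayama: the quotient by the ideal is generated by `1`. -/
private theorem LocalRank_nak {I : Ideal (PowerSeries F)[X]} {f : (PowerSeries F)[X]} (hf : f.Monic)
    (hfI : f ∈ I) (α : PowerSeries F) (w : (PowerSeries F)[X])
    (hw : X - C α + C (PowerSeries.X : PowerSeries F) * w ∈ I) :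
    ∃ a : PowerSeries F, X - C a ∈ I := by
  have hfin0 : Module.Finite (PowerSeries F) ((PowerSeries F)[X] ⧸ Ideal.span {f}) := hf.finite_quotient
  have hle : Ideal.span {f} ≤ I := (Ideal.span_singleton_le_iff_mem I).2 hfI
  have hfin : Module.Finite (PowerSeries F) ((PowerSeries F)[X] ⧸ I) :=
    Module.Finite.of_surjective (Ideal.Quotient.factorₐ (PowerSeries F) hle).toLinearMap
      (Ideal.Quotient.factor_surjective hle)
  set N : Submodule (PowerSeries F) ((PowerSeries F)[X] ⧸ I) :=
    LinearMap.range (Algebra.linearMap (PowerSeries F) ((PowerSeries F)[X] ⧸ I)) with hN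
  have hkey : (⊤ : Submodule (PowerSeries F) ((PowerSeries F)[X] ⧸ I)) ≤ N := by
    refine Submodule.le_of_le_smul_of_le_jacobson_bot (I := Ideal.span {(PowerSeries.X : PowerSeries F)})
      Module.Finite.fg_top ?_ ?_
    · rw [IsLocalRing.jacobson_eq_maximalIdeal ⊥ bot_ne_top, Ideal.span_singleton_le_iff_mem,
        IsLocalRing.mem_maximalIdeal, mem_nonunits_iff]
      exact PowerSeries.X_prime.not_isUnit
    · rintro y -
      obtain ⟨p, rfl⟩ := Ideal.Quotient.mk_surjective y
      obtain ⟨q, hq⟩ : X - C α ∣ p - C (eval α p) := X_sub_C_dvd_sub_C_eval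
      have h1 : Ideal.Quotient.mk I p = Ideal.Quotient.mk I (C (eval α p)) -
          (PowerSeries.X : PowerSeries F) • Ideal.Quotient.mk I (w * q) := by
        have h2 : (PowerSeries.X : PowerSeries F) • Ideal.Quotient.mk I (w * q) =
            Ideal.Quotient.mk I (C (PowerSeries.X : PowerSeries F) * (w * q)) := by
          rw [← Polynomial.smul_eq_C_mul]
          rfl
        rw [h2, ← map_sub, Ideal.Quotient.mk_eq_mk_iff_sub_mem]
        have h3 : p - (C (eval α p) - C (PowerSeries.X : PowerSeries F) * (w * q)) =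
            (X - C α + C (PowerSeries.X : PowerSeries F) * w) * q := by
          have h4 : p = C (eval α p) + (X - C α) * q := by rw [← hq]; ring
          linear_combination h4
        rw [h3]
        exact I.mul_mem_right _ hw
      rw [h1, sub_eq_add_neg]
      refine Submodule.add_mem_sup ?_ ?_
      · exact ⟨eval α p, rfl⟩
      · refine Submodule.neg_mem _ ?_
        exact Submodule.smul_mem_smul (Ideal.mem_span_singleton_self _) Submodule.mem_top
  obtain ⟨a, ha⟩ := hkey (Submodule.mem_top (x := Ideal.Quotient.mk I X))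
  refine ⟨a, ?_⟩
  rw [← Ideal.Quotient.mk_eq_mk_iff_sub_mem]
  exact ha.symm

/-- Let `f` be a monic polynomial over `O = F⟦s⟧` such that modulo `s` the ideal `(f, f')` contains
some `x - α`. Then `s * Df` is in the ideal `(f, f')` of `O[x]`, `D = d/ds` on the coefficients.

Proof. Let `I = (f, f') ⊆ O[x]`. The `O`-module `O[x] / I` is finite (`f` is monic) and modulo `s`
it is generated by `1`, so by Nakayama it is generated by `1`: there is `a : O` with
`x - a ∈ I`. So `g ∈ I ↔ C (g(a)) ∈ I`. Let `d = {δ : O | C δ ∈ I}`, an ideal of the discrete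
valuation ring `O`, generated by `δ₀`; it is stable under `δ ↦ s δ'`
(`s (δ₀ e)' = (s δ₀') e + δ₀ s e'` and `dvd_X_mul_derivative`). Now `f(a)` and `f'(a)` are in `d`,
and `s (Df)(a) = s (f(a))' - s a' f'(a)` is in `d` too, so `s Df ∈ I`. -/
theorem X_mul_dco_mem {f : (PowerSeries F)[X]} (hf : f.Monic) (α : F) (u₀ v₀ : F[X])
    (h : u₀ * f.map PowerSeries.constantCoeff +
      v₀ * derivative (f.map PowerSeries.constantCoeff) = X - C α)
    (D : Der (PowerSeries F))
    (hD : ∀ x, D x = PowerSeries.derivative F x) :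
    ∃ A B : (PowerSeries F)[X],
      C (PowerSeries.X : PowerSeries F) * dco D f = A * f + B * derivative f := by
  set I : Ideal (PowerSeries F)[X] := Ideal.span {f, derivative f} with hI
  have hfI : f ∈ I := Ideal.subset_span (Set.mem_insert _ _)
  have hfI' : derivative f ∈ I := Ideal.subset_span (Set.mem_insert_of_mem _ rfl)
  -- lift
  have hcC : (PowerSeries.constantCoeff (R := F)).comp (PowerSeries.C (R := F)) = RingHom.id F := by
    ext x
    simp
  set U : (PowerSeries F)[X] := u₀.map (PowerSeries.C (R := F)) with hU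
  set V : (PowerSeries F)[X] := v₀.map (PowerSeries.C (R := F)) with hV
  have hUm : U.map (PowerSeries.constantCoeff (R := F)) = u₀ := by
    rw [hU, Polynomial.map_map, hcC, Polynomial.map_id]
  have hVm : V.map (PowerSeries.constantCoeff (R := F)) = v₀ := by
    rw [hV, Polynomial.map_map, hcC, Polynomial.map_id]
  set E : (PowerSeries F)[X] := U * f + V * derivative f - (X - C (PowerSeries.C (R := F) α)) with hE
  have hE0 : E.map (PowerSeries.constantCoeff (R := F)) = 0 := by
    rw [hE, Polynomial.map_sub, Polynomial.map_add, Polynomial.map_mul, Polynomial.map_mul, hUm, hVm,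
      ← Polynomial.derivative_map, h, Polynomial.map_sub, Polynomial.map_X, Polynomial.map_C]
    have : PowerSeries.constantCoeff (PowerSeries.C (R := F) α) = α := PowerSeries.constantCoeff_C α
    rw [this, sub_self]
  have hw : ∃ w : (PowerSeries F)[X], E = C (PowerSeries.X : PowerSeries F) * w := by
    have h1 : C (PowerSeries.X : PowerSeries F) ∣ E := by
      rw [Polynomial.C_dvd_iff_dvd_coeff]
      intro i
      rw [PowerSeries.X_dvd_iff]
      have h2 := congrArg (fun p => p.coeff i) hE0
      simp only [coeff_map, coeff_zero] at h2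
      exact h2
    exact h1
  obtain ⟨w, hw⟩ := hw
  obtain ⟨a, ha⟩ := LocalRank_nak hf hfI (PowerSeries.C (R := F) α) w (by
    have h1 : X - C (PowerSeries.C (R := F) α) + C (PowerSeries.X : PowerSeries F) * w =
        U * f + V * derivative f := by
      rw [← hw, hE]
      ring
    rw [h1]
    exact I.add_mem (I.mul_mem_left _ hfI) (I.mul_mem_left _ hfI'))
  have hmem : ∀ g : (PowerSeries F)[X], g ∈ I ↔ C (eval a g) ∈ I := by
    intro g
    obtain ⟨q, hq⟩ : X - C a ∣ g - C (eval a g) := X_sub_C_dvd_sub_C_eval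
    have h1 : g - C (eval a g) ∈ I := by
      rw [hq]
      exact I.mul_mem_right _ ha
    constructor
    · intro hg
      have := I.sub_mem hg h1
      rwa [sub_sub_cancel] at this
    · intro hg
      have := I.add_mem h1 hg
      rwa [sub_add_cancel] at this
  set d : Ideal (PowerSeries F) := I.comap C with hd
  obtain ⟨δ₀, hδ₀⟩ : ∃ δ₀, d = Ideal.span {δ₀} := (IsPrincipalIdealRing.principal d).principal
  have hstab : ∀ δ ∈ d, PowerSeries.X * D δ ∈ d := by
    intro δ hδ
    rw [hδ₀, Ideal.mem_span_singleton] at hδ ⊢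
    obtain ⟨e, rfl⟩ := hδ
    rw [LocalRank_leib D, mul_add]
    refine dvd_add ?_ ?_
    · exact ⟨PowerSeries.X * D e, by ring⟩
    · have h1 := dvd_X_mul_derivative δ₀
      rw [← hD δ₀] at h1
      obtain ⟨c, hc⟩ := h1
      exact ⟨c * e, by linear_combination e * hc⟩
  have hfa : eval a f ∈ d := (hmem f).1 hfI
  have hfa' : eval a (derivative f) ∈ d := (hmem (derivative f)).1 hfI'
  have hgoal : C (PowerSeries.X : PowerSeries F) * dco D f ∈ I := by
    rw [hmem]
    change eval a (C (PowerSeries.X : PowerSeries F) * dco D f) ∈ d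
    rw [eval_mul, eval_C]
    have h1 := LocalRank_eval_dco D a f
    have h2 : PowerSeries.X * eval a (dco D f) =
        PowerSeries.X * D (eval a f) - (PowerSeries.X * D a) * eval a (derivative f) := by
      rw [h1]
      ring
    rw [h2]
    exact d.sub_mem (hstab _ hfa) (d.mul_mem_left _ hfa')
  rw [hI, Ideal.mem_span_pair] at hgoal
  obtain ⟨A, B, hAB⟩ := hgoal
  exact ⟨A, B, hAB.symm⟩

/-- a polynomial `b` of degree less than `m` with `f₀ ∣ b f₀'` is a multiple of `f₀ /ₘ (x - α)` -/
private theorem LocalRank_mult {m : ℕ} {f₀ : F[X]} (hf : f₀.Monic) (hfm : f₀.natDegree = m)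
    (α : F) (u₀ v₀ : F[X]) (h : u₀ * f₀ + v₀ * derivative f₀ = X - C α) (b : F[X])
    (hb : b.natDegree < m) (hdvd : f₀ ∣ b * derivative f₀) :
    ∃ β : F, b = C β * (f₀ /ₘ (X - C α)) := by
  obtain ⟨q, hq⟩ : f₀ ∣ b * (X - C α) := by
    rw [← h]
    have h1 : b * (u₀ * f₀ + v₀ * derivative f₀) = f₀ * (b * u₀) + (b * derivative f₀) * v₀ := by ring
    rw [h1]
    exact dvd_add (dvd_mul_right _ _) (hdvd.mul_right _)
  have hX : (X - C α : F[X]) ≠ 0 := X_sub_C_ne_zero α
  -- q is constant
  have hqd : q.natDegree = 0 := by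
    by_cases hq0 : q = 0
    · rw [hq0, natDegree_zero]
    · have h1 : (f₀ * q).natDegree = m + q.natDegree := by
        rw [hf.natDegree_mul' hq0, hfm]
      have h2 : (b * (X - C α)).natDegree ≤ b.natDegree + 1 := by
        refine natDegree_mul_le.trans ?_
        rw [natDegree_X_sub_C]
      rw [hq, h1] at h2
      omega
  have hqC : q = C (q.coeff 0) := eq_C_of_natDegree_eq_zero hqd
  refine ⟨q.coeff 0, ?_⟩
  by_cases hr : f₀.IsRoot α
  · have h1 : (X - C α) * (f₀ /ₘ (X - C α)) = f₀ := mul_divByMonic_eq_iff_isRoot.2 hr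
    have h2 : (X - C α) * b = (X - C α) * (C (q.coeff 0) * (f₀ /ₘ (X - C α))) := by
      calc (X - C α) * b = b * (X - C α) := by ring
        _ = f₀ * q := hq
        _ = ((X - C α) * (f₀ /ₘ (X - C α))) * C (q.coeff 0) := by rw [h1, ← hqC]
        _ = _ := by ring
    exact mul_left_cancel₀ hX h2
  · have h3 : q.coeff 0 = 0 := by
      have h4 := congrArg (eval α) hq
      rw [eval_mul, eval_mul, eval_sub, eval_X, eval_C, sub_self, mul_zero, hqC, eval_C] at h4
      rcases mul_eq_zero.1 h4.symm with h5 | h5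
      · exact absurd h5 hr
      · exact h5
    have h6 : b * (X - C α) = 0 := by
      rw [hq, hqC, h3, C_0, mul_zero]
    rcases mul_eq_zero.1 h6 with h7 | h7
    · rw [h7, h3, C_0, zero_mul]
    · exact absurd h7 hX

/-- The Gauss–Manin connection at a mild fibre: simple pole, residue of rank at most one.

Proof. With `A`, `B` from `X_mul_dco_mem` and `P_j = pol m f ψ (Pi.single j 1)` take
`B_j = (P_j * B) %ₘ f`; as `2` is invertible in `F⟦s⟧` the matrix `Γ` is defined by the formula
of `IsGM`. For the rank: let `f₀`, `B_{j,0}` be the reductions modulo `s`. As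
`f ∣ s P_j Df - B_j f'`, `f₀ ∣ B_{j,0} f₀'`, hence `f₀ ∣ B_{j,0} (x - α)` by the Bézout relation.
The degree of `B_{j,0} (x - α)` is at most `m`, so `B_{j,0} (x - α) = β_j f₀` with `β_j : F`.
Therefore `B_{j,0} = β_j b₀` where `b₀ = f₀ /ₘ (x - α)`: if some `β_j ≠ 0` then `f₀(α) = 0` and
`f₀ = (x - α) b₀`; otherwise all `B_{j,0} = 0`. Take `l j = β_j` and
`d i = - ((m - 2 - 2 i) / 2) coeff i (hat (m - 1) b₀ * ψ₀)`. -/
theorem exists_local_gm [CharZero F] {m : ℕ} (hm : 3 ≤ m) {f : (PowerSeries F)[X]}
    (hf : f.Monic) (hfm : f.natDegree = m) (ψ : PowerSeries (PowerSeries F))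
    (α : F) (u₀ v₀ : F[X])
    (h : u₀ * f.map PowerSeries.constantCoeff +
      v₀ * derivative (f.map PowerSeries.constantCoeff) = X - C α)
    (D : Der (PowerSeries F))
    (hD : ∀ x, D x = PowerSeries.derivative F x) :
    ∃ (Γ : Matrix (Idx m) (Idx m) (PowerSeries F)) (d l : Idx m → F),
      IsGM D (PowerSeries.X : PowerSeries F) m f ψ Γ ∧
      ∀ i j, PowerSeries.constantCoeff (Γ i j) = d i * l j := by
  obtain ⟨A, B, hAB⟩ := X_mul_dco_mem hf α u₀ v₀ h D hD
  set P : Idx m → (PowerSeries F)[X] := fun j => pol m f ψ (Pi.single j 1) with hP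
  set Bj : Idx m → (PowerSeries F)[X] := fun j => (P j * B) %ₘ f with hBj
  set f₀ : F[X] := f.map (PowerSeries.constantCoeff (R := F)) with hf₀
  have hf₀m : f₀.Monic := hf.map _
  have hf₀d : f₀.natDegree = m := by rw [hf₀, hf.natDegree_map, hfm]
  have hBd : ∀ j, (Bj j).natDegree < m := by
    intro j
    rw [← hfm]
    refine natDegree_modByMonic_lt _ hf ?_
    intro h1
    rw [h1, natDegree_one] at hfm
    omega
  have hdiv : ∀ j, f ∣ C (PowerSeries.X : PowerSeries F) * P j * dco D f - Bj j * derivative f := by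
    intro j
    have h1 : P j * B = f * (P j * B /ₘ f) + Bj j := by
      rw [add_comm]
      exact (modByMonic_add_div _ f).symm
    refine ⟨P j * A + (P j * B /ₘ f) * derivative f, ?_⟩
    linear_combination P j * hAB + derivative f * h1
  have hrank : ∀ j, ∃ β : F, (Bj j).map (PowerSeries.constantCoeff (R := F)) = C β * (f₀ /ₘ (X - C α)) := by
    intro j
    refine LocalRank_mult hf₀m hf₀d α u₀ v₀ h _ (lt_of_le_of_lt natDegree_map_le (hBd j)) ?_
    have h1 := Polynomial.map_dvd (PowerSeries.constantCoeff (R := F)) (hdiv j)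
    rw [Polynomial.map_sub, Polynomial.map_mul, Polynomial.map_mul, Polynomial.map_mul, Polynomial.map_C] at h1
    have h2 : (PowerSeries.constantCoeff (R := F)) (PowerSeries.X : PowerSeries F) = 0 :=
      PowerSeries.constantCoeff_X
    rw [h2, C_0, zero_mul, zero_mul, zero_sub, dvd_neg, ← Polynomial.derivative_map] at h1
    exact h1
  choose β hβ using hrank
  set c : Idx m → (PowerSeries F) := fun l =>
    -(((m : ℕ) : PowerSeries F) - 2 - 2 * ((((l : Fin (m - 1)) : ℕ) : ℕ) : PowerSeries F)) with hc
  set h2 : PowerSeries F := PowerSeries.C (R := F) (1 / 2) with hh2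
  have h22 : 2 * h2 = 1 := by
    have h3 : (2 : PowerSeries F) = PowerSeries.C (R := F) 2 := by
      rw [map_ofNat]
    rw [hh2, h3, ← map_mul]
    have h4 : (2 : F) * (1 / 2) = 1 := by norm_num
    rw [h4, map_one]
  refine ⟨Matrix.of fun l j => h2 * (c l * PowerSeries.coeff ((l : Fin (m - 1)) : ℕ) (hat (m - 1) (Bj j) * ψ)),
    fun l => (1 / 2) * (PowerSeries.constantCoeff (c l) *
      PowerSeries.coeff ((l : Fin (m - 1)) : ℕ) (hat (m - 1) (f₀ /ₘ (X - C α)) * ψ.map PowerSeries.constantCoeff)),
    β, ⟨Bj, fun j => ⟨hBd j, hdiv j, fun l => ?_⟩⟩, fun i j => ?_⟩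
  · rw [Matrix.of_apply, ← mul_assoc, h22, one_mul]
  · rw [Matrix.of_apply, map_mul, map_mul]
    have h3 : PowerSeries.constantCoeff (R := F) (PowerSeries.coeff ((i : Fin (m - 1)) : ℕ) (hat (m - 1) (Bj j) * ψ)) =
        PowerSeries.coeff ((i : Fin (m - 1)) : ℕ)
          (hat (m - 1) ((Bj j).map (PowerSeries.constantCoeff (R := F))) * ψ.map PowerSeries.constantCoeff) := by
      rw [hat_map, ← map_mul, PowerSeries.coeff_map]
    rw [h3, hβ j, hat_C_mul, mul_assoc, PowerSeries.coeff_C_mul, hh2, PowerSeries.constantCoeff_C]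
    ring

end MPadcLP
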