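import Mathlib
import Pool.Agent.Lib.MP_adc574_ag_LP.Global
import Pool.Agent.Lib.MP_adc574_ag_LP.Flat
import Pool.Agent.Lib.MP_adc574_ag_LP.LocalRank
import Pool.Agent.Lib.MP_adc574_ag_LP.Infinity

/-! # The hyperelliptic pencil has no horizontal Lagrangian which meets the Hodge filtration -/

set_option autoImplicit false

namespace MPadcLP

open Polynomial

private theorem NoLag_exists_Der {R : Type*} [CommRing R] (δ : R → R)
    (h1 : ∀ a b, δ (a + b) = δ a + δ b) (h2 : ∀ a b, δ (a * b) = a * δ b + b * δ a) :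
    ∃ D : Der R, ∀ x, D x = δ x :=
  ⟨Derivation.mk' (AddMonoidHom.toIntLinearMap (AddMonoidHom.mk' δ h1)) (fun a b => h2 a b),
    fun _ => rfl⟩

/-- Application of `global_main` to the Gauss–Manin connection of `y² = f(x, t)`.

Proof. `S = {D := D, Δ := c, G := G, J := (JJ k m).map C, fb := fbI m}` with `D` the derivative of
`k[t]`. `S.Ok`: `JJ_transpose`, `derivative_C`, `JJ_det` (`RingHom.map_det`), `flat`
(`algebraMap k k[X] = C`), `fbI_injective`, `JJ_fbI`, `card_Idx`.
`hloc`: for `a : F = AlgebraicClosure k` let `f_a = f.map (pl k a)`, monic of degree `m` over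
`F⟦s⟧`; its reduction modulo `s` is `f.map (aeval a)` (`constantCoeff_pl`), so
`exists_bezout_of_card_roots` and `exists_local_gm` (with `ψ.map (pl k a)` and the derivation
`d/ds`) give `Γ` with `IsGM _ s m f_a _ Γ` and `d`, `l`. By `IsGM.map` and `pl_derivative`,
`G.map (pl k a)` is the matrix for `pl k a c`; by `IsGM.smul` and `IsGM.unique` (with the Bézout
relation mapped by `pl k a`, `pl_injective`) `pl k a c • Γ = s • G.map (pl k a)`.
`hinf`: `no_stable`. The rest are the hypotheses (`JJ_map` for `S.J.map ψL`). -/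
theorem no_lagrangian {k : Type*} [Field k] [CharZero k] {m d : ℕ} (hm : 3 ≤ m) (hd : Odd d)
    {f : k[X][X]} (hf : f.Monic) (hfm : f.natDegree = m)
    (hdeg : ∀ i, (f.coeff i).natDegree ≤ d) (htop : (tcoeff d f).natDegree = m - 1)
    (hsep : (tcoeff d f).Separable)
    (hmild : ∀ (a : AlgebraicClosure k) (α : Finset (AlgebraicClosure k)),
      (∀ x, x ∈ α ↔ (f.map (aeval a).toRingHom).IsRoot x) → m ≤ α.card + 1)
    {ψ : PowerSeries k[X]} (hψ : IsPsi m f ψ) {c : k[X]} (hc : c ≠ 0)
    (D : Der k[X]) (hD : ∀ q, D q = derivative q)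
    {G : Matrix (Idx m) (Idx m) k[X]} (hG : IsGM D c m f ψ G)
    (c' : k[X]) (hc' : c' ≠ 0) (u v : k[X][X]) (huv : u * f + v * derivative f = C c')
    {L : Type*} [Field L] (ψL : k[X] →+* L) (hψL : Function.Injective ψL)
    (DL : Derivation ℤ L L) (hDL : ∀ x, DL (ψL x) = ψL (derivative x))
    (w V : Fin ((m - 1) / 2) → Idx m → L)
    (hV : ∀ i j, V i ⬝ᵥ w j = if i = j then 1 else 0)
    (hiso : ∀ i j, BB (JJ L m) (w i) (w j) = 0)
    (M : Matrix (Fin ((m - 1) / 2)) (Fin ((m - 1) / 2)) L)
    (hst : ∀ j, nab DL (ψL c) (G.map ψL) (w j) = ∑ i, M i j • w i)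
    (hdet : (Matrix.of fun i j => ((JJ L m).mulVec (w j)) (fbI m i)).det = 0) : False := by
  classical
  have hJJ : ((JJ k m).map (C : k →+* k[X])).map ψL = JJ L m := by
    rw [Matrix.map_map]
    exact JJ_map (ψL.comp (C : k →+* k[X])) m
  have hOk : (Dat.mk D c G ((JJ k m).map (C : k →+* k[X])) (fbI m) :
      Dat k[X] (Fin ((m - 1) / 2)) (Idx m)).Ok := by
    refine ⟨hc, ?_, ?_, ?_, ?_, fbI_injective m, ?_, card_Idx hm⟩
    · show ((JJ k m).map (C : k →+* k[X])).transpose = -((JJ k m).map (C : k →+* k[X]))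
      rw [← Matrix.transpose_map, JJ_transpose]
      ext i j
      simp
    · intro i j
      show D ((C : k →+* k[X]) (JJ k m i j)) = 0
      rw [hD, derivative_C]
    · show IsUnit ((JJ k m).map (C : k →+* k[X])).det
      have h1 : ((JJ k m).map (C : k →+* k[X])).det = C (JJ k m).det :=
        (RingHom.map_det (C : k →+* k[X]) (JJ k m)).symm
      rw [h1, isUnit_C, isUnit_iff_ne_zero]
      exact JJ_det fun n hn _ => Nat.cast_ne_zero.mpr hn.ne'
    · have h1 := flat (k := k) hm hf hfm hψ hG c' hc' u v huv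
      exact h1
    · intro i j
      show (C : k →+* k[X]) (JJ k m (fbI m i) (fbI m j)) = 0
      rw [JJ_fbI, map_zero]
  refine global_main (k := k) (F := AlgebraicClosure k)
    (Dat.mk D c G ((JJ k m).map (C : k →+* k[X])) (fbI m)) hOk hD ?_ ?_ ψL hψL DL hDL w V hV
    ?_ M hst ?_
  · intro a
    obtain ⟨Da, hDa⟩ := NoLag_exists_Der (R := PowerSeries (AlgebraicClosure k))
      (fun x => PowerSeries.derivative (AlgebraicClosure k) x) (fun x y => map_add _ x y)
      (fun x y => (PowerSeries.derivative (AlgebraicClosure k)).leibniz x y)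
    have hfa : (f.map (pl k a)).Monic := hf.map _
    have hfam : (f.map (pl k a)).natDegree = m := by
      rw [natDegree_map_eq_of_injective (pl_injective a), hfm]
    have hred : (f.map (pl k a)).map PowerSeries.constantCoeff =
        f.map (aeval a).toRingHom := by
      rw [Polynomial.map_map]
      congr 1
      ext q
      · exact constantCoeff_pl a _
      · exact constantCoeff_pl a _
    have hredm : ((f.map (pl k a)).map PowerSeries.constantCoeff).Monic := hfa.map _
    have hredn : ((f.map (pl k a)).map PowerSeries.constantCoeff).natDegree = m := by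
      rw [hfa.natDegree_map, hfam]
    obtain ⟨α, u₀, v₀, huv₀⟩ := exists_bezout_of_card_roots hredm hredn (by
      rw [hred]
      refine hmild a _ fun x => ?_
      rw [Multiset.mem_toFinset, mem_roots (hred ▸ hredm.ne_zero)])
    obtain ⟨Γ, dd, ll, hΓ, hΓc⟩ := exists_local_gm hm hfa hfam (ψ.map (pl k a)) α u₀ v₀ huv₀ Da hDa
    refine ⟨Γ, dd, ll, ?_, hΓc⟩
    have hm0 : 0 < m := by omega
    have hDD : ∀ x : k[X], Da (pl k a x) = pl k a (D x) := by
      intro x
      rw [hDa, hD]
      exact pl_derivative a x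
    have e1 := (IsGM.map (pl k a) hDD hm0 hG).smul hm0 (PowerSeries.X : PowerSeries (AlgebraicClosure k))
    have e2 := hΓ.smul hm0 (pl k a c)
    rw [mul_comm] at e2
    have h2 : (2 : PowerSeries (AlgebraicClosure k)) ≠ 0 := by
      intro h0
      have h3 := congrArg (PowerSeries.constantCoeff (R := AlgebraicClosure k)) h0
      rw [map_ofNat, map_zero] at h3
      exact two_ne_zero h3
    have hc'' : pl k a c' ≠ 0 := by
      intro h0
      exact hc' ((map_eq_zero_iff _ (pl_injective a)).mp h0)
    have e3 := IsGM.unique h2 hfa hfam e1 e2 (pl k a c') hc'' (u.map (pl k a)) (v.map (pl k a)) (by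
      rw [derivative_map, ← Polynomial.map_mul, ← Polynomial.map_mul, ← Polynomial.map_add, huv,
        map_C])
    intro i j
    have e4 := congrFun (congrFun e3 i) j
    exact e4.symm
  · intro U hU
    exact no_stable D hD hm hd hf hfm hdeg htop hsep hψ hc hG U hU
  · intro i j
    show BB (((JJ k m).map (C : k →+* k[X])).map ψL) (w i) (w j) = 0
    rw [hJJ]
    exact hiso i j
  · show (Matrix.of fun i j =>
      ((((JJ k m).map (C : k →+* k[X])).map ψL).mulVec (w j)) (fbI m i)).det = 0
    rw [hJJ]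
    exact hdet

end MPadcLP
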