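import Mathlib

/-! # A quotient of a product of differential fields -/

set_option autoImplicit false

namespace MPadcLP

universe u

private theorem Ultra_quot {A : Type*} {L : Type*} [CommRing A] [Field L] (π : A →+* L)
    (hπ : Function.Surjective π) (DA : A → A) (hadd : ∀ x y, DA (x + y) = DA x + DA y)
    (hmul : ∀ x y, DA (x * y) = x * DA y + y * DA x) (hker : ∀ x, π x = 0 → π (DA x) = 0) :
    ∃ DL : Derivation ℤ L L, ∀ x, DL (π x) = π (DA x) := by
  have h0 : DA 0 = 0 := by
    have := hadd 0 0
    rw [add_zero] at this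
    exact left_eq_add.mp this
  have hsub : ∀ x y, DA (x - y) = DA x - DA y := by
    intro x y
    have := hadd (x - y) y
    rw [sub_add_cancel] at this
    rw [this, add_sub_cancel_right]
  let F : L → L := fun z => π (DA (Function.surjInv hπ z))
  have hF : ∀ x, F (π x) = π (DA x) := by
    intro x
    show π (DA (Function.surjInv hπ (π x))) = π (DA x)
    have h1 : π (Function.surjInv hπ (π x) - x) = 0 := by
      rw [map_sub, Function.surjInv_eq hπ, sub_self]
    have h2 := hker _ h1
    rw [hsub, map_sub, sub_eq_zero] at h2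
    exact h2
  have hFadd : ∀ u v, F (u + v) = F u + F v := by
    intro u v
    obtain ⟨x, rfl⟩ := hπ u
    obtain ⟨y, rfl⟩ := hπ v
    rw [← map_add, hF, hF, hF, hadd, map_add]
  have hFmul : ∀ u v, F (u * v) = u * F v + v * F u := by
    intro u v
    obtain ⟨x, rfl⟩ := hπ u
    obtain ⟨y, rfl⟩ := hπ v
    rw [← map_mul, hF, hF, hF, hmul, map_add, map_mul, map_mul]
  let Fa : L →+ L := AddMonoidHom.mk' F hFadd
  refine ⟨Derivation.mk' Fa.toIntLinearMap ?_, ?_⟩
  · intro u v
    exact hFmul u v
  · intro x
    exact hF x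

/-- Let `K p` be fields with derivations, for `p` in an infinite set. There is a quotient of the
product of the `K p` by a maximal ideal which is a differential field, and in which the families
with finitely many zeros are not zero.

Proof. Let `I` be the ideal of the families `x` with `{p | x p ≠ 0}` finite, a proper ideal, and
let `m` be a maximal ideal containing it; `L = (∀ p, K p) ⧸ m`. If `{p | x p = 0}` is finite and
`x ∈ m`, then for `y p = (x p)⁻¹` the family `1 - x y` is in `I`, so `1 ∈ m`, contradiction. The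
derivation `D x = (D p (x p))` maps `m` to `m`: for `x ∈ m` let `e = x y` with `y p = (x p)⁻¹`
(`e p` is `0` or `1`), so `x = e x`, `D e = 0` and `D x = e D x ∈ m`. -/
theorem exists_ultra {P : Type} [Infinite P] (K : P → Type u) [∀ p, Field (K p)]
    (D : ∀ p, Derivation ℤ (K p) (K p)) :
    ∃ (L : Type u) (_ : Field L) (π : (∀ p, K p) →+* L) (DL : Derivation ℤ L L),
      (∀ x, DL (π x) = π (fun p => D p (x p))) ∧
      ∀ x : ∀ p, K p, {p | x p = 0}.Finite → π x ≠ 0 := by
  classical
  let I : Ideal (∀ p, K p) :=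
    { carrier := {x | {p | x p ≠ 0}.Finite}
      add_mem' := fun {a b} ha hb => (Set.Finite.union ha hb).subset (fun p hp => by
        by_contra hc
        have h1 : ¬ (a p ≠ 0) := fun h => hc (Or.inl h)
        have h2 : ¬ (b p ≠ 0) := fun h => hc (Or.inr h)
        rw [not_not] at h1 h2
        apply hp
        show a p + b p = 0
        rw [h1, h2, add_zero])
      zero_mem' := by
        show {p : P | (0 : ∀ p, K p) p ≠ 0}.Finite
        have : {p : P | (0 : ∀ p, K p) p ≠ 0} = ∅ := by
          ext p
          simp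
        rw [this]
        exact Set.finite_empty
      smul_mem' := fun c x hx => Set.Finite.subset hx (fun p hp h0 => hp (by
        show c p * x p = 0
        rw [h0, mul_zero])) }
  have hI : I ≠ ⊤ := by
    intro h
    have h0 : (1 : ∀ p, K p) ∈ I := by
      rw [h]
      exact Submodule.mem_top
    have h1 : {p : P | (1 : ∀ p, K p) p ≠ 0}.Finite := h0
    have h2 : {p : P | (1 : ∀ p, K p) p ≠ 0} = Set.univ := by
      ext p
      simp
    rw [h2] at h1
    exact Set.infinite_univ h1
  obtain ⟨m, hm, hIm⟩ := Ideal.exists_le_maximal I hI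
  have hnz : ∀ x : ∀ p, K p, {p | x p = 0}.Finite → x ∉ m := by
    intro x hx hxm
    have h1 : (1 : ∀ p, K p) - x * (fun p => (x p)⁻¹) ∈ m := by
      apply hIm
      show {p | ((1 : ∀ p, K p) - x * (fun p => (x p)⁻¹)) p ≠ 0}.Finite
      refine hx.subset ?_
      intro p hp
      by_contra h0
      apply hp
      show 1 - x p * (x p)⁻¹ = 0
      rw [mul_inv_cancel₀ h0, sub_self]
    have h2 : (1 : ∀ p, K p) ∈ m := by
      have h3 := m.add_mem h1 (m.mul_mem_right (fun p => (x p)⁻¹) hxm)
      rwa [sub_add_cancel] at h3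
    exact hm.ne_top ((Ideal.eq_top_iff_one m).2 h2)
  have hD : ∀ x ∈ m, (fun p => D p (x p)) ∈ m := by
    intro x hx
    have h1 : (fun p => D p (x p)) = x * (fun p => (x p)⁻¹ * D p (x p)) := by
      funext p
      show D p (x p) = x p * ((x p)⁻¹ * D p (x p))
      by_cases h0 : x p = 0
      · rw [h0, map_zero, zero_mul]
      · rw [← mul_assoc, mul_inv_cancel₀ h0, one_mul]
    rw [h1]
    exact m.mul_mem_right _ hx
  letI : Field ((∀ p, K p) ⧸ m) := Ideal.Quotient.field m
  obtain ⟨DL, hDL⟩ := Ultra_quot (Ideal.Quotient.mk m) Ideal.Quotient.mk_surjective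
    (fun x p => D p (x p)) (fun x y => by
      funext p
      exact map_add (D p) (x p) (y p))
    (fun x y => by
      funext p
      exact (D p).leibniz (x p) (y p))
    (fun x hx => Ideal.Quotient.eq_zero_iff_mem.2 (hD x (Ideal.Quotient.eq_zero_iff_mem.1 hx)))
  exact ⟨(∀ p, K p) ⧸ m, Ideal.Quotient.field m, Ideal.Quotient.mk m, DL, hDL,
    fun x hx h0 => hnz x hx (Ideal.Quotient.eq_zero_iff_mem.1 h0)⟩

end MPadcLP
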