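import Mathlib
import Pool.Agent.Lib.MP_adc574_ag_LP.NoLag
import Pool.Agent.Lib.MP_adc574_ag_LP.Ultra

/-! # The argument by ultraproducts -/

set_option autoImplicit false

namespace MPadcLP

open Polynomial

universe u

/-- The derivation `d/dt` of `k[t]`. -/
private theorem nofam_der (k : Type*) [CommRing k] : ∃ D : Der k[X], ∀ q, D q = derivative q := by
  refine ⟨Derivation.mk' (AddMonoidHom.toIntLinearMap (derivative (R := k)).toAddMonoidHom)
    fun a b => ?_, fun q => rfl⟩
  show derivative (a * b) = a • derivative b + b • derivative a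
  rw [derivative_mul, smul_eq_mul, smul_eq_mul]
  ring

private theorem nofam_tcoeff {A k : Type*} [CommRing A] [CommRing k] (φ : A →+* k) (d : ℕ)
    (f : A[X][X]) : tcoeff d (f.map (mapRingHom φ)) = (tcoeff d f).map φ := by
  ext i
  rw [coeff_tcoeff, coeff_map, coeff_map, coeff_tcoeff, coe_mapRingHom, coeff_map]

/-- Extension of an embedding of `A[t]` to `k[t]`, `k` the field of fractions of `A`. -/
private theorem nofam_ext {A : Type u} [CommRing A] [IsDomain A] {L : Type u} [Field L]
    (θ : A[X] →+* L) (hθ : Function.Injective θ) (DL : Derivation ℤ L L)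
    (hDL : ∀ x, DL (θ x) = θ (derivative x)) :
    ∃ ψL : (FractionRing A)[X] →+* L, Function.Injective ψL ∧
      (∀ x : A[X], ψL (x.map (algebraMap A (FractionRing A))) = θ x) ∧
      ∀ x, DL (ψL x) = ψL (derivative x) := by
  have hg : Function.Injective (θ.comp (C : A →+* A[X])) := hθ.comp C_injective
  obtain ⟨g, hgdef⟩ : ∃ g : FractionRing A →+* L, g = IsFractionRing.lift hg := ⟨_, rfl⟩
  have hgA : ∀ a : A, g (algebraMap A (FractionRing A) a) = θ (C a) := by
    intro a
    rw [hgdef, IsFractionRing.lift_algebraMap]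
    rfl
  obtain ⟨ψL, hψdef⟩ : ∃ ψL : (FractionRing A)[X] →+* L, ψL = eval₂RingHom g (θ X) := ⟨_, rfl⟩
  have hψA : ∀ x : A[X], ψL (x.map (algebraMap A (FractionRing A))) = θ x := by
    intro x
    have h1 : ψL.comp (mapRingHom (algebraMap A (FractionRing A))) = θ := by
      refine ringHom_ext (fun a => ?_) ?_
      · rw [RingHom.comp_apply, coe_mapRingHom, map_C, hψdef, coe_eval₂RingHom, eval₂_C, hgA]
      · rw [RingHom.comp_apply, coe_mapRingHom, map_X, hψdef, coe_eval₂RingHom, eval₂_X]
    exact congrArg (fun h : A[X] →+* L => h x) h1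
  -- clearing denominators
  have hden : ∀ x : (FractionRing A)[X], ∃ (b : A) (y : A[X]), b ≠ 0 ∧
      C (algebraMap A (FractionRing A) b) * x = y.map (algebraMap A (FractionRing A)) := by
    intro x
    obtain ⟨b, hb0, hb⟩ := IsLocalization.integerNormalization_spec (nonZeroDivisors A) x
    refine ⟨b, IsLocalization.integerNormalization (nonZeroDivisors A) x,
      nonZeroDivisors.ne_zero hb0, ?_⟩
    rw [hb]
    ext i
    rw [coeff_C_mul, coeff_smul]
    exact (Algebra.smul_def _ _).symm
  have hC : ∀ b : A, b ≠ 0 → θ (C b) ≠ 0 := by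
    intro b hb h0
    rw [map_eq_zero_iff θ hθ, C_eq_zero] at h0
    exact hb h0
  have hψC : ∀ b : A, ψL (C (algebraMap A (FractionRing A) b)) = θ (C b) := by
    intro b
    rw [← hψA, map_C]
  refine ⟨ψL, ?_, hψA, ?_⟩
  · rw [injective_iff_map_eq_zero]
    intro x hx
    obtain ⟨b, y, hb, hy⟩ := hden x
    have h1 : θ y = 0 := by
      rw [← hψA, ← hy, map_mul, hx, mul_zero]
    rw [map_eq_zero_iff θ hθ] at h1
    rw [h1, Polynomial.map_zero] at hy
    have hb' : C (algebraMap A (FractionRing A) b) ≠ 0 := by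
      rw [Ne, C_eq_zero, map_eq_zero_iff _ (IsFractionRing.injective A (FractionRing A))]
      exact hb
    exact (mul_eq_zero.1 hy).resolve_left hb'
  · intro x
    obtain ⟨b, y, hb, hy⟩ := hden x
    have h1 : DL (θ (C b) * ψL x) = θ (C b) * ψL (derivative x) := by
      have h2 : θ (C b) * ψL x = θ y := by
        rw [← hψA y, ← hy, map_mul, hψC]
      rw [h2, hDL, ← hψA (derivative y), ← derivative_map, ← hy, derivative_C_mul, map_mul, hψC]
    rw [Derivation.leibniz, hDL, derivative_C, map_zero, smul_zero, add_zero, smul_eq_mul] at h1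
    exact mul_left_cancel₀ (hC b hb) h1

private theorem nofam_JJ {P : Type} {K : P → Type u} [∀ p, Field (K p)] {L : Type u} [Field L]
    [CharZero L] (π : (∀ p, K p) →+* L) {m : ℕ}
    (hchar : ∀ p, ∀ n : ℕ, 0 < n → n ≤ m → (n : K p) ≠ 0) (a b : Idx m) :
    JJ L m a b = π (fun p => JJ (K p) m a b) := by
  unfold JJ
  by_cases h : ((a : Fin (m - 1)) : ℕ) + ((b : Fin (m - 1)) : ℕ) + 2 = m
  · have ha := a.2
    obtain ⟨i, hi⟩ : ∃ i : ℕ, i = ((a : Fin (m - 1)) : ℕ) := ⟨_, rfl⟩
    obtain ⟨j, hj⟩ : ∃ j : ℕ, j = ((b : Fin (m - 1)) : ℕ) := ⟨_, rfl⟩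
    rw [← hi] at ha
    rw [← hi, ← hj] at h ⊢
    have hij : i ≠ j := by
      intro h1
      apply ha
      omega
    have hK : ∀ p, ((j : K p) - (i : K p)) ≠ 0 := by
      intro p
      rcases lt_or_gt_of_ne hij with h1 | h1
      · rw [← Nat.cast_sub h1.le]
        exact hchar p (j - i) (by omega) (by omega)
      · rw [← neg_sub, neg_ne_zero, ← Nat.cast_sub h1.le]
        exact hchar p (i - j) (by omega) (by omega)
    have hL : ((j : L) - (i : L)) ≠ 0 := by
      rw [sub_ne_zero]
      exact fun h1 => hij (Nat.cast_injective h1).symm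
    have h2 : (fun p => if i + j + 2 = m then (2 : K p) / ((j : K p) - (i : K p)) else 0) =
        (fun p => (2 : K p) / ((j : K p) - (i : K p))) := by
      funext p
      rw [if_pos h]
    rw [if_pos h, h2, div_eq_iff hL]
    have h3 : ((j : L) - (i : L)) = π ((j : ∀ p, K p) - (i : ∀ p, K p)) := by
      rw [map_sub, map_natCast, map_natCast]
    rw [h3, ← map_mul]
    have h4 : (fun p => (2 : K p) / ((j : K p) - (i : K p))) *
        ((j : ∀ p, K p) - (i : ∀ p, K p)) = ((2 : ℕ) : ∀ p, K p) := by
      funext p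
      show (2 : K p) / ((j : K p) - (i : K p)) * ((j : K p) - (i : K p)) = ((2 : ℕ) : K p)
      rw [div_mul_cancel₀ _ (hK p)]
      norm_num
    rw [h4, map_natCast]
    norm_num
  · rw [if_neg h]
    have h2 : (fun p => if ((a : Fin (m - 1)) : ℕ) + ((b : Fin (m - 1)) : ℕ) + 2 = m then
        (2 : K p) / ((((b : Fin (m - 1)) : ℕ) : K p) - (((a : Fin (m - 1)) : ℕ) : K p)) else 0) =
        0 := by
      funext p
      rw [if_neg h]
      rfl
    rw [h2, map_zero]

/-- The argument by ultraproducts: from horizontal Lagrangians over fields `K p`, for `p` in an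
infinite set, to one over a differential field of characteristic zero.

Proof. Choose `w p`, `V p`, `M p`. Let `L`, `π`, `DL` be from `exists_ultra`, and
`θ = π ∘ (φ p)_p : A[t] → L` (`Pi.ringHom`). It is injective by `hfin`. Let `k = FractionRing A`;
`θ ∘ C` is injective and extends to `k → L`, and with `t ↦ θ t` we get `ψL : k[t] → L`
(`eval₂RingHom`), injective (clear denominators), with `ψL` of the image of `x : A[t]` equal to `θ x`
and `DL (ψL x) = ψL x'` (`DL (θ (C a)) = θ (derivative (C a)) = 0`, hence `DL` kills the image of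
`k`, and `DL (θ t) = 1`). Apply `no_lagrangian` to `f.map (mapRingHom (algebraMap A k))`, the images
of `ψ`, `c`, `G`, `c'`, `u`, `v` (`IsPsi.map`, `IsGM.map`), and `w j i = π (fun p => w p j i)`, etc.
Entries of `JJ`: for families `x`, `y` with `y p ≠ 0` for all `p`, `π (x / y) = π x / π y`; by
`hchar`, `(b : K p) - a ≠ 0` for `a ≠ b`, `a, b < m`. The field `L` has characteristic zero because
it contains `A`. -/
theorem no_family {A : Type u} [CommRing A] [IsDomain A] [CharZero A] {m d : ℕ}
    (hm : 3 ≤ m) (hd : Odd d) {f : A[X][X]} (hf : f.Monic) (hfm : f.natDegree = m)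
    (hdeg : ∀ i, (f.coeff i).natDegree ≤ d) (htop : (tcoeff d f).natDegree = m - 1)
    (hsep : ((tcoeff d f).map (algebraMap A (FractionRing A))).Separable)
    (hmild : ∀ (a : AlgebraicClosure (FractionRing A))
      (α : Finset (AlgebraicClosure (FractionRing A))),
      (∀ x, x ∈ α ↔ ((f.map (mapRingHom (algebraMap A (FractionRing A)))).map
        (aeval a).toRingHom).IsRoot x) → m ≤ α.card + 1)
    {ψ : PowerSeries A[X]} (hψ : IsPsi m f ψ) {c : A[X]} (hc : c ≠ 0)
    (D : Der A[X]) (hD : ∀ q, D q = derivative q)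
    {G : Matrix (Idx m) (Idx m) A[X]} (hG : IsGM D c m f ψ G)
    (c' : A[X]) (hc' : c' ≠ 0) (u v : A[X][X]) (huv : u * f + v * derivative f = C c')
    {P : Type} [Infinite P] (K : P → Type u) [∀ p, Field (K p)] (φ : ∀ p, A[X] →+* K p)
    (DK : ∀ p, Derivation ℤ (K p) (K p)) (hDK : ∀ p x, DK p (φ p x) = φ p (derivative x))
    (hfin : ∀ a : A[X], a ≠ 0 → {p | φ p a = 0}.Finite)
    (hchar : ∀ p, ∀ n : ℕ, 0 < n → n ≤ m → (n : K p) ≠ 0)
    (hlag : ∀ p, ∃ (w V : Fin ((m - 1) / 2) → Idx m → K p)
        (M : Matrix (Fin ((m - 1) / 2)) (Fin ((m - 1) / 2)) (K p)),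
        (∀ i j, V i ⬝ᵥ w j = if i = j then 1 else 0) ∧
        (∀ i j, BB (JJ (K p) m) (w i) (w j) = 0) ∧
        (∀ j, nab (DK p) (φ p c) (G.map (φ p)) (w j) = ∑ i, M i j • w i) ∧
        (Matrix.of fun i j => ((JJ (K p) m).mulVec (w j)) (fbI m i)).det = 0) : False := by
  choose w V M hV hiso hst hdet using hlag
  obtain ⟨L, hL, π, DL, hDL, hfinL⟩ := exists_ultra K DK
  obtain ⟨θ, hθdef⟩ : ∃ θ : A[X] →+* L, θ = π.comp (RingHom.pi φ) := ⟨_, rfl⟩
  have hθa : ∀ x, θ x = π (fun p => φ p x) := by
    intro x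
    rw [hθdef]
    rfl
  have hθ : Function.Injective θ := by
    rw [injective_iff_map_eq_zero]
    intro a ha
    by_contra h
    rw [hθa] at ha
    exact hfinL _ (hfin a h) ha
  have hDθ : ∀ x, DL (θ x) = θ (derivative x) := by
    intro x
    rw [hθa, hDL, hθa]
    congr 1
    funext p
    exact hDK p x
  have hcL : CharZero L := charZero_of_injective_ringHom (f := θ.comp (C : A →+* A[X]))
    (hθ.comp C_injective)
  have hck : CharZero (FractionRing A) :=
    charZero_of_injective_algebraMap (IsFractionRing.injective A (FractionRing A))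
  obtain ⟨ψL, hψinj, hψA, hDψ⟩ := nofam_ext θ hθ DL hDθ
  obtain ⟨D', hD'⟩ := nofam_der (FractionRing A)
  have hinj : Function.Injective (algebraMap A (FractionRing A)) :=
    IsFractionRing.injective A (FractionRing A)
  have hne : ∀ x : A[X], x ≠ 0 → mapRingHom (algebraMap A (FractionRing A)) x ≠ 0 := by
    intro x hx h0
    rw [coe_mapRingHom, Polynomial.map_eq_zero_iff hinj] at h0
    exact hx h0
  have hψA' : ∀ x : A[X], ψL (mapRingHom (algebraMap A (FractionRing A)) x) =
      π (fun p => φ p x) := by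
    intro x
    rw [coe_mapRingHom, hψA, hθa]
  have hGM := hG.map (mapRingHom (algebraMap A (FractionRing A))) (D' := D')
    (fun x => by rw [hD', hD, coe_mapRingHom, derivative_map]) (by omega)
  refine no_lagrangian (k := FractionRing A) hm hd
    (f := f.map (mapRingHom (algebraMap A (FractionRing A)))) (hf.map _) ?_ ?_ ?_ ?_ hmild
    (hψ.map _) (hne c hc) D' hD' hGM (mapRingHom (algebraMap A (FractionRing A)) c')
    (hne c' hc') (u.map (mapRingHom (algebraMap A (FractionRing A))))
    (v.map (mapRingHom (algebraMap A (FractionRing A)))) ?_ ψL hψinj DL hDψ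
    (fun j i => π (fun p => w p j i)) (fun j i => π (fun p => V p j i)) ?_ ?_
    (fun i j => π (fun p => M p i j)) ?_ ?_
  · rw [hf.natDegree_map, hfm]
  · intro i
    rw [coeff_map, coe_mapRingHom]
    exact natDegree_map_le.trans (hdeg i)
  · rw [nofam_tcoeff, natDegree_map_eq_of_injective hinj, htop]
  · rw [nofam_tcoeff]
    exact hsep
  · rw [derivative_map, ← Polynomial.map_mul, ← Polynomial.map_mul, ← Polynomial.map_add, huv,
      map_C]
  · intro i j
    have h1 : (fun i' => π (fun p => V p i i')) ⬝ᵥ (fun i' => π (fun p => w p j i')) =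
        π (∑ l, (fun p => V p i l) * (fun p => w p j l)) := by
      rw [map_sum]
      refine Finset.sum_congr rfl fun l _ => ?_
      rw [map_mul]
    have h2 : (∑ l, (fun p => V p i l) * (fun p => w p j l) : ∀ p, K p) =
        ((if i = j then 1 else 0 : ℕ) : ∀ p, K p) := by
      funext p
      rw [Finset.sum_apply]
      have h3 : ∑ l, V p i l * w p j l = if i = j then 1 else 0 := hV p i j
      refine h3.trans ?_
      rw [Pi.natCast_apply]
      split_ifs
      · rw [Nat.cast_one]
      · rw [Nat.cast_zero]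
    rw [h1, h2, map_natCast]
    split_ifs
    · rw [Nat.cast_one]
    · rw [Nat.cast_zero]
  · intro i j
    have h1 : BB (JJ L m) (fun i' => π (fun p => w p i i')) (fun i' => π (fun p => w p j i')) =
        π (∑ l, (fun p => w p i l) * ∑ s, (fun p => JJ (K p) m l s) * (fun p => w p j s)) := by
      rw [map_sum]
      show (∑ l, π (fun p => w p i l) * ∑ s, JJ L m l s * π (fun p => w p j s)) = _
      refine Finset.sum_congr rfl fun l _ => ?_
      rw [map_mul, map_sum]
      congr 1
      refine Finset.sum_congr rfl fun s _ => ?_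
      rw [map_mul, nofam_JJ π hchar]
    have h2 : (∑ l, (fun p => w p i l) * ∑ s, (fun p => JJ (K p) m l s) *
        (fun p => w p j s) : ∀ p, K p) = 0 := by
      funext p
      rw [Finset.sum_apply]
      have h3 : ∑ l, w p i l * ∑ s, JJ (K p) m l s * w p j s = 0 := hiso p i j
      refine (Finset.sum_congr rfl fun l _ => ?_).trans h3
      rw [Pi.mul_apply, Finset.sum_apply]
      rfl
    rw [h1, h2, map_zero]
  · intro j
    funext l
    have h1 : nab DL (ψL (mapRingHom (algebraMap A (FractionRing A)) c))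
        ((G.map (mapRingHom (algebraMap A (FractionRing A)))).map ψL)
        (fun i' => π (fun p => w p j i')) l =
        π ((fun p => φ p c) * (fun p => DK p (w p j l)) +
          ∑ s, (fun p => φ p (G l s)) * (fun p => w p j s)) := by
      rw [map_add, map_mul, map_sum, ← hψA', ← hDL]
      show _ + (∑ s, ψL (mapRingHom (algebraMap A (FractionRing A)) (G l s)) *
        π (fun p => w p j s)) = _
      congr 1
      refine Finset.sum_congr rfl fun s _ => ?_
      rw [map_mul, ← hψA']
    have h2 : ((fun p => φ p c) * (fun p => DK p (w p j l)) +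
          ∑ s, (fun p => φ p (G l s)) * (fun p => w p j s) : ∀ p, K p) =
        ∑ i, (fun p => M p i j) * (fun p => w p i l) := by
      funext p
      have h3 := congrFun (hst p j) l
      rw [Finset.sum_apply] at h3
      rw [Pi.add_apply, Finset.sum_apply, Finset.sum_apply]
      exact h3
    rw [h1, h2, map_sum, Finset.sum_apply]
    refine Finset.sum_congr rfl fun i _ => ?_
    rw [map_mul]
    rfl
  · have h1 : (Matrix.of fun i j => ((JJ L m).mulVec fun i' => π (fun p => w p j i'))
        (fbI m i)) = (Matrix.of fun (i j : Fin ((m - 1) / 2)) =>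
          (∑ s, (fun p => JJ (K p) m (fbI m i) s) * (fun p => w p j s) : ∀ p, K p)).map π := by
      ext i j
      rw [Matrix.map_apply, Matrix.of_apply, Matrix.of_apply, map_sum]
      show (∑ s, JJ L m (fbI m i) s * π (fun p => w p j s)) = _
      refine Finset.sum_congr rfl fun s _ => ?_
      rw [map_mul, nofam_JJ π hchar]
    have h2 : (Matrix.of fun (i j : Fin ((m - 1) / 2)) =>
          (∑ s, (fun p => JJ (K p) m (fbI m i) s) * (fun p => w p j s) : ∀ p, K p)).det = 0 := by
      funext p
      have h3 := RingHom.map_det (Pi.evalRingHom K p) (Matrix.of fun (i j : Fin ((m - 1) / 2)) =>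
          (∑ s, (fun p => JJ (K p) m (fbI m i) s) * (fun p => w p j s) : ∀ p, K p))
      refine h3.trans (Eq.trans ?_ (hdet p))
      congr 1
      ext i j
      rw [RingHom.mapMatrix_apply, Matrix.map_apply, Matrix.of_apply, Matrix.of_apply, map_sum]
      rfl
    have h4 := RingHom.map_det π (Matrix.of fun (i j : Fin ((m - 1) / 2)) =>
          (∑ s, (fun p => JJ (K p) m (fbI m i) s) * (fun p => w p j s) : ∀ p, K p))
    rw [h1]
    refine h4.symm.trans ?_
    rw [h2, map_zero]

end MPadcLP
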