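import Mathlib
import Pool.Agent.Lib.MP_adc574_ag_LP.Infinity

/-! # Separability of the generic member -/

set_option autoImplicit false

namespace MPadcLP

open Polynomial

private theorem SepGen_norm1 {A K : Type*} [CommRing A] [IsDomain A] [Field K] [Algebra A K]
    [IsFractionRing A K] (q : K[X]) :
    ∃ (b : A) (q' : A[X]), b ≠ 0 ∧ q'.map (algebraMap A K) = C (algebraMap A K b) * q := by
  obtain ⟨b, hb⟩ := IsLocalization.integerNormalization_map_to_map (nonZeroDivisors A) q
  refine ⟨b, _, nonZeroDivisors.coe_ne_zero b, hb.trans ?_⟩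
  rw [← Polynomial.smul_eq_C_mul]
  ext i
  rw [coeff_smul, coeff_smul]
  exact Algebra.smul_def _ _

private theorem SepGen_norm2 {A k : Type*} [CommRing A] [IsDomain A] [Field k] [Algebra A k]
    [IsFractionRing A k] (p : k[X][X]) :
    ∃ (b : A) (p' : A[X][X]), b ≠ 0 ∧
      p'.map (mapRingHom (algebraMap A k)) = C (C (algebraMap A k b)) * p := by
  induction p using Polynomial.induction_on' with
  | add p q hp hq =>
    obtain ⟨b1, p1, h1, e1⟩ := hp
    obtain ⟨b2, p2, h2, e2⟩ := hq
    refine ⟨b1 * b2, C (C b2) * p1 + C (C b1) * p2, mul_ne_zero h1 h2, ?_⟩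
    rw [Polynomial.map_add, Polynomial.map_mul, Polynomial.map_mul, e1, e2, map_C, map_C,
      coe_mapRingHom, map_C, map_C, map_mul, C_mul, C_mul]
    ring
  | monomial n q =>
    obtain ⟨b, q', hb, e⟩ := SepGen_norm1 (A := A) q
    refine ⟨b, monomial n q', hb, ?_⟩
    rw [map_monomial, coe_mapRingHom, e, C_mul_monomial]

private theorem SepGen_swap {k : Type*} [CommRing k] (p : k[X][X]) (i j : ℕ) :
    ((Bivariate.swap (R := k) p).coeff i).coeff j = (p.coeff j).coeff i := by
  induction p using Polynomial.induction_on' with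
  | add p q hp hq => rw [map_add, coeff_add, coeff_add, coeff_add, coeff_add, hp, hq]
  | monomial n q =>
    induction q using Polynomial.induction_on' with
    | add p q hp hq =>
      rw [map_add, map_add, coeff_add, coeff_add, coeff_add, coeff_add, hp, hq]
    | monomial l a =>
      rw [Bivariate.swap_monomial_monomial]
      simp only [coeff_monomial]
      by_cases h1 : l = i
      · by_cases h2 : n = j
        · simp [h1, h2, coeff_monomial]
        · simp [h1, h2, coeff_monomial]
      · by_cases h2 : n = j
        · simp [h1, h2, coeff_monomial]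
        · simp [h1, h2]

/-- If the `t ^ d`-coefficient `f_d` of `f` (of degree `≤ d` in `t`, monic of degree `m` in `x`) is
separable of degree `m - 1`, then `f` is separable over `k(t)`: the ideal `(f, f')` of `k[t][x]`
contains a nonzero element of `k[t]`.

Proof. Otherwise `f` is not separable, hence not squarefree over the field `k(t)` (characteristic
zero), so `g ^ 2 ∣ f` with `g` monic of positive degree, and by Gauss' lemma
(`IsIntegrallyClosed` / `Polynomial.Monic` factors: `Monic.dvd_...`) `f = g ^ 2 h` with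
`g, h ∈ k[t][x]` monic. Let `r`, `s` be the degrees of `g`, `h` in `t` and `g_r`, `h_s` the leading
coefficients, in `k[x]`. The degree in `t` of `f` is `2 r + s`, which is `d` (`f_d ≠ 0`), and
`f_d = g_r ^ 2 h_s` (`tcoeff_mul`). As `f_d` is separable, `g_r` is constant, so
`m - 1 = deg f_d = deg h_s ≤ deg_x h = m - 2 deg_x g ≤ m - 2`, contradiction.
(Alternative: `f` separable over `k(t)` iff its discriminant is nonzero.) -/
theorem exists_bezout_generic {k : Type*} [Field k] [CharZero k] {m d : ℕ} (hm : 3 ≤ m)
    {f : k[X][X]} (hf : f.Monic) (hfm : f.natDegree = m)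
    (hdeg : ∀ i, (f.coeff i).natDegree ≤ d) (htop : (tcoeff d f).natDegree = m - 1)
    (hsep : (tcoeff d f).Separable) :
    ∃ (c : k[X]) (u v : k[X][X]), c ≠ 0 ∧ u * f + v * derivative f = C c := by
  haveI : CharZero (FractionRing k[X]) :=
    charZero_of_injective_algebraMap (IsFractionRing.injective k[X] (FractionRing k[X]))
  have hinj : Function.Injective (algebraMap k[X] (FractionRing k[X])) :=
    IsFractionRing.injective k[X] (FractionRing k[X])
  have hfK0 : f.map (algebraMap k[X] (FractionRing k[X])) ≠ 0 := (hf.map _).ne_zero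
  have hsepK : (f.map (algebraMap k[X] (FractionRing k[X]))).Separable := by
    rw [PerfectField.separable_iff_squarefree]
    intro g hg
    by_contra hu
    have hg0 : g ≠ 0 := by
      intro h0
      rw [h0, mul_zero, zero_dvd_iff] at hg
      exact hfK0 hg
    have hl0 : g.leadingCoeff ≠ 0 := leadingCoeff_ne_zero.mpr hg0
    obtain ⟨g1, hg1⟩ : ∃ g1, g1 = g * C (g.leadingCoeff⁻¹) := ⟨_, rfl⟩
    have hg1m : g1.Monic := by
      rw [hg1]
      exact monic_mul_leadingCoeff_inv hg0
    have hCC : C (g.leadingCoeff⁻¹) * C g.leadingCoeff = (1 : (FractionRing k[X])[X]) := by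
      rw [← C_mul, inv_mul_cancel₀ hl0, C_1]
    have hg11 : g1 * g1 ∣ f.map (algebraMap k[X] (FractionRing k[X])) := by
      obtain ⟨r, hr⟩ := hg
      refine ⟨C g.leadingCoeff * C g.leadingCoeff * r, ?_⟩
      rw [hr, hg1]
      linear_combination (-(g * g * r) * (C (g.leadingCoeff⁻¹) * C g.leadingCoeff + 1)) * hCC
    have hg1d : g1 ∣ f.map (algebraMap k[X] (FractionRing k[X])) :=
      (dvd_mul_right g1 g1).trans hg11
    obtain ⟨g', hg'⟩ := IsIntegrallyClosed.eq_map_mul_C_of_dvd (FractionRing k[X]) hf hg1d
    rw [hg1m.leadingCoeff, C_1, mul_one] at hg'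
    have hg'm : g'.Monic := monic_of_injective hinj (by rw [hg']; exact hg1m)
    have hdeg1 : 1 ≤ g'.natDegree := by
      have h1 : g'.natDegree = g1.natDegree := by
        rw [← hg', natDegree_map_eq_of_injective hinj]
      have h2 : g1.natDegree = g.natDegree := by
        rw [hg1]
        exact natDegree_mul_C (inv_ne_zero hl0)
      rw [h1, h2]
      by_contra hcon
      have h3 : g.natDegree = 0 := by omega
      rw [eq_C_of_natDegree_eq_zero h3] at hu
      apply hu
      rw [isUnit_C, isUnit_iff_ne_zero]
      intro h4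
      apply hg0
      rw [eq_C_of_natDegree_eq_zero h3, h4, C_0]
    have hdvd : g' * g' ∣ f := by
      rw [← map_dvd_map (algebraMap k[X] (FractionRing k[X])) hinj (hg'm.mul hg'm),
        Polynomial.map_mul, hg']
      exact hg11
    obtain ⟨h, hh⟩ := hdvd
    have hh0 : h ≠ 0 := by
      intro h0
      rw [h0, mul_zero] at hh
      exact hf.ne_zero hh
    have hnd : m = g'.natDegree + g'.natDegree + h.natDegree := by
      rw [← hfm, hh, natDegree_mul (mul_ne_zero hg'm.ne_zero hg'm.ne_zero) hh0,
        natDegree_mul hg'm.ne_zero hg'm.ne_zero]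
    -- the other variable
    have hcoef : (Bivariate.swap (R := k) f).coeff d = tcoeff d f := by
      ext i
      rw [SepGen_swap, coeff_tcoeff]
    have htne : tcoeff d f ≠ 0 := by
      intro h0
      rw [h0, natDegree_zero] at htop
      omega
    have hle : (Bivariate.swap (R := k) f).natDegree ≤ d := by
      rw [natDegree_le_iff_coeff_eq_zero]
      intro N hN
      ext i
      rw [SepGen_swap, coeff_zero]
      exact coeff_eq_zero_of_natDegree_lt (lt_of_le_of_lt (hdeg i) hN)
    have hndF : (Bivariate.swap (R := k) f).natDegree = d :=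
      natDegree_eq_of_le_of_coeff_ne_zero hle (by rw [hcoef]; exact htne)
    have hlc : (Bivariate.swap (R := k) f).leadingCoeff = tcoeff d f := by
      rw [leadingCoeff, hndF, hcoef]
    have hlm : tcoeff d f = (Bivariate.swap (R := k) g').leadingCoeff *
        (Bivariate.swap (R := k) g').leadingCoeff * (Bivariate.swap (R := k) h).leadingCoeff := by
      rw [← hlc]
      conv_lhs => rw [hh]
      rw [map_mul, map_mul, leadingCoeff_mul, leadingCoeff_mul]
    have hunit : IsUnit (Bivariate.swap (R := k) g').leadingCoeff :=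
      hsep.squarefree _ ⟨_, hlm⟩
    have hG0 : (Bivariate.swap (R := k) g').leadingCoeff ≠ 0 := hunit.ne_zero
    have hH0 : (Bivariate.swap (R := k) h).leadingCoeff ≠ 0 := by
      intro h0
      rw [h0, mul_zero] at hlm
      exact htne hlm
    have hG1 : (Bivariate.swap (R := k) g').leadingCoeff.natDegree = 0 :=
      natDegree_eq_zero_of_isUnit hunit
    have hH1 : (Bivariate.swap (R := k) h).leadingCoeff.natDegree ≤ h.natDegree := by
      rw [natDegree_le_iff_coeff_eq_zero]
      intro N hN
      rw [leadingCoeff, SepGen_swap, coeff_eq_zero_of_natDegree_lt hN, coeff_zero]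
    rw [hlm, natDegree_mul (mul_ne_zero hG0 hG0) hH0, natDegree_mul hG0 hG0, hG1] at htop
    omega
  obtain ⟨a, b, hab⟩ := hsepK
  obtain ⟨b1, a', hb1, ea⟩ := SepGen_norm1 (A := k[X]) a
  obtain ⟨b2, b', hb2, eb⟩ := SepGen_norm1 (A := k[X]) b
  refine ⟨b1 * b2, C b2 * a', C b1 * b', mul_ne_zero hb1 hb2, ?_⟩
  apply map_injective (algebraMap k[X] (FractionRing k[X])) hinj
  rw [Polynomial.map_add, Polynomial.map_mul, Polynomial.map_mul, Polynomial.map_mul,
    Polynomial.map_mul, ea, eb, map_C, map_C, map_C, ← derivative_map, map_mul, C_mul]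
  linear_combination (C (algebraMap k[X] (FractionRing k[X]) b1) *
    C (algebraMap k[X] (FractionRing k[X]) b2)) * hab

/-- The same with coefficients in a domain `A` with fraction field `k`. -/
theorem exists_bezout_of_fraction {A k : Type*} [CommRing A] [IsDomain A] [Field k] [Algebra A k]
    [IsFractionRing A k] (f : A[X][X])
    (h : ∃ (c : k[X]) (u v : k[X][X]), c ≠ 0 ∧
      u * f.map (mapRingHom (algebraMap A k)) +
        v * derivative (f.map (mapRingHom (algebraMap A k))) = C c) :
    ∃ (c : A[X]) (u v : A[X][X]), c ≠ 0 ∧ u * f + v * derivative f = C c := by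
  obtain ⟨c, u, v, hc, huv⟩ := h
  obtain ⟨b1, u', hb1, eu⟩ := SepGen_norm2 (A := A) u
  obtain ⟨b2, v', hb2, ev⟩ := SepGen_norm2 (A := A) v
  obtain ⟨b3, c', hb3, ec⟩ := SepGen_norm1 (A := A) c
  have hinjA : Function.Injective (algebraMap A k) := IsFractionRing.injective A k
  have hinj : Function.Injective (mapRingHom (algebraMap A k)) := map_injective _ hinjA
  have hc' : c' ≠ 0 := by
    intro h0
    rw [h0, Polynomial.map_zero] at ec
    rcases mul_eq_zero.mp ec.symm with h1 | h1
    · rw [C_eq_zero] at h1
      exact hb3 ((map_eq_zero_iff _ hinjA).mp h1)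
    · exact hc h1
  refine ⟨C (b1 * b2) * c', C (C (b2 * b3)) * u', C (C (b1 * b3)) * v',
    mul_ne_zero (C_ne_zero.mpr (mul_ne_zero hb1 hb2)) hc', ?_⟩
  apply map_injective (mapRingHom (algebraMap A k)) hinj
  rw [Polynomial.map_add, Polynomial.map_mul, Polynomial.map_mul, Polynomial.map_mul,
    Polynomial.map_mul, eu, ev, ← derivative_map, map_C, map_C, map_C, coe_mapRingHom,
    Polynomial.map_mul, map_C, map_C, map_C, ec]
  simp only [map_mul]
  linear_combination (C (C (algebraMap A k b1)) * C (C (algebraMap A k b2)) *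
    C (C (algebraMap A k b3))) * huv

end MPadcLP
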