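import Mathlib
import Pool.Agent.Lib.MP_adc574_ag_LP.NoFamily
import Pool.Agent.Lib.MP_adc574_ag_LP.SepGen
import Pool.Agent.Lib.MP_adc574_ag_LP.CharP2
import Pool.Agent.Lib.MP_adc574_ag_LP.Primes

/-! # Generic ordinarity modulo large primes -/

set_option autoImplicit false

namespace MPadcLP

open Polynomial MPadc574

universe u

/-- The derivative as a `ℤ`-derivation of `R[X]`. -/
noncomputable def Core.derX (R : Type*) [CommRing R] : Der R[X] :=
  Derivation.mk' (derivative (R := R)).toAddMonoidHom.toIntLinearMap (by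
    intro a b
    change derivative (a * b) = a • derivative b + b • derivative a
    rw [derivative_mul, smul_eq_mul, smul_eq_mul]
    ring)

theorem Core.derX_apply (R : Type*) [CommRing R] (q : R[X]) : Core.derX R q = derivative q := rfl

theorem Core.tcoeff_map {A k : Type*} [CommRing A] [CommRing k] (φ : A →+* k) (d : ℕ)
    (f : A[X][X]) : tcoeff d (f.map (mapRingHom φ)) = (tcoeff d f).map φ := by
  ext i
  rw [coeff_tcoeff, coeff_map, coe_mapRingHom, coeff_map, coeff_map, coeff_tcoeff]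

/-- The differential field `K` for a prime ideal `P`: the field of fractions of `(A / P)[t]`. -/
theorem Core.exists_data {A : Type u} [CommRing A] (P : Ideal A) [hP : P.IsPrime] :
    ∃ (K : Type u) (_ : Field K) (ι : (A ⧸ P)[X] →+* K) (DK : Derivation ℤ K K),
      Function.Injective ι ∧ ∀ x, DK (ι x) = ι (derivative x) := by
  obtain ⟨D', hD'⟩ := exists_derivation_fraction (K := FractionRing (A ⧸ P)[X])
    (Core.derX (A ⧸ P))
  exact ⟨FractionRing (A ⧸ P)[X], inferInstance, algebraMap _ _, D',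
    IsFractionRing.injective _ _, fun x => by rw [hD', Core.derX_apply]⟩

/-- The Lagrangian over the field `K`. -/
theorem Core.exists_lag {A : Type u} [CommRing A] {m : ℕ} (hm : 3 ≤ m) {f : A[X][X]}
    (hf : f.Monic) (hfm : f.natDegree = m) {ψ : PowerSeries A[X]} (hψ : IsPsi m f ψ) {c : A[X]}
    (D : Der A[X]) (hD : ∀ q, D q = derivative q) {G : Matrix (Idx m) (Idx m) A[X]}
    (hG : IsGM D c m f ψ G) (c' : A[X]) (u v : A[X][X]) (huv : u * f + v * derivative f = C c')
    {K : Type u} [Field K] {p : ℕ} [Fact p.Prime] [CharP K p] (hp2 : p ≠ 2) (hpm : m < p)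
    (φ : A[X] →+* K) (DK : Derivation ℤ K K) (hDK : ∀ x, DK (φ x) = φ (derivative x))
    (hc' : φ c' ≠ 0) (hdet : (cmMatrix p ((m - 1) / 2) (f.map φ)).det = 0) :
    ∃ (w V : Fin ((m - 1) / 2) → Idx m → K)
      (M : Matrix (Fin ((m - 1) / 2)) (Fin ((m - 1) / 2)) K),
      (∀ i j, V i ⬝ᵥ w j = if i = j then 1 else 0) ∧
      (∀ i j, BB (JJ K m) (w i) (w j) = 0) ∧
      (∀ j, nab DK (φ c) (G.map φ) (w j) = ∑ i, M i j • w i) ∧
      (Matrix.of fun i j => ((JJ K m).mulVec (w j)) (fbI m i)).det = 0 := by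
  have hfK : (f.map φ).Monic := hf.map φ
  have hfmK : (f.map φ).natDegree = m := by rw [hf.natDegree_map, hfm]
  have hsep : (f.map φ).Separable := by
    refine ⟨C (φ c')⁻¹ * u.map φ, C (φ c')⁻¹ * v.map φ, ?_⟩
    have h1 := congrArg (Polynomial.map φ) huv
    rw [Polynomial.map_add, Polynomial.map_mul, Polynomial.map_mul, map_C, ← derivative_map] at h1
    rw [mul_assoc, mul_assoc, ← mul_add, h1, ← C_mul, inv_mul_cancel₀ hc', C_1]
  have hψK : IsPsi m (f.map φ) (ψ.map φ) := IsPsi.map φ hψ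
  have hGK : IsGM DK (φ c) m (f.map φ) (ψ.map φ) (G.map φ) :=
    IsGM.map φ (fun x => by rw [hDK, hD]) (by omega) hG
  exact exists_lagrangian hp2 DK hm hpm hfK hfmK hsep hψK hGK hdet

/-- Generic ordinarity modulo large primes: for every nonzero `b ∈ A[t]` and every `N` there are
a prime number `p > N` and a prime `P` of `A` over `p` such that `b` and the Cartier–Manin
determinant of `f` are not zero in `(A / P)[t]`.

Proof: by contradiction. Let `Pf`, `N₁` be from `exists_primes_family A`. Let `ψ` be from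
`exists_isPsi` (`2` is invertible), `c'`, `u`, `v` from `exists_bezout_generic` and
`exists_bezout_of_fraction`, and `G` from `exists_isGM` (for `D` the derivative), with
`c = 2 c'`. Let `N₂ ≥ N, N₁, m` be so large that for `p > N₂` some fixed nonzero coefficients of
`b` and of `c'` are not in `Pf p`. The index type is `{p // p.Prime ∧ N₂ < p}`, infinite;
`K p = FractionRing ((A / Pf p)[t])` (take `Q p : PrimeSpectrum A` with ideal `Pf p`), `φ p` the
natural map, `DK p` the extension of `d/dt` (`exists_derivation_fraction`). `φ p a = 0` implies that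
all coefficients of `a` are in `Pf p`, which gives `hfin`. For every `p` the determinant vanishes in
`(A / Pf p)[t]`, so in `K p` (`det_cmMatrix_map`), and `exists_lagrangian` (with `IsPsi.map`,
`IsGM.map`; the image of `f` is separable by the Bézout relation; `CharP (K p) p`) gives `hlag`.
Then `no_family`. (Work with a general field `K'` and an injective `(A / P)[t] → K'` in an auxiliary
lemma, to avoid instance problems with `FractionRing`.) -/
theorem core {A : Type u} [CommRing A] [IsDomain A] [CharZero A] [Algebra.FiniteType ℤ A]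
    (h2 : ∃ x : A, 2 * x = 1) {m d : ℕ} (hm : 3 ≤ m) (hd : Odd d) {f : A[X][X]} (hf : f.Monic)
    (hfm : f.natDegree = m) (hdeg : ∀ i, (f.coeff i).natDegree ≤ d)
    (htop : (tcoeff d f).natDegree = m - 1)
    (hsep : ((tcoeff d f).map (algebraMap A (FractionRing A))).Separable)
    (hmild : ∀ (a : AlgebraicClosure (FractionRing A))
      (α : Finset (AlgebraicClosure (FractionRing A))),
      (∀ x, x ∈ α ↔ ((f.map (mapRingHom (algebraMap A (FractionRing A)))).map
        (aeval a).toRingHom).IsRoot x) → m ≤ α.card + 1)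
    (b : A[X]) (hb : b ≠ 0) (N : ℕ) :
    ∃ p : ℕ, p.Prime ∧ N < p ∧ ∃ P : Ideal A, P.IsPrime ∧ (p : A) ∈ P ∧
      b.map (Ideal.Quotient.mk P) ≠ 0 ∧
      (cmMatrix p ((m - 1) / 2) (f.map (mapRingHom (Ideal.Quotient.mk P)))).det ≠ 0 := by
  classical
  by_contra hcon
  obtain ⟨N₁, Pf, hPf, hfinP⟩ := exists_primes_family A
  have h2' : ∃ x : A[X], 2 * x = 1 := by
    obtain ⟨x, hx⟩ := h2
    refine ⟨C x, ?_⟩
    have h3 : (2 : A[X]) = C (2 : A) := (map_ofNat C 2).symm
    rw [h3, ← C_mul, hx, C_1]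
  obtain ⟨ψ, hψ⟩ := exists_isPsi h2' hf hfm
  have hinj : Function.Injective (algebraMap A (FractionRing A)) := IsFractionRing.injective _ _
  obtain ⟨c', u, v, hc', huv⟩ := exists_bezout_of_fraction (k := FractionRing A) f
    (exists_bezout_generic (k := FractionRing A) (m := m) (d := d) hm
      (f := f.map (mapRingHom (algebraMap A (FractionRing A))))
      (hf.map _) (by rw [hf.natDegree_map, hfm])
      (fun i => by
        rw [coeff_map, coe_mapRingHom]
        exact natDegree_map_le.trans (hdeg i))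
      (by rw [Core.tcoeff_map, natDegree_map_eq_of_injective hinj, htop])
      (by rw [Core.tcoeff_map]; exact hsep))
  obtain ⟨G, hG⟩ := exists_isGM (Core.derX A) hm hf hfm ψ c' u v huv
  have hc2 : (2 * c' : A[X]) ≠ 0 := mul_ne_zero two_ne_zero hc'
  -- coefficients
  obtain ⟨ib, hib⟩ : ∃ i, b.coeff i ≠ 0 := by
    by_contra h
    push Not at h
    exact hb (Polynomial.ext (by simpa using h))
  obtain ⟨ic, hic⟩ : ∃ i, c'.coeff i ≠ 0 := by
    by_contra h
    push Not at h
    exact hc' (Polynomial.ext (by simpa using h))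
  obtain ⟨M₁, hM₁⟩ := (hfinP _ hib).bddAbove
  obtain ⟨M₂, hM₂⟩ := (hfinP _ hic).bddAbove
  obtain ⟨N₂, hN₂⟩ : ∃ N₂ : ℕ, N ≤ N₂ ∧ N₁ ≤ N₂ ∧ m ≤ N₂ ∧ M₁ ≤ N₂ ∧ M₂ ≤ N₂ :=
    ⟨N + N₁ + m + M₁ + M₂, by omega, by omega, by omega, by omega, by omega⟩
  obtain ⟨hN2a, hN2b, hN2c, hN2d, hN2e⟩ := hN₂
  have hbP : ∀ p : ℕ, p.Prime → N₂ < p → b.coeff ib ∉ Pf p := by
    intro p hp hNp h
    have := hM₁ (show p ∈ {p : ℕ | p.Prime ∧ N₁ < p ∧ b.coeff ib ∈ Pf p} from
      ⟨hp, by omega, h⟩)
    omega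
  have hcP : ∀ p : ℕ, p.Prime → N₂ < p → c'.coeff ic ∉ Pf p := by
    intro p hp hNp h
    have := hM₂ (show p ∈ {p : ℕ | p.Prime ∧ N₁ < p ∧ c'.coeff ic ∈ Pf p} from
      ⟨hp, by omega, h⟩)
    omega
  -- the data for every prime number
  have hdata : ∀ p : {p : ℕ // p.Prime ∧ N₂ < p}, ∃ (K : Type u) (_ : Field K)
      (φ : A[X] →+* K) (DK : Derivation ℤ K K), (∀ x, DK (φ x) = φ (derivative x)) ∧
      (∀ x, φ x = 0 → ∀ i, x.coeff i ∈ Pf p.1) ∧ CharP K p.1 ∧
      (cmMatrix p.1 ((m - 1) / 2) (f.map φ)).det = 0 := by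
    intro p
    obtain ⟨hPp, hpP⟩ := hPf p.1 p.2.1 (by have := p.2.2; omega)
    obtain ⟨K, iK, ι, DK, hι, hDK⟩ := Core.exists_data (Pf p.1)
    have hdet0 : (cmMatrix p.1 ((m - 1) / 2)
        (f.map (mapRingHom (Ideal.Quotient.mk (Pf p.1))))).det = 0 := by
      by_contra hne
      apply hcon
      refine ⟨p.1, p.2.1, by have := p.2.2; omega, Pf p.1, hPp, hpP, ?_, hne⟩
      intro h
      apply hbP p.1 p.2.1 p.2.2
      have h3 := congrArg (fun q => q.coeff ib) h
      simp only [coeff_map, coeff_zero] at h3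
      exact Ideal.Quotient.eq_zero_iff_mem.1 h3
    refine ⟨K, iK, ι.comp (mapRingHom (Ideal.Quotient.mk (Pf p.1))), DK, ?_, ?_, ?_, ?_⟩
    · intro x
      rw [RingHom.comp_apply, RingHom.comp_apply, hDK, coe_mapRingHom, derivative_map]
    · intro x hx i
      rw [RingHom.comp_apply, map_eq_zero_iff _ hι, coe_mapRingHom] at hx
      have h3 := congrArg (fun q => q.coeff i) hx
      simp only [coeff_map, coeff_zero] at h3
      exact Ideal.Quotient.eq_zero_iff_mem.1 h3
    · have h0 : ((p.1 : ℕ) : K) = 0 := by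
        have h3 : ((p.1 : ℕ) : K) =
            (ι.comp (mapRingHom (Ideal.Quotient.mk (Pf p.1)))) (C ((p.1 : ℕ) : A)) := by
          simp
        rw [h3, RingHom.comp_apply, coe_mapRingHom, map_C,
          Ideal.Quotient.eq_zero_iff_mem.2 hpP, C_0, map_zero]
      exact ringChar.of_eq (CharP.ringChar_of_prime_eq_zero p.2.1 h0)
    · rw [← Polynomial.map_map, det_cmMatrix_map, hdet0, map_zero]
  choose K iK φ DK hDK hφ hchar hdet using hdata
  have hinf : Infinite {p : ℕ // p.Prime ∧ N₂ < p} := by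
    have h3 : {p : ℕ | p.Prime ∧ N₂ < p}.Infinite := by
      have h4 := Nat.infinite_setOfPred_prime.sdiff (Set.finite_Iic N₂)
      refine h4.mono ?_
      rintro x ⟨hx1, hx2⟩
      exact ⟨hx1, not_le.1 hx2⟩
    exact Set.infinite_coe_iff.2 h3
  refine no_family hm hd hf hfm hdeg htop hsep hmild hψ hc2 (Core.derX A) (Core.derX_apply A)
    hG c' hc' u v huv K φ DK hDK ?_ ?_ ?_
  · intro a ha
    obtain ⟨ia, hia⟩ : ∃ i, a.coeff i ≠ 0 := by
      by_contra h
      push Not at h
      exact ha (Polynomial.ext (by simpa using h))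
    refine ((hfinP _ hia).preimage (f := fun p : {p : ℕ // p.Prime ∧ N₂ < p} => p.1)
      Subtype.val_injective.injOn).subset ?_
    intro p hp
    exact ⟨p.2.1, lt_of_le_of_lt hN2b p.2.2, hφ p a hp ia⟩
  · intro p n hn hnm h0
    have h3 := (@CharP.cast_eq_zero_iff (K p) _ p.1 (hchar p) n).1 h0
    have h4 := Nat.le_of_dvd hn h3
    have := p.2.2
    omega
  · intro p
    have hfact : Fact p.1.Prime := ⟨p.2.1⟩
    have hch : CharP (K p) p.1 := hchar p
    refine Core.exists_lag hm hf hfm hψ (Core.derX A) (Core.derX_apply A) hG c' u v huv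
      (p := p.1) (by have := p.2.2; omega) (by have := p.2.2; omega) (φ p) (DK p) (hDK p) ?_
      (hdet p)
    intro h0
    exact hcP p.1 p.2.1 p.2.2 (hφ p c' h0 ic)

end MPadcLP
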