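import Mathlib
import Pool.Agent.Lib.MP_adc574_ag_LP.Core

/-! # From generic ordinarity to closed points -/

set_option autoImplicit false

namespace MPadcLP

open Polynomial MPadc574

private theorem Final_jacobson_int : IsJacobsonRing ℤ := by
  rw [isJacobsonRing_iff_prime_eq]
  intro P hP
  by_cases h : P = ⊥
  · subst h
    rw [eq_bot_iff]
    intro x hx
    rw [Ideal.mem_bot]
    by_contra hx0
    obtain ⟨p, hpx, hp⟩ := Nat.exists_infinite_primes (x.natAbs + 1)
    have hmax : (Ideal.span {(p : ℤ)}).IsMaximal := by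
      apply PrincipalIdealRing.isMaximal_of_irreducible
      exact (Nat.prime_iff_prime_int.1 hp).irreducible
    rw [Ideal.jacobson, Ideal.mem_sInf] at hx
    have h1 := hx ⟨bot_le, hmax⟩
    rw [Ideal.mem_span_singleton] at h1
    have h2 := Nat.le_of_dvd (Int.natAbs_pos.2 hx0) (Int.natCast_dvd.1 h1)
    omega
  · have hmax : P.IsMaximal := hP.isMaximal h
    exact Ideal.jacobson_eq_self_of_isMaximal

private theorem Final_charP {R : Type*} [CommRing R] [Nontrivial R] {p : ℕ} (hp : p.Prime)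
    (h : (p : R) = 0) : CharP R p := by
  have h1 : ringChar R ∣ p := (ringChar.spec R p).1 h
  rcases (Nat.dvd_prime hp).1 h1 with h2 | h2
  · exfalso
    have h3 : ((1 : ℕ) : R) = 0 := (ringChar.spec R 1).2 (by rw [h2])
    rw [Nat.cast_one] at h3
    exact one_ne_zero h3
  · exact ringChar.of_eq h2

private theorem Final_sep {F S : Type*} [CommRing F] (hF : IsField F) [CommRing S] [Nontrivial S]
    (g : F →+* S) (q : F[X]) (h : (q.map g).Separable) : q.Separable := by
  let _ : Field F := hF.toField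
  exact (separable_map g).1 h

private theorem Final_tcoeff_map {R S : Type*} [CommRing R] [CommRing S] (φ : R →+* S) (d : ℕ)
    (f : R[X][X]) : tcoeff d (f.map (mapRingHom φ)) = (tcoeff d f).map φ := by
  ext i
  rw [coeff_tcoeff, coeff_map, coeff_map, coeff_tcoeff, coe_mapRingHom, coeff_map]

private theorem Final_bezout {A₀ : Type*} [CommRing A₀] [IsDomain A₀] [CharZero A₀] {m d : ℕ}
    (hm : 3 ≤ m) {F₀ : A₀[X][X]} (hF : F₀.Monic) (hFm : F₀.natDegree = m)
    (hdeg : ∀ i, (F₀.coeff i).natDegree ≤ d) (htop : (tcoeff d F₀).natDegree = m - 1)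
    (hsep : ((tcoeff d F₀).map (algebraMap A₀ (FractionRing A₀))).Separable) :
    ∃ (c : A₀[X]) (u v : A₀[X][X]), c ≠ 0 ∧ u * F₀ + v * derivative F₀ = C c := by
  have hinj : Function.Injective (algebraMap A₀ (FractionRing A₀)) :=
    IsFractionRing.injective A₀ (FractionRing A₀)
  have hch : CharZero (FractionRing A₀) := charZero_of_injective_algebraMap hinj
  refine exists_bezout_of_fraction (k := FractionRing A₀) F₀ ?_
  refine exists_bezout_generic (m := m) (d := d) hm (hF.map _) ?_ ?_ ?_ ?_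
  · rw [hF.natDegree_map, hFm]
  · intro i
    rw [coeff_map, coe_mapRingHom]
    exact natDegree_map_le.trans (hdeg i)
  · rw [Final_tcoeff_map, natDegree_map_eq_of_injective hinj, htop]
  · rw [Final_tcoeff_map]
    exact hsep

/-- The reduction step: a maximal ideal of `A'` gives the closed point of `Spec A`. -/
private theorem Final_point {A A' B : Type*} [CommRing A] [CommRing A'] [CommRing B]
    [Algebra.FiniteType ℤ A'] (hmax : ∀ M' : Ideal A', M'.IsMaximal → ∀ i : A →+* A',
      (M'.comap i).IsMaximal) (i : A →+* A') (θ : B →+* A') (f : A[X]) (F : B[X])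
    (hf : f.map i = F.map θ) (c₀ : B) (u v : B[X]) (huv : u * F + v * derivative F = C c₀)
    (b : A) {p g : ℕ} (hp : p.Prime) (M' : Ideal A') (hM' : M'.IsMaximal) (hpM : (p : A') ∈ M')
    (hb : i b ∉ M') (hc : θ c₀ ∉ M') (hdet : θ (cmMatrix p g F).det ∉ M') :
    ∃ M : Ideal A, M.IsMaximal ∧ b ∉ M ∧ CharP (A ⧸ M) p ∧
      (f.map (Ideal.Quotient.mk M)).Separable ∧
      (cmMatrix p g (f.map (Ideal.Quotient.mk M))).det ≠ 0 := by
  have hM : (M'.comap i).IsMaximal := hmax M' hM' i
  have hF : IsField (A ⧸ M'.comap i) := (Ideal.Quotient.maximal_ideal_iff_isField_quotient _).1 hM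
  have hF' : IsField (A' ⧸ M') := (Ideal.Quotient.maximal_ideal_iff_isField_quotient _).1 hM'
  have hn : Nontrivial (A ⧸ M'.comap i) := hF.nontrivial
  have hn' : Nontrivial (A' ⧸ M') := hF'.nontrivial
  obtain ⟨φ, hφ⟩ : ∃ φ : (A ⧸ M'.comap i) →+* (A' ⧸ M'),
      φ.comp (Ideal.Quotient.mk _) = (Ideal.Quotient.mk M').comp i :=
    ⟨Ideal.quotientMap M' i le_rfl, by
      ext x
      simp⟩
  have hmap : (f.map (Ideal.Quotient.mk (M'.comap i))).map φ =
      F.map ((Ideal.Quotient.mk M').comp θ) := by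
    rw [Polynomial.map_map, hφ, ← Polynomial.map_map, hf, Polynomial.map_map]
  refine ⟨M'.comap i, hM, hb, ?_, ?_, ?_⟩
  · refine Final_charP hp ?_
    rw [← map_natCast (Ideal.Quotient.mk (M'.comap i)), Ideal.Quotient.eq_zero_iff_mem,
      Ideal.mem_comap, map_natCast]
    exact hpM
  · refine Final_sep hF φ _ ?_
    rw [hmap]
    have h1 := congrArg (Polynomial.map ((Ideal.Quotient.mk M').comp θ)) huv
    rw [Polynomial.map_add, Polynomial.map_mul, Polynomial.map_mul, ← derivative_map, map_C] at h1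
    have h2 : ((Ideal.Quotient.mk M').comp θ) c₀ ≠ 0 := by
      rw [RingHom.comp_apply, Ne, Ideal.Quotient.eq_zero_iff_mem]
      exact hc
    obtain ⟨e, he⟩ := hF'.mul_inv_cancel h2
    rw [separable_def]
    refine ⟨C e * u.map ((Ideal.Quotient.mk M').comp θ), C e * v.map ((Ideal.Quotient.mk M').comp θ), ?_⟩
    rw [mul_assoc, mul_assoc, ← mul_add, h1, ← C_mul, mul_comm e, he, C_1]
  · intro h0
    apply hdet
    rw [← Ideal.Quotient.eq_zero_iff_mem]
    have h1 : φ (cmMatrix p g (f.map (Ideal.Quotient.mk (M'.comap i)))).det = 0 := by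
      rw [h0, map_zero]
    rw [← det_cmMatrix_map, hmap, det_cmMatrix_map] at h1
    exact h1

/-- Closed points of `Spec A` at which the reduction of `f = F₀(x, t)` is separable and has an
invertible Cartier–Manin matrix, outside of the zero set of a given `b ≠ 0`.

Proof. Let `A' ⊆ k` be the subalgebra generated by `A` and the image of `θ` (finitely generated,
`A₀` and `A` are), `θ' : A₀[t] → A'`, injective and of finite type. Let `c₀ ≠ 0`, `u`, `v` over
`A₀[t]` with `u F₀ + v F₀' = c₀` (`exists_bezout_generic`, `exists_bezout_of_fraction`). By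
`exists_prime_lift` for `θ'` and the element `b θ'(c₀)` there is `h ≠ 0` in `A₀[t]` such that every
prime `q` of `A₀[t]` with `h ∉ q` is the contraction of a prime `Q` of `A'` with
`b θ'(c₀) ∉ Q`. Take `p > 2`, `P` from `core` with `b := h`, and `q` the kernel of
`A₀[t] → (A₀ / P)[t]`, so `h ∉ q`, `p ∈ q`, and the Cartier–Manin determinant `δ` of `F₀`
(`det_cmMatrix_map`) is not in `q`. So `p ∈ Q` and `b θ'(c₀ δ) ∉ Q`. The ring `A'` is a Jacobson
ring (`isJacobsonRing_of_finiteType`), so there is a maximal ideal `M' ⊇ Q` with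
`b θ'(c₀ δ) ∉ M'`. Let `M` be its contraction to `A`, a maximal ideal (`isMaximal_comap_int`). The
reductions of `f` modulo `M` and modulo `M'` correspond under the injection `A / M → A' / M'`;
`A' / M'` has characteristic `p` (`charP` from `p = 0`), `c₀ ∉ M'` gives separability
(`Polynomial.separable_map`), and the determinant is not zero. -/
theorem final_of_model {k : Type*} [Field k] [CharZero k] (A : Subalgebra ℤ k) (hA : A.FG)
    {A₀ : Type*} [CommRing A₀] [IsDomain A₀] [CharZero A₀] [Algebra.FiniteType ℤ A₀]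
    (h2 : ∃ x : A₀, 2 * x = 1) (θ : A₀[X] →+* k) (hθ : Function.Injective θ) {m d : ℕ}
    (hm : 3 ≤ m) (hd : Odd d) {F₀ : A₀[X][X]} (hF : F₀.Monic) (hFm : F₀.natDegree = m)
    (hdeg : ∀ i, (F₀.coeff i).natDegree ≤ d) (htop : (tcoeff d F₀).natDegree = m - 1)
    (hsep : ((tcoeff d F₀).map (algebraMap A₀ (FractionRing A₀))).Separable)
    (hmild : ∀ (a : AlgebraicClosure (FractionRing A₀))
      (α : Finset (AlgebraicClosure (FractionRing A₀))),
      (∀ x, x ∈ α ↔ ((F₀.map (mapRingHom (algebraMap A₀ (FractionRing A₀)))).map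
        (aeval a).toRingHom).IsRoot x) → m ≤ α.card + 1)
    (f : A[X]) (hf : f.map (algebraMap A k) = F₀.map θ) (b : A) (hb : b ≠ 0) :
    ∃ (p : ℕ) (M : Ideal A), p.Prime ∧ m < p ∧ M.IsMaximal ∧ b ∉ M ∧ CharP (A ⧸ M) p ∧
      (f.map (Ideal.Quotient.mk M)).Separable ∧
      (cmMatrix p ((m - 1) / 2) (f.map (Ideal.Quotient.mk M))).det ≠ 0 := by
  classical
  -- the subalgebra `A'`
  have hft0 : Algebra.FiniteType ℤ A₀[X] :=
    Algebra.FiniteType.trans (inferInstance : Algebra.FiniteType ℤ A₀) inferInstance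
  have hnoeth : IsNoetherianRing A₀[X] := Algebra.FiniteType.isNoetherianRing ℤ A₀[X]
  obtain ⟨A', hA'd⟩ : ∃ A' : Subalgebra ℤ k, A' = A ⊔ (θ.toIntAlgHom : A₀[X] →ₐ[ℤ] k).range :=
    ⟨_, rfl⟩
  have hrange : ((θ.toIntAlgHom : A₀[X] →ₐ[ℤ] k).range).FG := by
    rw [← Algebra.map_top]
    exact Subalgebra.FG.map _ hft0.out
  have hA' : A'.FG := by
    rw [hA'd]
    exact hA.sup hrange
  have hft : Algebra.FiniteType ℤ A' := A'.fg_iff_finiteType.1 hA'
  have hle : A ≤ A' := by
    rw [hA'd]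
    exact le_sup_left
  have hθA : ∀ x, θ x ∈ A' := by
    intro x
    rw [hA'd]
    exact (le_sup_right : (θ.toIntAlgHom : A₀[X] →ₐ[ℤ] k).range ≤
      A ⊔ (θ.toIntAlgHom : A₀[X] →ₐ[ℤ] k).range) ⟨x, rfl⟩
  obtain ⟨i, hi⟩ : ∃ i : A →+* A', ∀ x, ((i x : A') : k) = (x : k) :=
    ⟨(Subalgebra.inclusion hle).toRingHom, fun x => rfl⟩
  obtain ⟨θ', hθ'⟩ : ∃ θ' : A₀[X] →+* A', ∀ x, ((θ' x : A') : k) = θ x :=
    ⟨θ.codRestrict A'.toSubring hθA, fun x => rfl⟩
  have hθ'inj : Function.Injective θ' := by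
    intro x y hxy
    apply hθ
    rw [← hθ', ← hθ', hxy]
  have hiinj : Function.Injective i := by
    intro x y hxy
    apply Subtype.ext
    rw [← hi, ← hi, hxy]
  have hfin : θ'.FiniteType := by
    have h1 : (θ'.comp (algebraMap ℤ A₀[X])).FiniteType := by
      have h2 : θ'.comp (algebraMap ℤ A₀[X]) = algebraMap ℤ A' := RingHom.ext_int _ _
      rw [h2]
      exact RingHom.finiteType_algebraMap.2 hft
    exact RingHom.FiniteType.of_comp_finiteType h1
  -- the reduction of the polynomial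
  have hff : f.map i = F₀.map θ' := by
    have hinj : Function.Injective (algebraMap A' k) := Subtype.val_injective
    apply Polynomial.map_injective _ hinj
    rw [Polynomial.map_map, Polynomial.map_map]
    have e1 : (algebraMap A' k).comp i = algebraMap A k := RingHom.ext fun x => hi x
    have e2 : (algebraMap A' k).comp θ' = θ := RingHom.ext fun x => hθ' x
    rw [e1, e2, hf]
  obtain ⟨c₀, u, v, hc₀, huv⟩ := Final_bezout hm hF hFm hdeg htop hsep
  have hb' : i b * θ' c₀ ≠ 0 := by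
    refine mul_ne_zero ?_ ?_
    · rw [Ne, map_eq_zero_iff _ hiinj]
      exact hb
    · rw [Ne, map_eq_zero_iff _ hθ'inj]
      exact hc₀
  obtain ⟨h, hh, hlift⟩ := exists_prime_lift θ' hθ'inj hfin (i b * θ' c₀) hb'
  obtain ⟨p, hp, hmp, P, hP, hpP, hhP, hdetP⟩ :=
    core h2 hm hd hF hFm hdeg htop hsep hmild h hh m
  have hPd : IsDomain (A₀ ⧸ P) := Ideal.Quotient.isDomain P
  obtain ⟨Q, hQ, hbQ, hQc⟩ := hlift (RingHom.ker (mapRingHom (Ideal.Quotient.mk P)))
    (RingHom.ker_isPrime _) (by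
      rw [RingHom.mem_ker, coe_mapRingHom]
      exact hhP)
  have hpQ : (p : A') ∈ Q := by
    have h1 : (p : A₀[X]) ∈ Q.comap θ' := by
      rw [hQc, RingHom.mem_ker, map_natCast]
      have h3 : ((p : (A₀ ⧸ P)) : A₀ ⧸ P) = 0 := by
        rw [← map_natCast (Ideal.Quotient.mk P), Ideal.Quotient.eq_zero_iff_mem]
        exact hpP
      rw [← Polynomial.C_eq_natCast, h3, map_zero]
    rw [Ideal.mem_comap, map_natCast] at h1
    exact h1
  have hdQ : θ' (cmMatrix p ((m - 1) / 2) F₀).det ∉ Q := by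
    rw [← Ideal.mem_comap, hQc, RingHom.mem_ker, ← det_cmMatrix_map]
    exact hdetP
  have hall : i b * θ' c₀ * θ' (cmMatrix p ((m - 1) / 2) F₀).det ∉ Q := by
    intro h1
    rcases hQ.mem_or_mem h1 with h3 | h3
    · exact hbQ h3
    · exact hdQ h3
  have hjint := Final_jacobson_int
  have hjac : IsJacobsonRing A' := isJacobsonRing_of_finiteType (A := ℤ)
  have hjac2 : Q.jacobson = Q := hjac.out hQ.isRadical
  rw [← hjac2, Ideal.jacobson, Ideal.mem_sInf] at hall
  push Not at hall
  obtain ⟨M', ⟨hQM, hM'⟩, hMall⟩ := hall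
  obtain ⟨M, hM, hbM, hchar, hsepM, hdetM⟩ := Final_point
    (fun M' hM' i => by
      have := hM'
      exact isMaximal_comap_int i M') i θ' f F₀ hff c₀ u v huv b
    (g := (m - 1) / 2) hp M' hM' (hQM hpQ)
    (fun h1 => hMall (M'.mul_mem_right _ (M'.mul_mem_right _ h1)))
    (fun h1 => hMall (M'.mul_mem_right _ (M'.mul_mem_left _ h1)))
    (fun h1 => hMall (M'.mul_mem_left _ h1))
  exact ⟨p, M, hp, hmp, hM, hbM, hchar, hsepM, hdetM⟩

end MPadcLP
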