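import Mathlib
import Pool.Agent.Lib.MP_adc574_ag_LP.Infinity

/-! # A finitely generated model of the pencil -/

set_option autoImplicit false

namespace MPadcLP

open Polynomial

/-- Polynomials with coefficients in the image of an injective map lift. -/
private theorem Model.lift2 {A B : Type*} [CommRing A] [CommRing B] (ι : A →+* B) (F : B[X][X])
    (h : ∀ i j, (F.coeff i).coeff j ∈ Set.range ι) :
    ∃ F₀ : A[X][X], F₀.map (mapRingHom ι) = F := by
  have h1 : F ∈ lifts (mapRingHom ι) := by
    rw [lifts_iff_coeff_lifts]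
    intro i
    have h2 : F.coeff i ∈ lifts ι := by
      rw [lifts_iff_coeff_lifts]
      exact h i
    obtain ⟨q, hq⟩ := (mem_lifts _).mp h2
    exact ⟨q, hq⟩
  exact (mem_lifts _).mp h1

/-- The coefficients of `t ^ d` commute with maps. -/
private theorem Model.tcoeff_map {A B : Type*} [CommRing A] [CommRing B] (ι : A →+* B) (d : ℕ)
    (F₀ : A[X][X]) : (tcoeff d F₀).map ι = tcoeff d (F₀.map (mapRingHom ι)) := by
  ext i
  rw [coeff_map, coeff_tcoeff, coeff_tcoeff, coeff_map, coe_mapRingHom, coeff_map]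

/-- The number of roots does not grow under a map of algebraically closed fields. -/
private theorem Model.roots_card {K L : Type*} [Field K] [IsAlgClosed K] [Field L] (j : K →+* L)
    (P : K[X]) (hP : P ≠ 0) (α : Finset K) (hα : ∀ x, x ∈ α ↔ P.IsRoot x) :
    {x | (P.map j).IsRoot x}.ncard ≤ α.card := by
  classical
  have hsub : {x | (P.map j).IsRoot x} ⊆ ((α.image j : Finset L) : Set L) := by
    intro x hx
    have hx1 : (P.map j).IsRoot x := hx
    have hx2 : x ∈ (P.map j).roots := (mem_roots (map_ne_zero hP)).mpr hx1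
    rw [(IsAlgClosed.splits P).roots_map, Multiset.mem_map] at hx2
    obtain ⟨y, hy, hyx⟩ := hx2
    have hy1 : P.IsRoot y := (mem_roots hP).mp hy
    exact Finset.mem_coe.mpr (Finset.mem_image.mpr ⟨y, (hα y).mpr hy1, hyx⟩)
  calc {x | (P.map j).IsRoot x}.ncard ≤ ((α.image j : Finset L) : Set L).ncard :=
        Set.ncard_le_ncard hsub (Finset.finite_toSet _)
    _ = (α.image j).card := Set.ncard_coe_finset _
    _ ≤ α.card := Finset.card_image_le

/-- Extension of a map of fields to algebraic closures. -/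
private theorem Model.ext_closure {K L : Type*} [Field K] [Field L] (i : K →+* L) :
    ∃ j : AlgebraicClosure K →+* AlgebraicClosure L, ∀ x : K,
      j (algebraMap K (AlgebraicClosure K) x) = algebraMap L (AlgebraicClosure L) (i x) := by
  letI : Algebra K (AlgebraicClosure L) := ((algebraMap L (AlgebraicClosure L)).comp i).toAlgebra
  let j : AlgebraicClosure K →ₐ[K] AlgebraicClosure L := IsAlgClosed.lift
  exact ⟨j.toRingHom, fun x => j.commutes x⟩

/-- The pencil is defined over a finitely generated subring `A₀` of `k₀` containing `1 / 2`.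

Proof. `A₀` is the subring of `k₀` generated by `1 / 2` and the (finitely many) coefficients of the
coefficients of `F`. Lift `F` to `F₀ ∈ A₀[t][x]` (`Polynomial.lifts`, coefficientwise; the lift has
the same coefficients, so it is monic, of the same degrees, because `A₀ → k₀` is injective). `θ` is
`t ↦ t`, injective because `t` is transcendental over `k₀`. Mild fibres: let
`κ = FractionRing A₀ → k₀`, and `j : AlgebraicClosure κ → AlgebraicClosure k₀` over it
(`IsAlgClosed.lift`). For `a` in `AlgebraicClosure κ` the polynomial `F(x, a)` splits over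
`AlgebraicClosure κ`, so `j` maps its set of roots onto the set of roots of `F(x, j a)`. -/
theorem exists_model {k : Type*} [Field k] [CharZero k] (k₀ : Subfield k) (t : k)
    (ht : Transcendental k₀ t) (F : k₀[X][X]) (hF : F.Monic) (hm : 3 ≤ F.natDegree) (d : ℕ)
    (hdeg : ∀ i, (F.coeff i).natDegree ≤ d)
    (htop : (tcoeff d F).natDegree = F.natDegree - 1) (hsep : (tcoeff d F).Separable)
    (hmild : ∀ τ : AlgebraicClosure k₀, F.natDegree ≤
      {x | (F.map (aeval τ : k₀[X] →ₐ[k₀] AlgebraicClosure k₀).toRingHom).IsRoot x}.ncard + 1) :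
    ∃ (A₀ : Subalgebra ℤ k₀) (F₀ : A₀[X][X]) (θ : A₀[X] →+* k), A₀.FG ∧
      (∃ x : A₀, 2 * x = 1) ∧ Function.Injective θ ∧ F₀.Monic ∧
      F₀.natDegree = F.natDegree ∧ (∀ i, (F₀.coeff i).natDegree ≤ d) ∧
      (tcoeff d F₀).natDegree = F.natDegree - 1 ∧
      ((tcoeff d F₀).map (algebraMap A₀ (FractionRing A₀))).Separable ∧
      (∀ (a : AlgebraicClosure (FractionRing A₀))
        (α : Finset (AlgebraicClosure (FractionRing A₀))),
        (∀ x, x ∈ α ↔ ((F₀.map (mapRingHom (algebraMap A₀ (FractionRing A₀)))).map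
          (aeval a).toRingHom).IsRoot x) → F.natDegree ≤ α.card + 1) ∧
      F₀.map θ = F.map (aeval t : k₀[X] →ₐ[k₀] k).toRingHom := by
  classical
  set T : Finset k₀ := insert (1 / 2) (F.support.biUnion fun i => (F.coeff i).coeffs) with hT
  set A₀ : Subalgebra ℤ k₀ := Algebra.adjoin ℤ (T : Set k₀) with hA₀
  have hFG : A₀.FG := ⟨T, rfl⟩
  have hmem : ∀ i j, (F.coeff i).coeff j ∈ A₀ := by
    intro i j
    by_cases hz : (F.coeff i).coeff j = 0
    · rw [hz]; exact zero_mem _
    · have hi : F.coeff i ≠ 0 := fun h => hz (by rw [h, coeff_zero])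
      refine Algebra.subset_adjoin (Finset.mem_coe.mpr ?_)
      refine Finset.mem_insert_of_mem (Finset.mem_biUnion.mpr ⟨i, mem_support_iff.mpr hi, ?_⟩)
      exact mem_coeffs_iff.mpr ⟨j, mem_support_iff.mpr hz, rfl⟩
  have h2k : (2 : k₀) ≠ 0 := by
    intro h
    have h' : ((2 : k₀) : k) = ((0 : k₀) : k) := by rw [h]
    have h2 : (2 : k) = 0 := by simpa using h'
    exact two_ne_zero h2
  set ι : A₀ →+* k₀ := A₀.val.toRingHom with hι
  have hιv : ∀ x : A₀, ι x = (x : k₀) := fun x => rfl
  have hιi : Function.Injective ι := Subtype.val_injective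
  have hιX : Function.Injective (mapRingHom ι) := map_injective ι hιi
  obtain ⟨F₀, hF₀⟩ := Model.lift2 ι F (fun i j => ⟨⟨_, hmem i j⟩, rfl⟩)
  have hc : ∀ i, (F₀.coeff i).map ι = F.coeff i := by
    intro i
    rw [← hF₀, coeff_map, coe_mapRingHom]
  have hF₀m : F₀.Monic := monic_of_injective hιX (by rw [hF₀]; exact hF)
  have hF₀d : F₀.natDegree = F.natDegree := by
    rw [← hF₀, natDegree_map_eq_of_injective hιX]
  have htc : (tcoeff d F₀).map ι = tcoeff d F := by rw [Model.tcoeff_map, hF₀]
  set θ : A₀[X] →+* k := (aeval t : k₀[X] →ₐ[k₀] k).toRingHom.comp (mapRingHom ι) with hθ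
  have hθi : Function.Injective θ := by
    have h1 : Function.Injective (aeval t : k₀[X] →ₐ[k₀] k) := transcendental_iff_injective.mp ht
    exact h1.comp hιX
  set j₀ : FractionRing A₀ →+* k₀ := IsFractionRing.lift (A := A₀) (K := FractionRing A₀)
    (g := ι) hιi with hj₀
  have hj₀a : ∀ x : A₀, j₀ (algebraMap A₀ (FractionRing A₀) x) = ι x := fun x =>
    IsFractionRing.lift_algebraMap hιi x
  refine ⟨A₀, F₀, θ, hFG, ?_, hθi, hF₀m, hF₀d, ?_, ?_, ?_, ?_, ?_⟩
  · refine ⟨⟨1 / 2, Algebra.subset_adjoin (Finset.mem_coe.mpr (Finset.mem_insert_self _ _))⟩, ?_⟩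
    apply hιi
    rw [map_mul, map_one, map_ofNat, hιv]
    exact mul_one_div_cancel h2k
  · intro i
    rw [← natDegree_map_eq_of_injective hιi, hc]
    exact hdeg i
  · rw [← htop, ← htc, natDegree_map_eq_of_injective hιi]
  · rw [← separable_map j₀, map_map]
    have h1 : j₀.comp (algebraMap A₀ (FractionRing A₀)) = ι := RingHom.ext hj₀a
    rw [h1, htc]
    exact hsep
  · intro a α hα
    obtain ⟨j, hj⟩ := Model.ext_closure j₀
    set P : (AlgebraicClosure (FractionRing A₀))[X] :=
      (F₀.map (mapRingHom (algebraMap A₀ (FractionRing A₀)))).map (aeval a).toRingHom with hP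
    have hPm : P.Monic := (hF₀m.map _).map _
    have hcomp : (j.comp ((aeval a).toRingHom.comp
        (mapRingHom (algebraMap A₀ (FractionRing A₀))))) =
        ((aeval (j a) : k₀[X] →ₐ[k₀] AlgebraicClosure k₀).toRingHom.comp (mapRingHom ι)) := by
      apply Polynomial.ringHom_ext
      · intro c
        simp only [RingHom.comp_apply, coe_mapRingHom, map_C, AlgHom.toRingHom_eq_coe,
          RingHom.coe_coe, aeval_C]
        rw [hj, hj₀a]
      · simp only [RingHom.comp_apply, coe_mapRingHom, map_X, AlgHom.toRingHom_eq_coe,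
          RingHom.coe_coe, aeval_X]
    have hPj : P.map j = F.map (aeval (j a) : k₀[X] →ₐ[k₀] AlgebraicClosure k₀).toRingHom := by
      rw [hP, map_map, map_map, ← hF₀, map_map]
      rw [← hcomp]
      rfl
    have h1 := hmild (j a)
    rw [← hPj] at h1
    have h2 := Model.roots_card j P hPm.ne_zero α hα
    omega
  · rw [← hF₀, map_map]

end MPadcLP
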